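import Pool.Agent.H.MP_cba12a_lc.X10.ParI

/-!
The numerical hypotheses `Par10` hold for our choice of the parameters.
-/

namespace Pool.Agent.H.MP_cba12a_lc

variable {t L n m a : ℕ}

theorem exps10 (t L : ℕ) : cH10 t * L = 2 * (cN10 t * L) + t * L + 5 * L ∧
    cB10 t * L = 2 * (cN10 t * L) + 6 * (t * L) + 14 * L ∧
    cE10 t * L = 2 * (cN10 t * L) + 10 * (t * L) + 19 * L ∧ ll10 t L = 4 * (t * L) + 4 * L ∧
    (t + 3) * L = t * L + 3 * L ∧ (t + 2) * L = t * L + 2 * L ∧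
    (5 * t + 7) * L = 5 * (t * L) + 7 * L ∧ 3 * (t + 1) * L = 3 * (t * L) + 3 * L := by
  unfold cE10 cB10 cH10 ll10
  refine ⟨by ring, by ring, by ring, by ring, by ring, by ring, by ring, by ring⟩

theorem hp10' {i j k : ℕ} {c : ℝ} (hc : c ≤ 2 ^ i) (h : i + k ≤ j) :
    c * (1 / 2) ^ j ≤ (1 / 2) ^ k :=
  (mul_le_mul_of_nonneg_right hc (by positivity)).trans (hp10 h)

theorem log_tau10 (k : ℕ) : Real.log (1 / ((1 / 2 : ℝ) ^ k)) = k * Real.log 2 := by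
  rw [one_div_pow, one_div_one_div, Real.log_pow]

theorem log_tau_le10 (k : ℕ) : Real.log (1 / ((1 / 2 : ℝ) ^ k)) ≤ k := by
  rw [one_div_pow, one_div_one_div]
  exact log_two_pow_le10 k

/-- the error terms -/
theorem err10 (hB : Big10 t L) (ha0 : 0 < a) (hn : n + 1 ≤ 2 ^ L) (ha : a ≤ 2 ^ L) :
    ((n : ℝ) + 1) ^ (t + 1) * ((1 / 2) ^ ((5 * t + 7) * L) * 2 ^ ll10 t L) +
      (1 / 2) ^ (3 * (t + 1) * L) +
      ((n : ℝ) + 1) ^ t * (1 / ((2 ^ ((t + 2) * L) : ℕ) : ℝ) + (1 / 2) ^ (cE10 t * L)) +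
      ((2 ^ (cH10 t * L) : ℕ) : ℝ) * (1 / ((2 ^ (cB10 t * L) : ℕ) : ℝ) +
        (1 / 2) ^ (cE10 t * L)) ≤ 1 / (2 * (a : ℝ)) := by
  have hs0 := hB.s0
  have hL : Nat.sqrt L ≤ L := Nat.sqrt_le_self L
  obtain ⟨e1, e2, e3, e4, e5, e6, e7, e8⟩ := exps10 t L
  have hnr : ((n : ℝ) + 1) ≤ 2 ^ L := by exact_mod_cast hn
  have har : (a : ℝ) ≤ 2 ^ L := by exact_mod_cast ha
  have ha0r : (0 : ℝ) < a := by exact_mod_cast ha0
  have hn1 : ((n : ℝ) + 1) ^ (t + 1) ≤ 2 ^ (L * (t + 1)) := by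
    rw [pow_mul]
    exact pow_le_pow_left₀ (by positivity) hnr _
  have hn2 : ((n : ℝ) + 1) ^ t ≤ 2 ^ (L * t) := by
    rw [pow_mul]
    exact pow_le_pow_left₀ (by positivity) hnr _
  have f1 : L * (t + 1) = t * L + L := by ring
  have f2 : L * t = t * L := by ring
  have g1 : ((n : ℝ) + 1) ^ (t + 1) * ((1 / 2) ^ ((5 * t + 7) * L) * 2 ^ ll10 t L) ≤
      (1 / 2) ^ (L + 4) := by
    calc ((n : ℝ) + 1) ^ (t + 1) * ((1 / 2) ^ ((5 * t + 7) * L) * 2 ^ ll10 t L)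
        ≤ 2 ^ (L * (t + 1)) * ((1 / 2) ^ ((5 * t + 7) * L) * 2 ^ ll10 t L) :=
          mul_le_mul_of_nonneg_right hn1 (by positivity)
      _ = 2 ^ (L * (t + 1) + ll10 t L) * (1 / 2) ^ ((5 * t + 7) * L) := by rw [pow_add]; ring
      _ ≤ _ := hp10 (by omega)
  have g2 : ((1 : ℝ) / 2) ^ (3 * (t + 1) * L) ≤ (1 / 2) ^ (L + 4) := half_anti (by omega)
  have g3 : ((n : ℝ) + 1) ^ t * (1 / ((2 ^ ((t + 2) * L) : ℕ) : ℝ)) ≤ (1 / 2) ^ (L + 4) := by
    push_cast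
    rw [← one_div_pow]
    exact hp10' hn2 (by omega)
  have g4 : ((n : ℝ) + 1) ^ t * (1 / 2) ^ (cE10 t * L) ≤ (1 / 2) ^ (L + 4) :=
    hp10' hn2 (by omega)
  have g5 : ((2 ^ (cH10 t * L) : ℕ) : ℝ) * (1 / ((2 ^ (cB10 t * L) : ℕ) : ℝ)) ≤
      (1 / 2) ^ (L + 4) := by
    push_cast
    rw [← one_div_pow]
    exact hp10 (by omega)
  have g6 : ((2 ^ (cH10 t * L) : ℕ) : ℝ) * (1 / 2) ^ (cE10 t * L) ≤ (1 / 2) ^ (L + 4) := by
    push_cast
    exact hp10 (by omega)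
  have g7 : 8 * ((1 : ℝ) / 2) ^ (L + 4) ≤ 1 / (2 * (a : ℝ)) := by
    have h1 : 8 * ((1 : ℝ) / 2) ^ (L + 4) = 1 / (2 * 2 ^ L) := by
      rw [pow_add, one_div_pow, one_div_pow]
      field_simp
      norm_num
    rw [h1]
    exact one_div_le_one_div_of_le (by positivity) (by linarith)
  have h0 : (0 : ℝ) ≤ (1 / 2) ^ (L + 4) := by positivity
  rw [mul_add (((n : ℝ) + 1) ^ t), mul_add (((2 ^ (cH10 t * L) : ℕ) : ℝ))]
  linarith

/-- **The choice of the parameters.** -/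
theorem par10_inst (ht : 1 ≤ t) (hB : Big10 t L) (ha0 : 0 < a) (hn : n + 1 ≤ 2 ^ L)
    (ha : a ≤ 2 ^ L) :
    Par10 a t n (2 ^ (cN10 t * L)) (ll10 t L) (2 ^ ((t + 2) * L)) (2 ^ (cB10 t * L))
      (2 ^ ((t + 2) * L)) (2 ^ (cH10 t * L)) (256 * t * Nat.sqrt L) (Pe10 t L) (aa10 t L)
      (Px10 t L) ((1 / 2) ^ ((t + 3) * L)) ((1 / 2) ^ (cE10 t * L)) ((1 / 2) ^ (cE10 t * L))
      ((1 / 2) ^ ((5 * t + 7) * L)) ((1 / 2) ^ (3 * (t + 1) * L)) (Mm10 t L)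
      ((Pe10 t L : ℝ) ^ (t + 1)) (Qq10 t L) := by
  have hs0 := hB.s0
  have hL : Nat.sqrt L ≤ L := Nat.sqrt_le_self L
  obtain ⟨e1, e2, e3, e4, e5, e6, e7, e8⟩ := exps10 t L
  have f1 : L * (t + 1) = t * L + L := by ring
  have hnt : (n + 1) ^ (t + 1) ≤ 2 ^ (L * (t + 1)) := by
    rw [pow_mul]
    exact Nat.pow_le_pow_left hn _
  have hta : ((t : ℝ)) * 2 ^ t ≤ 2 ^ (2 * t) := by
    have h1 : (t : ℝ) ≤ 2 ^ t := by exact_mod_cast Nat.lt_two_pow_self.le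
    calc (t : ℝ) * 2 ^ t ≤ 2 ^ t * 2 ^ t := mul_le_mul_of_nonneg_right h1 (by positivity)
      _ = _ := by rw [← pow_add]; congr 1; ring
  have hqt : ((1 : ℝ) / 2) ^ ll10 t L * ((1 / 2) ^ ((t + 3) * L) / 4) =
      (1 / 2) ^ (ll10 t L + (t + 3) * L + 2) := by
    rw [pow_add, pow_add]; ring
  refine
    { num := num10_inst ht hB hn
      a_pos := ha0
      A_pos := by positivity
      B_pos := by positivity
      tℓ := by rw [e4]; nlinarith
      m0ℓ := ?_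
      η_nonneg := by positivity
      ι_nonneg := by positivity
      cap := ?_
      ext := fun m _ => ext10_num
      chain1 := fun m hm _ => chain1_10 ht hB hm
      chain2 := fun m hm hmℓ => chain2_10 ht hB hm hmℓ
      aa_pos := fun m _ _ => Nat.le_add_left 1 _
      aa_le := ?_
      ηB := ?_
      ιB := ?_
      τA := ?_
      τ1 := ?_
      σ1 := ?_
      σ1' := ?_
      σ2 := ?_
      σ2' := ?_
      exc := ?_
      Qb := le_rfl
      Mb := ?_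
      R0b := ?_
      NHb := NH10 hB
      err := err10 hB ha0 hn ha }
  · rw [e4]
    have h1 := Nat.sqrt_le' L
    set s := Nat.sqrt L with hs
    have h2 : 64 * t ≤ (t + 1) * s := by nlinarith [sq_nonneg ((t : ℤ) - 2)]
    calc 256 * t * s = 4 * (64 * t) * s := by ring
      _ ≤ 4 * ((t + 1) * s) * s := by gcongr
      _ = 4 * (t + 1) * s ^ 2 := by ring
      _ ≤ 4 * (t + 1) * L := Nat.mul_le_mul_left _ h1
      _ = _ := by ring
  · calc (n + 1) ^ (t * a0 t) ≤ (2 ^ L) ^ (t * a0 t) := Nat.pow_le_pow_left hn _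
      _ = 2 ^ (L * (t * a0 t)) := by rw [← pow_mul]
      _ ≤ _ := by
        refine Nat.pow_le_pow_right (by norm_num) ?_
        rw [mul_comm L]
        refine Nat.mul_le_mul_right _ ?_
        unfold a0 cN10
        nlinarith
  · intro m hm _
    have h1 := aa_small10 ht (by omega) hm
    have e0 : t * (aa10 t L m + 1) = t * aa10 t L m + t := by ring
    omega
  · have h : 8 * ((1 : ℝ) / 2) ^ (cE10 t * L) * ((2 ^ (cB10 t * L) : ℕ) : ℝ) *
        2 ^ (ll10 t L + t + 2) = 2 ^ (3 + cB10 t * L + (ll10 t L + t + 2)) *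
        (1 / 2) ^ (cE10 t * L) := by
      have e : (2 : ℝ) ^ (3 + cB10 t * L + (ll10 t L + t + 2)) =
          2 ^ 3 * 2 ^ (cB10 t * L) * 2 ^ (ll10 t L + t + 2) := by
        rw [pow_add, pow_add (2 : ℝ) 3]
      push_cast
      rw [e]
      ring
    rw [h]
    have := hp10 (i := 3 + cB10 t * L + (ll10 t L + t + 2)) (j := cE10 t * L) (k := 0) (by omega)
    simpa using this
  · have h : 4 * ((1 : ℝ) / 2) ^ (cE10 t * L) * ((2 ^ (cB10 t * L) : ℕ) : ℝ) *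
        2 ^ (ll10 t L + t + 2) = 2 ^ (2 + cB10 t * L + (ll10 t L + t + 2)) *
        (1 / 2) ^ (cE10 t * L) := by
      have e : (2 : ℝ) ^ (2 + cB10 t * L + (ll10 t L + t + 2)) =
          2 ^ 2 * 2 ^ (cB10 t * L) * 2 ^ (ll10 t L + t + 2) := by
        rw [pow_add, pow_add (2 : ℝ) 2]
      push_cast
      rw [e]
      ring
    rw [h]
    have := hp10 (i := 2 + cB10 t * L + (ll10 t L + t + 2)) (j := cE10 t * L) (k := 0) (by omega)
    simpa using this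
  · have h1 : ((1 : ℝ) / 2) ^ ((t + 3) * L) ≤ (1 / 2) ^ ((t + 2) * L + 2) := half_anti (by omega)
    have h2 : ((1 : ℝ) / 2) ^ (cE10 t * L) ≤ (1 / 2) ^ ((t + 2) * L + 2) := half_anti (by omega)
    have h3 : (t : ℝ) * 2 ^ t * (1 / 2) ^ (cE10 t * L) ≤ (1 / 2) ^ ((t + 2) * L + 2) :=
      hp10' hta (by omega)
    have h4 : (1 : ℝ) / ((2 ^ ((t + 2) * L) : ℕ) : ℝ) = 4 * (1 / 2) ^ ((t + 2) * L + 2) := by
      push_cast
      rw [← one_div_pow, pow_add]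
      ring
    have h5 : (0 : ℝ) ≤ (1 / 2) ^ ((t + 2) * L + 2) := by positivity
    rw [h4]
    linarith
  · rw [log_tau10]
    have h1 : (2 : ℝ) ≤ ((t + 3) * L : ℕ) := by
      have : 2 ≤ (t + 3) * L := by omega
      exact_mod_cast this
    have h2 := Real.log_two_gt_d9
    nlinarith
  · rw [hqt]
    exact hp10' (i := 8) (by norm_num) (by omega)
  · rw [hqt]
    have h1 : 2 * ((1 : ℝ) / 2) ^ (cE10 t * L) ≤ (1 / 2) ^ (ll10 t L + (t + 3) * L + 2) :=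
      hp10' (i := 1) (by norm_num) (by omega)
    have h2 : (0 : ℝ) < (1 / 2) ^ (cE10 t * L) := by positivity
    linarith
  · exact hp10' (i := 9) (by norm_num) (by omega)
  · have h1 : 4 * ((1 : ℝ) / 2) ^ (cE10 t * L) ≤ (1 / 2) ^ ((5 * t + 7) * L) :=
      hp10' (i := 2) (by norm_num) (by omega)
    have h2 : (0 : ℝ) < (1 / 2) ^ (cE10 t * L) := by positivity
    linarith
  · have h1 := log_tau_le10 ((t + 3) * L)
    unfold Pe10
    push_cast at h1 ⊢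
    gcongr
  · have h1 := log_tau_le10 ((t + 3) * L)
    have h2 : 0 ≤ Real.log (1 / ((1 / 2 : ℝ) ^ ((t + 3) * L))) := by
      rw [log_tau10]
      positivity
    unfold Mm10
    push_cast at h1 ⊢
    gcongr
  · refine hnt.trans_lt ?_
    exact Nat.pow_lt_pow_right (by norm_num) (by omega)

end Pool.Agent.H.MP_cba12a_lc
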