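import Pool.Agent.H.MP_cba12a_lc.X10.Base

/-!
The level one inequality.
-/

namespace Pool.Agent.H.MP_cba12a_lc

open Finset

variable {n : ℕ}

/-- The exponential moment of a sum of independent signs. -/
theorem sum_exp10 (o : Fin n → Bool) (S : Finset (Fin n)) (a : ℝ) :
    ∑ x : Fin n → Bool, Real.exp (∑ i ∈ S, a * (- sg1 o i x)) ≤
      2 ^ n * Real.exp (S.card * (a ^ 2 / 2)) := by
  classical
  induction S using Finset.induction_on with
  | empty => simp
  | insert i S hi ih =>
    have hE : ∀ x : Fin n → Bool, Real.exp (∑ j ∈ S, a * (- sg1 o j (flp i x))) =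
        Real.exp (∑ j ∈ S, a * (- sg1 o j x)) := by
      intro x
      congr 1
      refine sum_congr rfl fun j hj => ?_
      have hji : j ≠ i := by
        rintro rfl
        exact hi hj
      rw [sg1_flp_ne o hji]
    have h1 : ∑ x : Fin n → Bool, Real.exp (∑ j ∈ insert i S, a * (- sg1 o j x)) =
        ∑ x : Fin n → Bool, Real.exp (a * (- sg1 o i x)) *
          Real.exp (∑ j ∈ S, a * (- sg1 o j x)) := by
      refine sum_congr rfl fun x _ => ?_
      rw [sum_insert hi, Real.exp_add]
    have h2 : ∑ x : Fin n → Bool, Real.exp (∑ j ∈ insert i S, a * (- sg1 o j x)) =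
        ∑ x : Fin n → Bool, Real.exp (a * sg1 o i x) *
          Real.exp (∑ j ∈ S, a * (- sg1 o j x)) := by
      rw [h1, ← sum_flp i (fun x => Real.exp (a * (- sg1 o i x)) *
          Real.exp (∑ j ∈ S, a * (- sg1 o j x)))]
      refine sum_congr rfl fun x _ => ?_
      rw [hE, sg1_flp_same, neg_neg]
    have h3 : 2 * ∑ x : Fin n → Bool, Real.exp (∑ j ∈ insert i S, a * (- sg1 o j x)) =
        ∑ x : Fin n → Bool, (2 * Real.cosh a) * Real.exp (∑ j ∈ S, a * (- sg1 o j x)) := by
      rw [two_mul]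
      nth_rw 1 [h1]
      rw [h2, ← sum_add_distrib]
      refine sum_congr rfl fun x _ => ?_
      rw [← add_mul]
      congr 1
      rw [Real.cosh_eq]
      unfold sg1
      split_ifs
      · rw [mul_one, mul_neg, mul_one]; ring
      · rw [neg_neg, mul_one, mul_neg, mul_one]; ring
    rw [← mul_sum] at h3
    have h4 : ∑ x : Fin n → Bool, Real.exp (∑ j ∈ insert i S, a * (- sg1 o j x)) =
        Real.cosh a * ∑ x : Fin n → Bool, Real.exp (∑ j ∈ S, a * (- sg1 o j x)) := by
      linarith
    rw [h4, card_insert_of_notMem hi]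
    calc Real.cosh a * ∑ x : Fin n → Bool, Real.exp (∑ j ∈ S, a * (- sg1 o j x))
        ≤ Real.exp (a ^ 2 / 2) * (2 ^ n * Real.exp (S.card * (a ^ 2 / 2))) :=
          mul_le_mul (Real.cosh_le_exp_half_sq a) ih
            (sum_nonneg fun _ _ => (Real.exp_pos _).le) (Real.exp_pos _).le
      _ = 2 ^ n * Real.exp (((S.card + 1 : ℕ) : ℝ) * (a ^ 2 / 2)) := by
          rw [Nat.cast_add, Nat.cast_one, add_mul, one_mul, Real.exp_add]; ring

/-- The number of points of an event. -/
theorem sum_ite10 (P : (Fin n → Bool) → Prop) [DecidablePred P] :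
    ∑ x, (if P x then (1 : ℝ) else 0) = pr P * 2 ^ n := by
  rw [← sum_bR P (fun x => decide (P x)) (fun x => decide_eq_true_iff)]
  refine sum_congr rfl fun x _ => ?_
  unfold bR
  by_cases h : P x
  · simp [h]
  · simp [h]

/-- **Level one inequality.** -/
theorem level_one10 {o : Fin n → Bool} {P : (Fin n → Bool) → Prop} (S : Finset (Fin n)) {θ : ℝ}
    (hθ : 0 ≤ θ) (hP : 0 < pr P)
    (h : ∀ i ∈ S, 2 * pr (fun x => x i = o i ∧ P x) ≤ (1 - θ) * pr P) :
    (S.card : ℝ) * θ ^ 2 ≤ 2 * Real.log (1 / pr P) := by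
  classical
  set m : ℝ := S.card * θ ^ 2 with hm
  have h2n : (0 : ℝ) < 2 ^ n := by positivity
  -- the mean of each sign
  have hsig : ∀ i ∈ S, θ * (pr P * 2 ^ n) ≤ ∑ x, (if P x then - sg1 o i x else 0) := by
    intro i hi
    have e : ∑ x, (if P x then - sg1 o i x else 0) =
        ∑ x, (if P x then (1 : ℝ) else 0) -
          2 * ∑ x, (if (x i = o i ∧ P x) then (1 : ℝ) else 0) := by
      rw [mul_sum, ← sum_sub_distrib]
      refine sum_congr rfl fun x _ => ?_
      unfold sg1
      by_cases h1 : P x <;> by_cases h2 : x i = o i <;> simp [h1, h2]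
      norm_num
    rw [e, sum_ite10 P, sum_ite10 (fun x => x i = o i ∧ P x)]
    have := mul_le_mul_of_nonneg_right (h i hi) h2n.le
    linarith
  have hY : m * (pr P * 2 ^ n) ≤ ∑ x, (if P x then ∑ i ∈ S, θ * (- sg1 o i x) else 0) := by
    have e : ∑ x, (if P x then ∑ i ∈ S, θ * (- sg1 o i x) else 0) =
        ∑ i ∈ S, θ * ∑ x, (if P x then - sg1 o i x else 0) := by
      simp_rw [mul_sum]
      rw [sum_comm]
      refine sum_congr rfl fun x _ => ?_
      by_cases h1 : P x
      · simp only [h1, if_true]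
      · simp only [h1, if_false, mul_zero, sum_const_zero]
    rw [e]
    calc m * (pr P * 2 ^ n) = ∑ _i ∈ S, θ * (θ * (pr P * 2 ^ n)) := by
          rw [sum_const, nsmul_eq_mul, hm]; ring
      _ ≤ _ := sum_le_sum fun i hi => mul_le_mul_of_nonneg_left (hsig i hi) hθ
  have hJ : Real.exp m * (pr P * 2 ^ n) ≤
      ∑ x : Fin n → Bool, Real.exp (∑ i ∈ S, θ * (- sg1 o i x)) := by
    have h1 : ∀ x : Fin n → Bool,
        (if P x then Real.exp m * (1 - m) else 0) +
          Real.exp m * (if P x then ∑ i ∈ S, θ * (- sg1 o i x) else 0) ≤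
        Real.exp (∑ i ∈ S, θ * (- sg1 o i x)) := by
      intro x
      by_cases hx : P x
      · simp only [hx, if_true]
        have h2 := Real.add_one_le_exp (∑ i ∈ S, θ * (- sg1 o i x) - m)
        have h3 := mul_le_mul_of_nonneg_left h2 (Real.exp_pos m).le
        rw [← Real.exp_add] at h3
        have h4 : m + (∑ i ∈ S, θ * (- sg1 o i x) - m) = ∑ i ∈ S, θ * (- sg1 o i x) := by ring
        rw [h4] at h3
        linarith
      · simp only [hx, if_false, mul_zero, add_zero]
        exact (Real.exp_pos _).le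
    have h5 := sum_le_sum fun x (_ : x ∈ (univ : Finset (Fin n → Bool))) => h1 x
    rw [sum_add_distrib, ← mul_sum] at h5
    have h6 : ∑ x : Fin n → Bool, (if P x then Real.exp m * (1 - m) else 0) =
        Real.exp m * (1 - m) * (pr P * 2 ^ n) := by
      rw [← sum_ite10 P, mul_sum]
      refine sum_congr rfl fun x _ => ?_
      by_cases hx : P x <;> simp [hx]
    rw [h6] at h5
    have h7 := mul_le_mul_of_nonneg_left hY (Real.exp_pos m).le
    linarith
  have hE := hJ.trans (sum_exp10 o S θ)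
  have h8 : Real.exp m * pr P ≤ Real.exp (m / 2) := by
    have e : (S.card : ℝ) * (θ ^ 2 / 2) = m / 2 := by rw [hm]; ring
    rw [e] at hE
    have : Real.exp m * pr P * 2 ^ n ≤ Real.exp (m / 2) * 2 ^ n := by linarith
    exact le_of_mul_le_mul_right this h2n
  have h9 : Real.log (Real.exp m * pr P) ≤ Real.log (Real.exp (m / 2)) :=
    Real.log_le_log (mul_pos (Real.exp_pos m) hP) h8
  rw [Real.log_mul (Real.exp_pos m).ne' hP.ne', Real.log_exp, Real.log_exp] at h9
  rw [one_div, Real.log_inv]
  linarith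

/-- The variables outside `U` of relative influence at least `θ` at `U` are few. -/
theorem infl_card10 {o : Fin n → Bool} {g : (Fin n → Bool) → Bool} {U S : Finset (Fin n)} {θ : ℝ}
    (hθ : 0 ≤ θ) (hZ : 0 < ZZ o g U) (hS : ∀ i ∈ S, i ∉ U)
    (h : ∀ i ∈ S, ZZ o g (insert i U) ≤ (1 - θ) * ZZ o g U) :
    (S.card : ℝ) * θ ^ 2 ≤ 2 * Real.log (1 / ZZ o g U) := by
  refine level_one10 (o := o) S hθ hZ fun i hi => ?_
  have h1 : pr (fun x => x i = o i ∧ g (sOn o U x) = false) =
      pr (fun x => On o {i} x ∧ g (sOn o U x) = false) := by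
    refine pr_congr fun x => ?_
    refine and_congr_left fun _ => ?_
    unfold On
    simp
  have h2 := pr_on o {i} (fun x => g (sOn o U x) = false)
  have h3 : pr (fun x => g (sOn o U (sOn o {i} x)) = false) = ZZ o g (insert i U) := by
    unfold ZZ
    refine pr_congr fun x => ?_
    rw [sOn_sOn, union_comm, ← insert_eq]
  rw [h1, h2, h3, card_singleton, pow_one]
  have h4 := h i hi
  have h5 : pr (fun x => g (sOn o U x) = false) = ZZ o g U := rfl
  rw [h5]
  linarith

end Pool.Agent.H.MP_cba12a_lc
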