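import Pool.Agent.H.MP_cba12a_lc.Algo8

/-!
The polynomial-time learner for unate DNF formulas in which any two terms share few variables:
definitions.
-/

namespace Pool.Agent.H.MP_cba12a_lc

/-- number of samples with label `v` and parity `u` on `R` which satisfy `Z` and not `h` -/
def cnt10 (S : Samples) (v u : Bool) (R Z : List Lit) (h : List (List Lit)) : ℕ :=
  (S.filter fun p => (p.2 == v) && ((par p.1 R == u) && (sat p.1 Z && !(satD p.1 h)))).length

/-- remove the literals of `R` from all terms -/
def strip10 (R : List Lit) (h : List (List Lit)) : List (List Lit) :=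
  h.map fun C => C.filter fun l => !(R.any fun l' => eqL l l')

/-- all literals of `C` are in `D` -/
def sub10 (C D : List Lit) : Bool := C.all fun l => D.any fun l' => eqL l l'

/-- acceptance test for small sets -/
def accS10 (A : ℕ) (S : Samples) (h : List (List Lit)) (C : List Lit) : Bool :=
  decide (cnt S false C h * A ≤ S.length) && !(h.any fun D => sub10 D C)

/-- add the first acceptable small set -/
def smallStep10 (A : ℕ) (S : Samples) (L h : List (List Lit)) : List (List Lit) :=
  (L.filter fun C => accS10 A S h C).take 1 ++ h

/-- the small sets which almost imply the target -/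
def small10 (A : ℕ) (S : Samples) (L : List (List Lit)) : List (List Lit) :=
  (smallStep10 A S L)^[L.length] []

/-- extensions of `U` by a literal of relative influence at least `1 / D` -/
def ext10 (D B : ℕ) (V : List Lit) (S : Samples) (h0 : List (List Lit)) (U : List Lit) :
    List (List Lit) :=
  (V.filter fun l => !(U.any fun l' => l'.1 == l.1) &&
    (decide (S.length < cnt S false U h0 * B) &&
      decide (2 * D * cnt S false (l :: U) h0 + cnt S false U h0 ≤
        D * cnt S false U h0))).map fun l => l :: U

/-- the next level of the chains -/
def nextC10 (N D B : ℕ) (V : List Lit) (S : Samples) (h0 L : List (List Lit)) :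
    List (List Lit) :=
  if (L.flatMap fun U => ext10 D B V S h0 U).length ≤ N then
    (L.flatMap fun U => ext10 D B V S h0 U) else []

/-- the chains with `k` elements -/
def chainL10 (N D B : ℕ) (V : List Lit) (S : Samples) (h0 : List (List Lit)) (k : ℕ) :
    List (List Lit) :=
  (nextC10 N D B V S h0)^[k] [[]]

/-- all chains -/
def chains10 (N t ℓ B : ℕ) (V : List Lit) (S : Samples) (h0 : List (List Lit)) :
    List (List Lit) :=
  (List.range (ℓ + 1)).flatMap fun m => (List.range (ℓ + 1)).flatMap fun k =>
    chainL10 N (2 ^ (m + t + 2)) B V S h0 k

/-- `C` almost implies the target -/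
def ok10 (B : ℕ) (S : Samples) (h0 : List (List Lit)) (C : List Lit) : Bool :=
  decide (cnt S false C h0 * B ≤ S.length)

/-- drop the literal `l` if what remains still almost implies the target -/
def drop10 (B : ℕ) (S : Samples) (h0 : List (List Lit)) (D : List Lit) (l : Lit) : List Lit :=
  if cnt S false (D.filter fun l' => !(eqL l' l)) h0 * B ≤ S.length then
    D.filter fun l' => !(eqL l' l) else D

/-- a minimal part of `C` which almost implies the target -/
def min10 (B : ℕ) (S : Samples) (h0 : List (List Lit)) (C : List Lit) : List Lit :=
  C.foldl (drop10 B S h0) C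

/-- minimal parts of those members of `L` which almost imply the target -/
def mins10 (B : ℕ) (S : Samples) (h0 L : List (List Lit)) : List (List Lit) :=
  (L.filter fun C => ok10 B S h0 C).map fun C => min10 B S h0 C

/-- the conjunction read off from the mixed derivative over `R` with `J` on -/
def det10 (V : List Lit) (S : Samples) (H : List (List Lit)) (J R : List Lit) : List Lit :=
  J ++ (R ++ V.filter fun l => !((J ++ R).any fun l' => l'.1 == l.1) &&
    decide (4 * cnt10 S true false R (neg l :: J) (strip10 R H) +
        cnt10 S true true R J (strip10 R H) <
      cnt10 S true false R J (strip10 R H) +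
        4 * cnt10 S true true R (neg l :: J) (strip10 R H)))

/-- the candidates of one round; `K` is the size of the sets `R` of type 1 -/
def cands10 (N t K : ℕ) (V : List Lit) (S : Samples) (ch H : List (List Lit)) :
    List (List Lit) :=
  ((seeds N t V).flatMap fun J => (seeds N K V).map fun R => det10 V S H J R) ++
    ch.map fun R => det10 V S H [] R

/-- one round -/
def round10 (N t K B : ℕ) (V : List Lit) (S : Samples) (ch h0 H : List (List Lit)) :
    List (List Lit) :=
  mins10 B S h0 (cands10 N t K V S ch H) ++ H

/-- the learner, given the variables `V` -/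
def coreV10 (N t K ℓ A B R0 : ℕ) (V : List Lit) (S : Samples) : List (List Lit) :=
  (round10 N t K B V S (chains10 N t ℓ B V S (small10 A S (seeds N t V)))
    (small10 A S (seeds N t V)))^[R0]
    (mins10 B S (small10 A S (seeds N t V))
      (chains10 N t ℓ B V S (small10 A S (seeds N t V))) ++ small10 A S (seeds N t V))

/-- the learner -/
def core10 (N t K ℓ A B R0 Θ n : ℕ) (S : Samples) : List (List Lit) :=
  coreV10 N t K ℓ A B R0 (orient n Θ S) S

end Pool.Agent.H.MP_cba12a_lc
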