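import Pool.Agent.H.MP_cba12a_lc.Sign8

/-!
Basic notions for the polynomial-time learner of unate DNF formulas in which any two terms share
few variables. `o` is the orientation: the variable `i` is on at `x` when `x i = o i`.
-/

namespace Pool.Agent.H.MP_cba12a_lc

open Finset

variable {n : ℕ}

/-- the probability of `g = 0` when the variables of `U` are set on -/
noncomputable def ZZ (o : Fin n → Bool) (g : (Fin n → Bool) → Bool) (U : Finset (Fin n)) : ℝ :=
  pr fun x => g (sOn o U x) = false

/-- the probability, with the variables of `T` set on, that no other member of `F` is on -/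
noncomputable def ZT (o : Fin n → Bool) (F : Finset (Finset (Fin n))) (T : Finset (Fin n)) : ℝ :=
  pr fun x => ∀ A ∈ F, A ≠ T → ¬ On o A (sOn o T x)

/-- the members of `F` which contain no member of `H` (the terms not found yet) -/
def Nf (F H : Finset (Finset (Fin n))) : Finset (Finset (Fin n)) :=
  F.filter fun T => ∀ C ∈ H, ¬ C ⊆ T

theorem mem_Nf {F H : Finset (Finset (Fin n))} {T : Finset (Fin n)} :
    T ∈ Nf F H ↔ T ∈ F ∧ ∀ C ∈ H, ¬ C ⊆ T := by
  unfold Nf
  rw [mem_filter]

/-- no member of `H` is on at `x` -/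
def Off (o : Fin n → Bool) (H : Finset (Finset (Fin n))) (x : Fin n → Bool) : Prop :=
  ∀ C ∈ H, ¬ On o C x

theorem dnP_off (o : Fin n → Bool) (H : Finset (Finset (Fin n))) : DnP o (Off o H) :=
  fun i x h C hC => dnP_not_on o C i x (h C hC)

/-- `T` is the only member of `F` which is on, and no member of `H` is on -/
def Only10 (o : Fin n → Bool) (F H : Finset (Finset (Fin n))) (T : Finset (Fin n))
    (x : Fin n → Bool) : Prop :=
  On o T x ∧ (∀ A ∈ F, A ≠ T → ¬ On o A x) ∧ Off o H x

/-- the noise event of the mixed derivative over `R ⊆ T`: `h = 0` even if `R` is set on, no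
member of `F` disjoint from `R` is on, and every `r ∈ R` lies in a member of `F`, other than `T`,
which is on outside `R` -/
def Cov10 (o : Fin n → Bool) (F H : Finset (Finset (Fin n))) (T R : Finset (Fin n))
    (x : Fin n → Bool) : Prop :=
  Off o H (sOn o R x) ∧ (∀ A ∈ F, Disjoint A R → ¬ On o A x) ∧
    ∀ r ∈ R, ∃ A ∈ F, A ≠ T ∧ r ∈ A ∧ On o (A \ R) x

open Classical in
/-- the statistic of the mixed derivative over `R` -/
noncomputable def stat10 (o : Fin n → Bool) (g : (Fin n → Bool) → Bool)
    (H : Finset (Finset (Fin n))) (J R : Finset (Fin n)) (Q : (Fin n → Bool) → Prop) : ℝ :=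
  (∑ x, if On o J x ∧ g x = true ∧ Off o H (sOn o R x) ∧ Q x then chi o R x else 0) / 2 ^ n

/-- total weight of the members of `G` -/
noncomputable def wt10 (G : Finset (Finset (Fin n))) : ℝ := ∑ A ∈ G, (1 / 2 : ℝ) ^ A.card

theorem wt10_nonneg (G : Finset (Finset (Fin n))) : 0 ≤ wt10 G :=
  sum_nonneg fun _ _ => by positivity

theorem wt10_mono {G G' : Finset (Finset (Fin n))} (h : G ⊆ G') : wt10 G ≤ wt10 G' :=
  sum_le_sum_of_subset_of_nonneg h fun _ _ _ => by positivity

/-- `F` is a family of which any two members share at most `t` elements -/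
def Shr (t : ℕ) (F : Finset (Finset (Fin n))) : Prop :=
  ∀ A ∈ F, ∀ B ∈ F, A ≠ B → (A ∩ B).card ≤ t

theorem Shr.mono {t : ℕ} {F G : Finset (Finset (Fin n))} (h : Shr t F) (hG : G ⊆ F) : Shr t G :=
  fun A hA B hB => h A (hG hA) B (hG hB)

/-! ### Elementary facts -/

/-- `Pr[U on, g = 0] = 2^{-|U|} Z(U)` -/
theorem pr_on_ZZ (o : Fin n → Bool) (g : (Fin n → Bool) → Bool) (U : Finset (Fin n)) :
    pr (fun x => On o U x ∧ g x = false) = (1 / 2) ^ U.card * ZZ o g U :=
  pr_on o U (fun x => g x = false)

theorem ZZ_nonneg (o : Fin n → Bool) (g : (Fin n → Bool) → Bool) (U : Finset (Fin n)) :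
    0 ≤ ZZ o g U := pr_nonneg _

theorem ZZ_le_one (o : Fin n → Bool) (g : (Fin n → Bool) → Bool) (U : Finset (Fin n)) :
    ZZ o g U ≤ 1 := pr_le_one _

theorem ZT_nonneg (o : Fin n → Bool) (F : Finset (Finset (Fin n))) (T : Finset (Fin n)) :
    0 ≤ ZT o F T := pr_nonneg _

/-- flipping a coordinate preserves the density -/
theorem pr_flp (i : Fin n) (P : (Fin n → Bool) → Prop) : pr (fun x => P (flp i x)) = pr P := by
  classical
  rw [pr_def, pr_def]
  exact mu_flp i fun x => decide (P x)

/-- setting two sets on -/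
theorem sOn_sOn (o : Fin n → Bool) (U V : Finset (Fin n)) (x : Fin n → Bool) :
    sOn o U (sOn o V x) = sOn o (U ∪ V) x := by
  funext i
  by_cases hU : i ∈ U
  · rw [sOn_mem hU, sOn_mem (mem_union_left _ hU)]
  · rw [sOn_not_mem hU]
    by_cases hV : i ∈ V
    · rw [sOn_mem hV, sOn_mem (mem_union_right _ hV)]
    · rw [sOn_not_mem hV, sOn_not_mem (by rw [mem_union]; tauto)]

theorem on_sOn_iff (o : Fin n → Bool) (A U : Finset (Fin n)) (x : Fin n → Bool) :
    On o A (sOn o U x) ↔ On o (A \ U) x := by
  constructor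
  · intro h i hi
    rw [mem_sdiff] at hi
    have := h i hi.1
    rwa [sOn_not_mem hi.2] at this
  · intro h i hi
    by_cases hU : i ∈ U
    · exact sOn_mem hU
    · rw [sOn_not_mem hU]
      exact h i (mem_sdiff.2 ⟨hi, hU⟩)

/-- a decreasing property stays decreasing after setting `U` on -/
theorem DnP.sOn {o : Fin n → Bool} {P : (Fin n → Bool) → Prop} (hP : DnP o P)
    (U : Finset (Fin n)) : DnP o (fun x => P (sOn o U x)) := by
  intro i x h
  by_cases hi : i ∈ U
  · simp only [sOn_update_mem hi] at h ⊢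
    exact h
  · simp only [sOn_update hi] at h ⊢
    exact hP i _ h

/-- a decreasing property which holds after setting `D` on holds before -/
theorem DnP.of_sOn {o : Fin n → Bool} {P : (Fin n → Bool) → Prop} (hP : DnP o P)
    (D : Finset (Fin n)) : ∀ y, P (Pool.Agent.H.MP_cba12a_lc.sOn o D y) → P y := by
  classical
  induction D using Finset.induction_on with
  | empty =>
    intro y hy
    have : Pool.Agent.H.MP_cba12a_lc.sOn o ∅ y = y := by
      funext i
      exact sOn_not_mem (notMem_empty i)
    rwa [this] at hy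
  | insert a D ha ih =>
    intro y hy
    have h1 : Pool.Agent.H.MP_cba12a_lc.sOn o (insert a D) y =
        Pool.Agent.H.MP_cba12a_lc.sOn o D (Function.update y a (o a)) := by
      funext i
      by_cases hiD : i ∈ D
      · rw [sOn_mem hiD, sOn_mem (mem_insert_of_mem hiD)]
      · rw [sOn_not_mem hiD]
        by_cases hia : i = a
        · subst hia
          rw [sOn_mem (mem_insert_self _ _), Function.update_self]
        · rw [Function.update_of_ne hia, sOn_not_mem (by rw [mem_insert]; tauto)]
    rw [h1] at hy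
    have h2 := ih _ hy
    by_cases hya : y a = o a
    · rwa [upd_self hya] at h2
    · have h3 : y a = !(o a) := by
        cases h : o a <;> cases h' : y a <;> simp_all
      have h4 := hP a y h2
      rwa [upd_self h3] at h4

/-- a decreasing property is kept when fewer variables are set on -/
theorem DnP.anti {o : Fin n → Bool} {P : (Fin n → Bool) → Prop} (hP : DnP o P)
    {U V : Finset (Fin n)} (h : U ⊆ V) {x : Fin n → Bool}
    (hx : P (Pool.Agent.H.MP_cba12a_lc.sOn o V x)) :
    P (Pool.Agent.H.MP_cba12a_lc.sOn o U x) := by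
  refine hP.of_sOn V _ ?_
  rw [sOn_sOn, union_eq_left.2 h]
  exact hx

theorem ZZ_anti {o : Fin n → Bool} {g : (Fin n → Bool) → Bool} (hg : Up o g) {U V : Finset (Fin n)}
    (h : U ⊆ V) : ZZ o g V ≤ ZZ o g U :=
  pr_mono fun _ hx => (dnP_false hg).anti h hx

/-- `Off o H` is kept when fewer variables are on -/
theorem off_anti {o : Fin n → Bool} {H : Finset (Finset (Fin n))} {U V : Finset (Fin n)}
    (h : U ⊆ V) {x : Fin n → Bool} (hx : Off o H (sOn o V x)) : Off o H (sOn o U x) :=
  (dnP_off o H).anti h hx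

/-- Flipping one variable `i` of `T` off: `Pr[T on, no other member on] = 2^{-|T|} ZT(T)` is at
most `Pr[T \ i on, g = 0]`. -/
theorem pr_erase_ge {o : Fin n → Bool} {g : (Fin n → Bool) → Bool} {F : Finset (Finset (Fin n))}
    (hgF : ∀ x, g x = true ↔ ∃ A ∈ F, On o A x) {T : Finset (Fin n)} {i : Fin n} (hi : i ∈ T) :
    (1 / 2) ^ T.card * ZT o F T ≤ pr (fun x => On o (T.erase i) x ∧ g x = false) := by
  have h1 := pr_on o T (fun x => ∀ A ∈ F, A ≠ T → ¬ On o A x)
  have h2 : (1 / 2) ^ T.card * ZT o F T = pr (fun x => On o T x ∧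
      ∀ A ∈ F, A ≠ T → ¬ On o A x) := by
    rw [h1]
    rfl
  rw [h2, ← pr_flp i (fun x => On o (T.erase i) x ∧ g x = false)]
  refine pr_mono ?_
  rintro x ⟨hx, hA⟩
  refine ⟨fun j hj => ?_, ?_⟩
  · rw [mem_erase] at hj
    rw [flp_ne hj.1]
    exact hx j hj.2
  · by_contra hc
    rw [Bool.not_eq_false, hgF] at hc
    obtain ⟨A, hAF, hAx⟩ := hc
    have hiA : i ∉ A := by
      intro hiA
      have h3 := hAx i hiA
      rw [flp_same, hx i hi] at h3
      cases h : o i <;> rw [h] at h3 <;> simp at h3
    have hAx' : On o A x := (on_flp_of_not_mem hiA).1 hAx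
    have hAT : A ≠ T := fun hc => hiA (hc ▸ hi)
    exact hA A hAF hAT hAx'

end Pool.Agent.H.MP_cba12a_lc
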