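import Pool.Agent.H.MP_cba12a_lc.X10.Cv1
import Pool.Agent.H.MP_cba12a_lc.X10.Lvl

/-!
Chains: shape and number.
-/

namespace Pool.Agent.H.MP_cba12a_lc

open Finset

variable {n m r t : ℕ} {o : Fin n → Bool} {f g : (Fin n → Bool) → Bool}
  {ω : Fin m → Fin n → Bool} {η ι : ℝ} {h0 : List (List Lit)} {V : List Lit}
  {F0 : Finset (Finset (Fin n))}

/-- the members of `ext10` -/
theorem mem_ext10 {D B : ℕ} {S : Samples} {U C : List Lit} :
    C ∈ ext10 D B V S h0 U ↔ ∃ l ∈ V, C = l :: U ∧ (∀ l' ∈ U, l'.1 ≠ l.1) ∧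
      S.length < cnt S false U h0 * B ∧
      2 * D * cnt S false (l :: U) h0 + cnt S false U h0 ≤ D * cnt S false U h0 := by
  unfold ext10
  rw [List.mem_map]
  constructor
  · rintro ⟨l, hl, rfl⟩
    rw [List.mem_filter] at hl
    obtain ⟨hlV, hl2⟩ := hl
    rw [Bool.and_eq_true, Bool.and_eq_true, decide_eq_true_eq, decide_eq_true_eq,
      Bool.not_eq_true'] at hl2
    refine ⟨l, hlV, rfl, ?_, hl2.2.1, hl2.2.2⟩
    intro l' hl' he
    have h1 := hl2.1
    rw [List.any_eq_false] at h1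
    exact h1 l' hl' (by rw [beq_iff_eq]; exact he)
  · rintro ⟨l, hlV, rfl, h1, h2, h3⟩
    refine ⟨l, ?_, rfl⟩
    rw [List.mem_filter, Bool.and_eq_true, Bool.and_eq_true, decide_eq_true_eq,
      decide_eq_true_eq, Bool.not_eq_true', List.any_eq_false]
    refine ⟨hlV, ?_, h2, h3⟩
    intro l' hl' he
    rw [beq_iff_eq] at he
    exact h1 l' hl' he

/-- the shape of the chains: oriented, no repeated variable, all literals in `V`, length `k` -/
theorem chain_shape10 {N D B : ℕ} {S : Samples} (hV : Ori o V) : ∀ k : ℕ,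
    ∀ U ∈ chainL10 N D B V S h0 k, Ori o U ∧ (U.map Prod.fst).Nodup ∧ (∀ l ∈ U, l ∈ V) ∧
      U.length = k := by
  intro k
  induction k with
  | zero =>
    intro U hU
    unfold chainL10 at hU
    rw [Function.iterate_zero, id, List.mem_singleton] at hU
    subst hU
    refine ⟨?_, ?_, ?_, rfl⟩
    · intro l hl
      exact absurd hl List.not_mem_nil
    · simp
    · intro l hl
      exact absurd hl List.not_mem_nil
  | succ k ih =>
    intro U hU
    have e : chainL10 N D B V S h0 (k + 1) = nextC10 N D B V S h0 (chainL10 N D B V S h0 k) := by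
      unfold chainL10
      rw [Function.iterate_succ_apply']
    rw [e] at hU
    unfold nextC10 at hU
    split_ifs at hU with hc
    · rw [List.mem_flatMap] at hU
      obtain ⟨U', hU', hU2⟩ := hU
      obtain ⟨l, hlV, rfl, h1, -, -⟩ := mem_ext10.1 hU2
      obtain ⟨i1, i2, i3, i4⟩ := ih U' hU'
      refine ⟨?_, ?_, ?_, ?_⟩
      · intro l' hl'
        rw [List.mem_cons] at hl'
        rcases hl' with rfl | hl'
        · exact hV _ hlV
        · exact i1 l' hl'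
      · rw [List.map_cons, List.nodup_cons]
        refine ⟨?_, i2⟩
        intro hm
        rw [List.mem_map] at hm
        obtain ⟨l', hl', he⟩ := hm
        exact h1 l' hl' he
      · intro l' hl'
        rw [List.mem_cons] at hl'
        rcases hl' with rfl | hl'
        · exact hlV
        · exact i3 l' hl'
      · rw [List.length_cons, i4]
    · exact absurd hU List.not_mem_nil

/-- **An accepted extension has large influence**: if the literal on `i` passes the test of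
`ext10` at `U`, then `Z(insert i U) ≤ (1 - 1/(2 D)) Z(U)` and `1/(2B) ≤ 2^{-|U|} Z(U)`.
Proof: with `c0 = cnt U / m`, `c1 = cnt (l :: U) / m`, `q0 = 2^{-|U|} Z(U)`,
`q1 = 2^{-|U|-1} Z(insert i U)` (`cntq10`, `pr_on_ZZ`, `fs_cons`): `|c0 - q0| ≤ η`,
`|c1 - q1| ≤ η`, `1/B < c0`, `2 c1 ≤ (1 - 1/D) c0`. So `q0 > 1/B - η ≥ 1/(2B)` and
`2 q1 ≤ (1 - 1/D) q0 + 3 η ≤ (1 - 1/(2D)) q0` because `3 η ≤ q0 / (2D)`, from
`8 η B D ≤ 1`. -/
theorem ext_infl10 (hC : Ctx10 t f g o F0 V ω r η ι) (hh : ∀ C ∈ h0, Ori o C)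
    (hr : h0.length ≤ r) {D B : ℕ} (hD : 0 < D) (hB : 0 < B) (hη0 : 0 ≤ η)
    (hη : 8 * η * B * D ≤ 1) {U : List Lit} (hU : Ori o U) {i : Fin n} (hi : i ∉ fs n U)
    (halive : (smp f ω).length < cnt (smp f ω) false U h0 * B)
    (htest : 2 * D * cnt (smp f ω) false (((i : ℕ), o i) :: U) h0 + cnt (smp f ω) false U h0 ≤
      D * cnt (smp f ω) false U h0) :
    ZZ o (gp10 g h0) (insert i (fs n U)) ≤ (1 - 1 / (2 * D)) * ZZ o (gp10 g h0) (fs n U) ∧
      1 / (2 * B) ≤ (1 / 2) ^ (fs n U).card * ZZ o (gp10 g h0) (fs n U) := by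
  have hU' : Ori o (((i : ℕ), o i) :: U) := by
    intro l hl
    rw [List.mem_cons] at hl
    rcases hl with rfl | hl
    · exact ⟨i, rfl⟩
    · exact hU l hl
  have k0 := cntq10 (g := g) hC.hrep hU hh hr
  have k1 := cntq10 (g := g) hC.hrep hU' hh hr
  rw [pr_on_ZZ] at k0 k1
  rw [fs_cons, card_insert_of_notMem hi] at k1
  rw [length_smp] at halive
  have hm : (0 : ℝ) < m := by exact_mod_cast hC.hm
  obtain ⟨c0, hc0⟩ : ∃ c0, c0 = cnt (smp f ω) false U h0 := ⟨_, rfl⟩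
  obtain ⟨c1, hc1⟩ : ∃ c1, c1 = cnt (smp f ω) false (((i : ℕ), o i) :: U) h0 := ⟨_, rfl⟩
  rw [← hc0] at halive htest k0
  rw [← hc1] at htest k1
  obtain ⟨Z0, hZ0⟩ : ∃ Z0, Z0 = ZZ o (gp10 g h0) (fs n U) := ⟨_, rfl⟩
  obtain ⟨Z1, hZ1⟩ : ∃ Z1, Z1 = ZZ o (gp10 g h0) (insert i (fs n U)) := ⟨_, rfl⟩
  rw [← hZ0] at k0 ⊢
  rw [← hZ1] at k1 ⊢
  obtain ⟨s, hs⟩ : ∃ s : ℝ, s = (1 / 2) ^ (fs n U).card := ⟨_, rfl⟩
  have hspos : 0 < s := by rw [hs]; positivity
  rw [pow_succ, ← hs] at k1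
  rw [← hs] at k0 ⊢
  have hBr : (0 : ℝ) < B := by exact_mod_cast hB
  have hDr : (1 : ℝ) ≤ D := by exact_mod_cast hD
  have a1 : (1 : ℝ) < c0 / m * B := by
    rw [div_mul_eq_mul_div, lt_div_iff₀ hm, one_mul]
    exact_mod_cast halive
  have a2 : 2 * (D : ℝ) * (c1 / m) + c0 / m ≤ D * (c0 / m) := by
    have : (2 * (D : ℝ) * c1 + c0) ≤ D * c0 := by exact_mod_cast htest
    have h3 : (2 * (D : ℝ) * c1 + c0) / m ≤ D * c0 / m := div_le_div_of_nonneg_right this hm.le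
    calc 2 * (D : ℝ) * (c1 / m) + c0 / m = (2 * (D : ℝ) * c1 + c0) / m := by ring
      _ ≤ D * c0 / m := h3
      _ = D * (c0 / m) := by ring
  obtain ⟨x0, hx0⟩ : ∃ x0 : ℝ, x0 = c0 / m := ⟨_, rfl⟩
  obtain ⟨x1, hx1⟩ : ∃ x1 : ℝ, x1 = c1 / m := ⟨_, rfl⟩
  rw [← hx0] at k0 a1 a2
  rw [← hx1] at k1 a2
  rw [abs_le] at k0 k1
  have b1 : 8 * (η * B) ≤ 1 := by
    have h1 : 0 ≤ η * B := mul_nonneg hη0 hBr.le
    have h2 : η * B * 1 ≤ η * B * D := mul_le_mul_of_nonneg_left hDr h1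
    linarith
  have b2 : 7 / 8 ≤ s * Z0 * B := by
    have h1 : (x0 - η) * B ≤ s * Z0 * B := mul_le_mul_of_nonneg_right (by linarith [k0.2]) hBr.le
    linarith
  have b3 : 6 * D * η ≤ s * Z0 := by
    by_contra hcon
    push Not at hcon
    have h1 : s * Z0 * B < 6 * D * η * B := mul_lt_mul_of_pos_right hcon hBr
    linarith
  have b4 : (2 * (D : ℝ) - 2) * x0 ≤ (2 * D - 2) * (s * Z0 + η) :=
    mul_le_mul_of_nonneg_left (by linarith [k0.2]) (by linarith)
  have b5 : 4 * (D : ℝ) * (s * (1 / 2) * Z1) ≤ 4 * D * (x1 + η) :=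
    mul_le_mul_of_nonneg_left (by linarith [k1.1]) (by linarith)
  constructor
  · have h1 : s * (2 * D * Z1) ≤ s * ((2 * D - 1) * Z0) := by linarith
    have h2 : 2 * D * Z1 ≤ (2 * D - 1) * Z0 := le_of_mul_le_mul_left h1 hspos
    have h3 : (1 - 1 / (2 * (D : ℝ))) * Z0 = ((2 * D - 1) * Z0) / (2 * D) := by
      field_simp
    rw [h3, le_div_iff₀ (by linarith)]
    linarith
  · rw [div_le_iff₀ (by linarith)]
    linarith

end Pool.Agent.H.MP_cba12a_lc
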