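import Pool.Agent.H.MP_cba12a_lc.X10.Ch1

/-!
Number of chains.
-/

namespace Pool.Agent.H.MP_cba12a_lc

open Finset

variable {n m r t : ℕ} {o : Fin n → Bool} {f g : (Fin n → Bool) → Bool}
  {ω : Fin m → Fin n → Bool} {η ι : ℝ} {h0 : List (List Lit)} {V : List Lit}
  {F0 : Finset (Finset (Fin n))}

/-- **Number of extensions.** Proof: the set `S` of all `i` for which the literal on `i` is
accepted has `|S| θ^2 ≤ 2 log (1 / Z(U)) ≤ 2 log (2B)` with `θ = 1/(2D)` by `infl_card10` and
`ext_infl10` (`Z(U) ≥ 1/(2B)`), and the list `ext10` has no more members than `S` (`V` is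
oriented without repetitions, `ext10` is the image of a filter of `V`). If nothing is accepted
the list is empty. -/
theorem length_ext10 (hC : Ctx10 t f g o F0 V ω r η ι) (hh : ∀ C ∈ h0, Ori o C)
    (hr : h0.length ≤ r) {D B P : ℕ} (hD : 0 < D) (hB : 0 < B) (hη0 : 0 ≤ η)
    (hη : 8 * η * B * D ≤ 1) (hP : 8 * (D : ℝ) ^ 2 * Real.log (2 * B) ≤ P) {U : List Lit}
    (hU : Ori o U) : (ext10 D B V (smp f ω) h0 U).length ≤ P := by
  classical
  unfold ext10
  rw [List.length_map]
  set p : Lit → Bool := fun l => !(U.any fun l' => l'.1 == l.1) &&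
    (decide ((smp f ω).length < cnt (smp f ω) false U h0 * B) &&
      decide (2 * D * cnt (smp f ω) false (l :: U) h0 + cnt (smp f ω) false U h0 ≤
        D * cnt (smp f ω) false U h0)) with hp
  have hpl : ∀ l, p l = true → (∀ l' ∈ U, l'.1 ≠ l.1) ∧
      (smp f ω).length < cnt (smp f ω) false U h0 * B ∧
      2 * D * cnt (smp f ω) false (l :: U) h0 + cnt (smp f ω) false U h0 ≤
        D * cnt (smp f ω) false U h0 := by
    intro l hl
    simp only [hp, Bool.and_eq_true, Bool.not_eq_true', decide_eq_true_eq, List.any_eq_false,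
      beq_iff_eq] at hl
    exact hl
  set S : Finset (Fin n) := univ.filter fun i : Fin n => (((i : ℕ), o i) : Lit) ∈ V.filter p
    with hS
  have hlen : (V.filter p).length ≤ S.card := by
    have hnd : (V.filter p).Nodup := hC.hVn.filter p
    rw [← List.toFinset_card_of_nodup hnd]
    have hsub : (V.filter p).toFinset ⊆ S.image (fun i : Fin n => (((i : ℕ), o i) : Lit)) := by
      intro l hl
      rw [List.mem_toFinset] at hl
      obtain ⟨i, hi⟩ := hC.hV l (List.mem_filter.1 hl).1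
      rw [mem_image]
      refine ⟨i, ?_, hi.symm⟩
      rw [hS, mem_filter]
      refine ⟨mem_univ _, ?_⟩
      rw [← hi]
      exact hl
    exact (card_le_card hsub).trans card_image_le
  have hB1 : (1 : ℝ) ≤ B := by exact_mod_cast hB
  have hD1 : (1 : ℝ) ≤ D := by exact_mod_cast hD
  rcases S.eq_empty_or_nonempty with hS0 | ⟨i0, hi0⟩
  · rw [hS0, card_empty] at hlen
    exact hlen.trans (Nat.zero_le _)
  have hSprop : ∀ i ∈ S, i ∉ fs n U ∧
      ZZ o (gp10 g h0) (insert i (fs n U)) ≤ (1 - 1 / (2 * D)) * ZZ o (gp10 g h0) (fs n U) ∧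
      1 / (2 * B) ≤ (1 / 2) ^ (fs n U).card * ZZ o (gp10 g h0) (fs n U) := by
    intro i hi
    rw [hS, mem_filter] at hi
    obtain ⟨h1, h2, h3⟩ := hpl _ (List.mem_filter.1 hi.2).2
    have hiU : i ∉ fs n U := by
      intro hiU
      unfold fs at hiU
      rw [mem_filter, List.mem_map] at hiU
      obtain ⟨_, l', hl', he⟩ := hiU
      exact h1 l' hl' he
    exact ⟨hiU, ext_infl10 hC hh hr hD hB hη0 hη hU hiU h2 h3⟩
  have hZlow : 1 / (2 * (B : ℝ)) ≤ ZZ o (gp10 g h0) (fs n U) := by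
    have h1 := (hSprop i0 hi0).2.2
    refine h1.trans ?_
    have h2 : ((1 : ℝ) / 2) ^ (fs n U).card ≤ 1 := pow_le_one₀ (by norm_num) (by norm_num)
    calc (1 / 2) ^ (fs n U).card * ZZ o (gp10 g h0) (fs n U)
        ≤ 1 * ZZ o (gp10 g h0) (fs n U) :=
          mul_le_mul_of_nonneg_right h2 (ZZ_nonneg _ _ _)
      _ = ZZ o (gp10 g h0) (fs n U) := one_mul _
  have hZpos : 0 < ZZ o (gp10 g h0) (fs n U) := lt_of_lt_of_le (by positivity) hZlow
  have hθ : (0 : ℝ) ≤ 1 / (2 * D) := by positivity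
  have hcard := infl_card10 hθ hZpos (fun i hi => (hSprop i hi).1) (fun i hi => (hSprop i hi).2.1)
  have hlog : Real.log (1 / ZZ o (gp10 g h0) (fs n U)) ≤ Real.log (2 * B) := by
    apply Real.log_le_log (by positivity)
    rw [div_le_iff₀ hZpos]
    have h3 : 2 * (B : ℝ) * (1 / (2 * (B : ℝ))) ≤ 2 * (B : ℝ) * ZZ o (gp10 g h0) (fs n U) :=
      mul_le_mul_of_nonneg_left hZlow (by positivity)
    have h4 : 2 * (B : ℝ) * (1 / (2 * (B : ℝ))) = 1 := by
      field_simp
    linarith
  have hfin : (S.card : ℝ) ≤ P := by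
    refine le_trans ?_ hP
    have h5 : (S.card : ℝ) * (1 / (2 * (D : ℝ))) ^ 2 ≤ 2 * Real.log (2 * B) := by
      linarith
    have h6 : (S.card : ℝ) = (S.card : ℝ) * (1 / (2 * (D : ℝ))) ^ 2 * (4 * (D : ℝ) ^ 2) := by
      field_simp
      ring
    rw [h6]
    calc (S.card : ℝ) * (1 / (2 * (D : ℝ))) ^ 2 * (4 * (D : ℝ) ^ 2)
        ≤ 2 * Real.log (2 * B) * (4 * (D : ℝ) ^ 2) :=
          mul_le_mul_of_nonneg_right h5 (by positivity)
      _ = 8 * (D : ℝ) ^ 2 * Real.log (2 * B) := by ring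
  have hfin2 : S.card ≤ P := by exact_mod_cast hfin
  exact hlen.trans hfin2

/-- **Number of chains.** By induction: as long as `P ^ j ≤ N` nothing is cut off. (`1 ≤ P` since
`log (2 B) > 0`.) -/
theorem length_chain10 (hC : Ctx10 t f g o F0 V ω r η ι) (hh : ∀ C ∈ h0, Ori o C)
    (hr : h0.length ≤ r) {N D B P k : ℕ} (hD : 0 < D) (hB : 0 < B) (hη0 : 0 ≤ η)
    (hη : 8 * η * B * D ≤ 1) (hP : 8 * (D : ℝ) ^ 2 * Real.log (2 * B) ≤ P) (hN : P ^ k ≤ N) :
    ∀ j ≤ k, (chainL10 N D B V (smp f ω) h0 j).length ≤ P ^ j ∧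
      (j < k → chainL10 N D B V (smp f ω) h0 (j + 1) =
        (chainL10 N D B V (smp f ω) h0 j).flatMap fun U => ext10 D B V (smp f ω) h0 U) := by
  have hB1 : (1 : ℝ) ≤ B := by exact_mod_cast hB
  have hD1 : (1 : ℝ) ≤ D := by exact_mod_cast hD
  have hP1 : 1 ≤ P := by
    have h1 : 0 < Real.log (2 * B) := Real.log_pos (by linarith)
    have h2 : 0 < 8 * (D : ℝ) ^ 2 * Real.log (2 * B) := by positivity
    have h3 : (0 : ℝ) < P := lt_of_lt_of_le h2 hP
    exact_mod_cast h3
  have hstep : ∀ j, (chainL10 N D B V (smp f ω) h0 j).length ≤ P ^ j →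
      ((chainL10 N D B V (smp f ω) h0 j).flatMap fun U => ext10 D B V (smp f ω) h0 U).length ≤
        P ^ (j + 1) := by
    intro j hj
    rw [List.length_flatMap]
    have h1 : ((chainL10 N D B V (smp f ω) h0 j).map
        fun U => (ext10 D B V (smp f ω) h0 U).length).sum ≤
        ((chainL10 N D B V (smp f ω) h0 j).map
        fun U => (ext10 D B V (smp f ω) h0 U).length).length • P := by
      apply List.sum_le_card_nsmul
      intro x hx
      rw [List.mem_map] at hx
      obtain ⟨U, hU, rfl⟩ := hx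
      exact length_ext10 hC hh hr hD hB hη0 hη hP (chain_shape10 hC.hV j U hU).1
    refine h1.trans ?_
    rw [List.length_map, smul_eq_mul, pow_succ]
    exact Nat.mul_le_mul_right P hj
  have hsucc : ∀ j, j < k → (chainL10 N D B V (smp f ω) h0 j).length ≤ P ^ j →
      chainL10 N D B V (smp f ω) h0 (j + 1) =
        (chainL10 N D B V (smp f ω) h0 j).flatMap fun U => ext10 D B V (smp f ω) h0 U := by
    intro j hjk hj
    have h1 := hstep j hj
    have h2 : P ^ (j + 1) ≤ N := (Nat.pow_le_pow_right hP1 hjk).trans hN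
    have h3 : chainL10 N D B V (smp f ω) h0 (j + 1) =
        nextC10 N D B V (smp f ω) h0 (chainL10 N D B V (smp f ω) h0 j) := by
      unfold chainL10
      rw [Function.iterate_succ_apply']
    rw [h3]
    unfold nextC10
    rw [if_pos (h1.trans h2)]
  have hlen : ∀ j ≤ k, (chainL10 N D B V (smp f ω) h0 j).length ≤ P ^ j := by
    intro j
    induction j with
    | zero =>
      intro _
      unfold chainL10
      simp
    | succ j ih =>
      intro hj
      have h1 := ih (by omega)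
      rw [hsucc j (by omega) h1]
      exact hstep j h1
  intro j hj
  exact ⟨hlen j hj, fun hjk => hsucc j hjk (hlen j hj)⟩

end Pool.Agent.H.MP_cba12a_lc
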