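import Pool.Agent.H.MP_cba12a_lc.X10.Base

/-!
The decrease of the probability of zero.
-/

namespace Pool.Agent.H.MP_cba12a_lc

open Finset

variable {n : ℕ} {o : Fin n → Bool} {g : (Fin n → Bool) → Bool} {F : Finset (Finset (Fin n))}
  {t : ℕ}

/-- splitting a probability -/
theorem hot3_split10 (P S : (Fin n → Bool) → Prop) :
    pr P = pr (fun x => P x ∧ ¬ S x) + pr (fun x => S x ∧ P x) := by
  classical
  rw [pr_def P, pr_def (fun x => P x ∧ ¬ S x), pr_def (fun x => S x ∧ P x)]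
  refine mu_eq_add (fun x => ?_) (fun x => ?_)
  · simp only [decide_eq_true_eq]
    tauto
  · simp only [decide_eq_true_eq]
    tauto

/-- the probability of zero in terms of the other members -/
theorem hot3_ZZ_eq10 (hgF : ∀ x, g x = true ↔ ∃ A ∈ F, On o A x) {T U : Finset (Fin n)}
    (hT : T ∈ F) (hU : U ⊆ T) :
    pr (fun x => ∀ A ∈ F, A ≠ T → ¬ On o A (sOn o U x)) =
      ZZ o g U + (1 / 2) ^ (T \ U).card * ZT o F T := by
  rw [hot3_split10 (fun x => ∀ A ∈ F, A ≠ T → ¬ On o A (sOn o U x)) (fun x => On o (T \ U) x),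
    pr_on o (T \ U) (fun x => ∀ A ∈ F, A ≠ T → ¬ On o A (sOn o U x))]
  congr 1
  · unfold ZZ
    refine pr_congr fun x => ?_
    constructor
    · rintro ⟨h1, h2⟩
      by_contra hc
      rw [Bool.not_eq_false, hgF] at hc
      obtain ⟨A, hA, hx⟩ := hc
      by_cases hAT : A = T
      · rw [hAT] at hx
        exact h2 ((on_sOn_iff o T U x).1 hx)
      · exact h1 A hA hAT hx
    · intro h
      have h3 : ∀ A ∈ F, ¬ On o A (sOn o U x) := by
        intro A hA hx
        have h4 := (hgF (sOn o U x)).2 ⟨A, hA, hx⟩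
        rw [h] at h4
        exact Bool.false_ne_true h4
      exact ⟨fun A hA _ => h3 A hA, fun hx => h3 T hT ((on_sOn_iff o T U x).2 hx)⟩
  · congr 1
    unfold ZT
    refine pr_congr fun x => ?_
    rw [sOn_sOn, union_sdiff_of_subset hU]

/-- `Z(U) - Z(U ∪ i)` is at least the decrease of the probability that no other member is on. -/
theorem ZZ_sub_ge10 (hgF : ∀ x, g x = true ↔ ∃ A ∈ F, On o A x) {T U : Finset (Fin n)}
    (hT : T ∈ F) (hU : U ⊆ T) {i : Fin n} (hi : i ∈ T \ U) :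
    pr (fun x => ∀ A ∈ F, A ≠ T → ¬ On o A (sOn o U x)) -
        pr (fun x => ∀ A ∈ F, A ≠ T → ¬ On o A (sOn o (insert i U) x)) +
        (1 / 2) ^ (T \ U).card * ZT o F T ≤
      ZZ o g U - ZZ o g (insert i U) := by
  have hi' := mem_sdiff.1 hi
  have h1 := hot3_ZZ_eq10 hgF hT hU
  have h2 := hot3_ZZ_eq10 hgF hT (insert_subset hi'.1 hU)
  rw [h1, h2]
  have h3 : T \ insert i U = (T \ U).erase i := by
    rw [sdiff_insert]
  have h4 : (T \ U).card = (T \ insert i U).card + 1 := by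
    rw [h3, card_erase_of_mem hi]
    have : 0 < (T \ U).card := card_pos.2 ⟨i, hi⟩
    omega
  rw [h4, pow_succ]
  have h5 := ZT_nonneg o F T
  nlinarith

end Pool.Agent.H.MP_cba12a_lc
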