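import Pool.Agent.H.MP_cba12a_lc.X10.Hot2
import Pool.Agent.H.MP_cba12a_lc.X10.Hot3

/-!
The non-hot lemma and the chain lemma.
-/

namespace Pool.Agent.H.MP_cba12a_lc

open Finset

variable {n : ℕ} {o : Fin n → Bool} {g : (Fin n → Bool) → Bool} {F : Finset (Finset (Fin n))}
  {t : ℕ}

/-- The probability that no other member is on decreases when a variable is set on. -/
theorem hot_noOther_anti10 {T U V : Finset (Fin n)} (h : U ⊆ V) :
    pr (fun x => ∀ A ∈ F, A ≠ T → ¬ On o A (sOn o V x)) ≤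
      pr (fun x => ∀ A ∈ F, A ≠ T → ¬ On o A (sOn o U x)) :=
  pr_mono fun _ hx A hA hAT => (dnP_not_on o A).anti h (hx A hA hAT)

/-- The non-hot lemma. -/
theorem nonhot10 (hgF : ∀ x, g x = true ↔ ∃ A ∈ F, On o A x) (hshare : Shr t F)
    {T U : Finset (Fin n)} (hT : T ∈ F) (hU : U ⊆ T)
    (hsum : ∑ i ∈ T \ U, (ZZ o g U - ZZ o g (insert i U)) ≤ (1 / 2) ^ (t + 1) * ZZ o g U) :
    ZZ o g U ≤ 2 * ZT o F T := by
  have h1 := patterns10 (o := o) hshare hT hU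
  have hZT := ZT_nonneg o F T
  have h2 : ∑ i ∈ T \ U, (pr (fun x => ∀ A ∈ F, A ≠ T → ¬ On o A (sOn o U x)) -
      pr (fun x => ∀ A ∈ F, A ≠ T → ¬ On o A (sOn o (insert i U) x))) ≤
      ∑ i ∈ T \ U, (ZZ o g U - ZZ o g (insert i U)) := by
    refine sum_le_sum fun i hi => ?_
    have h3 := ZZ_sub_ge10 hgF hT hU hi
    have h4 : 0 ≤ (1 / 2 : ℝ) ^ (T \ U).card * ZT o F T := by positivity
    linarith
  have h5 : ZZ o g U ≤ pr (fun x => ∀ A ∈ F, A ≠ T → ¬ On o A (sOn o U x)) := by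
    refine pr_mono fun x hx A hA _ hon => ?_
    have h6 : g (sOn o U x) = true := (hgF _).2 ⟨A, hA, hon⟩
    rw [hx] at h6
    exact Bool.false_ne_true h6
  have h7 : (2 : ℝ) ^ t * ∑ i ∈ T \ U, (pr (fun x => ∀ A ∈ F, A ≠ T → ¬ On o A (sOn o U x)) -
      pr (fun x => ∀ A ∈ F, A ≠ T → ¬ On o A (sOn o (insert i U) x))) ≤
      2 ^ t * ((1 / 2) ^ (t + 1) * ZZ o g U) :=
    mul_le_mul_of_nonneg_left (h2.trans hsum) (by positivity)
  have h8 : (2 : ℝ) ^ t * ((1 / 2) ^ (t + 1) * ZZ o g U) = ZZ o g U / 2 := by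
    rw [pow_succ, ← mul_assoc, ← mul_assoc, ← mul_pow]
    norm_num
    ring
  linarith

/-- The chain lemma. -/
theorem chain10 (hgF : ∀ x, g x = true ↔ ∃ A ∈ F, On o A x) (hshare : Shr t F)
    {T U : Finset (Fin n)} (hT : T ∈ F) (hU : U ⊂ T) :
    ∃ i ∈ T \ U, ZZ o g (insert i U) ≤ (1 - (1 / 2) ^ (T.card + t + 1)) * ZZ o g U := by
  have hZ := ZZ_nonneg o g U
  by_cases hsum : ∑ i ∈ T \ U, (ZZ o g U - ZZ o g (insert i U)) ≤ (1 / 2) ^ (t + 1) * ZZ o g U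
  · have h1 := nonhot10 hgF hshare hT hU.1 hsum
    obtain ⟨i, hiT, hiU⟩ := Finset.exists_of_ssubset hU
    have hi : i ∈ T \ U := mem_sdiff.2 ⟨hiT, hiU⟩
    refine ⟨i, hi, ?_⟩
    have h2 := ZZ_sub_ge10 hgF hT hU.1 hi
    have h3 := hot_noOther_anti10 (o := o) (F := F) (T := T) (subset_insert i U)
    have h4 : (1 / 2 : ℝ) ^ (T.card + t + 1) ≤ (1 / 2) ^ ((T \ U).card + 1) := by
      refine pow_le_pow_of_le_one (by norm_num) (by norm_num) ?_
      have := card_le_card (sdiff_subset (s := T) (t := U))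
      omega
    have h5 : (1 / 2 : ℝ) ^ (T.card + t + 1) * ZZ o g U ≤
        (1 / 2) ^ ((T \ U).card + 1) * ZZ o g U := mul_le_mul_of_nonneg_right h4 hZ
    have h6 : (1 / 2 : ℝ) ^ ((T \ U).card + 1) * ZZ o g U ≤
        (1 / 2) ^ ((T \ U).card + 1) * (2 * ZT o F T) :=
      mul_le_mul_of_nonneg_left h1 (by positivity)
    have h7 : (1 / 2 : ℝ) ^ ((T \ U).card + 1) * (2 * ZT o F T) =
        (1 / 2) ^ (T \ U).card * ZT o F T := by
      rw [pow_succ]
      ring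
    rw [one_sub_mul]
    linarith
  · by_contra hcon
    push Not at hcon hsum
    have h1 : ∑ i ∈ T \ U, (ZZ o g U - ZZ o g (insert i U)) ≤
        ∑ _i ∈ T \ U, (1 / 2 : ℝ) ^ (T.card + t + 1) * ZZ o g U := by
      refine sum_le_sum fun i hi => ?_
      have h2 := hcon i hi
      rw [one_sub_mul] at h2
      linarith
    rw [sum_const, nsmul_eq_mul] at h1
    have h3 : (((T \ U).card : ℕ) : ℝ) ≤ 2 ^ T.card := by
      have h4 : (T \ U).card ≤ T.card := card_le_card sdiff_subset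
      have h5 : T.card < 2 ^ T.card := Nat.lt_two_pow_self
      exact_mod_cast h4.trans h5.le
    have h6 : (((T \ U).card : ℕ) : ℝ) * ((1 / 2 : ℝ) ^ (T.card + t + 1) * ZZ o g U) ≤
        2 ^ T.card * ((1 / 2 : ℝ) ^ (T.card + t + 1) * ZZ o g U) :=
      mul_le_mul_of_nonneg_right h3 (by positivity)
    have h7 : (2 : ℝ) ^ T.card * ((1 / 2 : ℝ) ^ (T.card + t + 1) * ZZ o g U) =
        (1 / 2) ^ (t + 1) * ZZ o g U := by
      rw [add_assoc, pow_add, ← mul_assoc, ← mul_assoc, ← mul_pow]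
      norm_num
    linarith

end Pool.Agent.H.MP_cba12a_lc
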