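import Pool.Agent.H.MP_cba12a_lc.X10.AlgD

/-!
The small sets: facts on lists.
-/

namespace Pool.Agent.H.MP_cba12a_lc

theorem eqL_iff10 {l l' : Lit} : eqL l l' = true ↔ l = l' := by
  unfold eqL
  rw [Bool.and_eq_true, beq_iff_eq, beq_iff_eq]
  exact Prod.ext_iff.symm

/-- `sub10 C D` says that all literals of `C` are in `D` (`eqL l l' = true ↔ l = l'`). -/
theorem sub10_iff {C D : List Lit} : sub10 C D = true ↔ ∀ l ∈ C, l ∈ D := by
  unfold sub10
  rw [List.all_eq_true]
  refine forall_congr' fun l => forall_congr' fun _ => ?_
  rw [List.any_eq_true]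
  constructor
  · rintro ⟨l', h1, h2⟩
    rw [eqL_iff10] at h2
    rw [h2]
    exact h1
  · intro h
    exact ⟨l, h, eqL_iff10.2 rfl⟩

/-- one step does nothing or adds an acceptable set -/
theorem smallStep10_cases (A : ℕ) (S : Samples) (L h : List (List Lit)) :
    (smallStep10 A S L h = h ∧ ∀ C ∈ L, accS10 A S h C = false) ∨
      ∃ C, C ∈ L ∧ accS10 A S h C = true ∧ smallStep10 A S L h = C :: h := by
  unfold smallStep10
  rcases hF : L.filter (fun C => accS10 A S h C) with _ | ⟨C, T⟩
  · left
    refine ⟨by simp, fun C hC => ?_⟩
    have h1 := List.filter_eq_nil_iff.1 hF C hC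
    simpa using h1
  · right
    have h1 : C ∈ L.filter (fun C => accS10 A S h C) := by
      rw [hF]
      exact List.mem_cons_self
    rw [List.mem_filter] at h1
    exact ⟨C, h1.1, h1.2, by simp⟩

theorem small10_iter_ind {A : ℕ} {S : Samples} {L : List (List Lit)} {P : List (List Lit) → Prop}
    (h0 : P []) (hs : ∀ h C, P h → C ∈ L → accS10 A S h C = true → P (C :: h)) (k : ℕ) :
    P ((smallStep10 A S L)^[k] []) := by
  induction k with
  | zero => exact h0
  | succ k ih =>
    rw [Function.iterate_succ_apply']
    rcases smallStep10_cases A S L ((smallStep10 A S L)^[k] []) with h | ⟨C, hC, hacc, h⟩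
    · rw [h.1]
      exact ih
    · rw [h]
      exact hs _ C ih hC hacc

/-- Induction for `small10`: every iterate of `smallStep10` is `h` or `C :: h` with `C ∈ L`,
`accS10 A S h C = true`. -/
theorem small10_ind {A : ℕ} {S : Samples} {L : List (List Lit)} {P : List (List Lit) → Prop}
    (h0 : P []) (hs : ∀ h C, P h → C ∈ L → accS10 A S h C = true → P (C :: h)) :
    P (small10 A S L) := small10_iter_ind h0 hs L.length

theorem small10_mem {A : ℕ} {S : Samples} {L : List (List Lit)} :
    ∀ C ∈ small10 A S L, C ∈ L := by
  refine small10_ind (P := fun h => ∀ C ∈ h, C ∈ L) (by simp) ?_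
  intro h C ih hC _ D hD
  rcases List.mem_cons.1 hD with rfl | hD
  · exact hC
  · exact ih D hD

theorem small10_iter_length {A : ℕ} {S : Samples} {L : List (List Lit)} (k : ℕ) :
    ((smallStep10 A S L)^[k] []).length ≤ k := by
  induction k with
  | zero => simp
  | succ k ih =>
    rw [Function.iterate_succ_apply']
    rcases smallStep10_cases A S L ((smallStep10 A S L)^[k] []) with h | ⟨C, hC, hacc, h⟩
    · rw [h.1]
      omega
    · rw [h, List.length_cons]
      omega

/-- `small10` has at most `L.length` members (one more in each of the `L.length` steps). -/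
theorem small10_length {A : ℕ} {S : Samples} {L : List (List Lit)} :
    (small10 A S L).length ≤ L.length := small10_iter_length L.length

/-- the iterates have different members -/
theorem small10_iter_nodup {A : ℕ} {S : Samples} {L : List (List Lit)} (k : ℕ) :
    ((smallStep10 A S L)^[k] []).Nodup := by
  refine small10_iter_ind (P := fun h => h.Nodup) List.nodup_nil ?_ k
  intro h C ih _ hacc
  refine List.nodup_cons.2 ⟨fun hC => ?_, ih⟩
  unfold accS10 at hacc
  rw [Bool.and_eq_true] at hacc
  have h1 : (h.any fun D => sub10 D C) = true :=
    List.any_eq_true.2 ⟨C, hC, sub10_iff.2 fun l hl => hl⟩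
  rw [h1] at hacc
  simp at hacc

/-- **At the end no member of `L` is acceptable.** Proof: if in some of the `L.length` steps
nothing is acceptable, the iteration has stopped there. Otherwise every step adds a member of `L`
which is not yet in `h` (a member `C ∈ h` is not acceptable, as `sub10 C C`), so after `L.length`
steps `h` has `L.length` different members, all in `L`, hence `L ⊆ h`
(`List.subset_of_nodup_of_length_le` style: `h.toFinset ⊆ L.toFinset`, cardinalities), and no
member of `L` is acceptable. -/
theorem small10_end {A : ℕ} {S : Samples} {L : List (List Lit)} :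
    ∀ C ∈ L, accS10 A S (small10 A S L) C = false := by
  classical
  -- either the iteration has stopped or its length has grown in every step
  have key : ∀ k, (∀ C ∈ L, accS10 A S ((smallStep10 A S L)^[k] []) C = false) ∨
      ((smallStep10 A S L)^[k] []).length = k := by
    intro k
    induction k with
    | zero => exact Or.inr (by simp)
    | succ k ih =>
      rw [Function.iterate_succ_apply']
      rcases smallStep10_cases A S L ((smallStep10 A S L)^[k] []) with h | ⟨C, hC, hacc, h⟩
      · rw [h.1]
        exact Or.inl h.2
      · rcases ih with ih | ih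
        · rw [ih C hC] at hacc
          exact absurd hacc (by simp)
        · right
          rw [h, List.length_cons, ih]
  intro C hC
  rcases key L.length with h | h
  · exact h C hC
  · have hnd : (small10 A S L).Nodup := small10_iter_nodup L.length
    have hsub : small10 A S L ⊆ L := fun D hD => small10_mem D hD
    have hlen : L.length ≤ (small10 A S L).length := le_of_eq h.symm
    have hCm : C ∈ small10 A S L := (List.Subperm.perm_of_length_le
      (List.subperm_of_subset hnd hsub) hlen).mem_iff.2 hC
    unfold accS10
    have h1 : ((small10 A S L).any fun D => sub10 D C) = true :=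
      List.any_eq_true.2 ⟨C, hCm, sub10_iff.2 fun l hl => hl⟩
    rw [h1]
    simp

end Pool.Agent.H.MP_cba12a_lc
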