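import Pool.Agent.H.MP_cba12a_lc.X10.Cv1
import Pool.Agent.H.MP_cba12a_lc.X10.Sm1
import Pool.Agent.H.MP_cba12a_lc.P9.Poly10

/-!
The small sets: error, and what they achieve.
-/

namespace Pool.Agent.H.MP_cba12a_lc

open Finset

variable {n m r t : ℕ} {o : Fin n → Bool} {f g : (Fin n → Bool) → Bool}
  {ω : Fin m → Fin n → Bool} {η ι τ : ℝ} {h0 : List (List Lit)} {V : List Lit}
  {F0 : Finset (Finset (Fin n))}

/-- The error of the iterates. -/
theorem Sm2_iter (hC : Ctx10 t f g o F0 V ω r η ι) {A : ℕ} (hA : 0 < A)
    {L : List (List Lit)} (hL : ∀ C ∈ L, Ori o C) (hr : L.length ≤ r) (j : ℕ)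
    (hj : j ≤ L.length) :
    pr (fun x => g x = false ∧ ¬ Off o (Hs n ((smallStep10 A (smp f ω) L)^[j] [])) x) ≤
      j * (1 / A + η) := by
  have hη : 0 ≤ η := by
    have h0 := cnt_close10 (o := o) (C := []) (h := []) hC.hrep (by intro l hl; cases hl)
      (by intro l hl; cases hl) (by simp)
    exact le_trans (abs_nonneg _) h0
  have hA' : (0 : ℝ) < A := by exact_mod_cast hA
  have hpos : 0 ≤ 1 / (A : ℝ) + η := by positivity
  induction j with
  | zero =>
    rw [Function.iterate_zero, id_eq, Nat.cast_zero, zero_mul]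
    have h0 : pr (fun x : Fin n → Bool => g x = false ∧ ¬ Off o (Hs n []) x) ≤
        pr (fun _ : Fin n → Bool => False) := by
      refine pr_mono fun x hx => hx.2 ?_
      intro C hC
      rw [mem_Hs] at hC
      obtain ⟨D, hD, _⟩ := hC
      cases hD
    refine h0.trans (le_of_eq ?_)
    rw [pr_def]
    unfold mu ct
    simp
  | succ j ih =>
    have ih := ih (by omega)
    rw [Function.iterate_succ_apply']
    have hb := bd_small10 A (smp f ω) L j
    generalize (smallStep10 A (smp f ω) L)^[j] [] = h at ih hb ⊢
    unfold smallStep10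
    have hstep : ((j : ℝ)) * (1 / A + η) ≤ ((j + 1 : ℕ) : ℝ) * (1 / A + η) := by
      push_cast
      nlinarith
    have hOr : ∀ D ∈ h, Ori o D := fun D hD => hL D (hb.2 D hD)
    cases hF : L.filter fun C => accS10 A (smp f ω) h C with
    | nil =>
      rw [List.take_nil, List.nil_append]
      exact ih.trans hstep
    | cons C L' =>
      have hmem : C ∈ L.filter fun C => accS10 A (smp f ω) h C := by
        rw [hF]
        exact List.mem_cons_self
      obtain ⟨hCL, hacc⟩ := List.mem_filter.1 hmem
      have hCo := hL C hCL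
      rw [List.take_succ_cons, List.take_zero, List.singleton_append]
      unfold accS10 at hacc
      rw [Bool.and_eq_true, decide_eq_true_iff] at hacc
      have hcnt := hacc.1
      rw [length_smp] at hcnt
      have hm : (0 : ℝ) < m := by exact_mod_cast hC.hm
      have h1 : (cnt (smp f ω) false C h : ℝ) / m ≤ 1 / A := by
        rw [div_le_div_iff₀ hm hA', one_mul]
        exact_mod_cast hcnt
      have h2 := (abs_le.1 (cnt_close10 hC.hrep hCo hOr (by omega))).1
      have h3 : pr (fun x => g x = false ∧ ¬ Off o (Hs n (C :: h)) x) ≤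
          pr (fun x => g x = false ∧ ¬ Off o (Hs n h) x) +
            pr (fun x => On o (fs n C) x ∧ g x = false ∧ Off o (Hs n h) x) := by
        refine pr_le_add fun x hx => ?_
        by_cases hoff : Off o (Hs n h) x
        · right
          refine ⟨?_, hx.1, hoff⟩
          by_contra hon
          apply hx.2
          intro B hB
          rw [mem_Hs] at hB
          obtain ⟨D, hD, rfl⟩ := hB
          rcases List.mem_cons.1 hD with rfl | hD
          · exact hon
          · exact hoff _ (mem_Hs.2 ⟨D, hD, rfl⟩)
        · exact Or.inl ⟨hx.1, hoff⟩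
      push_cast
      linarith

/-- **The error of the small sets.** Proof by `small10_ind`: adding `C` increases the event by
`On C ∧ g = false ∧ Off h`, of density at most `1 / A + η` by `cnt_close10`, as
`cnt * A ≤ m`. (All lists `h` are no longer than `L.length ≤ r`: carry `h.length ≤ ..` along, or
prove the statement for the iterates `(smallStep10 A S L)^[j] []`, `j ≤ L.length`.) -/
theorem small_err10 (hC : Ctx10 t f g o F0 V ω r η ι) {A : ℕ} (hA : 0 < A)
    {L : List (List Lit)} (hL : ∀ C ∈ L, Ori o C) (hr : L.length ≤ r) :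
    pr (fun x => g x = false ∧ ¬ Off o (Hs n (small10 A (smp f ω) L)) x) ≤
      L.length * (1 / A + η) :=
  Sm2_iter hC hA hL hr L.length le_rfl

/-- Flipping a variable of small influence: `Z(U) - Z(insert i U) ≤ 2^{|U|} ι`.
Proof: with `P x = (q x = false ∧ q (update x i (o i)) = true)`,
`Z(U) - Z(insert i U) ≤ pr (fun x => P (sOn o U x)) = 2^{|U|} pr (On U ∧ P) ≤ 2^{|U|} pr P`
(`pr_on`), and `P x` implies `x i ≠ o i`, so `update x i (o i) = flp i x`, and
`pr (fun x => q x = false ∧ q (flp i x) = true) = pr (fun x => q (flp i x) = false ∧ q x = true)`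
by `pr_flp` (`flp_flp`). -/
theorem ZZ_insert10 {q : (Fin n → Bool) → Bool} {i : Fin n} (hι : 0 ≤ ι)
    (hi : pr (fun x => q x = true ∧ q (flp i x) = false) ≤ ι) (U : Finset (Fin n)) :
    ZZ o q U - ZZ o q (insert i U) ≤ 2 ^ U.card * ι := by
  have hins : ∀ x, sOn o (insert i U) x = Function.update (sOn o U x) i (o i) := by
    intro x
    funext k
    by_cases hk : k = i
    · subst hk
      rw [sOn_mem (mem_insert_self _ _), Function.update_self]
    · rw [Function.update_of_ne hk]
      by_cases hkU : k ∈ U
      · rw [sOn_mem hkU, sOn_mem (mem_insert_of_mem hkU)]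
      · rw [sOn_not_mem hkU, sOn_not_mem (by rw [mem_insert]; tauto)]
  have h1 : ZZ o q U ≤ ZZ o q (insert i U) +
      pr (fun x => (fun y => q y = false ∧ q (Function.update y i (o i)) = true)
        (sOn o U x)) := by
    unfold ZZ
    refine pr_le_add fun x hx => ?_
    rw [hins]
    by_cases hq : q (Function.update (sOn o U x) i (o i)) = false
    · exact Or.inl hq
    · exact Or.inr ⟨hx, by simpa using hq⟩
  have h2 := pr_on o U (fun y => q y = false ∧ q (Function.update y i (o i)) = true)
  have h3 : pr (fun x => (fun y => q y = false ∧ q (Function.update y i (o i)) = true)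
      (sOn o U x)) = 2 ^ U.card *
        pr (fun x => On o U x ∧ (q x = false ∧ q (Function.update x i (o i)) = true)) := by
    rw [h2, ← mul_assoc, ← mul_pow]
    norm_num
  have h4 : pr (fun x => On o U x ∧ (q x = false ∧ q (Function.update x i (o i)) = true)) ≤
      pr (fun x => (fun y => q y = true ∧ q (flp i y) = false) (flp i x)) := by
    refine pr_mono fun x hx => ?_
    obtain ⟨_, hx1, hx2⟩ := hx
    have hne : x i ≠ o i := by
      intro he
      rw [upd_self he, hx1] at hx2
      cases hx2
    have he : flp i x = Function.update x i (o i) := by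
      unfold flp
      congr 1
      generalize x i = a at hne ⊢
      generalize o i = b at hne ⊢
      cases a <;> cases b <;> first | rfl | exact absurd rfl hne
    refine ⟨?_, ?_⟩
    · rw [he]
      exact hx2
    · rw [flp_flp]
      exact hx1
  have h5 := pr_flp i (fun y => q y = true ∧ q (flp i y) = false)
  rw [h5] at h4
  have h6 : (2 : ℝ) ^ U.card *
      pr (fun x => On o U x ∧ (q x = false ∧ q (Function.update x i (o i)) = true)) ≤
      2 ^ U.card * ι := mul_le_mul_of_nonneg_left (h4.trans hi) (by positivity)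
  rw [h3] at h1
  linarith

/-- The influence of an unlisted variable on `gp10 g h0` is at most its influence on `g`, because
it occurs in no member of `h0`. -/
theorem infl_gp10 (hC : Ctx10 t f g o F0 V ω r η ι) (hh0 : ∀ D ∈ h0, ∀ l ∈ D, l ∈ V) {i : Fin n}
    (hi : ((i : ℕ), o i) ∉ V) :
    pr (fun x => gp10 g h0 x = true ∧ gp10 g h0 (flp i x) = false) ≤ ι := by
  refine (pr_mono fun x hx => ?_).trans (hC.hinf i hi)
  obtain ⟨h1, h2⟩ := hx
  unfold gp10 at h1 h2
  rw [Bool.or_eq_false_iff] at h2
  have h3 : satD (List.ofFn (flp i x)) h0 = satD (List.ofFn x) h0 := by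
    rw [Bool.eq_iff_iff, satD_iff, satD_iff]
    have h4 : ∀ D ∈ h0, sat (List.ofFn (flp i x)) D = sat (List.ofFn x) D := by
      intro D hD
      refine sat_flp fun l hl he => hi ?_
      have hlV := hh0 D hD l hl
      obtain ⟨k, rfl⟩ := hC.hV l hlV
      have hki : k = i := Fin.ext he
      rw [hki] at hlV
      exact hlV
    constructor
    · rintro ⟨D, hD, h⟩
      exact ⟨D, hD, by rw [← h4 D hD]; exact h⟩
    · rintro ⟨D, hD, h⟩
      exact ⟨D, hD, by rw [h4 D hD]; exact h⟩
  rw [h3] at h2
  rw [h2.2, Bool.or_false] at h1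
  exact ⟨h1, h2.1⟩

end Pool.Agent.H.MP_cba12a_lc
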