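import Pool.Agent.H.MP_cba12a_lc.X10.Ch1b
import Pool.Agent.H.MP_cba12a_lc.X10.Hot
import Pool.Agent.H.MP_cba12a_lc.X10.Sm2

/-!
Chains inside a term.
-/

namespace Pool.Agent.H.MP_cba12a_lc

open Finset

variable {n m r t : ℕ} {o : Fin n → Bool} {f g : (Fin n → Bool) → Bool}
  {ω : Fin m → Fin n → Bool} {η ι : ℝ} {h0 : List (List Lit)} {V : List Lit}
  {F0 F : Finset (Finset (Fin n))}

/-- A variable with `Z(insert i U) ≤ (1 - 2/D) Z(U)` is listed, if `2^{-|U|} Z(U) ≥ 1/(2B)` and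
`4 ι B D ≤ 1`. -/
theorem listed10 (hC : Ctx10 t f g o F0 V ω r η ι) (hh0 : ∀ D ∈ h0, ∀ l ∈ D, l ∈ V)
    {D B : ℕ} (hD : 0 < D) (hB : 0 < B) (hι0 : 0 ≤ ι) (hι : 4 * ι * B * D ≤ 1)
    {U : Finset (Fin n)} {i : Fin n}
    (hZ : ZZ o (gp10 g h0) (insert i U) ≤ (1 - 2 / D) * ZZ o (gp10 g h0) U)
    (hq : 1 / (2 * B) ≤ (1 / 2) ^ U.card * ZZ o (gp10 g h0) U) : ((i : ℕ), o i) ∈ V := by
  by_contra hi
  have h1 := infl_gp10 hC hh0 hi
  have h2 := ZZ_insert10 (o := o) hι0 h1 U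
  have hD' : (0 : ℝ) < D := by exact_mod_cast hD
  have hB' : (0 : ℝ) < B := by exact_mod_cast hB
  have hw : (0 : ℝ) < 2 ^ U.card := by positivity
  set z := ZZ o (gp10 g h0) U with hz
  have h3 : 2 / (D : ℝ) * z ≤ 2 ^ U.card * ι := by
    rw [one_sub_mul] at hZ
    linarith
  have h4 : (2 : ℝ) ^ U.card ≤ 2 * B * z := by
    have h5 := mul_le_mul_of_nonneg_left hq (by positivity : (0 : ℝ) ≤ 2 * B * 2 ^ U.card)
    have e1 : 2 * (B : ℝ) * 2 ^ U.card * (1 / (2 * B)) = 2 ^ U.card := by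
      field_simp
    have e2 : 2 * (B : ℝ) * 2 ^ U.card * ((1 / 2) ^ U.card * z) = 2 * B * z := by
      have e3 : (2 : ℝ) ^ U.card * (1 / 2) ^ U.card = 1 := by rw [← mul_pow]; norm_num
      calc 2 * (B : ℝ) * 2 ^ U.card * ((1 / 2) ^ U.card * z)
          = 2 * B * (2 ^ U.card * (1 / 2) ^ U.card) * z := by ring
        _ = 2 * B * z := by rw [e3, mul_one]
    rwa [e1, e2] at h5
  have hz0 : 0 < z := by
    have : 0 < 2 * (B : ℝ) * z := hw.trans_le h4
    exact pos_of_mul_pos_right this (by positivity)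
  have h6 : 2 / (D : ℝ) * z ≤ 2 * B * z * ι := h3.trans (mul_le_mul_of_nonneg_right h4 hι0)
  have h7 : z ≤ (D * B * ι) * z := by
    have h8 := mul_le_mul_of_nonneg_left h6 (by positivity : (0 : ℝ) ≤ D / 2)
    have e1 : (D : ℝ) / 2 * (2 / D * z) = z := by field_simp
    rw [e1] at h8
    linarith
  have h9 : 1 ≤ (D : ℝ) * B * ι := by
    by_contra hlt
    push Not at hlt
    have := mul_lt_mul_of_pos_right hlt hz0
    linarith
  have e : 4 * ι * (B : ℝ) * D = 4 * (D * B * ι) := by ring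
  rw [e] at hι
  linarith

/-- Numerical part of the test for an extension. -/
theorem ch2_test {c0 c1 q0 q1 η : ℝ} {B D : ℝ} (hB : 0 < B) (hD : 0 < D) (hD2 : 2 ≤ D)
    (hη0 : 0 ≤ η) (hη : 8 * η * B * D ≤ 1) (h0 : |c0 - q0| ≤ η) (h1 : |c1 - q1| ≤ η)
    (hc : 1 / B < c0) (hq : 2 * q1 ≤ (1 - 2 / D) * q0) : 2 * D * c1 + c0 ≤ D * c0 := by
  have h0' := abs_le.1 h0
  have h1' := abs_le.1 h1
  have h2 : 8 * (η * D) ≤ c0 := by
    have h3 : 8 * (η * D) ≤ 1 / B := by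
      rw [le_div_iff₀ hB]
      linarith
    linarith
  have h4 : D * (2 * q1) ≤ (D - 2) * q0 := by
    have h5 := mul_le_mul_of_nonneg_left hq hD.le
    have e : D * ((1 - 2 / D) * q0) = (D - 2) * q0 := by field_simp
    rwa [e] at h5
  have h6 : (D - 2) * q0 ≤ (D - 2) * (c0 + η) :=
    mul_le_mul_of_nonneg_left (by linarith) (by linarith)
  have h7 : 2 * D * c1 ≤ 2 * D * (q1 + η) :=
    mul_le_mul_of_nonneg_left (by linarith) (by positivity)
  nlinarith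

/-- **Extending a chain inside a term.** -/
theorem ext_exists10 (hC : Ctx10 t f g o F0 V ω r η ι) (hh : ∀ C ∈ h0, Ori o C)
    (hh0 : ∀ D ∈ h0, ∀ l ∈ D, l ∈ V) (hr : h0.length ≤ r)
    (hgF : ∀ x, gp10 g h0 x = true ↔ ∃ A ∈ F, On o A x) (hshare : Shr t F)
    {B : ℕ} (hB : 0 < B) (hη0 : 0 ≤ η) (hι0 : 0 ≤ ι) {T : Finset (Fin n)} (hT : T ∈ F)
    (hη : 8 * η * B * 2 ^ (T.card + t + 2) ≤ 1) (hι : 4 * ι * B * 2 ^ (T.card + t + 2) ≤ 1)
    {U : List Lit} (hU : Ori o U) (hUT : fs n U ⊂ T)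
    (halive : (smp f ω).length < cnt (smp f ω) false U h0 * B) :
    ∃ i ∈ T \ fs n U, (((i : ℕ), o i) :: U) ∈
      ext10 (2 ^ (T.card + t + 2)) B V (smp f ω) h0 U := by
  obtain ⟨i, hi, hZ⟩ := chain10 hgF hshare hT hUT
  have hiU : i ∉ fs n U := (mem_sdiff.1 hi).2
  obtain ⟨D, hDe⟩ : ∃ D : ℕ, D = 2 ^ (T.card + t + 2) := ⟨_, rfl⟩
  have hD : 0 < D := by rw [hDe]; positivity
  have hDr : (D : ℝ) = 2 ^ (T.card + t + 2) := by rw [hDe]; push_cast; rfl
  have hD' : (0 : ℝ) < D := by exact_mod_cast hD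
  have hB' : (0 : ℝ) < B := by exact_mod_cast hB
  have hm' : (0 : ℝ) < m := by exact_mod_cast hC.hm
  have hD2 : (2 : ℝ) ≤ D := by
    rw [hDr, pow_succ]
    have h1 : (1 : ℝ) ≤ 2 ^ (T.card + t + 1) := one_le_pow₀ (by norm_num)
    linarith
  rw [← hDr] at hη hι
  have hZ' : ZZ o (gp10 g h0) (insert i (fs n U)) ≤ (1 - 2 / D) * ZZ o (gp10 g h0) (fs n U) := by
    have e : (1 / 2 : ℝ) ^ (T.card + t + 1) = 2 / D := by
      rw [hDr, pow_succ (2 : ℝ), one_div, inv_pow]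
      field_simp
    rwa [e] at hZ
  have hOri : Ori o (((i : ℕ), o i) :: U) := by
    intro l hl
    rcases List.mem_cons.1 hl with rfl | hl
    · exact ⟨i, rfl⟩
    · exact hU l hl
  have hq0 := lt_cnt10 hC.hrep hC.hm hB hU hh hr halive
  have hc0 := cntq10 hC.hrep hU hh hr
  have hc1 := cntq10 hC.hrep hOri hh hr
  rw [pr_on_ZZ] at hq0 hc0 hc1
  rw [fs_cons, card_insert_of_notMem hiU] at hc1
  have hηB : η ≤ 1 / (2 * B) := by
    rw [le_div_iff₀ (by positivity)]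
    have h1 : η * (2 * B) * 4 * 1 ≤ η * (2 * B) * 4 * D :=
      mul_le_mul_of_nonneg_left (by linarith) (by positivity)
    have h2 : 0 ≤ η * (2 * B) := by positivity
    have e : 8 * η * (B : ℝ) * D = η * (2 * B) * 4 * D := by ring
    rw [e] at hη
    linarith
  have hhalf : 1 / (2 * (B : ℝ)) ≤ (1 / 2) ^ (fs n U).card * ZZ o (gp10 g h0) (fs n U) := by
    have e : 1 / (B : ℝ) = 1 / (2 * B) + 1 / (2 * B) := by field_simp; norm_num
    rw [e] at hq0
    linarith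
  have hV : ((i : ℕ), o i) ∈ V := listed10 hC hh0 hD hB hι0 hι hZ' hhalf
  have hlen : (smp f ω).length = m := by
    unfold smp
    simp
  have hcB : 1 / (B : ℝ) < (cnt (smp f ω) false U h0 : ℝ) / m := by
    rw [hlen] at halive
    rw [div_lt_div_iff₀ hB' hm', one_mul]
    exact_mod_cast halive
  have hq1 : 2 * ((1 / 2) ^ ((fs n U).card + 1) * ZZ o (gp10 g h0) (insert i (fs n U))) ≤
      (1 - 2 / D) * ((1 / 2) ^ (fs n U).card * ZZ o (gp10 g h0) (fs n U)) := by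
    have h1 := mul_le_mul_of_nonneg_left hZ' (by positivity : (0 : ℝ) ≤ (1 / 2) ^ (fs n U).card)
    rw [pow_succ]
    linarith
  have htest := ch2_test hB' hD' hD2 hη0 hη hc0 hc1 hcB hq1
  have htest2 : 2 * (D : ℝ) * cnt (smp f ω) false (((i : ℕ), o i) :: U) h0 +
      cnt (smp f ω) false U h0 ≤ D * cnt (smp f ω) false U h0 := by
    have h1 := mul_le_mul_of_nonneg_right htest hm'.le
    have e1 : (2 * (D : ℝ) * ((cnt (smp f ω) false (((i : ℕ), o i) :: U) h0 : ℝ) / m) +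
        (cnt (smp f ω) false U h0 : ℝ) / m) * m =
        2 * (D : ℝ) * cnt (smp f ω) false (((i : ℕ), o i) :: U) h0 +
          cnt (smp f ω) false U h0 := by field_simp
    have e2 : (D : ℝ) * ((cnt (smp f ω) false U h0 : ℝ) / m) * m =
        D * cnt (smp f ω) false U h0 := by field_simp
    rwa [e1, e2] at h1
  refine ⟨i, hi, ?_⟩
  rw [← hDe, mem_ext10]
  refine ⟨_, hV, rfl, fun l' hl' he => hiU ?_, halive, by exact_mod_cast htest2⟩
  rw [mem_fs, List.mem_map]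
  exact ⟨l', hl', he⟩

/-- The number of variables of an oriented list without repetitions. -/
theorem ch2_card {U : List Lit} (hU : Ori o U) (hnd : (U.map Prod.fst).Nodup) :
    (fs n U).card = U.length := by
  have h1 : (fs n U).image Fin.val = (U.map Prod.fst).toFinset := by
    ext a
    rw [mem_image, List.mem_toFinset]
    constructor
    · rintro ⟨i, hi, rfl⟩
      exact mem_fs.1 hi
    · intro ha
      obtain ⟨l, hl, rfl⟩ := List.mem_map.1 ha
      obtain ⟨i, rfl⟩ := hU l hl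
      exact ⟨i, mem_fs.2 ha, rfl⟩
  rw [← card_image_of_injective (fs n U) Fin.val_injective, h1,
    List.toFinset_card_of_nodup hnd, List.length_map]

/-- **Chains inside a term.** For `d ≤ |T|` with `P ^ d ≤ N` there is a chain with at most `d`
elements inside `T` which almost implies the target, or one with exactly `d` elements. -/
theorem chain_exists10 (hC : Ctx10 t f g o F0 V ω r η ι) (hh : ∀ C ∈ h0, Ori o C)
    (hh0 : ∀ D ∈ h0, ∀ l ∈ D, l ∈ V) (hr : h0.length ≤ r)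
    (hgF : ∀ x, gp10 g h0 x = true ↔ ∃ A ∈ F, On o A x) (hshare : Shr t F)
    {N B P d : ℕ} (hB : 0 < B) (hη0 : 0 ≤ η) (hι0 : 0 ≤ ι) {T : Finset (Fin n)} (hT : T ∈ F)
    (hη : 8 * η * B * 2 ^ (T.card + t + 2) ≤ 1) (hι : 4 * ι * B * 2 ^ (T.card + t + 2) ≤ 1)
    (hP : 8 * 4 ^ (T.card + t + 2) * Real.log (2 * B) ≤ P) (hN : P ^ d ≤ N)
    (hd : d ≤ T.card) :
    (∃ k ≤ d, ∃ U ∈ chainL10 N (2 ^ (T.card + t + 2)) B V (smp f ω) h0 k,
      fs n U ⊆ T ∧ ok10 B (smp f ω) h0 U = true) ∨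
    (∃ U ∈ chainL10 N (2 ^ (T.card + t + 2)) B V (smp f ω) h0 d, fs n U ⊆ T) := by
  have hB' : (1 : ℝ) ≤ B := by exact_mod_cast hB
  have hP1 : 1 ≤ P := by
    have h1 : 0 < Real.log (2 * B) := Real.log_pos (by linarith)
    have h2 : (0 : ℝ) < P := lt_of_lt_of_le (by positivity) hP
    exact_mod_cast h2
  have hP2 : 8 * ((2 ^ (T.card + t + 2) : ℕ) : ℝ) ^ 2 * Real.log (2 * B) ≤ P := by
    have e : ((2 ^ (T.card + t + 2) : ℕ) : ℝ) ^ 2 = 4 ^ (T.card + t + 2) := by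
      push_cast
      rw [← pow_mul, mul_comm, pow_mul]
      norm_num
    rw [e]
    exact hP
  have hη2 : 8 * η * B * ((2 ^ (T.card + t + 2) : ℕ) : ℝ) ≤ 1 := by
    push_cast
    exact hη
  induction d with
  | zero =>
    right
    refine ⟨[], ?_, ?_⟩
    · unfold chainL10
      simp
    · rw [fs_nil]
      exact empty_subset _
  | succ d ih =>
    have hN' : P ^ d ≤ N := (Nat.pow_le_pow_right hP1 (Nat.le_succ d)).trans hN
    rcases ih hN' (by omega) with ⟨k, hk, U, hU, hUT, hok⟩ | ⟨U, hU, hUT⟩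
    · exact Or.inl ⟨k, by omega, U, hU, hUT, hok⟩
    by_cases hok : ok10 B (smp f ω) h0 U = true
    · exact Or.inl ⟨d, Nat.le_succ d, U, hU, hUT, hok⟩
    right
    have halive : (smp f ω).length < cnt (smp f ω) false U h0 * B := by
      unfold ok10 at hok
      rw [decide_eq_true_iff] at hok
      exact not_le.1 hok
    obtain ⟨hUo, hUn, -, hUl⟩ := chain_shape10 hC.hV d U hU
    have hss : fs n U ⊂ T := by
      refine ⟨hUT, fun hTU => ?_⟩
      have h1 := card_le_card hTU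
      rw [ch2_card hUo hUn, hUl] at h1
      omega
    obtain ⟨i, hi, hext⟩ := ext_exists10 hC hh hh0 hr hgF hshare hB hη0 hι0 hT hη hι hUo hss halive
    have hnext := (length_chain10 hC hh hr (by positivity) hB hη0 hη2 hP2 hN d
      (Nat.le_succ d)).2 (Nat.lt_succ_self d)
    refine ⟨((i : ℕ), o i) :: U, ?_, ?_⟩
    · rw [hnext, List.mem_flatMap]
      exact ⟨U, hU, hext⟩
    · rw [fs_cons]
      exact insert_subset (mem_sdiff.1 hi).1 hUT

/-- In the case `d = |T|` the first alternative holds. -/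
theorem chain_full10 (hC : Ctx10 t f g o F0 V ω r η ι) (hh : ∀ C ∈ h0, Ori o C)
    (hh0 : ∀ D ∈ h0, ∀ l ∈ D, l ∈ V) (hr : h0.length ≤ r)
    (hgF : ∀ x, gp10 g h0 x = true ↔ ∃ A ∈ F, On o A x) (hshare : Shr t F)
    {N B P : ℕ} (hB : 0 < B) (hη0 : 0 ≤ η) (hι0 : 0 ≤ ι) {T : Finset (Fin n)} (hT : T ∈ F)
    (hη : 8 * η * B * 2 ^ (T.card + t + 2) ≤ 1) (hι : 4 * ι * B * 2 ^ (T.card + t + 2) ≤ 1)
    (hP : 8 * 4 ^ (T.card + t + 2) * Real.log (2 * B) ≤ P) (hN : P ^ T.card ≤ N) :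
    ∃ k ≤ T.card, ∃ U ∈ chainL10 N (2 ^ (T.card + t + 2)) B V (smp f ω) h0 k,
      fs n U ⊆ T ∧ ok10 B (smp f ω) h0 U = true := by
  rcases chain_exists10 hC hh hh0 hr hgF hshare hB hη0 hι0 hT hη hι hP hN le_rfl with
    h | ⟨U, hU, hUT⟩
  · exact h
  obtain ⟨hUo, hUn, -, hUl⟩ := chain_shape10 hC.hV T.card U hU
  have hfs : fs n U = T := by
    refine eq_of_subset_of_card_le hUT ?_
    rw [ch2_card hUo hUn, hUl]
  refine ⟨T.card, le_rfl, U, hU, hUT, ?_⟩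
  unfold ok10
  rw [decide_eq_true_iff]
  refine cnt_zero10 hC.hrep hC.hm ?_ hUo hh hr fun x hx => ?_
  · have h1 : (1 : ℝ) ≤ 2 ^ (T.card + t + 2) := one_le_pow₀ (by norm_num)
    have h2 : 0 ≤ η * B := by positivity
    have h3 : η * B * 1 ≤ η * B * 2 ^ (T.card + t + 2) := mul_le_mul_of_nonneg_left h1 h2
    have e : 8 * η * (B : ℝ) * 2 ^ (T.card + t + 2) = 8 * (η * B * 2 ^ (T.card + t + 2)) := by ring
    rw [e] at hη
    linarith
  · rw [hfs] at hx
    exact (hgF x).2 ⟨T, hT, hx⟩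

end Pool.Agent.H.MP_cba12a_lc
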