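import Pool.Agent.H.MP_cba12a_lc.X10.Cnt1
import Pool.Agent.H.MP_cba12a_lc.X10.Lvl

/-!
Few exceptional terms.
-/

namespace Pool.Agent.H.MP_cba12a_lc

open Finset

variable {n : ℕ} {o : Fin n → Bool} {g : (Fin n → Bool) → Bool}

/-- the exceptional members of `G`: for every `J ⊆ T` with at most `t` elements the variables of
`T \ J` have total relative influence more than `2^{-t-1}` at `J` -/
noncomputable def Exc10 (o : Fin n → Bool) (g : (Fin n → Bool) → Bool) (t : ℕ)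
    (G : Finset (Finset (Fin n))) : Finset (Finset (Fin n)) := by
  classical
  exact G.filter fun T => ∀ J ⊆ T, J.card ≤ t →
    (1 / 2) ^ (t + 1) * ZZ o g J < ∑ i ∈ T \ J, (ZZ o g J - ZZ o g (insert i J))

theorem mem_Exc10 {t : ℕ} {G : Finset (Finset (Fin n))} {T : Finset (Fin n)} :
    T ∈ Exc10 o g t G ↔ T ∈ G ∧ ∀ J ⊆ T, J.card ≤ t →
      (1 / 2) ^ (t + 1) * ZZ o g J < ∑ i ∈ T \ J, (ZZ o g J - ZZ o g (insert i J)) := by
  classical
  unfold Exc10
  rw [mem_filter]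

/-- the variables of relative influence at least `θ` at `J` -/
noncomputable def VJ10 (o : Fin n → Bool) (g : (Fin n → Bool) → Bool) (θ : ℝ)
    (J : Finset (Fin n)) : Finset (Fin n) := by
  classical
  exact univ.filter fun i => i ∉ J ∧ ZZ o g (insert i J) ≤ (1 - θ) * ZZ o g J

/-- the sets reached by adding one influential variable after the other -/
noncomputable def JJ10 (o : Fin n → Bool) (g : (Fin n → Bool) → Bool) (θ τ : ℝ) :
    ℕ → Finset (Finset (Fin n)) := by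
  classical
  exact fun k => Nat.rec {∅} (fun _ S => (S.filter fun J => τ ≤ ZZ o g J).biUnion fun J =>
    (VJ10 o g θ J).image fun i => insert i J) k

theorem mem_VJ10 {θ : ℝ} {J : Finset (Fin n)} {i : Fin n} :
    i ∈ VJ10 o g θ J ↔ i ∉ J ∧ ZZ o g (insert i J) ≤ (1 - θ) * ZZ o g J := by
  classical
  unfold VJ10
  rw [mem_filter]
  simp

theorem mem_JJ10_zero {θ τ : ℝ} {J : Finset (Fin n)} : J ∈ JJ10 o g θ τ 0 ↔ J = ∅ := by
  classical
  unfold JJ10
  simp

theorem mem_JJ10_succ {θ τ : ℝ} {k : ℕ} {K : Finset (Fin n)} : K ∈ JJ10 o g θ τ (k + 1) ↔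
    ∃ J ∈ JJ10 o g θ τ k, τ ≤ ZZ o g J ∧ ∃ i ∈ VJ10 o g θ J, insert i J = K := by
  classical
  have : JJ10 o g θ τ (k + 1) = ((JJ10 o g θ τ k).filter fun J => τ ≤ ZZ o g J).biUnion fun J =>
      (VJ10 o g θ J).image fun i => insert i J := by
    unfold JJ10
    congr!
  rw [this, mem_biUnion]
  simp only [mem_filter, mem_image]
  constructor
  · rintro ⟨J, ⟨h1, h2⟩, i, hi, h3⟩
    exact ⟨J, h1, h2, i, hi, h3⟩
  · rintro ⟨J, h1, h2, i, hi, h3⟩
    exact ⟨J, ⟨h1, h2⟩, i, hi, h3⟩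

theorem card_JJ10 {θ τ : ℝ} {P : ℕ} (hP : ∀ J, τ ≤ ZZ o g J → (VJ10 o g θ J).card ≤ P) (k : ℕ) :
    (JJ10 o g θ τ k).card ≤ P ^ k := by
  classical
  induction k with
  | zero =>
    have : JJ10 o g θ τ 0 = {∅} := by
      ext J
      rw [mem_JJ10_zero, mem_singleton]
    rw [this]
    simp
  | succ k ih =>
    have : JJ10 o g θ τ (k + 1) = ((JJ10 o g θ τ k).filter fun J => τ ≤ ZZ o g J).biUnion fun J =>
        (VJ10 o g θ J).image fun i => insert i J := by
      ext K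
      rw [mem_JJ10_succ, mem_biUnion]
      simp only [mem_filter, mem_image]
      constructor
      · rintro ⟨J, h1, h2, i, hi, h3⟩
        exact ⟨J, ⟨h1, h2⟩, i, hi, h3⟩
      · rintro ⟨J, ⟨h1, h2⟩, i, hi, h3⟩
        exact ⟨J, h1, h2, i, hi, h3⟩
    rw [this]
    refine card_biUnion_le.trans ?_
    have h1 : ∑ J ∈ (JJ10 o g θ τ k).filter (fun J => τ ≤ ZZ o g J),
        ((VJ10 o g θ J).image fun i => insert i J).card ≤
        ∑ J ∈ (JJ10 o g θ τ k).filter (fun J => τ ≤ ZZ o g J), P := by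
      refine sum_le_sum fun J hJ => card_image_le.trans ?_
      rw [mem_filter] at hJ
      exact hP J hJ.2
    refine h1.trans ?_
    rw [sum_const, smul_eq_mul, pow_succ]
    exact Nat.mul_le_mul_right _ ((card_filter_le _ _).trans ih)

/-- **Few exceptional members.** If all members of `G` have at most `ℓ` elements, share pairwise
at most `t`, and `τ ≤ Z(J)` for all `J` with at most `t` elements in a member, then there are at
most `P^(t+1)` exceptional members, if `2 log (1/τ) * (ℓ 2^(t+1))^2 ≤ P`. -/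
theorem card_exc10 {t ℓ P : ℕ} {τ : ℝ} {G : Finset (Finset (Fin n))} (hG : Shr t G)
    (hℓ : ∀ T ∈ G, T.card ≤ ℓ) (hτ : 0 < τ)
    (hZ : ∀ T ∈ G, ∀ J ⊆ T, J.card ≤ t → τ ≤ ZZ o g J)
    (hP : 2 * Real.log (1 / τ) * (ℓ * 2 ^ (t + 1)) ^ 2 ≤ P) :
    (Exc10 o g t G).card ≤ P ^ (t + 1) := by
  classical
  rcases (Exc10 o g t G).eq_empty_or_nonempty with h0 | ⟨T0, hT0⟩
  · rw [h0]
    simp
  -- `ℓ` is positive
  have hℓ0 : 0 < ℓ := by
    rcases Nat.eq_zero_or_pos ℓ with h | h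
    · exfalso
      rw [mem_Exc10] at hT0
      have h1 := hℓ T0 hT0.1
      rw [h, Nat.le_zero, card_eq_zero] at h1
      have h2 := hT0.2 ∅ (empty_subset _) (by simp)
      rw [h1, sdiff_empty, sum_empty] at h2
      have h3 : 0 ≤ (1 / 2 : ℝ) ^ (t + 1) * ZZ o g ∅ :=
        mul_nonneg (by positivity) (ZZ_nonneg o g ∅)
      linarith
    · exact h
  have hℓR : (0 : ℝ) < ℓ := by exact_mod_cast hℓ0
  obtain ⟨θ, hθdef⟩ : ∃ θ : ℝ, θ = (1 / 2) ^ (t + 1) / ℓ := ⟨_, rfl⟩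
  have hθ0 : 0 < θ := by rw [hθdef]; positivity
  have hθ1 : θ * (ℓ * 2 ^ (t + 1)) = 1 := by
    rw [hθdef, div_mul_eq_mul_div, ← mul_assoc, mul_comm ((1 / 2 : ℝ) ^ (t + 1)) (ℓ : ℝ), mul_assoc,
      ← mul_pow]
    norm_num
    exact hℓ0.ne'
  have hθℓ : (ℓ : ℝ) * θ = (1 / 2) ^ (t + 1) := by
    rw [hθdef]
    field_simp
  have hV : ∀ J, τ ≤ ZZ o g J → (VJ10 o g θ J).card ≤ P := by
    intro J hJ
    have hZJ : 0 < ZZ o g J := lt_of_lt_of_le hτ hJ
    have h1 := infl_card10 (S := VJ10 o g θ J) (U := J) (o := o) (g := g) hθ0.le hZJ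
      (fun i hi => (mem_VJ10.1 hi).1) (fun i hi => (mem_VJ10.1 hi).2)
    have h2 : Real.log (1 / ZZ o g J) ≤ Real.log (1 / τ) := by
      apply Real.log_le_log (by positivity)
      exact one_div_le_one_div_of_le hτ hJ
    have h3 : ((VJ10 o g θ J).card : ℝ) ≤ P := by
      have h4 : ((VJ10 o g θ J).card : ℝ) =
          ((VJ10 o g θ J).card : ℝ) * θ ^ 2 * (ℓ * 2 ^ (t + 1)) ^ 2 := by
        rw [mul_assoc, ← mul_pow, hθ1]
        ring
      rw [h4]
      refine le_trans ?_ hP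
      have h5 : ((VJ10 o g θ J).card : ℝ) * θ ^ 2 ≤ 2 * Real.log (1 / τ) := by linarith
      exact mul_le_mul_of_nonneg_right h5 (by positivity)
    exact_mod_cast h3
  -- every exceptional member contains a set of the list
  have hex : ∀ T ∈ Exc10 o g t G, ∀ k ≤ t + 1, ∃ J ∈ JJ10 o g θ τ k, J ⊆ T ∧ J.card = k := by
    intro T hT k
    induction k with
    | zero =>
      intro _
      exact ⟨∅, mem_JJ10_zero.2 rfl, empty_subset _, rfl⟩
    | succ k ih =>
      intro hk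
      obtain ⟨J, hJ, hJT, hJk⟩ := ih (by omega)
      rw [mem_Exc10] at hT
      have hJt : J.card ≤ t := by omega
      have hτJ := hZ T hT.1 J hJT hJt
      have h1 := hT.2 J hJT hJt
      obtain ⟨i, hi, hiθ⟩ : ∃ i ∈ T \ J, θ * ZZ o g J ≤ ZZ o g J - ZZ o g (insert i J) := by
        by_contra hcon
        push Not at hcon
        have h2 : ∑ i ∈ T \ J, (ZZ o g J - ZZ o g (insert i J)) ≤ ∑ _i ∈ T \ J, θ * ZZ o g J :=
          sum_le_sum fun i hi => (hcon i hi).le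
        rw [sum_const, nsmul_eq_mul] at h2
        have h3 : ((T \ J).card : ℝ) ≤ ℓ := by
          exact_mod_cast (card_le_card sdiff_subset).trans (hℓ T hT.1)
        have h4 : ((T \ J).card : ℝ) * (θ * ZZ o g J) ≤ ℓ * (θ * ZZ o g J) :=
          mul_le_mul_of_nonneg_right h3 (mul_nonneg hθ0.le (ZZ_nonneg o g J))
        rw [← mul_assoc (ℓ : ℝ), hθℓ] at h4
        linarith
      rw [mem_sdiff] at hi
      refine ⟨insert i J, mem_JJ10_succ.2 ⟨J, hJ, hτJ, i, mem_VJ10.2 ⟨hi.2, by linarith⟩, rfl⟩,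
        insert_subset hi.1 hJT, ?_⟩
      rw [card_insert_of_notMem hi.2, hJk]
  choose! f hf1 hf2 hf3 using fun T (hT : T ∈ Exc10 o g t G) => hex T hT (t + 1) le_rfl
  refine le_trans ?_ (card_JJ10 hV (t + 1))
  refine card_le_card_of_injOn f (fun T hT => hf1 T hT) ?_
  intro T hT T' hT' h
  by_contra hne
  have hT1 : T ∈ G := (mem_Exc10.1 hT).1
  have hT2 : T' ∈ G := (mem_Exc10.1 hT').1
  have h1 := hG T hT1 T' hT2 hne
  have h2 : f T ⊆ T ∩ T' := subset_inter (hf2 T hT) (h ▸ hf2 T' hT')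
  have h3 := card_le_card h2
  rw [hf3 T hT] at h3
  omega

end Pool.Agent.H.MP_cba12a_lc
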