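import Pool.Agent.H.MP_cba12a_lc.X10.Base

/-!
Counting arguments: a set of `t + 1` variables lies in at most one term.
-/

namespace Pool.Agent.H.MP_cba12a_lc

open Finset

variable {n : ℕ} {o : Fin n → Bool} {g : (Fin n → Bool) → Bool}

/-- The members of a family with pairwise intersections of size at most `t` which have at least
`t + 1` elements in `V` are at most `|V|^(t+1)`. -/
theorem card_heavy10 {t : ℕ} {G : Finset (Finset (Fin n))} (hG : Shr t G) (V : Finset (Fin n)) :
    (G.filter fun T => t + 1 ≤ (T ∩ V).card).card ≤ V.card ^ (t + 1) := by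
  classical
  have hch : ∀ T : Finset (Fin n), ∃ K : Finset (Fin n),
      t + 1 ≤ (T ∩ V).card → K ⊆ T ∩ V ∧ K.card = t + 1 := by
    intro T
    by_cases h : t + 1 ≤ (T ∩ V).card
    · obtain ⟨K, hK, hK'⟩ := Finset.exists_subset_card_eq h
      exact ⟨K, fun _ => ⟨hK, hK'⟩⟩
    · exact ⟨∅, fun h' => absurd h' h⟩
  choose K hK using hch
  have h1 : (G.filter fun T => t + 1 ≤ (T ∩ V).card).card ≤ (V.powersetCard (t + 1)).card := by
    refine Finset.card_le_card_of_injOn K ?_ ?_
    · intro T hT
      have hT' := (mem_filter.1 hT).2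
      rw [mem_coe, mem_powersetCard]
      exact ⟨(hK T hT').1.trans inter_subset_right, (hK T hT').2⟩
    · intro T hT T' hT' hTT
      have h2 := mem_filter.1 hT
      have h3 := mem_filter.1 hT'
      by_contra hne
      have h4 := hG T h2.1 T' h3.1 hne
      have h5 : K T ⊆ T ∩ T' := by
        refine subset_inter ((hK T h2.2).1.trans inter_subset_left) ?_
        rw [hTT]
        exact (hK T' h3.2).1.trans inter_subset_left
      have h6 := card_le_card h5
      rw [(hK T h2.2).2] at h6
      omega
  refine h1.trans ?_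
  rw [card_powersetCard]
  exact Nat.choose_le_pow _ _

/-- the number of members with at least `t + 1` elements is at most `(n + 1)^(t+1)` -/
theorem card_long10 {t : ℕ} {G : Finset (Finset (Fin n))} (hG : Shr t G) :
    (G.filter fun T => t + 1 ≤ T.card).card ≤ (n + 1) ^ (t + 1) := by
  have h := card_heavy10 hG univ
  simp only [inter_univ, card_univ, Fintype.card_fin] at h
  exact h.trans (Nat.pow_le_pow_left (Nat.le_succ n) _)

/-- `|{i : δ ≤ wt (members of G through i)}| δ ≤ ℓ wt G`. -/
theorem card_V10 {ℓ : ℕ} (G : Finset (Finset (Fin n))) (hℓ : ∀ T ∈ G, T.card ≤ ℓ) (δ : ℝ) :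
    ((univ.filter fun i : Fin n => δ ≤ wt10 (G.filter fun A => i ∈ A)).card : ℝ) * δ ≤
      ℓ * wt10 G := by
  classical
  calc ((univ.filter fun i : Fin n => δ ≤ wt10 (G.filter fun A => i ∈ A)).card : ℝ) * δ
      = ∑ _i ∈ univ.filter fun i : Fin n => δ ≤ wt10 (G.filter fun A => i ∈ A), δ := by
        rw [sum_const, nsmul_eq_mul]
    _ ≤ ∑ i ∈ univ.filter fun i : Fin n => δ ≤ wt10 (G.filter fun A => i ∈ A),
          wt10 (G.filter fun A => i ∈ A) := by
        refine sum_le_sum fun i hi => ?_
        exact (mem_filter.1 hi).2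
    _ ≤ ∑ i : Fin n, wt10 (G.filter fun A => i ∈ A) :=
        sum_le_sum_of_subset_of_nonneg (filter_subset _ _) fun i _ _ => wt10_nonneg _
    _ = ∑ i : Fin n, ∑ A ∈ G, (if i ∈ A then (1 / 2 : ℝ) ^ A.card else 0) := by
        refine sum_congr rfl fun i _ => ?_
        unfold wt10
        rw [sum_filter]
    _ = ∑ A ∈ G, (A.card : ℝ) * (1 / 2 : ℝ) ^ A.card := by
        rw [sum_comm]
        refine sum_congr rfl fun A _ => ?_
        rw [← sum_filter, sum_const, nsmul_eq_mul]
        congr 2
        simp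
    _ ≤ ∑ A ∈ G, (ℓ : ℝ) * (1 / 2 : ℝ) ^ A.card := by
        refine sum_le_sum fun A hA => ?_
        have : (A.card : ℝ) ≤ ℓ := by exact_mod_cast hℓ A hA
        exact mul_le_mul_of_nonneg_right this (by positivity)
    _ = ℓ * wt10 G := by
        unfold wt10
        rw [mul_sum]

end Pool.Agent.H.MP_cba12a_lc
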