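import Pool.Agent.H.MP_cba12a_lc.X10.Cv1

/-!
The error of the hypothesis, and a pigeonhole argument for the rounds.
-/

namespace Pool.Agent.H.MP_cba12a_lc

open Finset

variable {n m r t : ℕ} {o : Fin n → Bool} {f g : (Fin n → Bool) → Bool}
  {ω : Fin m → Fin n → Bool} {η ι : ℝ} {h0 H : List (List Lit)} {V : List Lit}

/-- A decreasing sequence of finite sets, the first of which has less than `R0` elements, is
constant at some step before `R0`. (If `X (j + 1) ≠ X j` for all `j < R0` then
`|X j| + j ≤ |X 0|` for all `j ≤ R0`.) -/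
theorem pigeon10 {β : Type} [DecidableEq β] {X : ℕ → Finset β} (hX : ∀ j, X (j + 1) ⊆ X j)
    {R0 : ℕ} (h : (X 0).card < R0) : ∃ j < R0, X (j + 1) = X j := by
  by_contra hno
  push Not at hno
  have h1 : ∀ j ≤ R0, (X j).card + j ≤ (X 0).card := by
    intro j
    induction j with
    | zero => intro _; simp
    | succ j ih =>
      intro hj
      have h2 := ih (by omega)
      have h3 : X (j + 1) ⊂ X j := (hX j).ssubset_of_ne (hno j (by omega))
      have h4 := card_lt_card h3
      omega
  have := h1 R0 le_rfl
  omega

/-- **The error.** If `f x ≠ satD x H` then `f x ≠ g x`, or `g x = true` and `H` fails (so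
`gp10 = 1` and `Off H`), or `g x = false` and some member `C` of `H` holds: then a member of `h0`
is on, or `gp10 g h0 x = false` and `C` is on for some `C ∈ H` not in `h0`, of density at most
`θ`. -/
theorem err_le10 (hh : ∀ C ∈ h0, Ori o C) (hH : ∀ C ∈ H, Ori o C) (hh0 : ∀ C ∈ h0, C ∈ H)
    {δ1 δ2 θ : ℝ} (hθ : 0 ≤ θ)
    (h1 : pr (fun x => gp10 g h0 x = true ∧ Off o (Hs n H) x) ≤ δ1)
    (h2 : pr (fun x => g x = false ∧ ¬ Off o (Hs n h0) x) ≤ δ2)
    (h3 : ∀ C ∈ H, C ∈ h0 ∨ pr (fun x => On o (fs n C) x ∧ gp10 g h0 x = false) ≤ θ) :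
    mu (errE f H) ≤ dst f g + δ1 + δ2 + H.length * θ := by
  classical
  set L : Finset (List Lit) := H.toFinset.filter fun C =>
    pr (fun x => On o (fs n C) x ∧ gp10 g h0 x = false) ≤ θ with hL
  have hA : mu (errE f H) ≤ dst f g + (pr (fun x => gp10 g h0 x = true ∧ Off o (Hs n H) x) +
      (pr (fun x => g x = false ∧ ¬ Off o (Hs n h0) x) +
        pr (fun x => ∃ C ∈ L, On o (fs n C) x ∧ gp10 g h0 x = false))) := by
    rw [mu_eq_pr, ← dst_eq_mu, mu_eq_pr (fun x => !(f x == g x))]
    refine (pr_le_add (Q := fun x => (!(f x == g x)) = true)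
      (R := fun x => (gp10 g h0 x = true ∧ Off o (Hs n H) x) ∨
        (g x = false ∧ ¬ Off o (Hs n h0) x) ∨
          ∃ C ∈ L, On o (fs n C) x ∧ gp10 g h0 x = false) ?_).trans ?_
    · intro x hx
      rw [errE_iff] at hx
      by_cases hfg : f x = g x
      · right
        rw [hfg] at hx
        rcases hg : g x with _ | _
        · right
          rw [hg] at hx
          have hs : satD (List.ofFn x) H = true := by
            rcases h : satD (List.ofFn x) H with _ | _
            · exact absurd h.symm hx
            · rfl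
          by_cases hq : gp10 g h0 x = false
          · obtain ⟨C, hC, hCs⟩ := satD_iff.1 hs
            have hon := (sat_ori (hH C hC)).1 hCs
            rcases h3 C hC with h | h
            · left
              exact ⟨rfl, fun hoff => hoff _ (mem_Hs.2 ⟨C, h, rfl⟩) hon⟩
            · right
              exact ⟨C, mem_filter.2 ⟨List.mem_toFinset.2 hC, h⟩, hon, hq⟩
          · left
            exact ⟨rfl, fun hoff => hq ((gp_false10 hh x).2 ⟨hg, hoff⟩)⟩
        · left
          rw [hg] at hx
          have hs : satD (List.ofFn x) H = false := by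
            rcases h : satD (List.ofFn x) H with _ | _
            · rfl
            · exact absurd h.symm hx
          refine ⟨?_, (satD_off10 hH x).1 hs⟩
          unfold gp10
          rw [hg]
          rfl
      · left
        simp [hfg]
    · exact add_le_add le_rfl ((pr_le_add fun x hx => hx).trans
        (add_le_add le_rfl (pr_le_add fun x hx => hx)))
  have hB : pr (fun x => ∃ C ∈ L, On o (fs n C) x ∧ gp10 g h0 x = false) ≤ H.length * θ := by
    refine (pr_le_sum L _ (fun C x => On o (fs n C) x ∧ gp10 g h0 x = false)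
      fun x hx => hx).trans ?_
    refine (sum_le_card_nsmul L _ θ fun C hC => (mem_filter.1 hC).2).trans ?_
    rw [nsmul_eq_mul]
    refine mul_le_mul_of_nonneg_right ?_ hθ
    exact_mod_cast (card_filter_le _ _).trans (List.toFinset_card_le H)
  linarith

end Pool.Agent.H.MP_cba12a_lc
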