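import Pool.Agent.H.MP_cba12a_lc.X10.CoreC
import Pool.Agent.H.MP_cba12a_lc.X10.Er

/-!
The accuracy of the polynomial-time learner on representative samples.
-/

namespace Pool.Agent.H.MP_cba12a_lc

open Finset

variable {n m t : ℕ} {o : Fin n → Bool} {f g : (Fin n → Bool) → Bool}
  {ω : Fin m → Fin n → Bool} {V : List Lit} {F0 : Finset (Finset (Fin n))}
  {a N ℓ A B R0 NH m0 P' : ℕ} {aa P : ℕ → ℕ} {τ η ι κ ν M Q Q1 : ℝ}

/-- Some round finds nothing. -/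
theorem exists_stable10 (hC : Ctx10 t f g o F0 V ω NH η ι)
    (hP : Par10 a t n N ℓ A B R0 NH m0 P' aa P τ η ι κ ν M Q Q1) :
    ∃ j < R0, Xj10 N t ℓ A B F0 V (smp f ω) (j + 1) = Xj10 N t ℓ A B F0 V (smp f ω) j := by
  refine pigeon10 (X := fun j => Xj10 N t ℓ A B F0 V (smp f ω) j) ?_ ?_
  · intro j T hT
    have hT' : T ∈ Xj10 N t ℓ A B F0 V (smp f ω) (j + 1) := hT
    show T ∈ Xj10 N t ℓ A B F0 V (smp f ω) j
    unfold Xj10 at hT' ⊢
    rw [mem_filter, mem_Nf] at hT' ⊢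
    refine ⟨⟨hT'.1.1, fun C hCm => ?_⟩, hT'.2⟩
    obtain ⟨D, hD, hDC⟩ := mem_Hs.1 hCm
    exact hT'.1.2 C (mem_Hs.2 ⟨D, HH10_mono (Nat.le_succ j) D hD, hDC⟩)
  · refine lt_of_le_of_lt ?_ hP.R0b
    refine le_trans (card_le_card ?_)
      (card_long10 (t := t) (G := Fp10 t F0 (hs10 N t A V (smp f ω))) (hs_iff10 hC hP).2)
    intro T hT
    have hT' : T ∈ Xj10 N t ℓ A B F0 V (smp f ω) 0 := hT
    unfold Xj10 at hT'
    rw [mem_filter] at hT'
    have h1 := nf_Fp10 (h0 := hs10 N t A V (smp f ω)) (H := Hj10 N t ℓ A B V (smp f ω) 0)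
      (h0_mem_HH10 0) hT'.1
    rw [mem_filter]
    exact ⟨(mem_Nf.1 hT'.1).1, h1.1⟩

/-- The accuracy of the learner. -/
theorem core10_error (hC : Ctx10 t f g o F0 V ω NH η ι)
    (hP : Par10 a t n N ℓ A B R0 NH m0 P' aa P τ η ι κ ν M Q Q1)
    (hf : dst f g ≤ 1 / (2 * a)) :
    mu (errE f (coreV10 N t (t * a0 t) ℓ A B R0 V (smp f ω))) ≤ 1 / a := by
  obtain ⟨j, hj, hX⟩ := exists_stable10 hC hP
  have hst := stable_j10 hC hP hj hX
  have e : coreV10 N t (t * a0 t) ℓ A B R0 V (smp f ω) = Hj10 N t ℓ A B V (smp f ω) R0 := rfl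
  rw [e]
  have hfacts := hs_facts10 hC hP
  have hcs := cs_facts10 hC hP
  have hApos : (0 : ℝ) < A := by exact_mod_cast hP.A_pos
  have hBpos : (0 : ℝ) < B := by exact_mod_cast hP.B_pos
  have hapos : (0 : ℝ) < a := by exact_mod_cast hP.a_pos
  have hη := hP.η_nonneg
  have hηB : η * B ≤ 1 := by
    have h1 := hP.ηB
    have h2 : (1 : ℝ) ≤ 2 ^ (ℓ + t + 2) := one_le_pow₀ one_le_two
    have h3 : 0 ≤ η * B := mul_nonneg hη hBpos.le
    have h4 : η * B ≤ (8 * (η * B)) * 2 ^ (ℓ + t + 2) := by nlinarith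
    linarith
  have hθ : (0 : ℝ) ≤ 1 / B + η := by positivity
  have hspec := HH10_spec hC (fun C hCm => (hfacts.1 C hCm).1) hfacts.2.2.1
    (N := N) (K := t * a0 t) hP.B_pos hηB (hs_iff10 hC hP).1
    (ch := cs10 N t ℓ A B V (smp f ω)) (fun C hCm => (hcs.1 C hCm).1) R0
  have hsub : ∀ C ∈ hs10 N t A V (smp f ω), C ∈ Hj10 N t ℓ A B V (smp f ω) R0 :=
    h0_mem_HH10 R0
  have hseed := bd_seeds N t V
  have hL : ∀ C ∈ seeds N t V, Ori o C := fun C hCm l hl => hC.hV l ((hseed.2 C hCm).2 l hl)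
  have h2 := small_err10 hC hP.A_pos hL hfacts.2.2.2
  have h1 : pr (fun x => gp10 g (hs10 N t A V (smp f ω)) x = true ∧
      Off o (Hs n (Hj10 N t ℓ A B V (smp f ω) R0)) x) ≤
      ((n : ℝ) + 1) ^ (t + 1) * (κ * 2 ^ ℓ) + ν := by
    refine le_trans (pr_mono ?_) hst
    rintro x ⟨hx, hoff⟩
    refine ⟨hx, fun C hCm => ?_⟩
    obtain ⟨D, hD, hDC⟩ := mem_Hs.1 hCm
    exact hoff C (mem_Hs.2 ⟨D, HH10_mono hj.le D hD, hDC⟩)
  have herr := err_le10 (f := f) (H := Hj10 N t ℓ A B V (smp f ω) R0)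
    (fun C hCm => (hfacts.1 C hCm).1)
    (fun C hCm => (hspec C hCm).1) hsub hθ h1 h2
    (fun C hCm => (hspec C hCm).2.imp id fun h => h.1)
  -- the length
  have hlen : (Hj10 N t ℓ A B V (smp f ω) R0).length ≤ NH := by
    have h3 := HH10_length (N := N) (t := t) (K := t * a0 t) (B := B) (V := V) (S := smp f ω)
      (ch := cs10 N t ℓ A B V (smp f ω)) (h0 := hs10 N t A V (smp f ω)) R0
    have h4 : (hs10 N t A V (smp f ω)).length ≤ N + 1 :=
      le_trans small10_length hseed.1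
    have h5 := hcs.2
    have h6 := hP.NHb
    have h7 : R0 * ((N + 1) ^ 2 + (cs10 N t ℓ A B V (smp f ω)).length) ≤
        R0 * ((N + 1) ^ 2 + (ℓ + 1) ^ 2 * (N + 1)) :=
      Nat.mul_le_mul_left _ (Nat.add_le_add_left h5 _)
    refine le_trans h3 (le_trans ?_ h6)
    omega
  have h8 : ((Hj10 N t ℓ A B V (smp f ω) R0).length : ℝ) * (1 / B + η) ≤ NH * (1 / B + η) :=
    mul_le_mul_of_nonneg_right (by exact_mod_cast hlen) hθ
  have h9 : ((seeds N t V).length : ℝ) * (1 / A + η) ≤ ((n : ℝ) + 1) ^ t * (1 / A + η) := by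
    refine mul_le_mul_of_nonneg_right ?_ (by positivity)
    have h10 := hfacts.2.1
    calc ((seeds N t V).length : ℝ) ≤ (((n + 1) ^ t : ℕ) : ℝ) := by exact_mod_cast h10
      _ = ((n : ℝ) + 1) ^ t := by push_cast; ring
  have h11 := hP.err
  have h12 : (1 : ℝ) / (2 * a) + 1 / (2 * a) = 1 / a := by
    field_simp
    norm_num
  linarith

end Pool.Agent.H.MP_cba12a_lc
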