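import Pool.Agent.H.MP_cba12a_lc.X10.Cv1

/-!
The terms of the target together with the small sets.
-/

namespace Pool.Agent.H.MP_cba12a_lc

open Finset

variable {n m r t : ℕ} {o : Fin n → Bool} {f g : (Fin n → Bool) → Bool}
  {ω : Fin m → Fin n → Bool} {η ι τ : ℝ} {h0 H : List (List Lit)} {V : List Lit}
  {F0 : Finset (Finset (Fin n))}

theorem up_gp10 (hg : Up o g) (hh : ∀ C ∈ h0, Ori o C) : Up o (gp10 g h0) := by
  intro i x h
  by_contra hc
  rw [Bool.not_eq_true] at hc
  obtain ⟨h1, h2⟩ := (gp_false10 hh _).1 hc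
  have h3 : g (Function.update x i (!(o i))) = false := by
    by_contra h4
    rw [Bool.not_eq_false] at h4
    rw [hg i x h4] at h1
    exact Bool.noConfusion h1
  have h5 := (gp_false10 hh _).2 ⟨h3, dnP_off o (Hs n h0) i x h2⟩
  rw [h] at h5
  exact Bool.noConfusion h5

/-- `Fp10` is the family of `gp10`. Proof: a term `T ∈ F0` with more than `t` variables is in
`Fp10` or contains a member of `h0`; one with at most `t` variables contains a member of `h0`,
since otherwise `0 < Z(T)`, but `gp10 = 1` whenever `T` is on. -/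
theorem gp_iff10 (hgF : ∀ x, g x = true ↔ ∃ A ∈ F0, On o A x) (hh : ∀ C ∈ h0, Ori o C)
    (hpos : ∀ I : Finset (Fin n), I.card ≤ t → (∀ C ∈ Hs n h0, ¬ C ⊆ I) →
      0 < ZZ o (gp10 g h0) I) :
    ∀ x, gp10 g h0 x = true ↔ ∃ A ∈ Fp10 t F0 h0, On o A x := by
  have key : ∀ x, gp10 g h0 x = true ↔ g x = true ∨ ∃ C ∈ Hs n h0, On o C x := by
    intro x
    have h1 := gp_false10 (g := g) hh x
    rw [← Bool.not_eq_false, h1, not_and_or, Bool.not_eq_false]
    unfold Off
    push Not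
    rfl
  intro x
  rw [key x]
  constructor
  · rintro (h | ⟨C, hC, hCx⟩)
    · obtain ⟨A, hA, hAx⟩ := (hgF x).1 h
      by_cases hC : ∃ C ∈ Hs n h0, C ⊆ A
      · obtain ⟨C, hC, hCA⟩ := hC
        exact ⟨C, mem_Fp10.2 (Or.inl hC), fun i hi => hAx i (hCA hi)⟩
      · push Not at hC
        by_cases ht : t < A.card
        · exact ⟨A, mem_Fp10.2 (Or.inr ⟨hA, ht, hC⟩), hAx⟩
        · exfalso
          have h1 := hpos A (not_lt.1 ht) hC
          have h2 : ZZ o (gp10 g h0) A = 0 := by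
            unfold ZZ
            have h3 : ∀ x, ¬ (gp10 g h0 (sOn o A x) = false) := by
              intro x h4
              have h5 := (key (sOn o A x)).2 (Or.inl ((hgF _).2 ⟨A, hA, on_sOn o A x⟩))
              rw [h5] at h4
              exact Bool.noConfusion h4
            unfold pr mu ct
            simp [h3]
          rw [h2] at h1
          exact lt_irrefl _ h1
    · exact ⟨C, mem_Fp10.2 (Or.inl hC), hCx⟩
  · rintro ⟨A, hA, hAx⟩
    rcases mem_Fp10.1 hA with h | ⟨h, -, -⟩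
    · exact Or.inr ⟨A, h, hAx⟩
    · exact Or.inl ((hgF x).2 ⟨A, h, hAx⟩)

theorem shr_Fp10 (hshare : Shr t F0) (hh0 : ∀ C ∈ Hs n h0, C.card ≤ t) :
    Shr t (Fp10 t F0 h0) := by
  intro A hA B hB hne
  rcases mem_Fp10.1 hA with h | ⟨h, -, -⟩
  · exact (card_le_card inter_subset_left).trans (hh0 A h)
  rcases mem_Fp10.1 hB with h' | ⟨h', -, -⟩
  · exact (card_le_card inter_subset_right).trans (hh0 B h')
  exact hshare A h B h' hne

/-- The members of `Fp10` which are not found have more than `t` variables and contain no member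
of `h0`. -/
theorem nf_Fp10 (hsub : ∀ D ∈ h0, D ∈ H) {T : Finset (Fin n)}
    (hT : T ∈ Nf (Fp10 t F0 h0) (Hs n H)) : t < T.card ∧ ∀ C ∈ Hs n h0, ¬ C ⊆ T := by
  obtain ⟨h1, h2⟩ := mem_Nf.1 hT
  rcases mem_Fp10.1 h1 with h | ⟨-, h⟩
  · obtain ⟨D, hD, rfl⟩ := mem_Hs.1 h
    exact absurd (Subset.refl _) (h2 _ (mem_Hs.2 ⟨D, hsub D hD, rfl⟩))
  · exact h

end Pool.Agent.H.MP_cba12a_lc
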