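import Pool.Agent.H.MP_cba12a_lc.X10.Sm3
import Pool.Agent.H.MP_cba12a_lc.X10.Fp

/-!
The end of the search for the learner.
-/

namespace Pool.Agent.H.MP_cba12a_lc

open Finset

variable {n m t : ℕ} {o : Fin n → Bool} {f g : (Fin n → Bool) → Bool}
  {ω : Fin m → Fin n → Bool} {V : List Lit} {F0 : Finset (Finset (Fin n))}
  {a N ℓ A B R0 NH m0 P' : ℕ} {aa P : ℕ → ℕ} {τ η ι κ ν M Q Q1 : ℝ}

/-- the small sets found by the learner -/
def hs10 (N t A : ℕ) (V : List Lit) (S : Samples) : List (List Lit) := small10 A S (seeds N t V)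

/-- the chains of the learner -/
def cs10 (N t ℓ A B : ℕ) (V : List Lit) (S : Samples) : List (List Lit) :=
  chains10 N t ℓ B V S (hs10 N t A V S)

/-- the number of variables is at most the length -/
theorem fs_card_le10 (n : ℕ) (C : List Lit) : (fs n C).card ≤ C.length := by
  have h1 : ((fs n C).image fun i : Fin n => (i : ℕ)) ⊆ (C.map Prod.fst).toFinset := by
    intro a ha
    obtain ⟨i, hi, rfl⟩ := Finset.mem_image.1 ha
    exact List.mem_toFinset.2 (mem_fs.1 hi)
  have h2 : ((fs n C).image fun i : Fin n => (i : ℕ)).card = (fs n C).card :=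
    Finset.card_image_of_injective _ Fin.val_injective
  calc (fs n C).card = ((fs n C).image fun i : Fin n => (i : ℕ)).card := h2.symm
    _ ≤ (C.map Prod.fst).toFinset.card := Finset.card_le_card h1
    _ ≤ (C.map Prod.fst).length := List.toFinset_card_le _
    _ = C.length := List.length_map _

/-- the capacity suffices for sets with at most `t` variables -/
theorem cap_t10 (hP : Par10 a t n N ℓ A B R0 NH m0 P' aa P τ η ι κ ν M Q Q1) :
    (n + 1) ^ t ≤ N := by
  refine le_trans (Nat.pow_le_pow_right (by omega) ?_) hP.cap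
  unfold a0
  nlinarith [Nat.zero_le t]

theorem N_le_NH10 (hP : Par10 a t n N ℓ A B R0 NH m0 P' aa P τ η ι κ ν M Q Q1) : N ≤ NH := by
  have h := hP.NHb
  have h1 : N + 1 ≤ NH := le_trans (by
    rw [add_assoc]
    exact Nat.le_add_right _ _) h
  omega

/-- **Facts on the small sets**: oriented, in `V`, at most `t` variables each, at most
`(n+1)^t ≤ N` of them. (`small10_mem`, `bd_seeds`, `small10_length`, `grow_iterate_length`:
`(seeds N t V).length ≤ (V.length + 1)^t ≤ (n+1)^t` by `length_V10`.) -/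
theorem hs_facts10 (hC : Ctx10 t f g o F0 V ω NH η ι)
    (hP : Par10 a t n N ℓ A B R0 NH m0 P' aa P τ η ι κ ν M Q Q1) :
    (∀ C ∈ hs10 N t A V (smp f ω), Ori o C ∧ (∀ l ∈ C, l ∈ V) ∧ (fs n C).card ≤ t) ∧
      (seeds N t V).length ≤ (n + 1) ^ t ∧ (hs10 N t A V (smp f ω)).length ≤ NH ∧
      (seeds N t V).length ≤ NH := by
  have hlen : V.length ≤ n := length_V10 hC.hV hC.hVn
  have hN : (V.length + 1) ^ t ≤ N :=
    (Nat.pow_le_pow_left (by omega) t).trans (cap_t10 hP)
  have hs : (seeds N t V).length ≤ (n + 1) ^ t :=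
    (grow_iterate_length hN t le_rfl).trans (Nat.pow_le_pow_left (by omega) t)
  have hsNH : (seeds N t V).length ≤ NH := hs.trans ((cap_t10 hP).trans (N_le_NH10 hP))
  refine ⟨?_, hs, small10_length.trans hsNH, hsNH⟩
  intro C hCm
  have h1 : C ∈ seeds N t V := small10_mem C hCm
  obtain ⟨h2, h3⟩ := (bd_seeds N t V).2 C h1
  exact ⟨fun l hl => hC.hV l (h3 l hl), h3, (fs_card_le10 n C).trans h2⟩

/-- **(Ass)** for the small sets of the learner (`ass10`) -/
theorem hs_ass10 (hC : Ctx10 t f g o F0 V ω NH η ι)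
    (hP : Par10 a t n N ℓ A B R0 NH m0 P' aa P τ η ι κ ν M Q Q1) {I : Finset (Fin n)}
    (hI : I.card ≤ t) (hno : ∀ C ∈ Hs n (hs10 N t A V (smp f ω)), ¬ C ⊆ I) :
    τ ≤ ZZ o (gp10 g (hs10 N t A V (smp f ω))) I := by
  have hlen : V.length ≤ n := length_V10 hC.hV hC.hVn
  have hN : (V.length + 1) ^ t ≤ N :=
    (Nat.pow_le_pow_left (by omega) t).trans (cap_t10 hP)
  exact ass10 hC hP.A_pos hP.ι_nonneg hP.η_nonneg hN (hs_facts10 hC hP).2.2.2 hP.τA hI hno

/-- the family of `gp10` -/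
theorem hs_iff10 (hC : Ctx10 t f g o F0 V ω NH η ι)
    (hP : Par10 a t n N ℓ A B R0 NH m0 P' aa P τ η ι κ ν M Q Q1) :
    (∀ x, gp10 g (hs10 N t A V (smp f ω)) x = true ↔
      ∃ A' ∈ Fp10 t F0 (hs10 N t A V (smp f ω)), On o A' x) ∧
    Shr t (Fp10 t F0 (hs10 N t A V (smp f ω))) := by
  have hf := (hs_facts10 hC hP).1
  refine ⟨gp_iff10 hC.hgF (fun C hCm => (hf C hCm).1) fun I hI hno =>
    lt_of_lt_of_le hP.num.τ_pos (hs_ass10 hC hP hI hno), shr_Fp10 hC.hshare ?_⟩
  intro C hCm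
  obtain ⟨D, hD, rfl⟩ := mem_Hs.1 hCm
  exact (hf D hD).2.2

end Pool.Agent.H.MP_cba12a_lc
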