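import Pool.Agent.H.MP_cba12a_lc.X10.Det1

/-!
Reading off the detected term.
-/

namespace Pool.Agent.H.MP_cba12a_lc

open Finset

variable {n : ℕ} {o : Fin n → Bool} {g : (Fin n → Bool) → Bool} {F H : Finset (Finset (Fin n))}
  {t : ℕ}

/-- Switching one variable outside `T` off keeps the event that only `T` is on. -/
theorem only_flp10 {T : Finset (Fin n)} {i : Fin n} (hi : i ∉ T) {x : Fin n → Bool}
    (hx : Only10 o F H T x) (hxi : x i = o i) : Only10 o F H T (flp i x) := by
  have key : ∀ A : Finset (Fin n), ¬ On o A x → ¬ On o A (flp i x) := by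
    intro A hA hc
    by_cases hiA : i ∈ A
    · have h3 := hc i hiA
      rw [flp_same, hxi] at h3
      cases h : o i <;> rw [h] at h3 <;> simp at h3
    · exact hA ((on_flp_of_not_mem hiA).1 hc)
  obtain ⟨h1, h2, h3⟩ := hx
  exact ⟨(on_flp_of_not_mem hi).2 h1, fun A hA hne => key A (h2 A hA hne),
    fun C hC => key C (h3 C hC)⟩

/-- For `i ∉ T` at least half of `Only T` has `i` off. -/
theorem only_off10 {T : Finset (Fin n)} {i : Fin n} (hi : i ∉ T) :
    pr (Only10 o F H T) ≤ 2 * pr (fun x => Only10 o F H T x ∧ x i ≠ o i) := by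
  have h1 : pr (Only10 o F H T) ≤ pr (fun x => Only10 o F H T x ∧ x i ≠ o i) +
      pr (fun x => Only10 o F H T x ∧ x i = o i) := by
    refine pr_le_add fun x hx => ?_
    by_cases h : x i = o i
    · exact Or.inr ⟨hx, h⟩
    · exact Or.inl ⟨hx, h⟩
  have h2 : pr (fun x => Only10 o F H T x ∧ x i = o i) ≤
      pr (fun x => Only10 o F H T x ∧ x i ≠ o i) := by
    rw [← pr_flp i (fun x => Only10 o F H T x ∧ x i ≠ o i)]
    refine pr_mono fun x hx => ⟨only_flp10 hi hx.1 hx.2, ?_⟩
    rw [flp_same, hx.2]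
    cases o i <;> simp
  linarith

/-- the detection condition -/
def Det10 (o : Fin n → Bool) (F H : Finset (Finset (Fin n))) (T J R : Finset (Fin n)) (σ : ℝ) :
    Prop :=
  16 * pr (fun x => On o J x ∧ Cov10 o F H T R x) ≤ pr (Only10 o F H T) ∧
    σ ≤ pr (Only10 o F H T)

/-- Reading off: for `i` outside `R`, `4 e_i < e` iff `i ∈ T`. -/
theorem read10 (hgF : ∀ x, g x = true ↔ ∃ A ∈ F, On o A x)
    {T J R : Finset (Fin n)} (hT : T ∈ F) (hJ : J ⊆ T) (hR : R ⊆ T) (hRne : R.Nonempty)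
    (hJR : Disjoint J R) {σ : ℝ} (hσ : 0 < σ) (hdet : Det10 o F H T J R σ) {i : Fin n}
    (hiR : i ∉ R) {e ei : ℝ} (he : |e - stat10 o g H J R (fun _ => True)| ≤ σ / 100)
    (hei : |ei - stat10 o g H J R (fun x => x i ≠ o i)| ≤ σ / 100) :
    4 * ei < e ↔ i ∈ T := by
  obtain ⟨hd1, hd2⟩ := hdet
  have h1 := det_main10 (H := H) hgF hT hJ hR hRne hJR (Q := fun _ => True)
    (fun _ _ _ => Iff.rfl)
  have h2 := det_main10 (H := H) hgF hT hJ hR hRne hJR (Q := fun x => x i ≠ o i)
    (fun j hj x => by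
      have hij : i ≠ j := fun h => hiR (h ▸ hj)
      simp only [flp_ne hij])
  have h3 : pr (fun x => Only10 o F H T x ∧ True) = pr (Only10 o F H T) :=
    pr_congr fun x => by simp
  rw [h3] at h1
  rw [abs_le] at h1 h2 he hei
  constructor
  · intro hlt
    by_contra hi
    have h4 := only_off10 (o := o) (F := F) (H := H) hi
    linarith [h1.1, h1.2, h2.1, h2.2, he.1, he.2, hei.1, hei.2]
  · intro hi
    have h4 : pr (fun x => Only10 o F H T x ∧ x i ≠ o i) ≤ 0 := by
      have h5 : pr (fun x => Only10 o F H T x ∧ x i ≠ o i) ≤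
          ∑ j ∈ (∅ : Finset (Fin n)), pr (fun x => Only10 o F H T x ∧ x j ≠ o j) := by
        refine pr_le_sum _ _ _ fun x hx => ?_
        exact absurd (hx.1.1 i hi) hx.2
      simpa using h5
    linarith [h1.1, h1.2, h2.1, h2.2, he.1, he.2, hei.1, hei.2]

end Pool.Agent.H.MP_cba12a_lc
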