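import Pool.Agent.H.MP_cba12a_lc.X10.Cv2
import Pool.Agent.H.MP_cba12a_lc.X10.Det

/-!
The candidate read off from the mixed derivative is the term.
-/

namespace Pool.Agent.H.MP_cba12a_lc

open Finset

variable {n m r t : ℕ} {o : Fin n → Bool} {f g : (Fin n → Bool) → Bool}
  {ω : Fin m → Fin n → Bool} {η ι σ : ℝ} {h0 H : List (List Lit)} {V : List Lit}
  {F0 F : Finset (Finset (Fin n))}

/-- The members of `det10`: all of `J` and `R`, and the literals of `V` on other variables which
pass the test. -/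
theorem mem_det10 {S : Samples} {J R : List Lit} {l : Lit} :
    l ∈ det10 V S H J R ↔ l ∈ J ∨ l ∈ R ∨ (l ∈ V ∧ (∀ l' ∈ J ++ R, l'.1 ≠ l.1) ∧
      4 * cnt10 S true false R (neg l :: J) (strip10 R H) +
        cnt10 S true true R J (strip10 R H) <
      cnt10 S true false R J (strip10 R H) +
        4 * cnt10 S true true R (neg l :: J) (strip10 R H)) := by
  unfold det10
  rw [List.mem_append, List.mem_append, List.mem_filter, Bool.and_eq_true, decide_eq_true_iff,
    Bool.not_eq_true', List.any_eq_false]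
  simp only [beq_iff_eq, ne_eq]

/-- All literals of the candidate are oriented. -/
theorem ori_det10 {S : Samples} {J R : List Lit} (hV : Ori o V) (hJ : Ori o J) (hR : Ori o R) :
    Ori o (det10 V S H J R) := by
  intro l hl
  rcases mem_det10.1 hl with h | h | h
  · exact hJ l h
  · exact hR l h
  · exact hV l h.1

/-- conjunctions without the variable `i` do not change -/
theorem satD_flp10 {i : Fin n} {x : Fin n → Bool} (hh : ∀ D ∈ h0, ∀ l ∈ D, l.1 ≠ i) :
    satD (List.ofFn (flp i x)) h0 = satD (List.ofFn x) h0 := by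
  rw [Bool.eq_iff_iff, satD_iff, satD_iff]
  constructor
  · rintro ⟨C, hC, h⟩
    exact ⟨C, hC, by rw [← h, sat_flp (hh C hC)]⟩
  · rintro ⟨C, hC, h⟩
    exact ⟨C, hC, by rw [← h, sat_flp (hh C hC)]⟩

/-- **The variables of a term which is often the only one are listed.** If `i ∈ T` then `T` being
the only member on implies that `i` is pivotal for `gp10 g h0` (after the flip `gp10` is `0`:
a member on after the flip does not contain `i`, so it was on before), so for `g`, if the literal
on `i` is not in `V`: then `i` is in no member of `h0`, and `satD _ h0` does not change. -/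
theorem only_V10 (hC : Ctx10 t f g o F0 V ω r η ι) (hh0 : ∀ D ∈ h0, ∀ l ∈ D, l ∈ V)
    (hgF : ∀ x, gp10 g h0 x = true ↔ ∃ A ∈ F, On o A x) {T : Finset (Fin n)} (hT : T ∈ F)
    {G : Finset (Finset (Fin n))} (h : ι < pr (Only10 o F G T)) :
    ∀ i ∈ T, ((i : ℕ), o i) ∈ V := by
  intro i hi
  by_contra hiV
  refine absurd (hC.hinf i hiV) (not_le.2 (h.trans_le (pr_mono fun x hx => ?_)))
  obtain ⟨h1, h2, _⟩ := hx
  have h3 : gp10 g h0 x = true := (hgF x).2 ⟨T, hT, h1⟩
  have h4 : ¬ (gp10 g h0 (flp i x) = true) := by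
    rw [hgF]
    rintro ⟨A, hA, hAx⟩
    by_cases hiA : i ∈ A
    · have h5 := hAx i hiA
      rw [flp_same, h1 i hi] at h5
      cases h6 : o i <;> rw [h6] at h5 <;> simp at h5
    · have h5 : A ≠ T := fun h6 => hiA (h6 ▸ hi)
      exact h2 A hA h5 ((on_flp_of_not_mem hiA).1 hAx)
  have h5 : ∀ D ∈ h0, ∀ l ∈ D, l.1 ≠ (i : ℕ) := by
    intro D hD l hl hli
    obtain ⟨j, hj⟩ := hC.hV l (hh0 D hD l hl)
    have h6 : j = i := by
      apply Fin.ext
      rw [← hli, hj]
    apply hiV
    rw [← h6, ← hj]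
    exact hh0 D hD l hl
  unfold gp10 at h3 h4
  rw [satD_flp10 h5] at h4
  rw [Bool.or_eq_true] at h3 h4
  push Not at h4
  obtain ⟨h6, h7⟩ := h4
  rcases h3 with h3 | h3
  · exact ⟨h3, by simpa using h6⟩
  · exact absurd h3 h7

end Pool.Agent.H.MP_cba12a_lc
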