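import Pool.Agent.H.MP_cba12a_lc.X10.Mn2
import Pool.Agent.H.MP_cba12a_lc.X10.Dt

/-!
The rounds: invariants.
-/

namespace Pool.Agent.H.MP_cba12a_lc

open Finset

variable {n m r t : ℕ} {o : Fin n → Bool} {f g : (Fin n → Bool) → Bool}
  {ω : Fin m → Fin n → Bool} {η ι : ℝ} {h0 : List (List Lit)} {V : List Lit}
  {F0 F : Finset (Finset (Fin n))}

/-- the list after `j` rounds -/
def HH10 (N t K B : ℕ) (V : List Lit) (S : Samples) (ch h0 : List (List Lit)) (j : ℕ) :
    List (List Lit) :=
  (round10 N t K B V S ch h0)^[j] (mins10 B S h0 ch ++ h0)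

theorem HH10_succ {N K B : ℕ} {S : Samples} {ch : List (List Lit)} (j : ℕ) :
    HH10 N t K B V S ch h0 (j + 1) = round10 N t K B V S ch h0 (HH10 N t K B V S ch h0 j) := by
  unfold HH10
  rw [Function.iterate_succ_apply']

theorem coreV10_eq {N K ℓ A B R0 : ℕ} {S : Samples} :
    coreV10 N t K ℓ A B R0 V S = HH10 N t K B V S
      (chains10 N t ℓ B V S (small10 A S (seeds N t V))) (small10 A S (seeds N t V)) R0 := rfl

/-- the lists increase -/
theorem HH10_mono {N K B : ℕ} {S : Samples} {ch : List (List Lit)} {j j' : ℕ} (h : j ≤ j') :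
    ∀ C ∈ HH10 N t K B V S ch h0 j, C ∈ HH10 N t K B V S ch h0 j' := by
  intro C hC
  induction j', h using Nat.le_induction with
  | base => exact hC
  | succ k _ ih =>
    rw [HH10_succ]
    unfold round10
    exact List.mem_append_right _ ih

theorem h0_mem_HH10 {N K B : ℕ} {S : Samples} {ch : List (List Lit)} (j : ℕ) :
    ∀ C ∈ h0, C ∈ HH10 N t K B V S ch h0 j := by
  intro C hC
  refine HH10_mono (Nat.zero_le j) C ?_
  unfold HH10
  rw [Function.iterate_zero, id]
  exact List.mem_append_right _ hC

theorem mins_length10 (B : ℕ) (S : Samples) (h0 L : List (List Lit)) :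
    (mins10 B S h0 L).length ≤ L.length := by
  unfold mins10
  rw [List.length_map]
  exact List.length_filter_le _ _

theorem length_flatMap_le10 {α β : Type} (L : List α) (F : α → List β) (c : ℕ)
    (h : ∀ a, (F a).length ≤ c) : (L.flatMap F).length ≤ L.length * c := by
  induction L with
  | nil => simp
  | cons a L ih =>
    rw [List.flatMap_cons, List.length_append, List.length_cons, Nat.succ_mul]
    have := h a
    omega

theorem cands_length10 (N K : ℕ) (S : Samples) (ch H : List (List Lit)) :
    (cands10 N t K V S ch H).length ≤ (N + 1) ^ 2 + ch.length := by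
  unfold cands10
  rw [List.length_append, List.length_map]
  have h1 := length_flatMap_le10 (seeds N t V)
    (fun J => (seeds N K V).map fun R => det10 V S H J R) (N + 1) (fun J => by
      rw [List.length_map]
      exact (bd_seeds N K V).1)
  have h2 : (seeds N t V).length * (N + 1) ≤ (N + 1) ^ 2 := by
    rw [pow_two]
    exact Nat.mul_le_mul_right _ (bd_seeds N t V).1
  omega

/-- **The length.** `mins10` of a list is no longer than the list; the seeds are at most `N + 1`
(`bd_seeds`). -/
theorem HH10_length {N K B : ℕ} {S : Samples} {ch : List (List Lit)} (j : ℕ) :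
    (HH10 N t K B V S ch h0 j).length ≤
      ch.length + h0.length + j * ((N + 1) ^ 2 + ch.length) := by
  induction j with
  | zero =>
    unfold HH10
    rw [Function.iterate_zero, id, List.length_append]
    have := mins_length10 B S h0 ch
    omega
  | succ j ih =>
    rw [HH10_succ]
    unfold round10
    rw [List.length_append, Nat.succ_mul]
    have h1 := mins_length10 B S h0 (cands10 N t K V S ch (HH10 N t K B V S ch h0 j))
    have h2 := cands_length10 (t := t) (V := V) N K S ch (HH10 N t K B V S ch h0 j)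
    omega

/-- all candidates are oriented -/
theorem ori_cands10 {N K : ℕ} {S : Samples} {ch H : List (List Lit)} (hV : Ori o V)
    (hch : ∀ C ∈ ch, Ori o C) : ∀ C ∈ cands10 N t K V S ch H, Ori o C := by
  intro C hC
  unfold cands10 at hC
  rcases List.mem_append.1 hC with hC | hC
  · obtain ⟨J, hJ, hC⟩ := List.mem_flatMap.1 hC
    obtain ⟨R, hR, rfl⟩ := List.mem_map.1 hC
    exact ori_det10 hV (fun l hl => hV l (((bd_seeds N t V).2 J hJ).2 l hl))
      (fun l hl => hV l (((bd_seeds N K V).2 R hR).2 l hl))
  · obtain ⟨R, hR, rfl⟩ := List.mem_map.1 hC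
    exact ori_det10 hV (fun l hl => absurd hl List.not_mem_nil) (hch R hR)

/-- **The members of the lists**: oriented, and either in `h0` or almost implying `gp10` and
containing no term properly (`mins_spec10`). -/
theorem HH10_spec (hC : Ctx10 t f g o F0 V ω r η ι) (hh : ∀ C ∈ h0, Ori o C)
    (hr : h0.length ≤ r) {N K B : ℕ} (hB : 0 < B) (hηB : η * B ≤ 1)
    (hgF : ∀ x, gp10 g h0 x = true ↔ ∃ A ∈ F, On o A x) {ch : List (List Lit)}
    (hch : ∀ C ∈ ch, Ori o C) (j : ℕ) : ∀ C ∈ HH10 N t K B V (smp f ω) ch h0 j, Ori o C ∧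
      (C ∈ h0 ∨ (pr (fun x => On o (fs n C) x ∧ gp10 g h0 x = false) ≤ 1 / B + η ∧
        ∀ A ∈ F, ¬ A ⊂ fs n C)) := by
  induction j with
  | zero =>
    intro C hCm
    unfold HH10 at hCm
    rw [Function.iterate_zero, id] at hCm
    rcases List.mem_append.1 hCm with h | h
    · have h1 := mins_spec10 hC hh hr hB hηB hgF hch C h
      exact ⟨h1.1, Or.inr h1.2⟩
    · exact ⟨hh C h, Or.inl h⟩
  | succ j ih =>
    intro C hCm
    rw [HH10_succ] at hCm
    unfold round10 at hCm
    rcases List.mem_append.1 hCm with h | h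
    · have h1 := mins_spec10 hC hh hr hB hηB hgF (ori_cands10 hC.hV hch) C h
      exact ⟨h1.1, Or.inr h1.2⟩
    · exact ih C h

end Pool.Agent.H.MP_cba12a_lc
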