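import Pool.Agent.H.MP_cba12a_lc.X10.CoreA
import Pool.Agent.H.MP_cba12a_lc.X10.Ch2
import Pool.Agent.H.MP_cba12a_lc.X10.Rd1

/-!
The static part of the learner.
-/

namespace Pool.Agent.H.MP_cba12a_lc

open Finset

variable {n m t : ℕ} {o : Fin n → Bool} {f g : (Fin n → Bool) → Bool}
  {ω : Fin m → Fin n → Bool} {V : List Lit} {F0 : Finset (Finset (Fin n))}
  {a N ℓ A B R0 NH m0 P' : ℕ} {aa P : ℕ → ℕ} {τ η ι κ ν M Q Q1 : ℝ}

/-- a level has at most `N + 1` members -/
theorem length_chainL_le10 {N' D B' k : ℕ} {V' : List Lit} {S : Samples}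
    {h0 : List (List Lit)} : (chainL10 N' D B' V' S h0 k).length ≤ N' + 1 := by
  cases k with
  | zero =>
    unfold chainL10
    rw [Function.iterate_zero, id]
    simp
  | succ k =>
    unfold chainL10
    rw [Function.iterate_succ_apply']
    unfold nextC10
    split_ifs with h
    · exact h.trans (Nat.le_succ _)
    · exact Nat.zero_le _

/-- the length of a list of bounded blocks -/
theorem length_flatMap_range10 {α : Type} (j b : ℕ) (F : ℕ → List α)
    (h : ∀ i, (F i).length ≤ b) : ((List.range j).flatMap F).length ≤ j * b := by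
  rw [List.length_flatMap]
  have h1 := List.sum_le_card_nsmul ((List.range j).map fun i => (F i).length) b (by
    intro x hx
    obtain ⟨i, _, rfl⟩ := List.mem_map.1 hx
    exact h i)
  rw [List.length_map, List.length_range, smul_eq_mul] at h1
  exact h1

/-- the members of the list of chains -/
theorem mem_cs10 {S : Samples} {U : List Lit} : U ∈ cs10 N t ℓ A B V S ↔
    ∃ i ≤ ℓ, ∃ k ≤ ℓ, U ∈ chainL10 N (2 ^ (i + t + 2)) B V S (hs10 N t A V S) k := by
  unfold cs10 chains10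
  rw [List.mem_flatMap]
  constructor
  · rintro ⟨i, hi, hU⟩
    obtain ⟨k, hk, hU⟩ := List.mem_flatMap.1 hU
    rw [List.mem_range] at hi hk
    exact ⟨i, Nat.lt_succ_iff.1 hi, k, Nat.lt_succ_iff.1 hk, hU⟩
  · rintro ⟨i, hi, k, hk, hU⟩
    exact ⟨i, List.mem_range.2 (Nat.lt_succ_iff.2 hi),
      List.mem_flatMap.2 ⟨k, List.mem_range.2 (Nat.lt_succ_iff.2 hk), hU⟩⟩

/-- an oriented list without repeated variable has as many variables as members -/
theorem card_fs10 {R : List Lit} (hR : Ori o R) (hRn : (R.map Prod.fst).Nodup) :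
    (fs n R).card = R.length := by
  have h3 : (fs n R).card = (R.map Prod.fst).toFinset.card := by
    refine card_bij (fun i _ => (i : ℕ)) ?_ ?_ ?_
    · intro i hi
      rw [List.mem_toFinset]
      exact mem_fs.1 hi
    · intro i _ j _ hij
      exact Fin.ext hij
    · intro a ha
      rw [List.mem_toFinset] at ha
      obtain ⟨l, hl, rfl⟩ := List.mem_map.1 ha
      obtain ⟨i, rfl⟩ := hR l hl
      exact ⟨i, mem_fs.2 ha, rfl⟩
  rw [h3, List.toFinset_card_of_nodup hRn, List.length_map]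

/-- **Facts on the chains**: oriented, no repeated variable; at most `(ℓ+1)^2 (N+1)` of them
(each level has at most `N + 1` members by the cap in `nextC10`). -/
theorem cs_facts10 (hC : Ctx10 t f g o F0 V ω NH η ι)
    (hP : Par10 a t n N ℓ A B R0 NH m0 P' aa P τ η ι κ ν M Q Q1) :
    (∀ C ∈ cs10 N t ℓ A B V (smp f ω), Ori o C ∧ (C.map Prod.fst).Nodup) ∧
      (cs10 N t ℓ A B V (smp f ω)).length ≤ (ℓ + 1) ^ 2 * (N + 1) := by
  constructor
  · intro C hCm
    obtain ⟨i, _, k, _, hU⟩ := mem_cs10.1 hCm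
    have h1 := chain_shape10 hC.hV k C hU
    exact ⟨h1.1, h1.2.1⟩
  · unfold cs10 chains10
    have h1 := length_flatMap_range10 (ℓ + 1) ((ℓ + 1) * (N + 1))
      (fun m => (List.range (ℓ + 1)).flatMap fun k =>
        chainL10 N (2 ^ (m + t + 2)) B V (smp f ω) (hs10 N t A V (smp f ω)) k)
      (fun m => length_flatMap_range10 (ℓ + 1) (N + 1) _ fun k => length_chainL_le10)
    refine h1.trans (le_of_eq ?_)
    ring

/-- **The static part.** A term with at most `ℓ` variables which is not found has at least `m0`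
variables and contains a chain with `t * aa |T|` elements. Proof: if `|T| < m0` then
`chain_full10` gives a chain inside `T` which almost implies the target, of length at most
`|T| ≤ ℓ`, so in `chains10` (index `m = |T|`), and `exists_min10` gives a member of
`mins10 ... ⊆ H` inside `T`, against `T ∈ Nf`. If `|T| ≥ m0`: `chain_exists10` with
`d = t * aa |T| ≤ |T|`; the first alternative is excluded in the same way. -/
theorem static10 (hC : Ctx10 t f g o F0 V ω NH η ι)
    (hP : Par10 a t n N ℓ A B R0 NH m0 P' aa P τ η ι κ ν M Q Q1) {H : List (List Lit)}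
    (hH : ∀ C ∈ mins10 B (smp f ω) (hs10 N t A V (smp f ω)) (cs10 N t ℓ A B V (smp f ω)),
      C ∈ H) {T : Finset (Fin n)}
    (hT : T ∈ Nf (Fp10 t F0 (hs10 N t A V (smp f ω))) (Hs n H)) (hTℓ : T.card ≤ ℓ) :
    m0 ≤ T.card ∧ ∃ R ∈ cs10 N t ℓ A B V (smp f ω), fs n R ⊆ T ∧
      (fs n R).card = t * aa T.card := by
  obtain ⟨h1, _, hNH, _⟩ := hs_facts10 hC hP
  obtain ⟨hgF, hshare⟩ := hs_iff10 hC hP
  have hh : ∀ C ∈ hs10 N t A V (smp f ω), Ori o C := fun C hCm => (h1 C hCm).1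
  have hh0 : ∀ D ∈ hs10 N t A V (smp f ω), ∀ l ∈ D, l ∈ V := fun C hCm => (h1 C hCm).2.1
  obtain ⟨hTF, hTH⟩ := mem_Nf.1 hT
  have hpow : (2 : ℝ) ^ (T.card + t + 2) ≤ 2 ^ (ℓ + t + 2) :=
    pow_le_pow_right₀ (by norm_num) (by omega)
  have hB0 : (0 : ℝ) ≤ B := Nat.cast_nonneg B
  have hη : 8 * η * B * 2 ^ (T.card + t + 2) ≤ 1 :=
    (mul_le_mul_of_nonneg_left hpow (mul_nonneg (mul_nonneg (by norm_num) hP.η_nonneg) hB0)).trans
      hP.ηB
  have hι : 4 * ι * B * 2 ^ (T.card + t + 2) ≤ 1 :=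
    (mul_le_mul_of_nonneg_left hpow (mul_nonneg (mul_nonneg (by norm_num) hP.ι_nonneg) hB0)).trans
      hP.ιB
  have hno : ∀ k ≤ ℓ, ∀ U ∈ chainL10 N (2 ^ (T.card + t + 2)) B V (smp f ω)
      (hs10 N t A V (smp f ω)) k, fs n U ⊆ T →
      ok10 B (smp f ω) (hs10 N t A V (smp f ω)) U = true → False := by
    intro k hk U hU hUT hok
    obtain ⟨C', hC', hsub⟩ := exists_min10 (mem_cs10.2 ⟨T.card, hTℓ, k, hk, hU⟩) hok
    exact hTH (fs n C') (mem_Hs.2 ⟨C', hH C' hC', rfl⟩) (hsub.trans hUT)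
  rcases Nat.lt_or_ge T.card m0 with hlt | hge
  · exfalso
    obtain ⟨k, hk, U, hU, hUT, hok⟩ := chain_full10 hC hh hh0 hNH hgF hshare hP.B_pos
      hP.η_nonneg hP.ι_nonneg hTF hη hι (hP.ext T.card hTℓ) (hP.chain1 T.card hlt hTℓ)
    exact hno k (hk.trans hTℓ) U hU hUT hok
  · refine ⟨hge, ?_⟩
    have hd := hP.aa_le T.card hge hTℓ
    rcases chain_exists10 hC hh hh0 hNH hgF hshare hP.B_pos
      hP.η_nonneg hP.ι_nonneg hTF hη hι (hP.ext T.card hTℓ) (hP.chain2 T.card hge hTℓ) hd with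
      ⟨k, hk, U, hU, hUT, hok⟩ | ⟨U, hU, hUT⟩
    · exact (hno k (hk.trans (hd.trans hTℓ)) U hU hUT hok).elim
    · obtain ⟨hO, hn, _, hlen⟩ := chain_shape10 hC.hV _ U hU
      refine ⟨U, mem_cs10.2 ⟨T.card, hTℓ, _, hd.trans hTℓ, hU⟩, hUT, ?_⟩
      rw [card_fs10 hO hn, hlen]

end Pool.Agent.H.MP_cba12a_lc
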