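import Pool.Agent.H.MP_cba12a_lc.X10.Jan3

/-!
A bound on the total weight of the long terms through a set of variables.
-/

namespace Pool.Agent.H.MP_cba12a_lc

open Finset

variable {n : ℕ} {o : Fin n → Bool} {g : (Fin n → Bool) → Bool}

/-- the weight of the members of `F` above `I`, in the cube where `I` is on -/
noncomputable def rt10 (F : Finset (Finset (Fin n))) (I : Finset (Fin n)) : ℝ :=
  ∑ T ∈ F.filter (fun T => I ⊆ T), (1 / 2 : ℝ) ^ (T \ I).card

theorem rt10_nonneg (F : Finset (Finset (Fin n))) (I : Finset (Fin n)) : 0 ≤ rt10 F I :=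
  sum_nonneg fun _ _ => by positivity

/-- total weight of the members above `I`, as the weight of a family in the smaller cube -/
theorem rt_eq_wt10 (G : Finset (Finset (Fin n))) (I : Finset (Fin n)) :
    rt10 G I = wt10 ((G.filter (fun T => I ⊆ T)).image (fun T => T \ I)) := by
  unfold rt10 wt10
  rw [sum_image]
  intro A hA B hB h
  rw [Finset.mem_coe, mem_filter] at hA hB
  have h' : A \ I = B \ I := h
  rw [← sdiff_union_of_subset hA.2, h', sdiff_union_of_subset hB.2]

/-- the members of the smaller family through `i` -/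
theorem wt_through10 (G : Finset (Finset (Fin n))) (I : Finset (Fin n)) (i : Fin n) (hi : i ∉ I) :
    wt10 (((G.filter (fun T => I ⊆ T)).image (fun T => T \ I)).filter (fun T => i ∈ T)) ≤
      rt10 G (insert i I) := by
  have hsub : ((G.filter (fun T => I ⊆ T)).image (fun T => T \ I)).filter (fun T => i ∈ T) ⊆
      (G.filter (fun T => insert i I ⊆ T)).image (fun T => T \ I) := by
    intro A hA
    rw [mem_filter, mem_image] at hA
    obtain ⟨⟨T, hT, rfl⟩, hiT⟩ := hA
    rw [mem_filter] at hT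
    rw [mem_image]
    refine ⟨T, ?_, rfl⟩
    rw [mem_filter]
    refine ⟨hT.1, ?_⟩
    rw [insert_subset_iff]
    exact ⟨(mem_sdiff.1 hiT).1, hT.2⟩
  refine (wt10_mono hsub).trans ?_
  unfold rt10 wt10
  rw [sum_image]
  · apply sum_le_sum
    intro T hT
    rw [mem_filter] at hT
    have h1 : (T \ insert i I).card ≤ (T \ I).card :=
      card_le_card (sdiff_subset_sdiff (Subset.refl _) (subset_insert _ _))
    exact pow_le_pow_of_le_one (by norm_num) (by norm_num) h1
  · intro A hA B hB h
    rw [Finset.mem_coe, mem_filter, insert_subset_iff] at hA hB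
    have h' : A \ I = B \ I := h
    rw [← sdiff_union_of_subset hA.2.2, h', sdiff_union_of_subset hB.2.2]

/-- **The rate bound.** The weight of the long terms above `I`, by downward induction on `|I|`. -/
theorem rate10 {t ℓ : ℕ} {τ : ℝ} (G : Finset (Finset (Fin n))) (hG : Shr t G)
    (hℓ : ∀ T ∈ G, T.card ≤ ℓ) (hgG : ∀ A ∈ G, ∀ x, On o A x → g x = true)
    (hτ : 0 < τ) (hτ1 : 1 ≤ Real.log (1 / τ))
    (hZ : ∀ T ∈ G, ∀ J ⊆ T, J.card ≤ t → τ ≤ ZZ o g J) (I : Finset (Fin n)) (hI : I.card ≤ t + 1) :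
    rt10 G I ≤ ((1 + 2 ^ (t + 2) * ℓ) * (2 * Real.log (1 / τ))) ^ (t + 1 - I.card) := by
  classical
  set B : ℝ := (1 + 2 ^ (t + 2) * ℓ) * (2 * Real.log (1 / τ)) with hB
  have hℓ0 : (0 : ℝ) ≤ ℓ := Nat.cast_nonneg ℓ
  have hpl : (0 : ℝ) ≤ 2 ^ (t + 2) * ℓ := by positivity
  have hB1 : 1 ≤ B := by
    rw [hB]
    nlinarith
  obtain ⟨d, hd⟩ : ∃ d, t + 1 - I.card = d := ⟨_, rfl⟩
  rw [hd]
  induction d generalizing I with
  | zero =>
    rw [pow_zero]
    have hIc : I.card = t + 1 := by omega
    have hsubs : (G.filter (fun T => I ⊆ T)).card ≤ 1 := by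
      rw [card_le_one]
      intro A hA A' hA'
      rw [mem_filter] at hA hA'
      by_contra hne
      have h1 := hG A hA.1 A' hA'.1 hne
      have h2 := card_le_card (subset_inter hA.2 hA'.2)
      omega
    unfold rt10
    calc ∑ T ∈ G.filter (fun T => I ⊆ T), (1 / 2 : ℝ) ^ (T \ I).card ≤
        ∑ _T ∈ G.filter (fun T => I ⊆ T), (1 : ℝ) :=
          sum_le_sum fun T _ => pow_le_one₀ (by norm_num) (by norm_num)
      _ = ((G.filter (fun T => I ⊆ T)).card : ℝ) := by rw [sum_const, nsmul_eq_mul, mul_one]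
      _ ≤ 1 := by exact_mod_cast hsubs
  | succ d ih =>
    have hIt : I.card ≤ t := by omega
    by_cases hex : ∃ T₀ ∈ G, I ⊆ T₀
    · obtain ⟨T₀, hT₀, hIT₀⟩ := hex
      rw [rt_eq_wt10]
      set GI := (G.filter (fun T => I ⊆ T)).image (fun T => T \ I) with hGI
      have hGI1 : Shr t GI := by
        intro A hA A' hA' hne
        rw [hGI, mem_image] at hA hA'
        obtain ⟨T, hT, rfl⟩ := hA
        obtain ⟨T', hT', rfl⟩ := hA'
        rw [mem_filter] at hT hT'
        have hTT : T ≠ T' := fun h => hne (by rw [h])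
        refine (card_le_card ?_).trans (hG T hT.1 T' hT'.1 hTT)
        exact inter_subset_inter sdiff_subset sdiff_subset
      have hGI2 : ∀ T ∈ GI, T.card ≤ ℓ := by
        intro A hA
        rw [hGI, mem_image] at hA
        obtain ⟨T, hT, rfl⟩ := hA
        rw [mem_filter] at hT
        exact (card_le_card sdiff_subset).trans (hℓ T hT.1)
      have hc1 : 1 ≤ B ^ d := one_le_pow₀ hB1
      have hGI3 : ∀ i : Fin n, wt10 (GI.filter fun T => i ∈ T) ≤ B ^ d := by
        intro i
        by_cases hi : i ∈ I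
        · have h1 : GI.filter (fun T => i ∈ T) = ∅ := by
            apply filter_false_of_mem
            intro A hA hiA
            rw [hGI, mem_image] at hA
            obtain ⟨T, _, rfl⟩ := hA
            exact (mem_sdiff.1 hiA).2 hi
          rw [h1]
          unfold wt10
          rw [sum_empty]
          linarith
        · refine (wt_through10 G I i hi).trans ?_
          apply ih (insert i I)
          · rw [card_insert_of_notMem hi]; omega
          · rw [card_insert_of_notMem hi]; omega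
      have hZI : τ ≤ pr fun x => Off o GI x := by
        refine (hZ T₀ hT₀ I hIT₀ hIt).trans (pr_mono ?_)
        intro x hx A hA hon
        rw [hGI, mem_image] at hA
        obtain ⟨T, hT, rfl⟩ := hA
        rw [mem_filter] at hT
        have h1 : On o T (sOn o I x) := (on_sOn_iff o T I x).2 hon
        have h2 := hgG T hT.1 _ h1
        rw [hx] at h2
        exact Bool.false_ne_true h2
      have hp : 0 < pr fun x => Off o GI x := hτ.trans_le hZI
      have h1 := wt_le10 o GI hGI1 hGI2 (by linarith) hGI3 hp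
      have h2 : Real.log (1 / pr fun x => Off o GI x) ≤ Real.log (1 / τ) :=
        Real.log_le_log (by positivity) (one_div_le_one_div_of_le hτ hZI)
      have h3 : (1 : ℝ) + 2 ^ (t + 1) * ℓ * B ^ d ≤ (1 + 2 ^ (t + 2) * ℓ) * B ^ d := by
        have h4 : (2 : ℝ) ^ (t + 2) = 2 * 2 ^ (t + 1) := by ring
        rw [h4]
        have h5 : (0 : ℝ) ≤ 2 ^ (t + 1) * ℓ * B ^ d := by positivity
        nlinarith
      calc wt10 GI ≤ (1 + 2 ^ (t + 1) * ℓ * B ^ d) * (2 * Real.log (1 / pr fun x => Off o GI x)) :=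
            h1
        _ ≤ (1 + 2 ^ (t + 1) * ℓ * B ^ d) * (2 * Real.log (1 / τ)) :=
            mul_le_mul_of_nonneg_left (by linarith) (by positivity)
        _ ≤ (1 + 2 ^ (t + 2) * ℓ) * B ^ d * (2 * Real.log (1 / τ)) :=
            mul_le_mul_of_nonneg_right h3 (by linarith)
        _ = B ^ (d + 1) := by rw [hB]; ring
    · push Not at hex
      have h1 : G.filter (fun T => I ⊆ T) = ∅ := filter_false_of_mem fun T hT => hex T hT
      unfold rt10
      rw [h1, sum_empty]
      positivity

/-- total weight: `wt G ≤ B^(t+1)` (the case `I = ∅` of `rate10`) -/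
theorem wt_rate10 {t ℓ : ℕ} {τ : ℝ} (G : Finset (Finset (Fin n))) (hG : Shr t G)
    (hℓ : ∀ T ∈ G, T.card ≤ ℓ) (hgG : ∀ A ∈ G, ∀ x, On o A x → g x = true)
    (hτ : 0 < τ) (hτ1 : 1 ≤ Real.log (1 / τ))
    (hZ : ∀ T ∈ G, ∀ J ⊆ T, J.card ≤ t → τ ≤ ZZ o g J) :
    wt10 G ≤ ((1 + 2 ^ (t + 2) * ℓ) * (2 * Real.log (1 / τ))) ^ (t + 1) := by
  have h := rate10 G hG hℓ hgG hτ hτ1 hZ ∅ (by simp)
  simpa [rt10, wt10] using h

end Pool.Agent.H.MP_cba12a_lc
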