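import Pool.Agent.H.MP_cba12a_lc.X10.Dt

/-!
The candidate read off from the mixed derivative is the term.
-/

namespace Pool.Agent.H.MP_cba12a_lc

open Finset

variable {n m r t : ℕ} {o : Fin n → Bool} {f g : (Fin n → Bool) → Bool}
  {ω : Fin m → Fin n → Bool} {η ι σ : ℝ} {h0 H : List (List Lit)} {V : List Lit}
  {F0 F : Finset (Finset (Fin n))}

/-- The test for the literal on `i` is passed iff `i ∈ T`. -/
theorem test10 (hC : Ctx10 t f g o F0 V ω r η ι) (hh : ∀ D ∈ H, Ori o D)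
    (hh0 : ∀ D ∈ h0, D ∈ H) (hr : H.length ≤ r)
    (hgF : ∀ x, gp10 g h0 x = true ↔ ∃ A ∈ F, On o A x) {T : Finset (Fin n)} (hT : T ∈ F)
    {J R : List Lit} (hJ : Ori o J) (hR : Ori o R) (hRn : (R.map Prod.fst).Nodup)
    (hJT : fs n J ⊆ T) (hRT : fs n R ⊆ T) (hR0 : (fs n R).Nonempty)
    (hJR : Disjoint (fs n J) (fs n R)) (hσ : 0 < σ) (hη : 200 * η ≤ σ)
    (hdet : Det10 o F (Hs n H) T (fs n J) (fs n R) σ) {i : Fin n} (hi : i ∉ fs n R) :
    4 * cnt10 (smp f ω) true false R (neg ((i : ℕ), o i) :: J) (strip10 R H) +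
        cnt10 (smp f ω) true true R J (strip10 R H) <
      cnt10 (smp f ω) true false R J (strip10 R H) +
        4 * cnt10 (smp f ω) true true R (neg ((i : ℕ), o i) :: J) (strip10 R H) ↔ i ∈ T := by
  have hm : (0 : ℝ) < m := by exact_mod_cast hC.hm
  have hZ1 : ∀ x : Fin n → Bool, sat (List.ofFn x) J = true ↔ On o (fs n J) x ∧ True := by
    intro x
    rw [sat_ori hJ, and_true]
  have hZn : ∀ l ∈ neg ((i : ℕ), o i) :: J, l.1 < n := by
    intro l hl
    rcases List.mem_cons.1 hl with h | h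
    · rw [h]
      exact i.2
    · exact hJ.lt l h
  have h1 := stat_est10 (g := g) (h0 := h0) hC.hrep hR hRn hh hh0 hr hJ.lt hZ1
  have h2 := stat_est10 (g := g) (h0 := h0) hC.hrep hR hRn hh hh0 hr hZn (sat_neg10 hJ i)
  have h3 := read10 (H := Hs n H) hgF hT hJT hRT hR0 hJR hσ hdet hi
    (h1.trans (by linarith)) (h2.trans (by linarith))
  rw [← h3, ← mul_div_assoc, div_lt_div_iff_of_pos_right hm]
  rw [← Nat.cast_lt (α := ℝ)]
  push_cast
  constructor <;> intro h <;> linarith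

/-- The candidate is the term, if all its variables are listed in `V`. -/
theorem det_spec10 (hC : Ctx10 t f g o F0 V ω r η ι) (hh : ∀ D ∈ H, Ori o D)
    (hh0 : ∀ D ∈ h0, D ∈ H) (hr : H.length ≤ r)
    (hgF : ∀ x, gp10 g h0 x = true ↔ ∃ A ∈ F, On o A x) {T : Finset (Fin n)} (hT : T ∈ F)
    (hTV : ∀ i ∈ T, ((i : ℕ), o i) ∈ V)
    {J R : List Lit} (hJ : Ori o J) (hR : Ori o R) (hRn : (R.map Prod.fst).Nodup)
    (hJT : fs n J ⊆ T) (hRT : fs n R ⊆ T) (hR0 : (fs n R).Nonempty)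
    (hJR : Disjoint (fs n J) (fs n R)) (hσ : 0 < σ) (hη : 200 * η ≤ σ)
    (hdet : Det10 o F (Hs n H) T (fs n J) (fs n R) σ) :
    fs n (det10 V (smp f ω) H J R) = T := by
  have key : ∀ {i : Fin n}, i ∉ fs n R → _ := fun {i} hi =>
    test10 hC hh hh0 hr hgF hT hJ hR hRn hJT hRT hR0 hJR hσ hη hdet (i := i) hi
  have hmem : ∀ {L : List Lit} {i : Fin n} {l : Lit}, l ∈ L → l.1 = i → i ∈ fs n L :=
    fun hl he => mem_fs.2 (List.mem_map.2 ⟨_, hl, he⟩)
  have hex : ∀ {L : List Lit} {i : Fin n}, i ∈ fs n L → ∃ l ∈ L, l.1 = i :=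
    fun hi => List.mem_map.1 (mem_fs.1 hi)
  ext i
  constructor
  · intro hi
    obtain ⟨l, hl, hli⟩ := hex hi
    rcases mem_det10.1 hl with h | h | ⟨hV, hne, htest⟩
    · exact hJT (hmem h hli)
    · exact hRT (hmem h hli)
    · obtain ⟨i', hl'⟩ := hC.hV l hV
      have hii : i' = i := by
        apply Fin.ext
        rw [← hli, hl']
      subst hii
      have hiR : i' ∉ fs n R := by
        intro hc
        obtain ⟨l', hl1, hl2⟩ := hex hc
        exact hne l' (List.mem_append_right _ hl1) (hl2.trans hli.symm)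
      rw [hl'] at htest
      exact (key hiR).1 htest
  · intro hi
    by_cases hiJ : i ∈ fs n J
    · obtain ⟨l, hl, hli⟩ := hex hiJ
      exact hmem (mem_det10.2 (Or.inl hl)) hli
    by_cases hiR : i ∈ fs n R
    · obtain ⟨l, hl, hli⟩ := hex hiR
      exact hmem (mem_det10.2 (Or.inr (Or.inl hl))) hli
    refine hmem (l := ((i : ℕ), o i)) (mem_det10.2 (Or.inr (Or.inr ⟨hTV i hi, ?_, ?_⟩))) rfl
    · intro l' hl' he
      rcases List.mem_append.1 hl' with h | h
      · exact hiJ (hmem h he)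
      · exact hiR (hmem h he)
    · exact (key hiR).2 hi

end Pool.Agent.H.MP_cba12a_lc
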