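import Pool.Agent.H.MP_cba12a_lc.X10.Rd1
import Pool.Agent.H.MP_cba12a_lc.X10.Dt2

/-!
A detected term is found in the next round.
-/

namespace Pool.Agent.H.MP_cba12a_lc

open Finset

variable {n m r t : ℕ} {o : Fin n → Bool} {f g : (Fin n → Bool) → Bool}
  {ω : Fin m → Fin n → Bool} {η ι σ : ℝ} {h0 H ch : List (List Lit)} {V : List Lit}
  {F0 F : Finset (Finset (Fin n))}

/-- **A candidate equal to a term is kept**: if `fs n C = T ∈ F` then `C` passes the test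
(`cnt_zero10`), and a part of it is in the next list (`exists_min10`). -/
theorem found10 (hC : Ctx10 t f g o F0 V ω r η ι) (hh : ∀ C ∈ h0, Ori o C)
    (hr : h0.length ≤ r) {N K B : ℕ} (hηB : η * B ≤ 1)
    (hgF : ∀ x, gp10 g h0 x = true ↔ ∃ A ∈ F, On o A x) {T : Finset (Fin n)} (hT : T ∈ F)
    {C : List Lit} (hCo : Ori o C) (hCT : fs n C = T)
    (hCc : C ∈ cands10 N t K V (smp f ω) ch H) :
    ∃ C' ∈ round10 N t K B V (smp f ω) ch h0 H, fs n C' ⊆ T := by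
  have hok : ok10 B (smp f ω) h0 C = true := by
    unfold ok10
    rw [decide_eq_true_iff]
    refine cnt_zero10 hC.hrep hC.hm hηB hCo hh hr fun x hx => ?_
    rw [hgF]
    rw [hCT] at hx
    exact ⟨T, hT, hx⟩
  obtain ⟨C', hC', hs⟩ := exists_min10 hCc hok
  refine ⟨C', ?_, hCT ▸ hs⟩
  unfold round10
  exact List.mem_append_left _ hC'

/-- **Type 1.** If the detection condition holds for some `J, R ⊆ T` with `|J| ≤ t`, `|R| = K`,
then `T` is found. Proof: `T` is listed (`only_V10`, as `ι < σ ≤ Pr[Only]`), so the lists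
`lst o J`, `lst o R` are seeds (`mem_seeds`, `length_lst`, `mem_lst`), the candidate
`det10 V S H (lst o J) (lst o R)` is `T` (`det_spec10`, `fs_lst`, `dec_lst`), and `found10`. -/
theorem found_type1_10 (hC : Ctx10 t f g o F0 V ω r η ι) (hh : ∀ C ∈ h0, Ori o C)
    (hh0V : ∀ D ∈ h0, ∀ l ∈ D, l ∈ V) (hr0 : h0.length ≤ r)
    (hH : ∀ D ∈ H, Ori o D) (hh0 : ∀ D ∈ h0, D ∈ H) (hr : H.length ≤ r) {N K B : ℕ}
    (hηB : η * B ≤ 1) (hgF : ∀ x, gp10 g h0 x = true ↔ ∃ A ∈ F, On o A x)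
    (hN1 : (V.length + 1) ^ t ≤ N) (hN2 : (V.length + 1) ^ K ≤ N) {T : Finset (Fin n)}
    (hT : T ∈ F) {J R : Finset (Fin n)} (hJ : J ⊆ T) (hR : R ⊆ T) (hJR : Disjoint J R)
    (hJt : J.card ≤ t) (hRK : R.card = K) (hK : 0 < K) (hσ : 0 < σ) (hη : 200 * η ≤ σ)
    (hι : ι < σ) (hdet : Det10 o F (Hs n H) T J R σ) :
    ∃ C' ∈ round10 N t K B V (smp f ω) ch h0 H, fs n C' ⊆ T := by
  have hTV : ∀ i ∈ T, ((i : ℕ), o i) ∈ V :=
    only_V10 hC hh0V hgF hT (G := Hs n H) (lt_of_lt_of_le hι hdet.2)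
  have hJs : lst o J ∈ seeds N t V := by
    refine mem_seeds hN1 (by rw [length_lst]; exact hJt) fun l hl => ?_
    obtain ⟨i, hi, rfl⟩ := mem_lst.1 hl
    exact hTV i (hJ hi)
  have hRs : lst o R ∈ seeds N K V := by
    refine mem_seeds hN2 (by rw [length_lst]; exact hRK.le) fun l hl => ?_
    obtain ⟨i, hi, rfl⟩ := mem_lst.1 hl
    exact hTV i (hR hi)
  have hR0 : R.Nonempty := by
    rw [← card_pos, hRK]; exact hK
  have hspec : fs n (det10 V (smp f ω) H (lst o J) (lst o R)) = T := by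
    refine det_spec10 hC hH hh0 hr hgF hT hTV (ori_lst J) (ori_lst R) (dec_lst R).nodup ?_ ?_ ?_ ?_
      hσ hη ?_
    · rw [fs_lst]; exact hJ
    · rw [fs_lst]; exact hR
    · rw [fs_lst]; exact hR0
    · rw [fs_lst, fs_lst]; exact hJR
    · rw [fs_lst, fs_lst]; exact hdet
  refine found10 hC hh hr0 hηB hgF hT (ori_det10 hC.hV (ori_lst J) (ori_lst R)) hspec ?_
  unfold cands10
  refine List.mem_append_left _ (List.mem_flatMap.2 ⟨_, hJs, List.mem_map.2 ⟨_, hRs, rfl⟩⟩)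

/-- **Type 2.** If the detection condition holds for `J = ∅` and a chain `R` inside `T` then `T`
is found. -/
theorem found_type2_10 (hC : Ctx10 t f g o F0 V ω r η ι) (hh : ∀ C ∈ h0, Ori o C)
    (hh0V : ∀ D ∈ h0, ∀ l ∈ D, l ∈ V) (hr0 : h0.length ≤ r)
    (hH : ∀ D ∈ H, Ori o D) (hh0 : ∀ D ∈ h0, D ∈ H) (hr : H.length ≤ r) {N K B : ℕ}
    (hηB : η * B ≤ 1) (hgF : ∀ x, gp10 g h0 x = true ↔ ∃ A ∈ F, On o A x)
    {T : Finset (Fin n)} (hT : T ∈ F) {R : List Lit} (hR : R ∈ ch) (hRo : Ori o R)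
    (hRn : (R.map Prod.fst).Nodup) (hRT : fs n R ⊆ T) (hR0 : (fs n R).Nonempty)
    (hσ : 0 < σ) (hη : 200 * η ≤ σ) (hι : ι < σ)
    (hdet : Det10 o F (Hs n H) T ∅ (fs n R) σ) :
    ∃ C' ∈ round10 N t K B V (smp f ω) ch h0 H, fs n C' ⊆ T := by
  have hTV : ∀ i ∈ T, ((i : ℕ), o i) ∈ V :=
    only_V10 hC hh0V hgF hT (G := Hs n H) (lt_of_lt_of_le hι hdet.2)
  have hnil : fs n ([] : List Lit) = ∅ := by
    ext i
    rw [mem_fs]
    simp
  have hon : Ori o ([] : List Lit) := fun l hl => by simp at hl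
  have hspec : fs n (det10 V (smp f ω) H [] R) = T := by
    refine det_spec10 hC hH hh0 hr hgF hT hTV hon hRo hRn ?_ hRT hR0 ?_ hσ hη ?_
    · rw [hnil]; exact empty_subset _
    · rw [hnil]; exact disjoint_empty_left _
    · rw [hnil]; exact hdet
  refine found10 hC hh hr0 hηB hgF hT (ori_det10 hC.hV hon hRo) hspec ?_
  unfold cands10
  exact List.mem_append_right _ (List.mem_map.2 ⟨_, hR, rfl⟩)

end Pool.Agent.H.MP_cba12a_lc
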