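import Pool.Agent.H.MP_cba12a_lc.X10.Cov3

/-!
The noise of the mixed derivative, relative form.
-/

namespace Pool.Agent.H.MP_cba12a_lc

open Finset

variable {n : ℕ} {o : Fin n → Bool} {g : (Fin n → Bool) → Bool} {F H : Finset (Finset (Fin n))}
  {t : ℕ}

/-- the complement of the cover event is decreasing -/
theorem dnP_not_CI10 (o : Fin n → Bool) (G : Finset (Finset (Fin n))) (W : Finset (Fin n))
    (a : ℕ) : DnP o (fun x => ¬ CI10 o G W a x) := by
  intro i x h hc
  apply h
  obtain ⟨S, hS, hSa, hon⟩ := hc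
  refine ⟨S, hS, hSa, fun A hA => ?_⟩
  by_contra hn
  exact dnP_not_on o (A \ W) i x hn (hon A hA)

/-- an increasing and a decreasing event are negatively correlated -/
theorem harris_neg10 {P D : (Fin n → Bool) → Prop} (hP : DnP o (fun x => ¬ P x)) (hD : DnP o D) :
    pr (fun x => P x ∧ D x) ≤ pr P * pr D := by
  classical
  have h1 := harris hP hD
  have h2 : pr D = pr (fun x => P x ∧ D x) + pr (fun x => ¬ P x ∧ D x) := by
    unfold pr
    refine mu_eq_add (fun x => ?_) (fun x => ?_)
    · simp only [decide_eq_true_iff]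
      tauto
    · simp only [decide_eq_true_iff]
      tauto
  have h3 : (1 : ℝ) = pr P + pr (fun x => ¬ P x) := by
    rw [← mu_true (n := n)]
    unfold pr
    refine mu_eq_add (fun x => ?_) (fun x => ?_)
    · simp only [decide_eq_true_iff]
      tauto
    · simp only [decide_eq_true_iff]
      tauto
  have h4 : pr (fun x => ¬ P x) = 1 - pr P := by linarith
  rw [h4] at h1
  nlinarith

/-- the probability that no member of `F` disjoint from `R` is on -/
theorem pr_disj10 (hgF : ∀ x, g x = true ↔ ∃ A ∈ F, On o A x) {J R : Finset (Fin n)}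
    (hJR : Disjoint J R) :
    pr (fun x => ∀ A ∈ F, Disjoint A R → ¬ On o A (sOn o J x)) ≤ 2 ^ R.card * ZZ o g J := by
  set D : (Fin n → Bool) → Prop := fun x => ∀ A ∈ F, Disjoint A R → ¬ On o A (sOn o J x) with hD
  set o' : Fin n → Bool := fun i => !(o i) with ho'
  have h1 := pr_on o' R D
  have h2 : pr (fun x => D (sOn o' R x)) = pr D := by
    refine pr_congr fun x => ?_
    have key : ∀ A : Finset (Fin n), Disjoint A R →
        (On o A (sOn o J (sOn o' R x)) ↔ On o A (sOn o J x)) := by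
      intro A hA
      have hp : ∀ i ∈ A, sOn o J (sOn o' R x) i = sOn o J x i := by
        intro i hi
        have hiR : i ∉ R := disjoint_left.1 hA hi
        by_cases hiJ : i ∈ J
        · rw [sOn_mem hiJ, sOn_mem hiJ]
        · rw [sOn_not_mem hiJ, sOn_not_mem hiJ, sOn_not_mem hiR]
      constructor
      · intro h i hi
        rw [← hp i hi]
        exact h i hi
      · intro h i hi
        rw [hp i hi]
        exact h i hi
    constructor
    · intro h A hA hd hc
      exact h A hA hd ((key A hd).2 hc)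
    · intro h A hA hd hc
      exact h A hA hd ((key A hd).1 hc)
  rw [h2] at h1
  have h3 : pr (fun x => On o' R x ∧ D x) ≤ ZZ o g J := by
    refine pr_mono ?_
    rintro x ⟨hx, hDx⟩
    by_contra hc
    rw [Bool.not_eq_false, hgF] at hc
    obtain ⟨A, hAF, hAx⟩ := hc
    by_cases hd : Disjoint A R
    · exact hDx A hAF hd hAx
    · rw [not_disjoint_iff] at hd
      obtain ⟨r, hrA, hrR⟩ := hd
      have hrJ : r ∉ J := disjoint_right.1 hJR hrR
      have h4 := hAx r hrA
      rw [sOn_not_mem hrJ, hx r hrR, ho'] at h4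
      cases h : o r <;> simp [h] at h4
  rw [h1] at h3
  have h5 : (2 : ℝ) ^ R.card * ((1 / 2) ^ R.card * pr D) = pr D := by
    rw [← mul_assoc, ← mul_pow]
    norm_num
  rw [← h5]
  exact mul_le_mul_of_nonneg_left h3 (by positivity)

/-- Noise bound, relative form. -/
theorem cov_le10 (hgF : ∀ x, g x = true ↔ ∃ A ∈ F, On o A x) (hshare : Shr t F) (ht : 1 ≤ t)
    {T J R : Finset (Fin n)} (hT : T ∈ F) (hJ : J ⊆ T) (hR : R ⊆ T) (hJR : Disjoint J R)
    {a : ℕ} (ha : t * a ≤ R.card) :
    pr (fun x => On o J x ∧ Cov10 o F H T R x) ≤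
      (1 / 2) ^ J.card * ((2 ^ (t * (a + 1)) *
        wt10 (((Nf F H).erase T).filter fun A => ¬ Disjoint A R)) ^ a *
          (2 ^ R.card * ZZ o g J)) := by
  set G := ((Nf F H).erase T).filter fun A => ¬ Disjoint A R with hG
  have hGF : ∀ A ∈ G, A ∈ F ∧ A ≠ T := by
    intro A hA
    rw [hG, mem_filter, mem_erase, mem_Nf] at hA
    exact ⟨hA.1.2.1, hA.1.1⟩
  rw [pr_on o J (Cov10 o F H T R)]
  refine mul_le_mul_of_nonneg_left ?_ (by positivity)
  set D : (Fin n → Bool) → Prop := fun x => ∀ A ∈ F, Disjoint A R → ¬ On o A (sOn o J x) with hD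
  have h1 : pr (fun x => Cov10 o F H T R (sOn o J x)) ≤
      pr (fun x => CI10 o G (J ∪ R) a x ∧ D x) := by
    refine pr_mono fun x hx => ⟨?_, hx.2.1⟩
    obtain ⟨S, hS, hSa, hon⟩ := cov_CI10 hshare ht hT hR ha hx
    refine ⟨S, hS, hSa, fun A hA => ?_⟩
    have h2 := (on_sOn_iff o (A \ R) J x).1 (hon A hA)
    refine h2.mono fun i hi => ?_
    rw [mem_sdiff, mem_union] at hi
    rw [mem_sdiff, mem_sdiff]
    tauto
  have h2 : pr (fun x => CI10 o G (J ∪ R) a x ∧ D x) ≤ pr (CI10 o G (J ∪ R) a) * pr D := by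
    refine harris_neg10 (dnP_not_CI10 o G (J ∪ R) a) ?_
    intro i x h A hA hd
    exact (dnP_not_on o A).sOn J i x (h A hA hd)
  have h3 : pr (CI10 o G (J ∪ R) a) ≤ (2 ^ (t * (a + 1)) * wt10 G) ^ a := by
    refine cover_le10 G (hshare.mono fun A hA => (hGF A hA).1) (J ∪ R) fun A hA => ?_
    refine le_trans (card_le_card ?_) (hshare A (hGF A hA).1 T hT (hGF A hA).2)
    exact inter_subset_inter_left (union_subset hJ hR)
  have h4 := pr_disj10 (g := g) hgF hJR
  exact h1.trans (h2.trans (mul_le_mul h3 h4 (pr_nonneg _) (by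
    have := wt10_nonneg G
    positivity)))

end Pool.Agent.H.MP_cba12a_lc
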