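import Pool.Agent.H.MP_cba12a_lc.X10.Cov3

/-!
The noise of the mixed derivative, split form.
-/

namespace Pool.Agent.H.MP_cba12a_lc

open Finset

variable {n : ℕ} {o : Fin n → Bool} {g : (Fin n → Bool) → Bool} {F H : Finset (Finset (Fin n))}
  {t : ℕ}

/-- the event of one small covering set -/
theorem cov_small10 (o : Fin n → Bool) (H : Finset (Finset (Fin n))) (A R : Finset (Fin n)) :
    pr (fun x => On o (A \ R) x ∧ Off o H (sOn o R x)) ≤
      2 ^ R.card * pr (fun x => On o A x ∧ Off o H x) := by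
  have h1 := pr_on o R (fun y => On o A y ∧ Off o H y)
  have h2 : pr (fun x => On o (A \ R) x ∧ Off o H (sOn o R x)) =
      pr (fun x => On o A (sOn o R x) ∧ Off o H (sOn o R x)) :=
    pr_congr fun x => by rw [on_sOn_iff]
  have h3 : pr (fun x => On o R x ∧ On o A x ∧ Off o H x) ≤
      pr (fun x => On o A x ∧ Off o H x) := pr_mono fun x hx => hx.2
  have h4 : (2 : ℝ) ^ R.card * (1 / 2) ^ R.card = 1 := by
    rw [← mul_pow]; norm_num
  rw [h2]
  calc pr (fun x => On o A (sOn o R x) ∧ Off o H (sOn o R x)) =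
      2 ^ R.card * ((1 / 2) ^ R.card * pr (fun x => On o A (sOn o R x) ∧ Off o H (sOn o R x))) := by
        rw [← mul_assoc, h4, one_mul]
    _ = 2 ^ R.card * pr (fun x => On o R x ∧ On o A x ∧ Off o H x) := by rw [← h1]
    _ ≤ 2 ^ R.card * pr (fun x => On o A x ∧ Off o H x) :=
        mul_le_mul_of_nonneg_left h3 (by positivity)

/-- The noise bound, split by the sizes of the covering sets. -/
theorem cov_split10 (hshare : Shr t F) (ht : 1 ≤ t) {T R : Finset (Fin n)} (hT : T ∈ F)
    (hR : R ⊆ T) {a p : ℕ} (ha : t * a ≤ R.card) :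
    pr (Cov10 o F H T R) ≤
      (2 ^ (t * (a + 1)) * wt10 ((Nf F H).filter fun A => p ≤ A.card)) ^ a +
        ∑ A ∈ (Nf F H).filter (fun A => A.card < p),
          2 ^ R.card * pr (fun x => On o A x ∧ Off o H x) := by
  classical
  set G : Finset (Finset (Fin n)) := ((Nf F H).erase T).filter fun A => p ≤ A.card with hG
  have hGF : G ⊆ F := by
    intro A hA
    rw [hG, mem_filter, mem_erase, mem_Nf] at hA
    exact hA.1.2.1
  have hGW : ∀ A ∈ G, (A ∩ R).card ≤ t := by
    intro A hA
    have hAF := hGF hA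
    rw [hG, mem_filter, mem_erase] at hA
    exact (card_le_card (inter_subset_inter_left hR)).trans (hshare A hAF T hT hA.1.1)
  have hGN : G ⊆ (Nf F H).filter fun A => p ≤ A.card := by
    intro A hA
    rw [hG, mem_filter, mem_erase] at hA
    rw [mem_filter]
    exact ⟨hA.1.2, hA.2⟩
  have h1 : pr (CI10 o G R a) ≤
      (2 ^ (t * (a + 1)) * wt10 ((Nf F H).filter fun A => p ≤ A.card)) ^ a := by
    refine (cover_le10 G (hshare.mono hGF) R hGW).trans ?_
    have h0 := wt10_nonneg G
    have h2 := wt10_mono hGN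
    exact pow_le_pow_left₀ (mul_nonneg (by positivity) h0)
      (mul_le_mul_of_nonneg_left h2 (by positivity)) a
  have h3 : pr (fun x => ∃ A ∈ (Nf F H).filter (fun A => A.card < p),
      On o (A \ R) x ∧ Off o H (sOn o R x)) ≤
      ∑ A ∈ (Nf F H).filter (fun A => A.card < p),
          2 ^ R.card * pr (fun x => On o A x ∧ Off o H x) := by
    refine (pr_le_sum _ _ (fun A x => On o (A \ R) x ∧ Off o H (sOn o R x))
      fun x hx => hx).trans ?_
    exact sum_le_sum fun A _ => cov_small10 o H A R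
  refine le_trans ?_ (add_le_add h1 h3)
  refine pr_le_add fun x hx => ?_
  obtain ⟨S, hS, hcard, hon⟩ := cov_CI10 hshare ht hT hR ha hx
  by_cases hall : ∀ A ∈ S, p ≤ A.card
  · refine Or.inl ⟨S, ?_, hcard, hon⟩
    intro A hA
    have := hS hA
    rw [mem_filter] at this
    rw [hG, mem_filter]
    exact ⟨this.1, hall A hA⟩
  · push Not at hall
    obtain ⟨A, hA, hAp⟩ := hall
    refine Or.inr ⟨A, ?_, hon A hA, hx.1⟩
    have := hS hA
    rw [mem_filter, mem_erase] at this
    rw [mem_filter]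
    exact ⟨this.1.2, hAp⟩

end Pool.Agent.H.MP_cba12a_lc
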