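import Pool.Agent.H.MP_cba12a_lc.X10.Base

/-!
Signal, first form.
-/

namespace Pool.Agent.H.MP_cba12a_lc

open Finset

variable {n : ℕ} {o : Fin n → Bool} {g : (Fin n → Bool) → Bool} {F H : Finset (Finset (Fin n))}
  {t : ℕ}

/-- Signal, first form: if every `C ∈ H` is either a member of `F` or satisfies
`Pr[C on, g = 0] ≤ η` and does not properly contain a member of `F`, and `T` is unfound, then
`Pr[Only T] ≥ 2^{-|T|} ZT(T) - |H| η`. -/
theorem sig1_10 (hgF : ∀ x, g x = true ↔ ∃ A ∈ F, On o A x) {η : ℝ} (hη : 0 ≤ η)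
    (hH : ∀ C ∈ H, C ∈ F ∨ (pr (fun x => On o C x ∧ g x = false) ≤ η ∧ ∀ A ∈ F, ¬ A ⊂ C))
    {T : Finset (Fin n)} (hT : T ∈ Nf F H) :
    (1 / 2) ^ T.card * ZT o F T - H.card * η ≤ pr (Only10 o F H T) := by
  rw [mem_Nf] at hT
  obtain ⟨hTF, hTH⟩ := hT
  have h1 := pr_on o T (fun x => ∀ A ∈ F, A ≠ T → ¬ On o A x)
  have h2 : (1 / 2) ^ T.card * ZT o F T = pr (fun x => On o T x ∧
      ∀ A ∈ F, A ≠ T → ¬ On o A x) := by
    rw [h1]
    rfl
  have h3 : pr (fun x => On o T x ∧ ∀ A ∈ F, A ≠ T → ¬ On o A x) ≤ pr (Only10 o F H T) +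
      pr (fun x => (On o T x ∧ ∀ A ∈ F, A ≠ T → ¬ On o A x) ∧ ∃ C ∈ H, On o C x) := by
    refine pr_le_add fun x hx => ?_
    by_cases hC : ∃ C ∈ H, On o C x
    · exact Or.inr ⟨hx, hC⟩
    · exact Or.inl ⟨hx.1, hx.2, fun C hCH hCx => hC ⟨C, hCH, hCx⟩⟩
  have h4 : pr (fun x => (On o T x ∧ ∀ A ∈ F, A ≠ T → ¬ On o A x) ∧ ∃ C ∈ H, On o C x) ≤
      ∑ C ∈ H, pr (fun x => (On o T x ∧ ∀ A ∈ F, A ≠ T → ¬ On o A x) ∧ On o C x) := by
    refine pr_le_sum H _ (fun C x => (On o T x ∧ ∀ A ∈ F, A ≠ T → ¬ On o A x) ∧ On o C x)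
      fun x hx => ?_
    obtain ⟨hx1, C, hC, hCx⟩ := hx
    exact ⟨C, hC, hx1, hCx⟩
  have h5 : ∀ C ∈ H, pr (fun x => (On o T x ∧ ∀ A ∈ F, A ≠ T → ¬ On o A x) ∧ On o C x) ≤ η := by
    intro C hC
    rcases hH C hC with hCF | ⟨hη', hsub⟩
    · have h6 : pr (fun x => (On o T x ∧ ∀ A ∈ F, A ≠ T → ¬ On o A x) ∧ On o C x) ≤
          ∑ _i ∈ (∅ : Finset ℕ), pr (fun _ : Fin n → Bool => False) := by
        refine pr_le_sum (∅ : Finset ℕ) _ (fun _ _ => False) fun x hx => ?_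
        exact absurd hx.2 (hx.1.2 C hCF (fun hc => hTH C hC (by rw [hc])))
      rw [sum_empty] at h6
      exact h6.trans hη
    · obtain ⟨i, hiT, hiC⟩ : ∃ i ∈ T, i ∉ C := by
        by_contra hc
        push Not at hc
        have hTC : T ⊆ C := hc
        rcases hTC.eq_or_ssubset with h | h
        · exact hTH C hC (by rw [h])
        · exact hsub T hTF h
      refine le_trans ?_ hη'
      rw [← pr_flp i (fun x => On o C x ∧ g x = false)]
      refine pr_mono ?_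
      rintro x ⟨⟨hx, hA⟩, hCx⟩
      refine ⟨(on_flp_of_not_mem hiC).2 hCx, ?_⟩
      by_contra hc
      rw [Bool.not_eq_false, hgF] at hc
      obtain ⟨A, hAF, hAx⟩ := hc
      have hiA : i ∉ A := by
        intro hiA
        have h3 := hAx i hiA
        rw [flp_same, hx i hiT] at h3
        cases h : o i <;> rw [h] at h3 <;> simp at h3
      have hAx' : On o A x := (on_flp_of_not_mem hiA).1 hAx
      have hAT : A ≠ T := fun hc => hiA (hc ▸ hiT)
      exact hA A hAF hAT hAx'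
  have h6 := sum_le_card_nsmul H _ η h5
  rw [nsmul_eq_mul] at h6
  rw [h2]
  linarith

end Pool.Agent.H.MP_cba12a_lc
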