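import Pool.Agent.H.MP_cba12a_lc.X10.Base

/-!
Signal, second form.
-/

namespace Pool.Agent.H.MP_cba12a_lc

open Finset

variable {n : ℕ} {o : Fin n → Bool} {g : (Fin n → Bool) → Bool} {F H : Finset (Finset (Fin n))}
  {t : ℕ}

theorem pr_true_sig10 : pr (fun _ : Fin n → Bool => True) = 1 := by
  classical
  rw [pr_def]
  simpa using mu_true (n := n)

theorem pr_On_sig10 (o : Fin n → Bool) (A : Finset (Fin n)) :
    pr (fun x => On o A x) = (1 / 2) ^ A.card := by
  have h := pr_on o A (fun _ : Fin n → Bool => True)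
  rw [pr_true_sig10, mul_one] at h
  rw [← h]
  exact pr_congr fun x => by simp

/-- Signal, second form: `Pr[Only T] ≥ Pr[T on, h = 0] / 2` if `2^t wt (Nf \ T) ≤ 1/2`. -/
theorem sig2_10 (hshare : Shr t F) {T : Finset (Fin n)} (hT : T ∈ F)
    (hw : 2 ^ t * wt10 ((Nf F H).erase T) ≤ 1 / 2) :
    pr (fun x => On o T x ∧ Off o H x) ≤ 2 * pr (Only10 o F H T) := by
  classical
  set Nn : (Fin n → Bool) → Prop := fun x => ∀ A ∈ (Nf F H).erase T, ¬ On o A x with hNn
  have hdn : DnP o Nn := fun i x h A hA => dnP_not_on o A i x (h A hA)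
  have e1 : pr (fun x => On o T x ∧ Off o H x) =
      (1 / 2) ^ T.card * pr (fun x => Off o H (sOn o T x)) := pr_on o T (fun x => Off o H x)
  have e2 : pr (fun x => On o T x ∧ (Nn x ∧ Off o H x)) =
      (1 / 2) ^ T.card * pr (fun x => Nn (sOn o T x) ∧ Off o H (sOn o T x)) :=
    pr_on o T (fun x => Nn x ∧ Off o H x)
  have e3 : pr (fun x => On o T x ∧ (Nn x ∧ Off o H x)) ≤ pr (Only10 o F H T) := by
    refine pr_mono ?_
    rintro x ⟨h1, h2, h3⟩
    refine ⟨h1, ?_, h3⟩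
    intro A hA hAT hAx
    by_cases hN : A ∈ Nf F H
    · exact h2 A (mem_erase.2 ⟨hAT, hN⟩) hAx
    · rw [mem_Nf] at hN
      push Not at hN
      obtain ⟨C, hC, hCA⟩ := hN hA
      exact h3 C hC fun i hi => hAx i (hCA hi)
  have e4 : pr (fun x => Nn (sOn o T x)) * pr (fun x => Off o H (sOn o T x)) ≤
      pr (fun x => Nn (sOn o T x) ∧ Off o H (sOn o T x)) :=
    harris (hdn.sOn T) ((dnP_off o H).sOn T)
  have e5 : (1 : ℝ) ≤ pr (fun x => Nn (sOn o T x)) +
      pr (fun x => ∃ A ∈ (Nf F H).erase T, On o (A \ T) x) := by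
    rw [← pr_true_sig10 (n := n)]
    refine pr_le_add fun x _ => ?_
    by_cases h : ∃ A ∈ (Nf F H).erase T, On o (A \ T) x
    · exact Or.inr h
    · left
      intro A hA hc
      exact h ⟨A, hA, (on_sOn_iff o A T x).1 hc⟩
  have e6 : pr (fun x => ∃ A ∈ (Nf F H).erase T, On o (A \ T) x) ≤
      2 ^ t * wt10 ((Nf F H).erase T) := by
    refine le_trans (pr_le_sum ((Nf F H).erase T) _ (fun A x => On o (A \ T) x)
      (fun x hx => hx)) ?_
    unfold wt10
    rw [mul_sum]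
    refine sum_le_sum fun A hA => ?_
    rw [pr_On_sig10]
    rw [mem_erase, mem_Nf] at hA
    have hc : (A ∩ T).card ≤ t := hshare A hA.2.1 T hT hA.1
    have hc2 : (A \ T).card + (A ∩ T).card = A.card := card_sdiff_add_card_inter A T
    have hle : (1 / 2 : ℝ) ^ t ≤ (1 / 2) ^ (A ∩ T).card :=
      pow_le_pow_of_le_one (by norm_num) (by norm_num) hc
    rw [← hc2, pow_add]
    have h1 : (1 : ℝ) ≤ 2 ^ t * (1 / 2) ^ (A ∩ T).card := by
      calc (1 : ℝ) = 2 ^ t * (1 / 2) ^ t := by rw [← mul_pow]; norm_num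
        _ ≤ _ := by gcongr
    have h2 : (0 : ℝ) ≤ (1 / 2) ^ (A \ T).card := by positivity
    nlinarith
  have hN : (1 / 2 : ℝ) ≤ pr (fun x => Nn (sOn o T x)) := by linarith
  have hO : 0 ≤ pr (fun x => Off o H (sOn o T x)) := pr_nonneg _
  have hp : (0 : ℝ) ≤ (1 / 2) ^ T.card := by positivity
  rw [e1]
  rw [e2] at e3
  have h7 : (1 / 2 : ℝ) * pr (fun x => Off o H (sOn o T x)) ≤
      pr (fun x => Nn (sOn o T x) ∧ Off o H (sOn o T x)) := by
    refine le_trans ?_ e4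
    exact mul_le_mul_of_nonneg_right hN hO
  have h8 := mul_le_mul_of_nonneg_left h7 hp
  nlinarith

end Pool.Agent.H.MP_cba12a_lc
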