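import Pool.Agent.H.MP_cba12a_lc.X10.Hot
import Pool.Agent.H.MP_cba12a_lc.X10.Cov4
import Pool.Agent.H.MP_cba12a_lc.X10.Cov5
import Pool.Agent.H.MP_cba12a_lc.X10.Det
import Pool.Agent.H.MP_cba12a_lc.X10.Sig1
import Pool.Agent.H.MP_cba12a_lc.X10.Sig2

/-!
The two types of detection.
-/

namespace Pool.Agent.H.MP_cba12a_lc

open Finset

variable {n : ℕ} {o : Fin n → Bool} {g : (Fin n → Bool) → Bool} {F H : Finset (Finset (Fin n))}
  {t : ℕ}

/-- The weight of the members of `G` meeting `R` is at most the sum over `r ∈ R` of the weights of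
the members through `r`. -/
theorem wt_meet10 (G : Finset (Finset (Fin n))) (R : Finset (Fin n)) :
    wt10 (G.filter fun A => ¬ Disjoint A R) ≤ ∑ r ∈ R, wt10 (G.filter fun A => r ∈ A) := by
  have h1 : ∀ r, wt10 (G.filter fun A => r ∈ A) =
      ∑ A ∈ G, if r ∈ A then (1 / 2 : ℝ) ^ A.card else 0 := by
    intro r
    unfold wt10
    rw [sum_filter]
  rw [sum_congr rfl fun r _ => h1 r, sum_comm]
  unfold wt10
  rw [sum_filter]
  refine sum_le_sum fun A _ => ?_
  have hnn : ∀ r ∈ R, (0 : ℝ) ≤ if r ∈ A then (1 / 2 : ℝ) ^ A.card else 0 := by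
    intro r _
    split_ifs
    · positivity
    · exact le_rfl
  by_cases h : ¬ Disjoint A R
  · rw [if_pos h]
    rw [not_disjoint_iff] at h
    obtain ⟨r, hrA, hrR⟩ := h
    have h2 := single_le_sum hnn hrR
    rwa [if_pos hrA] at h2
  · rw [if_neg h]
    exact sum_nonneg hnn

/-- **Type 1.** An unfound term with a set `J` of large `Z` which is not hot, and a disjoint set
`R` of variables which are not heavy, is detected. -/
theorem type1_10 (hgF : ∀ x, g x = true ↔ ∃ A ∈ F, On o A x) (hshare : Shr t F) (ht : 1 ≤ t)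
    {η τ δ : ℝ} (hη : 0 ≤ η) (hδ : 0 ≤ δ)
    (hH : ∀ C ∈ H, C ∈ F ∨ (pr (fun x => On o C x ∧ g x = false) ≤ η ∧ ∀ A ∈ F, ¬ A ⊂ C))
    {T J R : Finset (Fin n)} (hT : T ∈ Nf F H) (hJ : J ⊆ T) (hR : R ⊆ T) (hJR : Disjoint J R)
    {a : ℕ} (hRa : R.card = t * a) (hτ : τ ≤ ZZ o g J) (hJT : ZZ o g J ≤ 2 * ZT o F T)
    (hrate : ∀ r ∈ R, wt10 (((Nf F H).erase T).filter fun A => r ∈ A) ≤ δ)
    (hnum : 64 * ((2 ^ (t * (a + 1)) * ((t * a) * δ)) ^ a * 2 ^ (t * a)) ≤ (1 / 2 : ℝ) ^ T.card)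
    (hnumH : H.card * η ≤ (1 / 2) ^ T.card * (τ / 4)) :
    Det10 o F H T J R ((1 / 2) ^ T.card * (τ / 4)) := by
  have hTF : T ∈ F := (mem_Nf.1 hT).1
  have hsig := sig1_10 hgF hη hH hT
  have hw : (0 : ℝ) ≤ (1 / 2) ^ T.card := by positivity
  have hZ := ZZ_nonneg o g J
  have hS : (1 / 2) ^ T.card * (ZZ o g J / 4) ≤ pr (Only10 o F H T) := by
    have h1 : (1 / 2 : ℝ) ^ T.card * (ZZ o g J / 2) ≤ (1 / 2) ^ T.card * ZT o F T :=
      mul_le_mul_of_nonneg_left (by linarith) hw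
    have h2 : (1 / 2 : ℝ) ^ T.card * (τ / 4) ≤ (1 / 2) ^ T.card * (ZZ o g J / 4) :=
      mul_le_mul_of_nonneg_left (by linarith) hw
    have h3 : (1 / 2 : ℝ) ^ T.card * (ZZ o g J / 2) =
        (1 / 2) ^ T.card * (ZZ o g J / 4) + (1 / 2) ^ T.card * (ZZ o g J / 4) := by ring
    linarith
  have hwt : wt10 (((Nf F H).erase T).filter fun A => ¬ Disjoint A R) ≤ (t * a) * δ := by
    refine (wt_meet10 _ R).trans ?_
    refine (sum_le_card_nsmul R _ δ hrate).trans ?_
    rw [nsmul_eq_mul, hRa]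
    push_cast
    exact le_rfl
  have hN := cov_le10 (H := H) hgF hshare ht hTF hJ hR hJR (a := a) (by rw [hRa])
  have hN2 : pr (fun x => On o J x ∧ Cov10 o F H T R x) ≤
      ((2 ^ (t * (a + 1)) * ((t * a) * δ)) ^ a * 2 ^ (t * a)) * ZZ o g J := by
    refine hN.trans ?_
    have h1 : ((1 : ℝ) / 2) ^ J.card ≤ 1 := pow_le_one₀ (by norm_num) (by norm_num)
    have h2 : (0 : ℝ) ≤ (2 ^ (t * (a + 1)) *
        wt10 (((Nf F H).erase T).filter fun A => ¬ Disjoint A R)) ^ a *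
          (2 ^ R.card * ZZ o g J) := by
      have := wt10_nonneg (((Nf F H).erase T).filter fun A => ¬ Disjoint A R)
      positivity
    refine (mul_le_of_le_one_left h2 h1).trans ?_
    rw [hRa, mul_assoc (((2 : ℝ) ^ (t * (a + 1)) * ((t * a) * δ)) ^ a)]
    refine mul_le_mul_of_nonneg_right ?_ (by positivity)
    refine pow_le_pow_left₀ ?_ ?_ a
    · have := wt10_nonneg (((Nf F H).erase T).filter fun A => ¬ Disjoint A R)
      positivity
    · exact mul_le_mul_of_nonneg_left hwt (by positivity)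
  refine ⟨?_, ?_⟩
  · have h1 := mul_le_mul_of_nonneg_right hnum hZ
    nlinarith
  · have h2 : (1 / 2 : ℝ) ^ T.card * (τ / 4) ≤ (1 / 2) ^ T.card * (ZZ o g J / 4) :=
      mul_le_mul_of_nonneg_left (by linarith) hw
    linarith

/-- **Type 2.** An unfound term which is on, outside `H`, with probability at least `κ`, is
detected with `J = ∅` when the weights of the other unfound sets are small. -/
theorem type2_10 (hshare : Shr t F) (ht : 1 ≤ t) {κ : ℝ}
    {T R : Finset (Fin n)} (hT : T ∈ Nf F H) (hR : R ⊆ T) {a p : ℕ} (hRa : R.card = t * a)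
    (hκ : κ ≤ pr (fun x => On o T x ∧ Off o H x))
    (hw : 2 ^ t * wt10 ((Nf F H).erase T) ≤ 1 / 2)
    (hA : (2 ^ (t * (a + 1)) * wt10 ((Nf F H).filter fun A => p ≤ A.card)) ^ a ≤ κ / 64)
    (hB : ∑ A ∈ (Nf F H).filter (fun A => A.card < p),
        2 ^ (t * a) * pr (fun x => On o A x ∧ Off o H x) ≤ κ / 64) :
    Det10 o F H T ∅ R (κ / 2) := by
  have hTF : T ∈ F := (mem_Nf.1 hT).1
  have hsig := sig2_10 (o := o) hshare hTF hw
  have hN := cov_split10 (o := o) (H := H) hshare ht hTF hR (a := a) (p := p) (by rw [hRa])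
  rw [hRa] at hN
  have h1 : pr (fun x => On o ∅ x ∧ Cov10 o F H T R x) ≤ pr (Cov10 o F H T R) :=
    pr_mono fun x hx => hx.2
  refine ⟨by linarith, by linarith⟩

end Pool.Agent.H.MP_cba12a_lc
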