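import Pool.Agent.H.MP_cba12a_lc.X10.St3
import Pool.Agent.H.MP_cba12a_lc.X10.Typ

/-!
All unfound terms are useless.
-/

namespace Pool.Agent.H.MP_cba12a_lc

open Finset

variable {n : ℕ} {o : Fin n → Bool} {g : (Fin n → Bool) → Bool} {F H : Finset (Finset (Fin n))}
  {t ℓ m0 NH : ℕ} {aa : ℕ → ℕ} {τ η κ ν M Q Q1 : ℝ}

/-- The number of unfound terms with less than `p` elements. -/
theorem card_short10 (hQ1 : 0 ≤ Q1)
    (hsp : ∀ m, m0 ≤ m → m ≤ ℓ →
      (((Nf F H).filter fun T => T.card = m).card : ℝ) ≤ Q1 * 2 ^ (m / 4))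
    (hm0 : ∀ T ∈ Nf F H, m0 ≤ T.card) {p : ℕ} (hp : p ≤ ℓ) :
    (((Nf F H).filter fun T => T.card < p).card : ℝ) ≤ (ℓ + 1) * (Q1 * 2 ^ (p / 4)) := by
  classical
  have h1 : ((Nf F H).filter fun T => T.card < p) ⊆
      (range p).biUnion fun k => (Nf F H).filter fun T => T.card = k := by
    intro T hT
    rw [mem_filter] at hT
    rw [mem_biUnion]
    exact ⟨T.card, mem_range.2 hT.2, mem_filter.2 ⟨hT.1, rfl⟩⟩
  have h2 : ((Nf F H).filter fun T => T.card < p).card ≤
      ∑ k ∈ range p, ((Nf F H).filter fun T => T.card = k).card :=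
    (card_le_card h1).trans card_biUnion_le
  have h3 : (((Nf F H).filter fun T => T.card < p).card : ℝ) ≤
      ∑ k ∈ range p, (((Nf F H).filter fun T => T.card = k).card : ℝ) := by
    exact_mod_cast h2
  have h0 : (0 : ℝ) ≤ Q1 * 2 ^ (p / 4) := mul_nonneg hQ1 (by positivity)
  refine h3.trans ?_
  have h4 : ∀ k ∈ range p, (((Nf F H).filter fun T => T.card = k).card : ℝ) ≤
      Q1 * 2 ^ (p / 4) := by
    intro k hk
    rw [mem_range] at hk
    by_cases hk0 : m0 ≤ k
    · refine (hsp k hk0 (by omega)).trans (mul_le_mul_of_nonneg_left ?_ hQ1)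
      exact pow_le_pow_right₀ (by norm_num) (by omega)
    · have h5 : ((Nf F H).filter fun T => T.card = k) = ∅ := by
        rw [filter_eq_empty_iff]
        intro T hT hTk
        have := hm0 T hT
        omega
      rw [h5, card_empty, Nat.cast_zero]
      exact h0
  refine (sum_le_sum h4).trans ?_
  rw [sum_const, card_range, nsmul_eq_mul]
  refine mul_le_mul_of_nonneg_right ?_ h0
  have : (p : ℝ) ≤ ℓ := by exact_mod_cast hp
  linarith

/-- If nothing is detected, every unfound term with at most `ℓ` elements is useless. -/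
theorem useless10 (hN : Num10 t n ℓ m0 aa τ η κ ν M Q Q1 NH) (hshare : Shr t F)
    (hν : wt10 (F.filter fun A => ℓ < A.card) ≤ ν)
    (hsp : ∀ m, m0 ≤ m → m ≤ ℓ →
      (((Nf F H).filter fun T => T.card = m).card : ℝ) ≤ Q1 * 2 ^ (m / 4))
    (hm0 : ∀ T ∈ Nf F H, m0 ≤ T.card)
    (hst2 : ∀ T ∈ Nf F H, T.card ≤ ℓ → ∃ R ⊆ T, R.card = t * aa T.card ∧
      ¬ Det10 o F H T ∅ R (κ * 2 ^ T.card / 2)) :
    ∀ T ∈ Nf F H, T.card ≤ ℓ → pr (fun x => On o T x ∧ Off o H x) < κ * 2 ^ T.card := by
  have main : ∀ m, ∀ T ∈ Nf F H, T.card = m → m ≤ ℓ →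
      pr (fun x => On o T x ∧ Off o H x) < κ * 2 ^ m := by
    intro m
    induction m using Nat.strong_induction_on with
    | _ m ih =>
      intro T hT hTm hmℓ
      by_contra hcon
      rw [not_lt] at hcon
      obtain ⟨R, hR, hRa, hdet⟩ := hst2 T hT (by omega)
      rw [hTm] at hRa hdet
      apply hdet
      have hmm : m0 ≤ m := hTm ▸ hm0 T hT
      have hκ := hN.κ_pos
      refine type2_10 (a := aa m) (p := m / 2) hshare hN.ht hT hR hRa hcon ?_ ?_ ?_
      · have h1 : wt10 ((Nf F H).erase T) ≤ wt10 ((Nf F H).filter fun A => m0 ≤ A.card) := by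
          refine wt10_mono fun A hA => ?_
          have h2 := (mem_erase.1 hA).2
          exact mem_filter.2 ⟨h2, hm0 A h2⟩
        have h3 := h1.trans (wt_ge10 hν hN.Q1_nonneg hsp hm0 m0)
        exact (mul_le_mul_of_nonneg_left h3 (by positivity)).trans hN.total
      · have h1 := wt_ge10 hν hN.Q1_nonneg hsp hm0 (m / 2)
        refine le_trans ?_ (hN.type2A m hmm hmℓ)
        refine pow_le_pow_left₀ (mul_nonneg (by positivity) (wt10_nonneg _)) ?_ _
        exact mul_le_mul_of_nonneg_left h1 (by positivity)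
      · have h1 : ∀ A ∈ (Nf F H).filter (fun A => A.card < m / 2),
            2 ^ (t * aa m) * pr (fun x => On o A x ∧ Off o H x) ≤
              2 ^ (t * aa m) * (κ * 2 ^ (m / 2)) := by
          intro A hA
          rw [mem_filter] at hA
          have h2 := ih A.card (by omega) A hA.1 rfl (by omega)
          refine mul_le_mul_of_nonneg_left (h2.le.trans ?_) (by positivity)
          refine mul_le_mul_of_nonneg_left ?_ hκ.le
          exact pow_le_pow_right₀ (by norm_num) (by omega)
        refine (sum_le_sum h1).trans ?_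
        rw [sum_const, nsmul_eq_mul]
        have h3 := card_short10 (F := F) (H := H) hN.Q1_nonneg hsp hm0 (p := m / 2) (by omega)
        refine (mul_le_mul_of_nonneg_right h3 (by positivity)).trans ?_
        refine le_trans (le_of_eq ?_) (hN.type2B m hmm hmℓ)
        ring
  intro T hT hTℓ
  exact main T.card T hT rfl hTℓ

end Pool.Agent.H.MP_cba12a_lc
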