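import Pool.Agent.H.MP_cba12a_lc.X10.St2
import Pool.Agent.H.MP_cba12a_lc.X10.St4

/-!
If nothing more is detected, almost everything is covered.
-/

namespace Pool.Agent.H.MP_cba12a_lc

open Finset

variable {n : ℕ} {o : Fin n → Bool} {g : (Fin n → Bool) → Bool} {F H : Finset (Finset (Fin n))}
  {t ℓ m0 NH : ℕ} {aa : ℕ → ℕ} {τ η κ ν M Q Q1 : ℝ}

theorem pr_on_le_stab10 (A : Finset (Fin n)) : pr (fun x => On o A x) ≤ (1 / 2) ^ A.card := by
  have h1 : pr (fun x => On o A x) = pr (fun x => On o A x ∧ True) :=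
    pr_congr fun x => ⟨fun h => ⟨h, trivial⟩, fun h => h.1⟩
  rw [h1, pr_on o A (fun _ => True)]
  have h2 := pr_le_one (n := n) (fun _ => True)
  have h3 : (0 : ℝ) ≤ (1 / 2) ^ A.card := by positivity
  calc (1 / 2 : ℝ) ^ A.card * pr (fun _ : Fin n → Bool => True)
      ≤ (1 / 2 : ℝ) ^ A.card * 1 := mul_le_mul_of_nonneg_left h2 h3
    _ = (1 / 2 : ℝ) ^ A.card := mul_one _

/-- If nothing is detected, the part of `g = 1` not covered by `H` has measure at most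
`(n + 1)^(t+1) κ 2^ℓ + ν`. -/
theorem stable10 (hN : Num10 t n ℓ m0 aa τ η κ ν M Q Q1 NH)
    (hgF : ∀ x, g x = true ↔ ∃ A ∈ F, On o A x) (hshare : Shr t F) (hℓ : t ≤ ℓ)
    (hHN : H.card ≤ NH)
    (hH : ∀ C ∈ H, C ∈ F ∨ (pr (fun x => On o C x ∧ g x = false) ≤ η ∧ ∀ A ∈ F, ¬ A ⊂ C))
    (hAss : ∀ T ∈ Nf F H, ∀ J ⊆ T, J.card ≤ t → τ ≤ ZZ o g J)
    (hQ : ((Exc10 o g t ((Nf F H).filter fun T => T.card ≤ ℓ)).card : ℝ) ≤ Q)
    (hM : wt10 ((Nf F H).filter fun T => T.card ≤ ℓ) ≤ M)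
    (hm0 : ∀ T ∈ Nf F H, m0 ≤ T.card)
    (hst : ∀ T ∈ Nf F H, T.card ≤ ℓ → ∀ J R : Finset (Fin n), J ⊆ T → R ⊆ T → Disjoint J R →
      J.card ≤ t → R.card = t * a0 t → ¬ Det10 o F H T J R ((1 / 2) ^ T.card * (τ / 4)))
    (hst2 : ∀ T ∈ Nf F H, T.card ≤ ℓ → ∃ R ⊆ T, R.card = t * aa T.card ∧
      ¬ Det10 o F H T ∅ R (κ * 2 ^ T.card / 2)) :
    pr (fun x => g x = true ∧ Off o H x) ≤ ((n : ℝ) + 1) ^ (t + 1) * (κ * 2 ^ ℓ) + ν := by
  have hν := wt_long10 (n := n) (F := F) hN hshare hℓ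
  have hsp : ∀ m, m0 ≤ m → m ≤ ℓ →
      (((Nf F H).filter fun T => T.card = m).card : ℝ) ≤ Q1 * 2 ^ (m / 4) :=
    fun m h1 h2 => sparse10 hN hgF hshare hHN hH hAss hQ hM hst h1 h2
  have hus := useless10 (o := o) hN hshare hν hsp hm0 hst2
  have hNfF : Nf F H ⊆ F := fun T hT => (mem_Nf.1 hT).1
  -- the covering
  have hcov : pr (fun x => g x = true ∧ Off o H x) ≤
      pr (fun x => ∃ T ∈ (Nf F H).filter (fun T => T.card ≤ ℓ), On o T x ∧ Off o H x) +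
      pr (fun x => ∃ A ∈ F.filter (fun A => ℓ < A.card), On o A x) := by
    refine pr_le_add ?_
    rintro x ⟨hg, hoff⟩
    obtain ⟨A, hAF, hAx⟩ := (hgF x).1 hg
    by_cases hAℓ : A.card ≤ ℓ
    · left
      refine ⟨A, mem_filter.2 ⟨mem_Nf.2 ⟨hAF, fun C hC hCA => ?_⟩, hAℓ⟩, hAx, hoff⟩
      exact hoff C hC (On.mono hCA hAx)
    · right
      exact ⟨A, mem_filter.2 ⟨hAF, not_le.1 hAℓ⟩, hAx⟩
  have h1 : pr (fun x => ∃ T ∈ (Nf F H).filter (fun T => T.card ≤ ℓ), On o T x ∧ Off o H x) ≤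
      ((n : ℝ) + 1) ^ (t + 1) * (κ * 2 ^ ℓ) := by
    refine le_trans (pr_le_sum ((Nf F H).filter (fun T => T.card ≤ ℓ)) _
      (fun T x => On o T x ∧ Off o H x) (fun x hx => hx)) ?_
    have h2 : ∀ T ∈ (Nf F H).filter (fun T => T.card ≤ ℓ),
        pr (fun x => On o T x ∧ Off o H x) ≤ κ * 2 ^ ℓ := by
      intro T hT
      rw [mem_filter] at hT
      refine le_trans (hus T hT.1 hT.2).le ?_
      exact mul_le_mul_of_nonneg_left (pow_le_pow_right₀ one_le_two hT.2) hN.κ_pos.le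
    refine le_trans (sum_le_card_nsmul _ _ _ h2) ?_
    rw [nsmul_eq_mul]
    have h3 : 0 ≤ κ * 2 ^ ℓ := mul_nonneg hN.κ_pos.le (by positivity)
    refine mul_le_mul_of_nonneg_right ?_ h3
    have h4 : ((Nf F H).filter (fun T => T.card ≤ ℓ)).card ≤
        ((Nf F H).filter (fun T => t + 1 ≤ T.card)).card := by
      refine card_le_card fun T hT => ?_
      rw [mem_filter] at hT ⊢
      refine ⟨hT.1, ?_⟩
      have h5 := hm0 T hT.1
      have h6 := hN.m0_big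
      have h7 : 0 ≤ t * a0 t := Nat.zero_le _
      omega
    have h8 := card_long10 (t := t) (G := Nf F H) (hshare.mono hNfF)
    have h9 : ((Nf F H).filter (fun T => T.card ≤ ℓ)).card ≤ (n + 1) ^ (t + 1) :=
      le_trans h4 h8
    calc (((Nf F H).filter (fun T => T.card ≤ ℓ)).card : ℝ)
        ≤ (((n + 1) ^ (t + 1) : ℕ) : ℝ) := by exact_mod_cast h9
      _ = ((n : ℝ) + 1) ^ (t + 1) := by push_cast; ring
  have h10 : pr (fun x => ∃ A ∈ F.filter (fun A => ℓ < A.card), On o A x) ≤ ν := by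
    refine le_trans (pr_le_sum (F.filter (fun A => ℓ < A.card)) _
      (fun A x => On o A x) (fun x hx => hx)) ?_
    refine le_trans (sum_le_sum fun A _ => pr_on_le_stab10 (o := o) A) ?_
    exact hν
  linarith

end Pool.Agent.H.MP_cba12a_lc
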