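import Pool.Agent.H.MP_cba12a_lc.X10.CoreB
import Pool.Agent.H.MP_cba12a_lc.X10.Rd2
import Pool.Agent.H.MP_cba12a_lc.X10.Stab
import Pool.Agent.H.MP_cba12a_lc.X10.Cnt
import Pool.Agent.H.MP_cba12a_lc.X10.Jan

/-!
If a round finds nothing, almost everything is covered.
-/

namespace Pool.Agent.H.MP_cba12a_lc

open Finset

variable {n m t : ℕ} {o : Fin n → Bool} {f g : (Fin n → Bool) → Bool}
  {ω : Fin m → Fin n → Bool} {V : List Lit} {F0 : Finset (Finset (Fin n))}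
  {a N ℓ A B R0 NH m0 P' : ℕ} {aa P : ℕ → ℕ} {τ η ι κ ν M Q Q1 : ℝ}

/-- the list of the learner after `j` rounds -/
def Hj10 (N t ℓ A B : ℕ) (V : List Lit) (S : Samples) (j : ℕ) : List (List Lit) :=
  HH10 N t (t * a0 t) B V S (cs10 N t ℓ A B V S) (hs10 N t A V S) j

/-- the terms with at most `ℓ` variables which are not found after `j` rounds -/
noncomputable def Xj10 (N t ℓ A B : ℕ) (F0 : Finset (Finset (Fin n))) (V : List Lit)
    (S : Samples) (j : ℕ) : Finset (Finset (Fin n)) :=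
  (Nf (Fp10 t F0 (hs10 N t A V S)) (Hs n (Hj10 N t ℓ A B V S j))).filter fun T => T.card ≤ ℓ

/-- `V` is short enough for the enumeration of all sets with at most `t * a0 t` variables -/
theorem cap_a_corec10 (hC : Ctx10 t f g o F0 V ω NH η ι)
    (hP : Par10 a t n N ℓ A B R0 NH m0 P' aa P τ η ι κ ν M Q Q1) :
    (V.length + 1) ^ t ≤ N ∧ (V.length + 1) ^ (t * a0 t) ≤ N ∧ (n + 1) ^ t ≤ N := by
  have h1 : V.length ≤ n := length_V10 hC.hV hC.hVn
  have h2 : t ≤ t * a0 t := by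
    have : 1 ≤ a0 t := by unfold a0; omega
    exact Nat.le_mul_of_pos_right t this
  have h3 : (n + 1) ^ t ≤ N := (Nat.pow_le_pow_right (by omega) h2).trans hP.cap
  refine ⟨(Nat.pow_le_pow_left (by omega) t).trans h3, ?_, h3⟩
  exact (Nat.pow_le_pow_left (by omega) _).trans hP.cap

theorem etaB_corec10 (hP : Par10 a t n N ℓ A B R0 NH m0 P' aa P τ η ι κ ν M Q Q1) :
    η * B ≤ 1 := by
  have h1 := hP.ηB
  have h2 : (1 : ℝ) ≤ 2 ^ (ℓ + t + 2) := one_le_pow₀ one_le_two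
  have h3 : 0 ≤ η * B := mul_nonneg hP.η_nonneg (Nat.cast_nonneg _)
  nlinarith

/-- the length of the list after `j ≤ R0` rounds -/
theorem Hj_length_corec10 (hC : Ctx10 t f g o F0 V ω NH η ι)
    (hP : Par10 a t n N ℓ A B R0 NH m0 P' aa P τ η ι κ ν M Q Q1) {j : ℕ} (hj : j ≤ R0) :
    (Hj10 N t ℓ A B V (smp f ω) j).length ≤ NH := by
  obtain ⟨_, hs2, _, _⟩ := hs_facts10 hC hP
  obtain ⟨_, cs2⟩ := cs_facts10 hC hP
  have h0len : (hs10 N t A V (smp f ω)).length ≤ N + 1 := by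
    have h1 : (hs10 N t A V (smp f ω)).length ≤ (seeds N t V).length := small10_length
    have h2 := (cap_a_corec10 hC hP).2.2
    omega
  have h1 := HH10_length (N := N) (t := t) (K := t * a0 t) (B := B) (V := V) (S := smp f ω)
    (ch := cs10 N t ℓ A B V (smp f ω)) (h0 := hs10 N t A V (smp f ω)) j
  have h2 := hP.NHb
  have h3 : j * ((N + 1) ^ 2 + (cs10 N t ℓ A B V (smp f ω)).length) ≤
      R0 * ((N + 1) ^ 2 + (ℓ + 1) ^ 2 * (N + 1)) :=
    Nat.mul_le_mul hj (Nat.add_le_add_left cs2 _)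
  have h4 : (Hj10 N t ℓ A B V (smp f ω) j).length ≤ (cs10 N t ℓ A B V (smp f ω)).length +
      (hs10 N t A V (smp f ω)).length +
      j * ((N + 1) ^ 2 + (cs10 N t ℓ A B V (smp f ω)).length) := h1
  omega

/-- **If a round finds nothing, almost everything is covered.** Proof: `stable10` for
`gp10 g h0`, `F = Fp10`, `H = Hs n (Hj10 ... j)`, with error parameter `1 / B + η`. The conditions
`hH` from `HH10_spec`, `hAss` from `hs_ass10` and `nf_Fp10`, `hQ` from `card_exc10` and `exc`,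
`Qb`, `hM` from `wt_rate10` and `Mb`, `hm0` from `static10` (for longer terms `m0 ≤ |T|` because
`m0 ≤ ℓ < |T|` or directly), `hst` and `hst2` from `found_type1_10`, `found_type2_10`: a term
found in round `j + 1` is not in `Xj10 ... (j + 1)`. -/
theorem stable_j10 (hC : Ctx10 t f g o F0 V ω NH η ι)
    (hP : Par10 a t n N ℓ A B R0 NH m0 P' aa P τ η ι κ ν M Q Q1) {j : ℕ} (hj : j < R0)
    (hX : Xj10 N t ℓ A B F0 V (smp f ω) (j + 1) = Xj10 N t ℓ A B F0 V (smp f ω) j) :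
    pr (fun x => gp10 g (hs10 N t A V (smp f ω)) x = true ∧
      Off o (Hs n (Hj10 N t ℓ A B V (smp f ω) j)) x) ≤
      ((n : ℝ) + 1) ^ (t + 1) * (κ * 2 ^ ℓ) + ν := by
  obtain ⟨hs1, hs2, hs3, hs4⟩ := hs_facts10 hC hP
  obtain ⟨cs1, cs2⟩ := cs_facts10 hC hP
  obtain ⟨hgF, hshare⟩ := hs_iff10 hC hP
  obtain ⟨hN1, hN2, hN3⟩ := cap_a_corec10 hC hP
  have hηB := etaB_corec10 hP
  have hHlen := Hj_length_corec10 hC hP hj.le
  have hB0 := hP.B_pos
  obtain ⟨h0, hh0⟩ : ∃ h0, hs10 N t A V (smp f ω) = h0 := ⟨_, rfl⟩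
  obtain ⟨cs, hcs⟩ : ∃ cs, cs10 N t ℓ A B V (smp f ω) = cs := ⟨_, rfl⟩
  obtain ⟨H, hH⟩ : ∃ H, Hj10 N t ℓ A B V (smp f ω) j = H := ⟨_, rfl⟩
  have hHHj : HH10 N t (t * a0 t) B V (smp f ω) cs h0 j = H := by
    rw [← hh0, ← hcs]; exact hH
  have hsucc : Hj10 N t ℓ A B V (smp f ω) (j + 1) =
      round10 N t (t * a0 t) B V (smp f ω) cs h0 H := by
    rw [← hHHj, ← hh0, ← hcs]
    exact HH10_succ j
  rw [hh0] at hs1 hs3 hgF hshare
  rw [hcs] at cs1 cs2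
  rw [hH] at hHlen
  rw [hh0, hH]
  obtain ⟨F, hF⟩ : ∃ F, Fp10 t F0 h0 = F := ⟨_, rfl⟩
  rw [hF] at hgF hshare
  have hh0o : ∀ C ∈ h0, Ori o C := fun C hCh => (hs1 C hCh).1
  have hh0V : ∀ D ∈ h0, ∀ l ∈ D, l ∈ V := fun D hD => (hs1 D hD).2.1
  have hspec := HH10_spec (V := V) hC hh0o hs3 (N := N) (K := t * a0 t) hB0 hηB hgF
    (fun C hCc => (cs1 C hCc).1) j
  rw [hHHj] at hspec
  have hHo : ∀ C ∈ H, Ori o C := fun C hCH => (hspec C hCH).1
  have hh0H : ∀ D ∈ h0, D ∈ H := by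
    rw [← hHHj]
    exact h0_mem_HH10 j
  -- the mins of the chains are in the list
  have hmins : ∀ C ∈ mins10 B (smp f ω) (hs10 N t A V (smp f ω)) (cs10 N t ℓ A B V (smp f ω)),
      C ∈ H := by
    intro C hCm
    rw [← hHHj]
    refine HH10_mono (Nat.zero_le j) C ?_
    rw [hh0, hcs] at hCm
    show C ∈ (mins10 B (smp f ω) h0 cs ++ h0)
    exact List.mem_append.2 (Or.inl hCm)
  -- an unfound term with at most `ℓ` variables contains no member of the next list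
  have hnot : ∀ T ∈ Nf F (Hs n H), T.card ≤ ℓ →
      ¬ ∃ C' ∈ round10 N t (t * a0 t) B V (smp f ω) cs h0 H, fs n C' ⊆ T := by
    rintro T hT hTℓ ⟨C', hC', hC'T⟩
    have h1 : T ∈ Xj10 N t ℓ A B F0 V (smp f ω) j := by
      unfold Xj10
      rw [mem_filter, hh0, hH, hF]
      exact ⟨hT, hTℓ⟩
    rw [← hX] at h1
    unfold Xj10 at h1
    rw [mem_filter, hsucc, mem_Nf] at h1
    exact h1.1.2 (fs n C') (mem_Hs.2 ⟨C', hC', rfl⟩) hC'T
  -- unfound terms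
  have hnf : ∀ T ∈ Nf F (Hs n H), t < T.card ∧ ∀ C ∈ Hs n h0, ¬ C ⊆ T := by
    intro T hT
    rw [← hF] at hT
    exact nf_Fp10 hh0H hT
  have hAss : ∀ T ∈ Nf F (Hs n H), ∀ J ⊆ T, J.card ≤ t → τ ≤ ZZ o (gp10 g h0) J := by
    intro T hT J hJT hJt
    have h1 := hs_ass10 hC hP (I := J) hJt
    rw [hh0] at h1
    exact h1 fun C hCh hCJ => (hnf T hT).2 C hCh (hCJ.trans hJT)
  have hstat : ∀ T ∈ Nf F (Hs n H), T.card ≤ ℓ → m0 ≤ T.card ∧ ∃ R ∈ cs, fs n R ⊆ T ∧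
      (fs n R).card = t * aa T.card := by
    intro T hT hTℓ
    have h1 := static10 hC hP hmins (T := T) (by rw [hh0, hF]; exact hT) hTℓ
    rwa [hcs] at h1
  have hm0 : ∀ T ∈ Nf F (Hs n H), m0 ≤ T.card := by
    intro T hT
    by_cases hTℓ : T.card ≤ ℓ
    · exact (hstat T hT hTℓ).1
    · exact hP.m0ℓ.trans (not_le.1 hTℓ).le
  have ht1 : 1 ≤ t := hP.num.ht
  have hτ0 : 0 < τ := hP.num.τ_pos
  have hκ0 : 0 < κ := hP.num.κ_pos
  have hshG : Shr t ((Nf F (Hs n H)).filter fun T => T.card ≤ ℓ) :=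
    hshare.mono ((filter_subset _ _).trans fun T hT => (mem_Nf.1 hT).1)
  have hℓG : ∀ T ∈ (Nf F (Hs n H)).filter fun T => T.card ≤ ℓ, T.card ≤ ℓ :=
    fun T hT => (mem_filter.1 hT).2
  have hZG : ∀ T ∈ (Nf F (Hs n H)).filter fun T => T.card ≤ ℓ, ∀ J ⊆ T, J.card ≤ t →
      τ ≤ ZZ o (gp10 g h0) J := fun T hT => hAss T (mem_filter.1 hT).1
  refine stable10 hP.num hgF hshare hP.tℓ ?_ ?_ hAss ?_ ?_ hm0 ?_ ?_
  · -- number
    refine le_trans ?_ hHlen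
    unfold Hs
    refine (List.toFinset_card_le _).trans ?_
    rw [List.length_map]
  · -- members
    intro C hCH
    obtain ⟨D, hD, rfl⟩ := mem_Hs.1 hCH
    rcases (hspec D hD).2 with h | h
    · left
      rw [← hF]
      exact mem_Fp10.2 (Or.inl (mem_Hs.2 ⟨D, h, rfl⟩))
    · right
      exact h
  · -- exceptional terms
    have h1 := card_exc10 (o := o) (g := gp10 g h0) hshG hℓG hτ0 hZG hP.exc
    refine le_trans ?_ hP.Qb
    exact_mod_cast h1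
  · -- weight
    refine le_trans (wt_rate10 (o := o) (g := gp10 g h0) _ hshG hℓG ?_ hτ0 hP.τ1 hZG) hP.Mb
    intro A' hA' x hx
    exact (hgF x).2 ⟨A', (mem_Nf.1 (mem_filter.1 hA').1).1, hx⟩
  · -- type 1
    intro T hT hTℓ J R hJ hR hJR hJt hRc hdet
    refine hnot T hT hTℓ ?_
    have hpow : (1 / 2 : ℝ) ^ ℓ * (τ / 4) ≤ (1 / 2) ^ T.card * (τ / 4) := by
      refine mul_le_mul_of_nonneg_right ?_ (by linarith)
      exact pow_le_pow_of_le_one (by norm_num) (by norm_num) hTℓ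
    refine found_type1_10 (σ := (1 / 2) ^ T.card * (τ / 4)) hC hh0o hh0V hs3 hHo hh0H hHlen
      hηB hgF hN1 hN2 (mem_Nf.1 hT).1 hJ hR hJR hJt hRc ?_ ?_ ?_ ?_ hdet
    · unfold a0
      positivity
    · positivity
    · exact hP.σ1.trans hpow
    · exact lt_of_lt_of_le hP.σ1' hpow
  · -- type 2
    intro T hT hTℓ
    obtain ⟨hmT, R, hRcs, hRT, hRc⟩ := hstat T hT hTℓ
    refine ⟨fs n R, hRT, hRc, fun hdet => hnot T hT hTℓ ?_⟩
    have hpow : κ / 2 ≤ κ * 2 ^ T.card / 2 := by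
      have h1 : (1 : ℝ) ≤ 2 ^ T.card := one_le_pow₀ one_le_two
      nlinarith
    have hne : (fs n R).Nonempty := by
      rw [← card_pos, hRc]
      exact Nat.mul_pos ht1 (hP.aa_pos _ hmT hTℓ)
    refine found_type2_10 (σ := κ * 2 ^ T.card / 2) hC hh0o hh0V hs3 hHo hh0H hHlen hηB hgF
      (mem_Nf.1 hT).1 hRcs (cs1 R hRcs).1 (cs1 R hRcs).2 hRT hne ?_ ?_ ?_ hdet
    · positivity
    · have h2 := hP.σ2
      linarith
    · have h2 := hP.σ2'
      linarith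

end Pool.Agent.H.MP_cba12a_lc
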