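import Pool.Agent.H.MP_cba12a_lc.X10.Base

/-!
Two elementary facts on families of sets.
-/

namespace Pool.Agent.H.MP_cba12a_lc

open Finset

variable {n t : ℕ}

/-- a family of `a` sets with pairwise intersections at most `t` covers nearly the sum of its
cardinalities -/
theorem card_biUnion10 (𝒮 : Finset (Finset (Fin n))) (W : Finset (Fin n)) (h : Shr t 𝒮)
    (hW : ∀ A ∈ 𝒮, (A ∩ W).card ≤ t) :
    ∑ A ∈ 𝒮, A.card ≤ (𝒮.biUnion fun A => A \ W).card + 𝒮.card * (t * (𝒮.card + 1)) := by
  classical
  induction 𝒮 using Finset.induction_on with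
  | empty => simp
  | insert B 𝒮 hB ih =>
    have ih' := ih (h.mono (subset_insert _ _)) (fun A hA => hW A (mem_insert_of_mem hA))
    rw [sum_insert hB, card_insert_of_notMem hB, biUnion_insert]
    set U := 𝒮.biUnion fun A => A \ W with hU
    have h1 : B.card ≤ (B \ W).card + t := by
      have h2 := card_sdiff_add_card_inter B W
      have h3 := hW B (mem_insert_self _ _)
      omega
    have h4 : ((B \ W) ∩ U).card ≤ 𝒮.card * t := by
      have h5 : (B \ W) ∩ U ⊆ 𝒮.biUnion fun A => B ∩ A := by
        intro x hx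
        rw [mem_inter, mem_sdiff, hU, mem_biUnion] at hx
        obtain ⟨⟨hxB, -⟩, A, hA, hxA⟩ := hx
        rw [mem_biUnion]
        exact ⟨A, hA, mem_inter.2 ⟨hxB, (mem_sdiff.1 hxA).1⟩⟩
      refine (card_le_card h5).trans (card_biUnion_le_card_mul _ _ _ fun A hA => ?_)
      exact h B (mem_insert_self _ _) A (mem_insert_of_mem hA) (fun hc => hB (hc ▸ hA))
    have h6 := card_union_add_card_inter (B \ W) U
    have h7 : (𝒮.card + 1) * (t * (𝒮.card + 1 + 1)) =
        𝒮.card * (t * (𝒮.card + 1)) + (t + 𝒮.card * t) + (t + 𝒮.card * t) := by ring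
    rw [h7]
    omega

/-- elementary symmetric functions are at most powers of the sum -/
theorem esymm_le10 {ι : Type} [DecidableEq ι] (G : Finset ι) (w : ι → ℝ) (hw : ∀ i ∈ G, 0 ≤ w i)
    (a : ℕ) : ∑ 𝒮 ∈ G.powersetCard a, ∏ i ∈ 𝒮, w i ≤ (∑ i ∈ G, w i) ^ a := by
  induction G using Finset.induction_on generalizing a with
  | empty =>
    cases a with
    | zero => simp
    | succ a =>
      have h1 : powersetCard (a + 1) (∅ : Finset ι) = ∅ := by
        rw [powersetCard_eq_empty]; simp
      rw [h1]; simp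
  | insert i G hi ih =>
    have hG : ∀ j ∈ G, 0 ≤ w j := fun j hj => hw j (mem_insert_of_mem hj)
    have hi0 : 0 ≤ w i := hw i (mem_insert_self _ _)
    have hS : 0 ≤ ∑ j ∈ G, w j := sum_nonneg hG
    cases a with
    | zero => simp
    | succ a =>
      rw [powersetCard_succ_insert hi, sum_union, sum_image, sum_insert hi]
      · have h1 := ih hG (a + 1)
        have h2 := ih hG a
        have h3 : ∑ x ∈ powersetCard a G, ∏ j ∈ insert i x, w j =
            w i * ∑ x ∈ powersetCard a G, ∏ j ∈ x, w j := by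
          rw [mul_sum]
          refine sum_congr rfl fun x hx => ?_
          rw [prod_insert fun hc => hi ((mem_powersetCard.1 hx).1 hc)]
        rw [h3]
        have h4 : (∑ j ∈ G, w j) ^ a ≤ (w i + ∑ j ∈ G, w j) ^ a :=
          pow_le_pow_left₀ hS (by linarith) a
        calc _ ≤ (∑ j ∈ G, w j) ^ (a + 1) + w i * (∑ j ∈ G, w j) ^ a := by
              gcongr
          _ = (w i + ∑ j ∈ G, w j) * (∑ j ∈ G, w j) ^ a := by ring
          _ ≤ (w i + ∑ j ∈ G, w j) * (w i + ∑ j ∈ G, w j) ^ a := by
              gcongr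
          _ = _ := by ring
      · intro x hx y hy hxy
        have hix : i ∉ x := fun hc => hi ((mem_powersetCard.1 (mem_coe.1 hx)).1 hc)
        have hiy : i ∉ y := fun hc => hi ((mem_powersetCard.1 (mem_coe.1 hy)).1 hc)
        rw [← erase_insert hix, ← erase_insert hiy, hxy]
      · rw [disjoint_left]
        intro x hx hx'
        rw [mem_image] at hx'
        obtain ⟨y, -, rfl⟩ := hx'
        exact hi ((mem_powersetCard.1 hx).1 (mem_insert_self _ _))

end Pool.Agent.H.MP_cba12a_lc
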