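import Pool.Agent.H.MP_cba12a_lc.X10.Cov1

/-!
Probability that many sets are on.
-/

namespace Pool.Agent.H.MP_cba12a_lc

open Finset

variable {n : ℕ} {o : Fin n → Bool} {g : (Fin n → Bool) → Bool} {F H : Finset (Finset (Fin n))}
  {t : ℕ}

/-- at least `a` members of `G` are on outside `W` -/
def CI10 (o : Fin n → Bool) (G : Finset (Finset (Fin n))) (W : Finset (Fin n)) (a : ℕ)
    (x : Fin n → Bool) : Prop :=
  ∃ 𝒮 ⊆ G, 𝒮.card = a ∧ ∀ A ∈ 𝒮, On o (A \ W) x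

/-- the probability that a set is on -/
theorem pr_on_le10 (o : Fin n → Bool) (U : Finset (Fin n)) :
    pr (fun x => On o U x) ≤ (1 / 2) ^ U.card := by
  have h := pr_on o U (fun _ => True)
  have h1 : pr (fun x => On o U x) = pr (fun x => On o U x ∧ True) :=
    pr_congr fun x => by tauto
  rw [h1, h]
  have h2 := pr_le_one (n := n) (fun _ => True)
  have h3 : (0 : ℝ) ≤ (1 / 2) ^ U.card := by positivity
  calc (1 / 2 : ℝ) ^ U.card * pr (fun _ : Fin n → Bool => True)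
      ≤ (1 / 2 : ℝ) ^ U.card * 1 := mul_le_mul_of_nonneg_left h2 h3
    _ = (1 / 2 : ℝ) ^ U.card := mul_one _

/-- The probability that at least `a` members of `G` are on outside `W` is at most
`(2^{t(a+1)} wt G)^a`. -/
theorem cover_le10 {a : ℕ} (G : Finset (Finset (Fin n))) (hG : Shr t G) (W : Finset (Fin n))
    (hW : ∀ A ∈ G, (A ∩ W).card ≤ t) :
    pr (CI10 o G W a) ≤ (2 ^ (t * (a + 1)) * wt10 G) ^ a := by
  classical
  have h1 : pr (CI10 o G W a) ≤ ∑ 𝒮 ∈ G.powersetCard a, pr (fun x => ∀ A ∈ 𝒮, On o (A \ W) x) := by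
    refine pr_le_sum _ _ _ ?_
    rintro x ⟨𝒮, hS, hc, hon⟩
    exact ⟨𝒮, mem_powersetCard.2 ⟨hS, hc⟩, hon⟩
  have h2 : ∀ 𝒮 ∈ G.powersetCard a, pr (fun x => ∀ A ∈ 𝒮, On o (A \ W) x) ≤
      (2 ^ (t * (a + 1))) ^ a * ∏ A ∈ 𝒮, (1 / 2 : ℝ) ^ A.card := by
    intro 𝒮 hS
    rw [mem_powersetCard] at hS
    have e1 : pr (fun x => ∀ A ∈ 𝒮, On o (A \ W) x) ≤
        (1 / 2) ^ (𝒮.biUnion fun A => A \ W).card := by
      refine le_trans (pr_mono ?_) (pr_on_le10 o (𝒮.biUnion fun A => A \ W))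
      intro x hx i hi
      rw [mem_biUnion] at hi
      obtain ⟨A, hA, hiA⟩ := hi
      exact hx A hA i hiA
    refine e1.trans ?_
    have e2 := card_biUnion10 𝒮 W (hG.mono hS.1) (fun A hA => hW A (hS.1 hA))
    rw [hS.2] at e2
    rw [prod_pow_eq_pow_sum, ← pow_mul]
    have e3 : t * (a + 1) * a = a * (t * (a + 1)) := by ring
    rw [e3]
    have e4 : ((1 / 2 : ℝ)) ^ ((𝒮.biUnion fun A => A \ W).card) =
        2 ^ (a * (t * (a + 1))) *
          (1 / 2) ^ ((𝒮.biUnion fun A => A \ W).card + a * (t * (a + 1))) := by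
      rw [pow_add, mul_comm ((1 / 2 : ℝ) ^ _) _, ← mul_assoc, ← mul_pow]
      norm_num
    rw [e4]
    refine mul_le_mul_of_nonneg_left ?_ (by positivity)
    exact pow_le_pow_of_le_one (by norm_num) (by norm_num) e2
  have h3 := esymm_le10 G (fun A => (1 / 2 : ℝ) ^ A.card) (fun A _ => by positivity) a
  calc pr (CI10 o G W a)
      ≤ ∑ 𝒮 ∈ G.powersetCard a, pr (fun x => ∀ A ∈ 𝒮, On o (A \ W) x) := h1
    _ ≤ ∑ 𝒮 ∈ G.powersetCard a,
        (2 ^ (t * (a + 1))) ^ a * ∏ A ∈ 𝒮, (1 / 2 : ℝ) ^ A.card := sum_le_sum h2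
    _ = (2 ^ (t * (a + 1))) ^ a * ∑ 𝒮 ∈ G.powersetCard a, ∏ A ∈ 𝒮, (1 / 2 : ℝ) ^ A.card := by
        rw [mul_sum]
    _ ≤ (2 ^ (t * (a + 1))) ^ a * (∑ A ∈ G, (1 / 2 : ℝ) ^ A.card) ^ a :=
        mul_le_mul_of_nonneg_left h3 (by positivity)
    _ = (2 ^ (t * (a + 1)) * wt10 G) ^ a := by
        rw [mul_pow]
        rfl

end Pool.Agent.H.MP_cba12a_lc
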