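import Pool.Agent.H.MP_cba12a_lc.X10.Cov2

/-!
The sets covering `R` in the noise event.
-/

namespace Pool.Agent.H.MP_cba12a_lc

open Finset

variable {n : ℕ} {o : Fin n → Bool} {g : (Fin n → Bool) → Bool} {F H : Finset (Finset (Fin n))}
  {t : ℕ}

/-- In the noise event the sets covering `R` are unfound, and there are at least `a` of them if
`t a ≤ |R|`, `1 ≤ t`. -/
theorem cov_CI10 (hshare : Shr t F) (ht : 1 ≤ t) {T R : Finset (Fin n)} (hT : T ∈ F)
    (hR : R ⊆ T) {a : ℕ} (ha : t * a ≤ R.card) {x : Fin n → Bool} (hx : Cov10 o F H T R x) :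
    CI10 o (((Nf F H).erase T).filter fun A => ¬ Disjoint A R) R a x := by
  classical
  obtain ⟨hoff, -, hcov⟩ := hx
  choose! f hfF hfT hrf hon using hcov
  have hsub : R.image f ⊆ ((Nf F H).erase T).filter fun A => ¬ Disjoint A R := by
    intro A hA
    obtain ⟨r, hr, rfl⟩ := mem_image.1 hA
    rw [mem_filter, mem_erase]
    refine ⟨⟨hfT r hr, mem_Nf.2 ⟨hfF r hr, ?_⟩⟩, ?_⟩
    · intro C hC hCA
      refine hoff C hC ((on_sOn_iff o C R x).2 ?_)
      intro i hi
      rw [mem_sdiff] at hi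
      exact hon r hr i (mem_sdiff.2 ⟨hCA hi.1, hi.2⟩)
    · rw [not_disjoint_iff]
      exact ⟨r, hrf r hr, hr⟩
  have hcard : a ≤ (R.image f).card := by
    have h1 : R ⊆ (R.image f).biUnion fun A => A ∩ R := by
      intro r hr
      exact mem_biUnion.2 ⟨f r, mem_image_of_mem f hr, mem_inter.2 ⟨hrf r hr, hr⟩⟩
    have h2 : R.card ≤ (R.image f).card * t := by
      refine (card_le_card h1).trans (card_biUnion_le_card_mul _ _ _ ?_)
      intro A hA
      obtain ⟨r, hr, rfl⟩ := mem_image.1 hA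
      refine (card_le_card (inter_subset_inter_left hR)).trans ?_
      exact hshare _ (hfF r hr) _ hT (hfT r hr)
    by_contra hc
    push Not at hc
    have h3 : t * (R.image f).card < t * a := Nat.mul_lt_mul_of_pos_left hc ht
    rw [mul_comm] at h2
    omega
  obtain ⟨𝒮, hS, hSc⟩ := exists_subset_card_eq hcard
  refine ⟨𝒮, hS.trans hsub, hSc, fun A hA => ?_⟩
  obtain ⟨r, hr, rfl⟩ := mem_image.1 (hS hA)
  exact hon r hr

end Pool.Agent.H.MP_cba12a_lc
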