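import Pool.Agent.H.MP_cba12a_lc.X10.ParD
import Pool.Agent.H.MP_cba12a_lc.Final8

/-!
Translations between lists of literals and sets of variables, and between counts and densities.
-/

namespace Pool.Agent.H.MP_cba12a_lc

open Finset

variable {n m r : ℕ} {o : Fin n → Bool} {f g : (Fin n → Bool) → Bool}
  {ω : Fin m → Fin n → Bool} {η : ℝ} {h0 : List (List Lit)}

/-- A list of oriented conjunctions fails at `x` iff no set of its variables is on. -/
theorem satD_off10 {h : List (List Lit)} (hh : ∀ C ∈ h, Ori o C) (x : Fin n → Bool) :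
    satD (List.ofFn x) h = false ↔ Off o (Hs n h) x := by
  rw [← Bool.not_eq_true, satD_iff]
  constructor
  · intro h1 C hC hon
    obtain ⟨D, hD, rfl⟩ := mem_Hs.1 hC
    exact h1 ⟨D, hD, (sat_ori (hh D hD)).2 hon⟩
  · rintro h1 ⟨D, hD, hs⟩
    exact h1 (fs n D) (mem_Hs.2 ⟨D, hD, rfl⟩) ((sat_ori (hh D hD)).1 hs)

/-- `gp10 g h0` is `0` iff `g` is `0` and no member of `h0` is on. -/
theorem gp_false10 (hh : ∀ C ∈ h0, Ori o C) (x : Fin n → Bool) :
    gp10 g h0 x = false ↔ g x = false ∧ Off o (Hs n h0) x := by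
  unfold gp10
  rw [Bool.or_eq_false_iff, satD_off10 hh]

/-- An oriented list uses only literals on the variables `< n`. -/
theorem Ori.lt {C : List Lit} (hC : Ori o C) : ∀ l ∈ C, l.1 < n := by
  intro l hl
  obtain ⟨i, rfl⟩ := hC l hl
  exact i.2

/-- Stripping keeps the orientation. -/
theorem ori_strip10 {R : List Lit} {h : List (List Lit)} (hh : ∀ C ∈ h, Ori o C) :
    ∀ C ∈ strip10 R h, Ori o C := by
  intro C hC l hl
  unfold strip10 at hC
  obtain ⟨D, hD, rfl⟩ := List.mem_map.1 hC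
  exact hh D hD l (List.mem_filter.1 hl).1

/-- The variables of a stripped conjunction. -/
theorem fs_filter10 {R D : List Lit} (hR : Ori o R) (hD : Ori o D) :
    fs n (D.filter fun l => !(R.any fun l' => eqL l l')) = fs n D \ fs n R := by
  ext i
  rw [mem_sdiff, mem_fs, mem_fs, mem_fs, List.mem_map, List.mem_map, List.mem_map]
  constructor
  · rintro ⟨l, hl, hli⟩
    rw [List.mem_filter] at hl
    refine ⟨⟨l, hl.1, hli⟩, ?_⟩
    rintro ⟨l', hl', hli'⟩
    have h1 : l = l' := by
      obtain ⟨a, rfl⟩ := hD l hl.1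
      obtain ⟨b, rfl⟩ := hR l' hl'
      have hab : a = b := Fin.ext (hli.trans hli'.symm)
      rw [hab]
    have h2 := hl.2
    rw [Bool.not_eq_true', List.any_eq_false] at h2
    exact h2 l' hl' (eqL_iff.2 h1)
  · rintro ⟨⟨l, hl, hli⟩, hn⟩
    refine ⟨l, List.mem_filter.2 ⟨hl, ?_⟩, hli⟩
    rw [Bool.not_eq_true', List.any_eq_false]
    intro l' hl' he
    rw [eqL_iff] at he
    exact hn ⟨l', hl', by rw [← he]; exact hli⟩

/-- The stripped formula fails at `x` iff the formula fails after setting `R` on. -/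
theorem satD_strip10 {R : List Lit} {h : List (List Lit)} (hR : Ori o R)
    (hh : ∀ C ∈ h, Ori o C) (x : Fin n → Bool) :
    satD (List.ofFn x) (strip10 R h) = false ↔ Off o (Hs n h) (sOn o (fs n R) x) := by
  rw [satD_off10 (ori_strip10 hh)]
  constructor
  · intro h1 C hC hon
    obtain ⟨D, hD, rfl⟩ := mem_Hs.1 hC
    rw [on_sOn_iff, ← fs_filter10 hR (hh D hD)] at hon
    refine h1 _ (mem_Hs.2 ⟨_, ?_, rfl⟩) hon
    unfold strip10
    exact List.mem_map_of_mem hD
  · intro h1 C hC hon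
    obtain ⟨D', hD', rfl⟩ := mem_Hs.1 hC
    unfold strip10 at hD'
    obtain ⟨D, hD, rfl⟩ := List.mem_map.1 hD'
    rw [fs_filter10 hR (hh D hD), ← on_sOn_iff] at hon
    exact h1 _ (mem_Hs.2 ⟨D, hD, rfl⟩) hon

/-- **Counts and densities.** -/
theorem cnt_close10 (hrep : Rep10 f g ω r η) {C : List Lit} {h : List (List Lit)}
    (hC : Ori o C) (hh : ∀ D ∈ h, Ori o D) (hr : h.length ≤ r) :
    |(cnt (smp f ω) false C h : ℝ) / m -
      pr (fun x => On o (fs n C) x ∧ g x = false ∧ Off o (Hs n h) x)| ≤ η := by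
  have h1 := hrep false false [] C h (by simp) (by simp) hC.lt hr (fun D hD => (hh D hD).lt)
  have h2 : ∀ F : (Fin n → Bool) → Bool, ev10 F false false [] C h = ev F false C h := by
    intro F
    funext x
    unfold ev10 ev
    rw [par_nil]
    simp
  have h3 : mu (ev g false C h) =
      pr (fun x => On o (fs n C) x ∧ g x = false ∧ Off o (Hs n h) x) := by
    rw [mu_eq_pr]
    refine pr_congr fun x => ?_
    rw [ev_iff, sat_ori hC, satD_off10 hh]
    tauto
  rw [h2, h2, h3] at h1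
  unfold em at h1
  rw [cnt_smp]
  exact h1

/-- The same in terms of `gp10`. -/
theorem cntq10 (hrep : Rep10 f g ω r η) {C : List Lit} (hC : Ori o C)
    (hh : ∀ D ∈ h0, Ori o D) (hr : h0.length ≤ r) :
    |(cnt (smp f ω) false C h0 : ℝ) / m -
      pr (fun x => On o (fs n C) x ∧ gp10 g h0 x = false)| ≤ η := by
  have h1 := cnt_close10 hrep hC hh hr
  have h2 : pr (fun x => On o (fs n C) x ∧ gp10 g h0 x = false) =
      pr (fun x => On o (fs n C) x ∧ g x = false ∧ Off o (Hs n h0) x) :=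
    pr_congr fun x => by rw [gp_false10 hh]
  rw [h2]
  exact h1

/-- The test `cnt * B ≤ m` passed: the density is at most `1 / B + η`. -/
theorem cnt_le10 (hrep : Rep10 f g ω r η) (hm : 0 < m) {B : ℕ} (hB : 0 < B) {C : List Lit}
    (hC : Ori o C) (hh : ∀ D ∈ h0, Ori o D) (hr : h0.length ≤ r)
    (h : cnt (smp f ω) false C h0 * B ≤ (smp f ω).length) :
    pr (fun x => On o (fs n C) x ∧ gp10 g h0 x = false) ≤ 1 / B + η := by
  have h1 := (abs_le.1 (cntq10 hrep hC hh hr)).1
  rw [length_smp] at h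
  have hm' : (0 : ℝ) < m := by exact_mod_cast hm
  have hB' : (0 : ℝ) < B := by exact_mod_cast hB
  have h2 : (cnt (smp f ω) false C h0 : ℝ) / m ≤ 1 / B := by
    rw [div_le_div_iff₀ hm' hB', one_mul]
    exact_mod_cast h
  linarith

/-- The test `cnt * B ≤ m` failed: the density is more than `1 / B - η`. -/
theorem lt_cnt10 (hrep : Rep10 f g ω r η) (hm : 0 < m) {B : ℕ} (hB : 0 < B) {C : List Lit}
    (hC : Ori o C) (hh : ∀ D ∈ h0, Ori o D) (hr : h0.length ≤ r)
    (h : (smp f ω).length < cnt (smp f ω) false C h0 * B) :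
    1 / B - η < pr (fun x => On o (fs n C) x ∧ gp10 g h0 x = false) := by
  have h1 := (abs_le.1 (cntq10 hrep hC hh hr)).2
  rw [length_smp] at h
  have hm' : (0 : ℝ) < m := by exact_mod_cast hm
  have hB' : (0 : ℝ) < B := by exact_mod_cast hB
  have h2 : 1 / (B : ℝ) < (cnt (smp f ω) false C h0 : ℝ) / m := by
    rw [div_lt_div_iff₀ hB' hm', one_mul]
    exact_mod_cast h
  linarith

/-- If the density is `0` the test is passed. -/
theorem cnt_zero10 (hrep : Rep10 f g ω r η) (hm : 0 < m) {B : ℕ} (hηB : η * B ≤ 1)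
    {C : List Lit} (hC : Ori o C) (hh : ∀ D ∈ h0, Ori o D) (hr : h0.length ≤ r)
    (h : ∀ x, On o (fs n C) x → gp10 g h0 x = true) :
    cnt (smp f ω) false C h0 * B ≤ (smp f ω).length := by
  have h1 := (abs_le.1 (cntq10 hrep hC hh hr)).2
  have hm' : (0 : ℝ) < m := by exact_mod_cast hm
  have h0' : pr (fun x => On o (fs n C) x ∧ gp10 g h0 x = false) ≤ 0 := by
    refine (pr_le_sum (∅ : Finset ℕ) _ (fun _ _ => False) fun x hx => ?_).trans (by simp)
    exfalso
    have := h x hx.1
    rw [hx.2] at this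
    exact Bool.noConfusion this
  have h2 : (cnt (smp f ω) false C h0 : ℝ) / m ≤ η := by linarith
  rw [div_le_iff₀ hm'] at h2
  rw [length_smp]
  have h3 : (cnt (smp f ω) false C h0 : ℝ) * B ≤ m := by
    calc (cnt (smp f ω) false C h0 : ℝ) * B ≤ η * m * B :=
          mul_le_mul_of_nonneg_right h2 (Nat.cast_nonneg B)
      _ = (η * B) * m := by ring
      _ ≤ 1 * m := mul_le_mul_of_nonneg_right hηB hm'.le
      _ = m := one_mul _
  exact_mod_cast h3

end Pool.Agent.H.MP_cba12a_lc
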