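import Pool.Agent.H.MP_cba12a_lc.X10.Cv1
import Pool.Agent.H.MP_cba12a_lc.P9.RepL

/-!
The statistic of the mixed derivative in terms of the events of the learner.
-/

namespace Pool.Agent.H.MP_cba12a_lc

open Finset

variable {n m r : ℕ} {o : Fin n → Bool} {f g : (Fin n → Bool) → Bool}
  {ω : Fin m → Fin n → Bool} {η : ℝ} {h0 H : List (List Lit)}

/-- The count of the learner and the density. -/
theorem cnt10_close10 (hrep : Rep10 f g ω r η) (v u : Bool) {R Z : List Lit}
    {h : List (List Lit)} (hR : Ori o R) (hRn : (R.map Prod.fst).Nodup) (hZ : ∀ l ∈ Z, l.1 < n)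
    (hh : ∀ D ∈ h, Ori o D) (hr : h.length ≤ r) :
    |(cnt10 (smp f ω) v u R Z h : ℝ) / m - mu (ev10 g v u R Z h)| ≤ η := by
  rw [cnt10_smp]
  exact hrep v u R Z h hRn hR.lt hZ hr fun D hD => (hh D hD).lt

theorem sOn_empty_cv2_10 (o : Fin n → Bool) (x : Fin n → Bool) : sOn o ∅ x = x := by
  funext i
  exact sOn_not_mem (notMem_empty i)

/-- With `h0` contained in `H`, the target may be replaced by `gp10 g h0` in the statistic. -/
theorem stat_gp10 (hh : ∀ D ∈ H, Ori o D) (hh0 : ∀ D ∈ h0, D ∈ H) (J R : Finset (Fin n))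
    (Q : (Fin n → Bool) → Prop) :
    stat10 o (gp10 g h0) (Hs n H) J R Q = stat10 o g (Hs n H) J R Q := by
  classical
  unfold stat10
  congr 1
  refine sum_congr rfl fun x _ => if_congr ?_ rfl rfl
  have key : Off o (Hs n H) (sOn o R x) → gp10 g h0 x = g x := by
    intro hoff
    have h1 : Off o (Hs n H) x := by
      have := off_anti (empty_subset R) hoff
      rwa [sOn_empty_cv2_10] at this
    have h2 : Off o (Hs n h0) x := by
      intro C hC
      obtain ⟨D, hD, rfl⟩ := mem_Hs.1 hC
      exact h1 _ (mem_Hs.2 ⟨D, hh0 D hD, rfl⟩)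
    have h3 := (satD_off10 (fun C hC => hh C (hh0 C hC)) x).2 h2
    unfold gp10
    rw [h3, Bool.or_false]
  constructor
  · rintro ⟨h1, h2, h3, h4⟩
    exact ⟨h1, by rwa [key h3] at h2, h3, h4⟩
  · rintro ⟨h1, h2, h3, h4⟩
    exact ⟨h1, by rwa [key h3], h3, h4⟩

/-- **The statistic.** For an oriented list `R` without repetitions and any list `Z` which holds
at `x` iff `On J x ∧ Q x`: the difference of the densities for parity `false` and `true` is the
statistic. -/
theorem stat_ev10 {J : Finset (Fin n)} {R Z : List Lit} {Q : (Fin n → Bool) → Prop}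
    (hR : Ori o R) (hRn : (R.map Prod.fst).Nodup) (hh : ∀ D ∈ H, Ori o D)
    (hZ : ∀ x : Fin n → Bool, sat (List.ofFn x) Z = true ↔ On o J x ∧ Q x) :
    mu (ev10 g true false R Z (strip10 R H)) - mu (ev10 g true true R Z (strip10 R H)) =
      stat10 o g (Hs n H) J (fs n R) Q := by
  classical
  have hp : (0 : ℝ) < 2 ^ n := by positivity
  have h1 : ∀ u, mu (ev10 g true u R Z (strip10 R H)) =
      (∑ x, bR (ev10 g true u R Z (strip10 R H) x)) / 2 ^ n := by
    intro u
    rw [mu_eq_pr, sum_bR (fun x => ev10 g true u R Z (strip10 R H) x = true)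
      (ev10 g true u R Z (strip10 R H)) (fun _ => Iff.rfl), mul_div_cancel_right₀ _ hp.ne']
  rw [h1, h1, ← sub_div, ← sum_sub_distrib]
  unfold stat10
  congr 1
  refine sum_congr rfl fun x _ => ?_
  have key : ∀ u, ev10 g true u R Z (strip10 R H) x = true ↔ (par (List.ofFn x) R = u ∧
      (On o J x ∧ g x = true ∧ Off o (Hs n H) (sOn o (fs n R) x) ∧ Q x)) := by
    intro u
    rw [ev10_iff, hZ, satD_strip10 hR hh]
    tauto
  have hchi := chi_par (o := o) x R hR hRn
  by_cases hP : On o J x ∧ g x = true ∧ Off o (Hs n H) (sOn o (fs n R) x) ∧ Q x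
  · rw [if_pos hP, hchi]
    cases hu : par (List.ofFn x) R with
    | false =>
      have e1 : ev10 g true false R Z (strip10 R H) x = true := (key false).2 ⟨hu, hP⟩
      have e2 : ev10 g true true R Z (strip10 R H) x = false := by
        rw [Bool.eq_false_iff]
        intro hc
        have := ((key true).1 hc).1
        rw [hu] at this
        exact absurd this (by decide)
      rw [e1, e2]
      simp [bR]
    | true =>
      have e1 : ev10 g true true R Z (strip10 R H) x = true := (key true).2 ⟨hu, hP⟩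
      have e2 : ev10 g true false R Z (strip10 R H) x = false := by
        rw [Bool.eq_false_iff]
        intro hc
        have := ((key false).1 hc).1
        rw [hu] at this
        exact absurd this (by decide)
      rw [e1, e2]
      simp [bR]
  · rw [if_neg hP]
    have e : ∀ u, ev10 g true u R Z (strip10 R H) x = false := by
      intro u
      rw [Bool.eq_false_iff]
      intro hc
      exact hP ((key u).1 hc).2
    rw [e, e, sub_self]

/-- The list `neg l :: J` holds at `x` iff `J` is on and the variable of `l` is off. -/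
theorem sat_neg10 {J : List Lit} (hJ : Ori o J) (i : Fin n) (x : Fin n → Bool) :
    sat (List.ofFn x) (neg ((i : ℕ), o i) :: J) = true ↔ On o (fs n J) x ∧ x i ≠ o i := by
  rw [← sat_ori hJ, sat_iff, sat_iff]
  constructor
  · intro h
    refine ⟨fun l hl => h l (List.mem_cons_of_mem _ hl), ?_⟩
    have h1 := h _ List.mem_cons_self
    unfold neg at h1
    rw [getElem?_ofFn] at h1
    obtain ⟨_, h2⟩ := h1
    intro hc
    rw [show (⟨(i : ℕ), i.2⟩ : Fin n) = i from rfl] at h2
    rw [hc] at h2
    cases h3 : o i <;> rw [h3] at h2 <;> simp at h2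
  · rintro ⟨h1, h2⟩ l hl
    rcases List.mem_cons.1 hl with rfl | hl
    · unfold neg
      rw [getElem?_ofFn]
      refine ⟨i.2, ?_⟩
      change x i = !(o i)
      cases h3 : o i <;> cases h4 : x i <;> simp_all
    · exact h1 l hl

/-- **The estimates of the learner.** The difference of the counts for the two parities is within
`2 η` of the statistic. -/
theorem stat_est10 (hrep : Rep10 f g ω r η) {J : Finset (Fin n)} {R Z : List Lit}
    {Q : (Fin n → Bool) → Prop} (hR : Ori o R) (hRn : (R.map Prod.fst).Nodup)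
    (hh : ∀ D ∈ H, Ori o D) (hh0 : ∀ D ∈ h0, D ∈ H) (hr : H.length ≤ r) (hZn : ∀ l ∈ Z, l.1 < n)
    (hZ : ∀ x : Fin n → Bool, sat (List.ofFn x) Z = true ↔ On o J x ∧ Q x) :
    |((cnt10 (smp f ω) true false R Z (strip10 R H) : ℝ) -
      cnt10 (smp f ω) true true R Z (strip10 R H)) / m -
      stat10 o (gp10 g h0) (Hs n H) J (fs n R) Q| ≤ 2 * η := by
  have hl : (strip10 R H).length ≤ r := by
    unfold strip10
    rwa [List.length_map]
  have h1 := abs_le.1 (cnt10_close10 hrep true false (R := R) (Z := Z) (h := strip10 R H)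
    hR hRn hZn (ori_strip10 hh) hl)
  have h2 := abs_le.1 (cnt10_close10 hrep true true (R := R) (Z := Z) (h := strip10 R H)
    hR hRn hZn (ori_strip10 hh) hl)
  rw [stat_gp10 hh hh0, ← stat_ev10 (g := g) hR hRn hh hZ, sub_div, abs_le]
  constructor
  · linarith [h1.1, h2.2]
  · linarith [h1.2, h2.1]

end Pool.Agent.H.MP_cba12a_lc
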