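import Pool.Agent.H.MP_cba12a_lc.X10.Base

/-!
The mixed derivative detects a term which is the only satisfied one.
-/

namespace Pool.Agent.H.MP_cba12a_lc

open Finset

variable {n : ℕ} {o : Fin n → Bool} {g : (Fin n → Bool) → Bool} {F H : Finset (Finset (Fin n))}
  {t : ℕ}

theorem sum_ind10 (P : (Fin n → Bool) → Prop) : ∑ x, ind (P x) = pr P * 2 ^ n := by
  classical
  rw [← sum_bR P (fun x => decide (P x)) fun x => decide_eq_true_iff]
  refine sum_congr rfl fun x _ => ?_
  unfold ind bR
  by_cases h : P x <;> simp [h]

theorem sOn_flp10 {R : Finset (Fin n)} {i : Fin n} (h : i ∈ R) (x : Fin n → Bool) :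
    sOn o R (flp i x) = sOn o R x := sOn_update_mem h _

/-- the least element of a set, or `r` if the set is empty -/
def pk10 (r : Fin n) (S : Finset (Fin n)) : Fin n := if h : S.Nonempty then S.min' h else r

/-- some member of `F` which is disjoint from `R` is on -/
def DisOn10 (o : Fin n → Bool) (F : Finset (Finset (Fin n))) (R : Finset (Fin n))
    (x : Fin n → Bool) : Prop := ∃ A ∈ F, Disjoint A R ∧ On o A x

open Classical in
/-- the uncovered elements of `R` -/
noncomputable def unc10 (o : Fin n → Bool) (F : Finset (Finset (Fin n))) (T R : Finset (Fin n))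
    (x : Fin n → Bool) : Finset (Fin n) :=
  R.filter fun r => ∀ A ∈ F, A ≠ T → r ∈ A → ¬ On o (A \ R) x

open Classical in
/-- the variable which is flipped at `x` -/
noncomputable def sel10 (o : Fin n → Bool) (F : Finset (Finset (Fin n))) (T R : Finset (Fin n))
    (r : Fin n) (x : Fin n → Bool) : Fin n :=
  if DisOn10 o F R x then r else pk10 r (unc10 o F T R x)

theorem disOn_flp10 {R : Finset (Fin n)} {i : Fin n} (h : i ∈ R) (x : Fin n → Bool) :
    DisOn10 o F R (flp i x) ↔ DisOn10 o F R x := by
  unfold DisOn10
  refine exists_congr fun A => and_congr_right fun _ => and_congr_right fun hd => ?_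
  exact on_flp_of_not_mem fun hc => (disjoint_left.1 hd hc) h

theorem on_sdiff_flp10 {A R : Finset (Fin n)} {i : Fin n} (h : i ∈ R) (x : Fin n → Bool) :
    On o (A \ R) (flp i x) ↔ On o (A \ R) x :=
  on_flp_of_not_mem fun hc => (mem_sdiff.1 hc).2 h

theorem unc_flp10 {T R : Finset (Fin n)} {i : Fin n} (h : i ∈ R) (x : Fin n → Bool) :
    unc10 o F T R (flp i x) = unc10 o F T R x := by
  classical
  unfold unc10
  ext r
  rw [mem_filter, mem_filter]
  simp only [on_sdiff_flp10 h]

theorem sel_flp10 {T R : Finset (Fin n)} {i r : Fin n} (h : i ∈ R) (x : Fin n → Bool) :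
    sel10 o F T R r (flp i x) = sel10 o F T R r x := by
  unfold sel10
  rw [unc_flp10 h]
  by_cases hd : DisOn10 o F R x
  · rw [if_pos hd, if_pos ((disOn_flp10 h x).2 hd)]
  · rw [if_neg hd, if_neg (fun hc => hd ((disOn_flp10 h x).1 hc))]

theorem sel_mem10 {T R : Finset (Fin n)} {r : Fin n} (hr : r ∈ R) (x : Fin n → Bool) :
    sel10 o F T R r x ∈ R := by
  classical
  have key : ∀ s ∈ unc10 o F T R x, s ∈ R := by
    intro s hs
    unfold unc10 at hs
    exact (mem_filter.1 hs).1
  unfold sel10 pk10
  split_ifs with h1 h2
  · exact hr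
  · exact key _ (min'_mem _ h2)
  · exact hr

theorem cov_flp10 {T R : Finset (Fin n)} {i : Fin n} (h : i ∈ R) (x : Fin n → Bool) :
    Cov10 o F H T R (flp i x) ↔ Cov10 o F H T R x := by
  unfold Cov10
  rw [sOn_flp10 h]
  refine and_congr_right fun _ => and_congr ?_ ?_
  · refine forall_congr' fun A => forall_congr' fun _ => forall_congr' fun hd => ?_
    exact not_congr (on_flp_of_not_mem fun hc => (disjoint_left.1 hd hc) h)
  · simp only [on_sdiff_flp10 h]

theorem flp_ne_self10 (i : Fin n) (x : Fin n → Bool) : flp i x ≠ x := by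
  intro h
  have := congrFun h i
  rw [flp_same] at this
  cases hx : x i <;> rw [hx] at this <;> simp at this

/-- The mixed derivative over `R` detects the chance that `T` is the only satisfied term. -/
theorem det_main10 (hgF : ∀ x, g x = true ↔ ∃ A ∈ F, On o A x)
    {T J R : Finset (Fin n)} (hT : T ∈ F) (hJ : J ⊆ T) (hR : R ⊆ T) (hRne : R.Nonempty)
    (hJR : Disjoint J R) {Q : (Fin n → Bool) → Prop}
    (hQ : ∀ i ∈ R, ∀ x, Q (flp i x) ↔ Q x) :
    |stat10 o g H J R Q - pr (fun x => Only10 o F H T x ∧ Q x)| ≤
      pr (fun x => On o J x ∧ Cov10 o F H T R x) := by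
  classical
  obtain ⟨r0, hr0⟩ := hRne
  have hp : (0 : ℝ) < 2 ^ n := by positivity
  set gp : (Fin n → Bool) → Prop := fun x => ∃ A ∈ F, A ≠ T ∧ On o A x with hgp
  set e : (Fin n → Bool) → ℝ := fun x =>
    if On o J x ∧ gp x ∧ Off o H (sOn o R x) ∧ Q x then chi o R x else 0 with he
  -- splitting of the summand
  have h1 : ∀ x, (if On o J x ∧ g x = true ∧ Off o H (sOn o R x) ∧ Q x then chi o R x else 0) =
      ind (Only10 o F H T x ∧ Q x) + e x := by
    intro x
    by_cases hx : gp x
    · have hg : g x = true := by
        obtain ⟨A, hA, _, hon⟩ := hx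
        exact (hgF x).2 ⟨A, hA, hon⟩
      have hno : ¬ (Only10 o F H T x ∧ Q x) := by
        rintro ⟨⟨_, h2, _⟩, _⟩
        obtain ⟨A, hA, hAT, hon⟩ := hx
        exact h2 A hA hAT hon
      rw [ind_false hno, zero_add]
      simp only [he]
      by_cases hc : On o J x ∧ Off o H (sOn o R x) ∧ Q x
      · rw [if_pos ⟨hc.1, hg, hc.2⟩, if_pos ⟨hc.1, hx, hc.2⟩]
      · rw [if_neg (fun h => hc ⟨h.1, h.2.2⟩), if_neg (fun h => hc ⟨h.1, h.2.2⟩)]
    · have he0 : e x = 0 := by
        simp only [he]
        rw [if_neg (fun h => hx h.2.1)]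
      rw [he0, add_zero]
      by_cases hTx : On o T x
      · have hg : g x = true := (hgF x).2 ⟨T, hT, hTx⟩
        have hs : sOn o R x = x := sOn_eq (hTx.mono hR)
        have hJx : On o J x := hTx.mono hJ
        by_cases hc : Off o H x ∧ Q x
        · rw [if_pos ⟨hJx, hg, by rw [hs]; exact hc.1, hc.2⟩, chi_on (hTx.mono hR), ind_true]
          refine ⟨⟨hTx, ?_, hc.1⟩, hc.2⟩
          intro A hA hAT hon
          exact hx ⟨A, hA, hAT, hon⟩
        · rw [if_neg, ind_false]
          · rintro ⟨⟨_, _, h3⟩, h4⟩
            exact hc ⟨h3, h4⟩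
          · rintro ⟨_, _, h3, h4⟩
            rw [hs] at h3
            exact hc ⟨h3, h4⟩
      · have hg : ¬ g x = true := by
          intro hg
          obtain ⟨A, hA, hon⟩ := (hgF x).1 hg
          by_cases hAT : A = T
          · exact hTx (hAT ▸ hon)
          · exact hx ⟨A, hA, hAT, hon⟩
        rw [if_neg (fun h => hg h.2.1), ind_false (fun h => hTx h.1.1)]
  -- the part outside the covering event vanishes
  have h2 : ∑ x, (if Cov10 o F H T R x then 0 else e x) = 0 := by
    refine sum_involution (fun x _ => flp (sel10 o F T R r0 x) x) ?_ ?_ (fun _ _ => mem_univ _) ?_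
    · intro x _
      have hrR : sel10 o F T R r0 x ∈ R := sel_mem10 hr0 x
      by_cases hc : Cov10 o F H T R x
      · rw [if_pos hc, if_pos ((cov_flp10 hrR x).2 hc), add_zero]
      · rw [if_neg hc, if_neg (fun h => hc ((cov_flp10 hrR x).1 h))]
        set r := sel10 o F T R r0 x with hr
        by_cases hoff : Off o H (sOn o R x)
        · have hgpiff : gp (flp r x) ↔ gp x := by
            by_cases hB : DisOn10 o F R x
            · obtain ⟨A, hA, hd, hon⟩ := hB
              have hAT : A ≠ T := by
                rintro rfl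
                exact (disjoint_left.1 hd (hR hr0)) hr0
              refine ⟨fun _ => ⟨A, hA, hAT, hon⟩, fun _ => ⟨A, hA, hAT, ?_⟩⟩
              exact (on_flp_of_not_mem fun hc => (disjoint_left.1 hd hc) hrR).2 hon
            · have hne : (unc10 o F T R x).Nonempty := by
                by_contra hcon
                apply hc
                refine ⟨hoff, ?_, ?_⟩
                · intro A hA hd hon
                  exact hB ⟨A, hA, hd, hon⟩
                · intro s hs
                  by_contra hs2
                  push Not at hs2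
                  apply hcon
                  refine ⟨s, ?_⟩
                  unfold unc10
                  rw [mem_filter]
                  exact ⟨hs, hs2⟩
              have hru : r ∈ unc10 o F T R x := by
                rw [hr]
                unfold sel10 pk10
                rw [if_neg hB, dif_pos hne]
                exact min'_mem _ hne
              unfold unc10 at hru
              rw [mem_filter] at hru
              have key : ∀ A ∈ F, A ≠ T → (On o A (flp r x) ↔ On o A x) := by
                intro A hA hAT
                by_cases hrA : r ∈ A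
                · constructor
                  · intro hon
                    exact absurd ((on_sdiff_flp10 hrR x).1 (hon.mono sdiff_subset))
                      (hru.2 A hA hAT hrA)
                  · intro hon
                    exact absurd (hon.mono sdiff_subset) (hru.2 A hA hAT hrA)
                · exact on_flp_of_not_mem hrA
              constructor
              · rintro ⟨A, hA, hAT, hon⟩
                exact ⟨A, hA, hAT, (key A hA hAT).1 hon⟩
              · rintro ⟨A, hA, hAT, hon⟩
                exact ⟨A, hA, hAT, (key A hA hAT).2 hon⟩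
          have hJiff : On o J (flp r x) ↔ On o J x :=
            on_flp_of_not_mem fun hc => (disjoint_left.1 hJR hc) hrR
          simp only [he]
          by_cases hcc : On o J x ∧ gp x ∧ Off o H (sOn o R x) ∧ Q x
          · rw [if_pos hcc, if_pos, chi_flp_mem o hrR, add_neg_cancel]
            exact ⟨hJiff.2 hcc.1, hgpiff.2 hcc.2.1, by rw [sOn_flp10 hrR]; exact hcc.2.2.1,
              (hQ r hrR x).2 hcc.2.2.2⟩
          · rw [if_neg hcc, if_neg, add_zero]
            rintro ⟨a1, a2, a3, a4⟩
            rw [sOn_flp10 hrR] at a3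
            exact hcc ⟨hJiff.1 a1, hgpiff.1 a2, a3, (hQ r hrR x).1 a4⟩
        · simp only [he]
          rw [if_neg (fun h => hoff h.2.2.1), if_neg, add_zero]
          intro h
          have h3 := h.2.2.1
          rw [sOn_flp10 hrR] at h3
          exact hoff h3
    · intro x _ _
      exact flp_ne_self10 _ x
    · intro x _
      have hrR : sel10 o F T R r0 x ∈ R := sel_mem10 hr0 x
      show flp (sel10 o F T R r0 (flp (sel10 o F T R r0 x) x)) (flp (sel10 o F T R r0 x) x) = x
      rw [sel_flp10 hrR, flp_flp]
  -- the part inside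
  have h3 : ∑ x, e x = ∑ x, (if Cov10 o F H T R x then e x else 0) := by
    have : ∑ x, e x = ∑ x, (if Cov10 o F H T R x then e x else 0) +
        ∑ x, (if Cov10 o F H T R x then 0 else e x) := by
      rw [← sum_add_distrib]
      refine sum_congr rfl fun x _ => ?_
      split_ifs <;> ring
    rw [this, h2, add_zero]
  have h4 : |∑ x, e x| ≤ pr (fun x => On o J x ∧ Cov10 o F H T R x) * 2 ^ n := by
    rw [h3, ← sum_ind10]
    refine (abs_sum_le_sum_abs _ _).trans (sum_le_sum fun x _ => ?_)
    by_cases hc : Cov10 o F H T R x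
    · rw [if_pos hc]
      simp only [he]
      by_cases hcc : On o J x ∧ gp x ∧ Off o H (sOn o R x) ∧ Q x
      · rw [if_pos hcc, ind_true ⟨hcc.1, hc⟩]
        refine (abs_le_one_iff_mul_self_le_one).2 ?_
        have := chi_sq o R x
        nlinarith
      · rw [if_neg hcc, abs_zero]
        exact ind_nonneg _
    · rw [if_neg hc, abs_zero]
      exact ind_nonneg _
  have h5 : stat10 o g H J R Q - pr (fun x => Only10 o F H T x ∧ Q x) = (∑ x, e x) / 2 ^ n := by
    unfold stat10
    rw [sum_congr rfl fun x _ => h1 x, sum_add_distrib, sum_ind10, add_div,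
      mul_div_cancel_right₀ _ hp.ne', add_sub_cancel_left]
  rw [h5, abs_div, abs_of_pos hp, div_le_iff₀ hp]
  exact h4

end Pool.Agent.H.MP_cba12a_lc
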