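import Pool.Agent.H.MP_cba12a_lc.X10.Base

/-!
Leaving a decreasing event by setting a set of variables on.
-/

namespace Pool.Agent.H.MP_cba12a_lc

open Finset

variable {n : ℕ} {o : Fin n → Bool}

/-- An event which does not depend on the variables of a set keeps its value when they are set
on. -/
theorem inv_sOn10 {E : (Fin n → Bool) → Prop} (A : Finset (Fin n))
    (hE : ∀ i ∈ A, ∀ x v, E (Function.update x i v) ↔ E x) : ∀ x, E (sOn o A x) ↔ E x := by
  classical
  induction A using Finset.induction_on with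
  | empty =>
    intro x
    have : sOn o ∅ x = x := by
      funext i
      exact sOn_not_mem (notMem_empty i)
    rw [this]
  | insert a B ha ih =>
    intro x
    have h1 : sOn o (insert a B) x = sOn o B (Function.update x a (o a)) := by
      funext i
      by_cases hiB : i ∈ B
      · rw [sOn_mem hiB, sOn_mem (mem_insert_of_mem hiB)]
      · rw [sOn_not_mem hiB]
        by_cases hia : i = a
        · subst hia
          rw [sOn_mem (mem_insert_self _ _), Function.update_self]
        · rw [Function.update_of_ne hia, sOn_not_mem (by rw [mem_insert]; tauto)]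
    rw [h1, ih (fun i hi => hE i (mem_insert_of_mem hi)), hE a (mem_insert_self _ _)]

/-- The general form of the exit inequality. -/
theorem exit_aux10 {P E : (Fin n → Bool) → Prop} (A : Finset (Fin n))
    (hE : ∀ i ∈ A, ∀ x v, E (Function.update x i v) ↔ E x) :
    pr (fun x => P x ∧ E x) ≤ pr (fun x => P (sOn o A x) ∧ E x) + 2 ^ A.card *
      ∑ i ∈ A, pr (fun x => P x ∧ E x ∧ ¬ P (sOn o {i} x)) := by
  classical
  induction A using Finset.induction_on with
  | empty =>
    have h0 : ∀ x, sOn o ∅ x = x := by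
      intro x
      funext i
      exact sOn_not_mem (notMem_empty i)
    rw [sum_empty, mul_zero, add_zero]
    exact pr_mono fun x hx => by rw [h0]; exact hx
  | insert a B ha ih =>
    have hEB : ∀ i ∈ B, ∀ x v, E (Function.update x i v) ↔ E x :=
      fun i hi => hE i (mem_insert_of_mem hi)
    have h1 := ih hEB
    have h2 : pr (fun x => P (sOn o B x) ∧ E x) ≤ pr (fun x => P (sOn o (insert a B) x) ∧ E x) +
        pr (fun x => P (sOn o B x) ∧ ¬ P (sOn o {a} (sOn o B x)) ∧ E (sOn o B x)) := by
      refine pr_le_add fun x hx => ?_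
      by_cases h : P (sOn o (insert a B) x)
      · exact Or.inl ⟨h, hx.2⟩
      · right
        refine ⟨hx.1, ?_, (inv_sOn10 B hEB x).2 hx.2⟩
        rw [sOn_sOn, ← insert_eq]
        exact h
    have h3 := pr_on o B (fun x => P x ∧ ¬ P (sOn o {a} x) ∧ E x)
    have h4 : pr (fun x => On o B x ∧ P x ∧ ¬ P (sOn o {a} x) ∧ E x) ≤
        pr (fun x => P x ∧ E x ∧ ¬ P (sOn o {a} x)) :=
      pr_mono fun x hx => ⟨hx.2.1, hx.2.2.2, hx.2.2.1⟩
    have h5 : pr (fun x => P (sOn o B x) ∧ ¬ P (sOn o {a} (sOn o B x)) ∧ E (sOn o B x)) ≤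
        2 ^ B.card * pr (fun x => P x ∧ E x ∧ ¬ P (sOn o {a} x)) := by
      rw [h3] at h4
      have h6 := mul_le_mul_of_nonneg_left h4 (by positivity : (0 : ℝ) ≤ 2 ^ B.card)
      rwa [← mul_assoc, ← mul_pow, mul_one_div_cancel (two_ne_zero), one_pow, one_mul] at h6
    rw [card_insert_of_notMem ha, sum_insert ha, pow_succ]
    have h7 : 0 ≤ pr (fun x => P x ∧ E x ∧ ¬ P (sOn o {a} x)) := pr_nonneg _
    have h8 : 0 ≤ ∑ i ∈ B, pr (fun x => P x ∧ E x ∧ ¬ P (sOn o {i} x)) :=
      sum_nonneg fun _ _ => pr_nonneg _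
    have h9 : (0 : ℝ) ≤ 2 ^ B.card := by positivity
    nlinarith [mul_nonneg h9 h7, mul_nonneg h9 h8]

/-- Let `P` be decreasing and `E` an event which does not depend on the variables of `A`, such
that `P` fails on `E` once `A` is set on. Then the density of `P` and `E` is at most `2^{|A|}` times
the total density of the events that `P` fails when one variable of `A` is set on. -/
theorem exit10 {P E : (Fin n → Bool) → Prop} (hP : DnP o P) (A : Finset (Fin n))
    (hE : ∀ i ∈ A, ∀ x v, E (Function.update x i v) ↔ E x)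
    (hPE : ∀ x, E x → ¬ P (sOn o A x)) :
    pr (fun x => P x ∧ E x) ≤ 2 ^ A.card *
      ∑ i ∈ A, pr (fun x => P x ∧ E x ∧ ¬ P (sOn o {i} x)) := by
  have h1 := exit_aux10 (o := o) (P := P) A hE
  have h2 : pr (fun x => P (sOn o A x) ∧ E x) ≤ ∑ i ∈ (∅ : Finset ℕ), pr (fun _ => False) :=
    pr_le_sum (n := n) ∅ _ (fun _ _ => False) fun x hx => absurd hx.1 (hPE x hx.2)
  rw [sum_empty] at h2
  linarith

end Pool.Agent.H.MP_cba12a_lc
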