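import Pool.Agent.H.MP_cba12a_lc.X10.Hot1

/-!
Patterns of the other terms on a term.
-/

namespace Pool.Agent.H.MP_cba12a_lc

open Finset

variable {n : ℕ} {o : Fin n → Bool} {g : (Fin n → Bool) → Bool} {F : Finset (Finset (Fin n))}
  {t : ℕ}

open Classical in
/-- the density as a sum -/
theorem hot2_pr_eq10 (P : (Fin n → Bool) → Prop) :
    pr P = (∑ x, if P x then (1 : ℝ) else 0) / 2 ^ n := by
  have h := sum_bR P (fun x => decide (P x)) (fun x => by simp)
  rw [eq_div_iff (by positivity), ← h]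
  refine sum_congr rfl fun x _ => ?_
  by_cases hx : P x <;> simp [bR, hx]

/-- disjoint events -/
theorem hot2_sum_le10 {ι : Type} [DecidableEq ι] (L : Finset ι) (Q : ι → (Fin n → Bool) → Prop)
    (P : (Fin n → Bool) → Prop) (hQ : ∀ i ∈ L, ∀ x, Q i x → P x)
    (hd : ∀ i ∈ L, ∀ j ∈ L, ∀ x, Q i x → Q j x → i = j) :
    ∑ i ∈ L, pr (Q i) ≤ pr P := by
  classical
  rw [hot2_pr_eq10, sum_congr rfl fun i _ => hot2_pr_eq10 (Q i), ← sum_div]
  refine div_le_div_of_nonneg_right ?_ (by positivity)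
  rw [sum_comm]
  refine sum_le_sum fun x _ => ?_
  by_cases hx : ∃ i ∈ L, Q i x
  · obtain ⟨i, hi, hx⟩ := hx
    rw [sum_eq_single_of_mem i hi, if_pos hx, if_pos (hQ i hi x hx)]
    intro j hj hne
    rw [if_neg]
    exact fun h => hne (hd j hj i hi x h hx)
  · rw [sum_eq_zero]
    · split_ifs <;> norm_num
    · intro i hi
      rw [if_neg]
      exact fun h => hx ⟨i, hi, h⟩

/-- the members of the family other than `T` which are on outside `T` -/
noncomputable def Hot2Pat10 (o : Fin n → Bool) (F : Finset (Finset (Fin n))) (T : Finset (Fin n))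
    (x : Fin n → Bool) : Finset (Finset (Fin n)) := by
  classical
  exact F.filter fun A => A ≠ T ∧ On o (A \ T) x

theorem hot2_mem_pat10 {T A : Finset (Fin n)} {x : Fin n → Bool} :
    A ∈ Hot2Pat10 o F T x ↔ A ∈ F ∧ A ≠ T ∧ On o (A \ T) x := by
  classical
  unfold Hot2Pat10
  rw [mem_filter]

theorem hot2_pat_update10 {T : Finset (Fin n)} {i : Fin n} (hi : i ∈ T) (x : Fin n → Bool) (v : Bool) :
    Hot2Pat10 o F T (Function.update x i v) = Hot2Pat10 o F T x := by
  ext A
  rw [hot2_mem_pat10, hot2_mem_pat10]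
  refine and_congr_right fun _ => and_congr_right fun _ => ?_
  have h : ∀ j ∈ A \ T, Function.update x i v j = x j := by
    intro j hj
    rw [mem_sdiff] at hj
    refine Function.update_of_ne ?_ _ _
    rintro rfl
    exact hj.2 hi
  constructor
  · intro h' j hj
    rw [← h j hj]
    exact h' j hj
  · intro h' j hj
    rw [h j hj]
    exact h' j hj

/-- Let `T ∈ F`, `U ⊆ T`; the event that no member of `F` other than `T` is on once `U` is set on
is lost on the way from `U` to `T` through single variables, up to a factor `2^t`. -/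
theorem patterns10 (hshare : Shr t F) {T U : Finset (Fin n)} (hT : T ∈ F) (hU : U ⊆ T) :
    pr (fun x => ∀ A ∈ F, A ≠ T → ¬ On o A (sOn o U x)) - ZT o F T ≤
      2 ^ t * ∑ i ∈ T \ U, (pr (fun x => ∀ A ∈ F, A ≠ T → ¬ On o A (sOn o U x)) -
        pr (fun x => ∀ A ∈ F, A ≠ T → ¬ On o A (sOn o (insert i U) x))) := by
  classical
  set P : (Fin n → Bool) → Prop := fun x => ∀ A ∈ F, A ≠ T → ¬ On o A (sOn o U x) with hPdef
  have hP : DnP o P := by
    intro i x h A hA hAT
    exact (dnP_not_on o A).sOn U i x (h A hA hAT)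
  set W := T \ U with hW
  -- the chosen pattern
  have hch : ∃ c : Finset (Finset (Fin n)) → Finset (Fin n), ∀ S, S.Nonempty → c S ∈ S := by
    refine ⟨fun S => if h : S.Nonempty then h.choose else ∅, fun S h => ?_⟩
    simp only [dif_pos h]
    exact h.choose_spec
  obtain ⟨c, hc⟩ := hch
  set E : Finset (Fin n) → (Fin n → Bool) → Prop := fun A x =>
    (Hot2Pat10 o F T x).Nonempty ∧ c (Hot2Pat10 o F T x) = A with hEdef
  have hstep : ∀ A ∈ F.erase T, pr (fun x => P x ∧ E A x) ≤
      2 ^ t * ∑ i ∈ W, pr (fun x => P x ∧ E A x ∧ ¬ P (sOn o {i} x)) := by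
    intro A hA
    rw [mem_erase] at hA
    have h1 := exit10 (E := E A) hP (A ∩ W) (fun i hi x v => by
        rw [mem_inter, hW, mem_sdiff] at hi
        simp only [hEdef, hot2_pat_update10 hi.2.1]) (fun x hx hPx => by
        have h2 := hc _ hx.1
        rw [hx.2, hot2_mem_pat10] at h2
        refine hPx A hA.2 hA.1 ?_
        rw [sOn_sOn, on_sOn_iff]
        refine On.mono ?_ h2.2.2
        intro j hj
        rw [mem_sdiff, mem_union, mem_inter, hW, mem_sdiff] at hj
        rw [mem_sdiff]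
        refine ⟨hj.1, fun hjT => hj.2 ?_⟩
        by_cases hjU : j ∈ U
        · exact Or.inl hjU
        · exact Or.inr ⟨hj.1, hjT, hjU⟩)
    refine h1.trans ?_
    have hcard : (A ∩ W).card ≤ t :=
      (card_le_card (inter_subset_inter_left sdiff_subset)).trans (hshare A hA.2 T hT hA.1)
    refine mul_le_mul (pow_le_pow_right₀ (by norm_num) hcard) ?_
      (sum_nonneg fun _ _ => pr_nonneg _) (by positivity)
    exact sum_le_sum_of_subset_of_nonneg inter_subset_right fun _ _ _ => pr_nonneg _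
  -- the event splits
  have h1 : pr P - ZT o F T ≤ ∑ A ∈ F.erase T, pr (fun x => P x ∧ E A x) := by
    have h2 : pr P ≤ ZT o F T + pr (fun x => P x ∧ (Hot2Pat10 o F T x).Nonempty) := by
      refine pr_le_add fun x hx => ?_
      by_cases hne : (Hot2Pat10 o F T x).Nonempty
      · exact Or.inr ⟨hx, hne⟩
      · refine Or.inl fun A hA hAT hon => hne ⟨A, ?_⟩
        rw [on_sOn_iff] at hon
        exact hot2_mem_pat10.2 ⟨hA, hAT, hon⟩
    have h3 : pr (fun x => P x ∧ (Hot2Pat10 o F T x).Nonempty) ≤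
        ∑ A ∈ F.erase T, pr (fun x => P x ∧ E A x) := by
      refine pr_le_sum _ _ _ fun x hx => ?_
      have h4 := hc _ hx.2
      rw [hot2_mem_pat10] at h4
      exact ⟨c (Hot2Pat10 o F T x), mem_erase.2 ⟨h4.2.1, h4.1⟩, hx.1, hx.2, rfl⟩
    linarith
  refine h1.trans ((sum_le_sum hstep).trans ?_)
  rw [← mul_sum, sum_comm]
  refine mul_le_mul_of_nonneg_left (sum_le_sum fun i hi => ?_) (by positivity)
  have h5 : ∑ A ∈ F.erase T, pr (fun x => P x ∧ E A x ∧ ¬ P (sOn o {i} x)) ≤
      pr (fun x => P x ∧ ¬ P (sOn o {i} x)) := by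
    refine hot2_sum_le10 _ _ _ (fun A _ x h => ⟨h.1, h.2.2⟩) ?_
    intro A _ B _ x hA hB
    exact hA.2.1.2.symm.trans hB.2.1.2
  refine h5.trans ?_
  have h6 : ∀ x, P (sOn o {i} x) ↔ ∀ A ∈ F, A ≠ T → ¬ On o A (sOn o (insert i U) x) := by
    intro x
    have : insert i U = U ∪ {i} := by
      rw [union_comm]
      rfl
    simp only [hPdef, sOn_sOn, this]
  have h7 : pr (fun x => P x ∧ ¬ P (sOn o {i} x)) + pr (fun x => P (sOn o {i} x)) ≤ pr P := by
    have h8 := hot2_sum_le10 (univ : Finset (Fin 2))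
      (fun j x => if j = 0 then (P x ∧ ¬ P (sOn o {i} x)) else P (sOn o {i} x)) P ?_ ?_
    · rw [Fin.sum_univ_two] at h8
      simpa using h8
    · intro j _ x h
      fin_cases j
      · exact (by simpa using h : P x ∧ ¬ P (sOn o {i} x)).1
      · exact hP.of_sOn {i} x (by simpa using h)
    · intro j _ k _ x h h'
      fin_cases j <;> fin_cases k
      · rfl
      · exact absurd (by simpa using h') (by simpa using h : P x ∧ ¬ P (sOn o {i} x)).2
      · exact absurd (by simpa using h) (by simpa using h' : P x ∧ ¬ P (sOn o {i} x)).2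
      · rfl
  have h9 : pr (fun x => ∀ A ∈ F, A ≠ T → ¬ On o A (sOn o (insert i U) x)) =
      pr (fun x => P (sOn o {i} x)) := pr_congr fun x => (h6 x).symm
  rw [h9]
  linarith

end Pool.Agent.H.MP_cba12a_lc
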