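import Pool.Agent.H.MP_cba12a_lc.X10.Base

/-!
One step of Janson's inequality.
-/

namespace Pool.Agent.H.MP_cba12a_lc

open Finset

variable {n : ℕ} {o : Fin n → Bool} {g : (Fin n → Bool) → Bool}

/-- Additivity of the density. -/
theorem jan1_split10 (P Q : (Fin n → Bool) → Prop) :
    pr P = pr (fun x => Q x ∧ P x) + pr (fun x => ¬ Q x ∧ P x) := by
  classical
  rw [pr_def P, pr_def (fun x => Q x ∧ P x), pr_def (fun x => ¬ Q x ∧ P x)]
  refine mu_eq_add (fun x => ?_) (fun x => ?_)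
  · simp only [decide_eq_true_iff]
    tauto
  · simp only [decide_eq_true_iff]
    tauto

/-- One step of Janson's inequality. -/
theorem janson_step10 (o : Fin n → Bool) (𝒮 : Finset (Finset (Fin n))) (T : Finset (Fin n))
    (h : ∑ A ∈ 𝒮.filter (fun A => ¬ Disjoint A T), (1 / 2 : ℝ) ^ (A ∪ T).card ≤
      (1 / 2) ^ T.card / 2) :
    pr (fun x => Off o (insert T 𝒮) x) ≤ (1 - (1 / 2) ^ T.card / 2) * pr (fun x => Off o 𝒮 x) := by
  classical
  set D : (Fin n → Bool) → Prop := fun x => ∀ A ∈ 𝒮, Disjoint A T → ¬ On o A x with hD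
  have hDdn : DnP o D := fun i x hx A hA hAT => dnP_not_on o A i x (hx A hA hAT)
  have hDT : ∀ x, D (sOn o T x) ↔ D x := by
    intro x
    have key : ∀ A, Disjoint A T → (On o A (sOn o T x) ↔ On o A x) := by
      intro A hA
      rw [on_sOn_iff, sdiff_eq_self_of_disjoint hA]
    constructor
    · intro hx A hA hAT hc
      exact hx A hA hAT ((key A hAT).2 hc)
    · intro hx A hA hAT hc
      exact hx A hA hAT ((key A hAT).1 hc)
  have h1 : pr (fun x => On o T x ∧ D x) = (1 / 2) ^ T.card * pr D := by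
    rw [pr_on]
    congr 1
    exact pr_congr hDT
  have h2 : ∀ A : Finset (Fin n), pr (fun x => On o (A ∪ T) x ∧ D x) ≤
      (1 / 2) ^ (A ∪ T).card * pr D := by
    intro A
    rw [pr_on]
    exact mul_le_mul_of_nonneg_left (pr_mono fun x hx => hDdn.of_sOn _ x hx) (by positivity)
  have h3 : pr (fun x => On o T x ∧ D x) ≤ pr (fun x => On o T x ∧ Off o 𝒮 x) +
      ∑ A ∈ 𝒮.filter (fun A => ¬ Disjoint A T), (1 / 2 : ℝ) ^ (A ∪ T).card * pr D := by
    refine (pr_le_add (Q := fun x => On o T x ∧ Off o 𝒮 x)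
      (R := fun x => ∃ A ∈ 𝒮.filter (fun A => ¬ Disjoint A T), On o (A ∪ T) x ∧ D x)
      fun x hx => ?_).trans ?_
    · by_cases hoff : Off o 𝒮 x
      · exact Or.inl ⟨hx.1, hoff⟩
      · right
        unfold Off at hoff
        push Not at hoff
        obtain ⟨A, hA, hAx⟩ := hoff
        refine ⟨A, mem_filter.2 ⟨hA, fun hdis => hx.2 A hA hdis hAx⟩, ?_, hx.2⟩
        intro i hi
        rcases mem_union.1 hi with hi | hi
        · exact hAx i hi
        · exact hx.1 i hi
    · refine add_le_add le_rfl ?_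
      refine (pr_le_sum (𝒮.filter (fun A => ¬ Disjoint A T)) _
        (fun A x => On o (A ∪ T) x ∧ D x) fun x hx => hx).trans ?_
      exact sum_le_sum fun A _ => h2 A
  rw [← sum_mul, h1] at h3
  have h4 : (1 / 2 : ℝ) ^ T.card / 2 * pr D ≤ pr (fun x => On o T x ∧ Off o 𝒮 x) := by
    have := mul_le_mul_of_nonneg_right h (pr_nonneg D)
    linarith
  have h5 : pr (fun x => Off o 𝒮 x) ≤ pr D := pr_mono fun x hx A hA _ => hx A hA
  have h6 : (1 / 2 : ℝ) ^ T.card / 2 * pr (fun x => Off o 𝒮 x) ≤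
      pr (fun x => On o T x ∧ Off o 𝒮 x) :=
    (mul_le_mul_of_nonneg_left h5 (by positivity)).trans h4
  have h7 := jan1_split10 (fun x => Off o 𝒮 x) (fun x => On o T x)
  have h8 : pr (fun x => Off o (insert T 𝒮) x) ≤ pr (fun x => ¬ On o T x ∧ Off o 𝒮 x) :=
    pr_mono fun x hx => ⟨hx T (mem_insert_self _ _), fun A hA => hx A (mem_insert_of_mem hA)⟩
  linarith

end Pool.Agent.H.MP_cba12a_lc
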