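import Pool.Agent.H.MP_cba12a_lc.X10.Jan1

/-!
Greedy choice of a subfamily.
-/

namespace Pool.Agent.H.MP_cba12a_lc

open Finset

variable {n : ℕ} {o : Fin n → Bool} {g : (Fin n → Bool) → Bool}

/-- Greedy choice of a subfamily with few interactions which is on with large probability. -/
theorem greedy10 (o : Fin n → Bool) (G : Finset (Finset (Fin n))) :
    ∃ 𝒮 ⊆ G, pr (fun x => Off o 𝒮 x) ≤ Real.exp (- wt10 𝒮 / 2) ∧
      ∀ T ∈ G, T ∉ 𝒮 → (1 / 2 : ℝ) ^ T.card / 2 <
        ∑ A ∈ 𝒮.filter (fun A => ¬ Disjoint A T), (1 / 2 : ℝ) ^ (A ∪ T).card := by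
  classical
  induction G using Finset.induction_on with
  | empty =>
    refine ⟨∅, Subset.refl _, ?_, ?_⟩
    · have h1 : wt10 (∅ : Finset (Finset (Fin n))) = 0 := by
        unfold wt10
        exact sum_empty
      rw [h1]
      simpa using pr_le_one (fun x => Off o (∅ : Finset (Finset (Fin n))) x)
    · intro T hT
      exact absurd hT (notMem_empty T)
  | insert T G hTG ih =>
    obtain ⟨𝒮, hsub, hpr, hrej⟩ := ih
    by_cases h : ∑ A ∈ 𝒮.filter (fun A => ¬ Disjoint A T), (1 / 2 : ℝ) ^ (A ∪ T).card ≤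
      (1 / 2) ^ T.card / 2
    · have hT𝒮 : T ∉ 𝒮 := fun hc => hTG (hsub hc)
      refine ⟨insert T 𝒮, insert_subset_insert T hsub, ?_, ?_⟩
      · have h1 := janson_step10 o 𝒮 T h
        have h2 : wt10 (insert T 𝒮) = (1 / 2 : ℝ) ^ T.card + wt10 𝒮 := by
          unfold wt10
          exact sum_insert hT𝒮
        have h3 : (1 : ℝ) - (1 / 2) ^ T.card / 2 ≤ Real.exp (-((1 / 2 : ℝ) ^ T.card / 2)) := by
          have := Real.add_one_le_exp (-((1 / 2 : ℝ) ^ T.card / 2))
          linarith
        have h4 : 0 ≤ pr (fun x => Off o 𝒮 x) := pr_nonneg _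
        calc pr (fun x => Off o (insert T 𝒮) x)
            ≤ (1 - (1 / 2) ^ T.card / 2) * pr (fun x => Off o 𝒮 x) := h1
          _ ≤ Real.exp (-((1 / 2 : ℝ) ^ T.card / 2)) * pr (fun x => Off o 𝒮 x) :=
              mul_le_mul_of_nonneg_right h3 h4
          _ ≤ Real.exp (-((1 / 2 : ℝ) ^ T.card / 2)) * Real.exp (- wt10 𝒮 / 2) :=
              mul_le_mul_of_nonneg_left hpr (Real.exp_pos _).le
          _ = Real.exp (- wt10 (insert T 𝒮) / 2) := by
              rw [← Real.exp_add, h2]
              congr 1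
              ring
      · intro T' hT' hT'n
        rw [mem_insert] at hT'
        rw [mem_insert, not_or] at hT'n
        have hT'G : T' ∈ G := by
          rcases hT' with h5 | h5
          · exact absurd h5 hT'n.1
          · exact h5
        refine lt_of_lt_of_le (hrej T' hT'G hT'n.2) ?_
        refine sum_le_sum_of_subset_of_nonneg ?_ fun _ _ _ => by positivity
        exact filter_subset_filter _ (subset_insert T 𝒮)
    · refine ⟨𝒮, hsub.trans (subset_insert T G), hpr, ?_⟩
      intro T' hT' hT'n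
      rw [mem_insert] at hT'
      rcases hT' with h5 | h5
      · subst h5
        exact not_le.1 h
      · exact hrej T' h5 hT'n

end Pool.Agent.H.MP_cba12a_lc
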