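import Pool.Agent.H.MP_cba12a_lc.X10.Jan2

/-!
Weight of a family with small local weights.
-/

namespace Pool.Agent.H.MP_cba12a_lc

open Finset

variable {n : ℕ} {o : Fin n → Bool} {g : (Fin n → Bool) → Bool}

/-- the weight of a union when the intersection is small -/
theorem half_union_le10 {t : ℕ} {A T : Finset (Fin n)} (h : (A ∩ T).card ≤ t) :
    (1 / 2 : ℝ) ^ (A ∪ T).card ≤ 2 ^ t * ((1 / 2) ^ A.card * (1 / 2) ^ T.card) := by
  have h1 := card_union_add_card_inter A T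
  have h2 : (1 / 2 : ℝ) ^ A.card * (1 / 2) ^ T.card =
      (1 / 2) ^ (A ∪ T).card * (1 / 2) ^ (A ∩ T).card := by
    rw [← pow_add, ← pow_add, h1]
  rw [h2]
  have h3 : (1 : ℝ) ≤ 2 ^ t * (1 / 2) ^ (A ∩ T).card := by
    have h4 : (1 / 2 : ℝ) ^ t ≤ (1 / 2) ^ (A ∩ T).card :=
      pow_le_pow_of_le_one (by norm_num) (by norm_num) h
    calc (1 : ℝ) = 2 ^ t * (1 / 2) ^ t := by rw [← mul_pow]; norm_num
      _ ≤ _ := by gcongr
  have h5 : (0 : ℝ) < (1 / 2) ^ (A ∪ T).card := by positivity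
  nlinarith

/-- the weight of the members of `G` which meet `A` -/
theorem wt_meet_le10 {ℓ : ℕ} {c : ℝ} (G : Finset (Finset (Fin n))) (A : Finset (Fin n))
    (hA : A.card ≤ ℓ) (hc : 0 ≤ c) (hi : ∀ i : Fin n, wt10 (G.filter fun T => i ∈ T) ≤ c) :
    wt10 (G.filter fun T => ¬ Disjoint A T) ≤ ℓ * c := by
  have h1 : wt10 (G.filter fun T => ¬ Disjoint A T) ≤
      ∑ T ∈ G, ∑ i ∈ A, if i ∈ T then (1 / 2 : ℝ) ^ T.card else 0 := by
    unfold wt10
    rw [sum_filter]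
    refine sum_le_sum fun T _ => ?_
    have hnn : ∀ j ∈ A, (0 : ℝ) ≤ if j ∈ T then (1 / 2 : ℝ) ^ T.card else 0 := by
      intro j _
      positivity
    by_cases h : Disjoint A T
    · rw [if_neg (not_not.2 h)]
      exact sum_nonneg hnn
    · rw [if_pos h]
      obtain ⟨i, hiA, hiT⟩ := not_disjoint_iff.1 h
      refine le_trans (le_of_eq ?_)
        (single_le_sum (f := fun i => if i ∈ T then (1 / 2 : ℝ) ^ T.card else 0) hnn hiA)
      simp [hiT]
  calc wt10 (G.filter fun T => ¬ Disjoint A T)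
      ≤ ∑ T ∈ G, ∑ i ∈ A, if i ∈ T then (1 / 2 : ℝ) ^ T.card else 0 := h1
    _ = ∑ i ∈ A, wt10 (G.filter fun T => i ∈ T) := by
      rw [sum_comm]
      refine sum_congr rfl fun i _ => ?_
      unfold wt10
      rw [sum_filter]
    _ ≤ ∑ i ∈ A, c := sum_le_sum fun i _ => hi i
    _ = A.card * c := by rw [sum_const, nsmul_eq_mul]
    _ ≤ ℓ * c := by gcongr

/-- Consequence: if any two members of `G` share at most `t` elements, all have at most `ℓ`
elements, and for every `i` the members of `G` containing `i` have total weight at most `c`, then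
`wt G ≤ (1 + 2^{t+1} ℓ c) * 2 log (1 / Pr[nothing of G is on])`. -/
theorem wt_le10 (o : Fin n → Bool) {t ℓ : ℕ} {c : ℝ} (G : Finset (Finset (Fin n))) (hG : Shr t G)
    (hℓ : ∀ T ∈ G, T.card ≤ ℓ) (hc : 0 ≤ c)
    (hi : ∀ i : Fin n, wt10 (G.filter fun T => i ∈ T) ≤ c) (hp : 0 < pr fun x => Off o G x) :
    wt10 G ≤ (1 + 2 ^ (t + 1) * ℓ * c) * (2 * Real.log (1 / pr fun x => Off o G x)) := by
  obtain ⟨S, hSG, hS, hrej⟩ := greedy10 o G
  -- the rejected members
  have h1 : ∀ T ∈ G \ S, (1 / 2 : ℝ) ^ T.card ≤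
      2 ^ (t + 1) * ∑ A ∈ S, if ¬ Disjoint A T then (1 / 2 : ℝ) ^ A.card * (1 / 2) ^ T.card else 0 := by
    intro T hT
    rw [mem_sdiff] at hT
    have h2 := hrej T hT.1 hT.2
    have h3 : ∑ A ∈ S.filter (fun A => ¬ Disjoint A T), (1 / 2 : ℝ) ^ (A ∪ T).card ≤
        ∑ A ∈ S.filter (fun A => ¬ Disjoint A T), 2 ^ t * ((1 / 2 : ℝ) ^ A.card * (1 / 2) ^ T.card) := by
      refine sum_le_sum fun A hA => half_union_le10 ?_
      rw [mem_filter] at hA
      exact hG A (hSG hA.1) T hT.1 (fun h => hT.2 (h ▸ hA.1))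
    rw [← mul_sum, sum_filter, sum_filter] at h3
    rw [sum_filter] at h2
    have h4 : (2 : ℝ) ^ (t + 1) = 2 * 2 ^ t := by rw [pow_succ]; ring
    rw [h4]
    linarith
  have h5 : wt10 (G \ S) ≤ 2 ^ (t + 1) * (wt10 S * (ℓ * c)) := by
    calc wt10 (G \ S) ≤ ∑ T ∈ G \ S, 2 ^ (t + 1) *
          ∑ A ∈ S, (if ¬ Disjoint A T then (1 / 2 : ℝ) ^ A.card * (1 / 2) ^ T.card else 0) :=
          sum_le_sum h1
      _ = 2 ^ (t + 1) * ∑ A ∈ S, ∑ T ∈ G \ S,
          (if ¬ Disjoint A T then (1 / 2 : ℝ) ^ A.card * (1 / 2) ^ T.card else 0) := by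
          rw [← mul_sum, sum_comm]
      _ ≤ 2 ^ (t + 1) * ∑ A ∈ S, (1 / 2 : ℝ) ^ A.card * (ℓ * c) := by
          refine mul_le_mul_of_nonneg_left (sum_le_sum fun A hA => ?_) (by positivity)
          have h6 := wt_meet_le10 G A (hℓ A (hSG hA)) hc hi
          unfold wt10 at h6
          rw [sum_filter] at h6
          calc ∑ T ∈ G \ S, (if ¬ Disjoint A T then (1 / 2 : ℝ) ^ A.card * (1 / 2) ^ T.card else 0)
              ≤ ∑ T ∈ G, (if ¬ Disjoint A T then (1 / 2 : ℝ) ^ A.card * (1 / 2) ^ T.card else 0) :=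
                sum_le_sum_of_subset_of_nonneg sdiff_subset fun _ _ _ => by positivity
            _ = (1 / 2 : ℝ) ^ A.card * ∑ T ∈ G, (if ¬ Disjoint A T then (1 / 2 : ℝ) ^ T.card else 0) := by
                rw [mul_sum]
                refine sum_congr rfl fun T _ => ?_
                split_ifs <;> simp
            _ ≤ (1 / 2 : ℝ) ^ A.card * (ℓ * c) := mul_le_mul_of_nonneg_left h6 (by positivity)
      _ = 2 ^ (t + 1) * (wt10 S * (ℓ * c)) := by
          rw [← sum_mul]; rfl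
  have h7 : wt10 G = wt10 S + wt10 (G \ S) := by
    unfold wt10
    rw [add_comm, sum_sdiff hSG]
  -- the logarithm
  have h8 : pr (fun x => Off o G x) ≤ Real.exp (- wt10 S / 2) := by
    refine le_trans (pr_mono ?_) hS
    intro x hx C hC
    exact hx C (hSG hC)
  have h9 : wt10 S ≤ 2 * Real.log (1 / pr fun x => Off o G x) := by
    have h10 := Real.log_le_log hp h8
    rw [Real.log_exp] at h10
    rw [one_div, Real.log_inv]
    linarith
  have h11 : 0 ≤ wt10 S := wt10_nonneg S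
  have h12 : (0 : ℝ) ≤ 2 ^ (t + 1) * ℓ * c := by positivity
  calc wt10 G ≤ wt10 S + 2 ^ (t + 1) * (wt10 S * (ℓ * c)) := by rw [h7]; linarith
    _ = (1 + 2 ^ (t + 1) * ℓ * c) * wt10 S := by ring
    _ ≤ _ := mul_le_mul_of_nonneg_left h9 (by linarith)

end Pool.Agent.H.MP_cba12a_lc
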