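import Pool.Agent.H.MP_cba12a_lc.X10.Cv1

/-!
Minimal parts.
-/

namespace Pool.Agent.H.MP_cba12a_lc

open Finset

variable {n m r t : ℕ} {o : Fin n → Bool} {f g : (Fin n → Bool) → Bool}
  {ω : Fin m → Fin n → Bool} {η ι : ℝ} {h0 : List (List Lit)} {V : List Lit}
  {F0 F : Finset (Finset (Fin n))}

/-- More literals, fewer samples. -/
theorem cnt_anti10 {S : Samples} {v : Bool} {C D : List Lit} (h : ∀ l ∈ C, l ∈ D) :
    cnt S v D h0 ≤ cnt S v C h0 := by
  unfold cnt
  rw [← List.countP_eq_length_filter, ← List.countP_eq_length_filter]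
  refine List.countP_mono_left fun p _ hp => ?_
  simp only [Bool.and_eq_true] at hp ⊢
  refine ⟨hp.1, ?_, hp.2.2⟩
  rw [sat_iff] at hp ⊢
  exact fun l hl => hp.2.1 l (h l hl)

theorem fold_mem_mn10 {B : ℕ} {S : Samples} (C : List Lit) :
    ∀ D : List Lit, ∀ l ∈ C.foldl (drop10 B S h0) D, l ∈ D := by
  induction C with
  | nil => intro D l hl; exact hl
  | cons c C ih =>
    intro D l hl
    rw [List.foldl_cons] at hl
    have h1 := ih _ l hl
    unfold drop10 at h1
    split_ifs at h1
    · exact (List.mem_filter.1 h1).1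
    · exact h1

theorem min10_mem {B : ℕ} {S : Samples} {C : List Lit} : ∀ l ∈ min10 B S h0 C, l ∈ C :=
  fold_mem_mn10 C C

theorem fold_ok_mn10 {B : ℕ} {S : Samples} (C : List Lit) :
    ∀ D : List Lit, ok10 B S h0 D = true → ok10 B S h0 (C.foldl (drop10 B S h0) D) = true := by
  induction C with
  | nil => intro D h; exact h
  | cons c C ih =>
    intro D h
    rw [List.foldl_cons]
    refine ih _ ?_
    unfold drop10
    split_ifs with hc
    · unfold ok10
      exact decide_eq_true hc
    · exact h

/-- The minimal part still passes the test. -/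
theorem min10_ok {B : ℕ} {S : Samples} {C : List Lit} (h : ok10 B S h0 C = true) :
    ok10 B S h0 (min10 B S h0 C) = true :=
  fold_ok_mn10 C C h

theorem eqL_mn10 {l l' : Lit} : eqL l l' = true ↔ l = l' := by
  unfold eqL
  rw [Bool.and_eq_true, beq_iff_eq, beq_iff_eq, Prod.ext_iff]

theorem fold_min_mn10 {B : ℕ} {S : Samples} (C : List Lit) :
    ∀ D : List Lit, ∀ l ∈ C, l ∈ C.foldl (drop10 B S h0) D →
      S.length < cnt S false ((C.foldl (drop10 B S h0) D).filter fun l' => !(eqL l' l)) h0 * B := by
  induction C with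
  | nil => intro D l hl; simp at hl
  | cons c C ih =>
    intro D l hl hmem
    rw [List.foldl_cons] at hmem ⊢
    by_cases hlC : l ∈ C
    · exact ih _ l hlC hmem
    · have hlc : l = c := by
        rcases List.mem_cons.1 hl with h | h
        · exact h
        · exact absurd h hlC
      subst hlc
      have h1 : l ∈ drop10 B S h0 D l := fold_mem_mn10 C _ l hmem
      have h2 : ¬ (cnt S false (D.filter fun l' => !(eqL l' l)) h0 * B ≤ S.length) := by
        intro hc
        unfold drop10 at h1
        rw [if_pos hc] at h1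
        have h3 := (List.mem_filter.1 h1).2
        rw [eqL_mn10.2 rfl] at h3
        exact absurd h3 (by simp)
      rw [not_le] at h2
      refine lt_of_lt_of_le h2 (Nat.mul_le_mul_right _ (cnt_anti10 ?_))
      intro l' hl'
      rw [List.mem_filter] at hl' ⊢
      refine ⟨?_, hl'.2⟩
      have h4 := fold_mem_mn10 C _ l' hl'.1
      unfold drop10 at h4
      split_ifs at h4
      · exact (List.mem_filter.1 h4).1
      · exact h4

/-- **Minimality**: without any one literal the minimal part fails the test. -/
theorem min10_min {B : ℕ} {S : Samples} {C : List Lit} {l : Lit} (hl : l ∈ min10 B S h0 C) :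
    S.length < cnt S false ((min10 B S h0 C).filter fun l' => !(eqL l' l)) h0 * B :=
  fold_min_mn10 C C l (min10_mem l hl) hl

end Pool.Agent.H.MP_cba12a_lc
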