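import Pool.Agent.H.MP_cba12a_lc.X10.Mn

/-!
The accepted conjunctions.
-/

namespace Pool.Agent.H.MP_cba12a_lc

open Finset

variable {n m r t : ℕ} {o : Fin n → Bool} {f g : (Fin n → Bool) → Bool}
  {ω : Fin m → Fin n → Bool} {η ι : ℝ} {h0 : List (List Lit)} {V : List Lit}
  {F0 F : Finset (Finset (Fin n))}

theorem mn2_mem_filter_eqL {C : List Lit} {l l' : Lit} (h : l' ∈ C) (hne : l' ≠ l) :
    l' ∈ C.filter fun x => !(eqL x l) := by
  rw [List.mem_filter]
  refine ⟨h, ?_⟩
  rw [Bool.not_eq_true']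
  unfold eqL
  rw [Bool.and_eq_false_iff]
  by_contra hcon
  push Not at hcon
  obtain ⟨h1, h2⟩ := hcon
  exact hne (Prod.ext (eq_of_beq (Bool.eq_true_of_not_eq_false h1))
    (eq_of_beq (Bool.eq_true_of_not_eq_false h2)))

/-- **The accepted conjunctions.** A member `C` of `mins10` is oriented, almost implies `gp10`
(`cnt_le10`), and contains no member of `F` properly: if `A ⊂ fs n C` choose `i ∈ fs n C \ A` and
`l = (i, o i) ∈ C`; the variables of `C` without `l` contain `A`, so by `cnt_zero10` the test is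
passed without `l`, against `min10_min`. -/
theorem mins_spec10 (hC : Ctx10 t f g o F0 V ω r η ι) (hh : ∀ C ∈ h0, Ori o C)
    (hr : h0.length ≤ r) {B : ℕ} (hB : 0 < B) (hηB : η * B ≤ 1)
    (hgF : ∀ x, gp10 g h0 x = true ↔ ∃ A ∈ F, On o A x) {L : List (List Lit)}
    (hL : ∀ C ∈ L, Ori o C) : ∀ C ∈ mins10 B (smp f ω) h0 L, Ori o C ∧
      pr (fun x => On o (fs n C) x ∧ gp10 g h0 x = false) ≤ 1 / B + η ∧
      ∀ A ∈ F, ¬ A ⊂ fs n C := by
  intro C' hC'
  unfold mins10 at hC'
  obtain ⟨C, hCL, rfl⟩ := List.mem_map.1 hC'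
  rw [List.mem_filter] at hCL
  obtain ⟨hCL, hok⟩ := hCL
  have hori : Ori o (min10 B (smp f ω) h0 C) := fun l hl => hL C hCL l (min10_mem l hl)
  have hok' := min10_ok hok
  refine ⟨hori, ?_, ?_⟩
  · refine cnt_le10 hC.hrep hC.hm hB hori hh hr ?_
    unfold ok10 at hok'
    exact of_decide_eq_true hok'
  · intro A hA hss
    obtain ⟨hsub, hne⟩ := Finset.ssubset_iff_subset_ne.1 hss
    have hex : ∃ i ∈ fs n (min10 B (smp f ω) h0 C), i ∉ A := by
      by_contra hcon
      push Not at hcon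
      exact hne (Finset.Subset.antisymm hsub hcon)
    obtain ⟨i, hi, hiA⟩ := hex
    rw [mem_fs] at hi
    obtain ⟨l, hl, hli⟩ := List.mem_map.1 hi
    have hmin := min10_min hl
    have hori' : Ori o ((min10 B (smp f ω) h0 C).filter fun l' => !(eqL l' l)) := by
      intro l' hl'
      exact hori l' (List.mem_filter.1 hl').1
    have hle := cnt_zero10 (B := B) hC.hrep hC.hm hηB hori' hh hr (by
      intro x hx
      refine (hgF x).2 ⟨A, hA, ?_⟩
      refine On.mono ?_ hx
      intro j hj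
      have hj' := hsub hj
      rw [mem_fs] at hj' ⊢
      obtain ⟨l', hl', hl'j⟩ := List.mem_map.1 hj'
      refine List.mem_map.2 ⟨l', mn2_mem_filter_eqL hl' ?_, hl'j⟩
      rintro rfl
      have hij : (i : ℕ) = (j : ℕ) := hli.symm.trans hl'j
      exact hiA ((Fin.ext hij) ▸ hj))
    exact absurd hmin (not_lt.2 hle)

/-- A member which passes the test has a minimal part in `mins10`. -/
theorem exists_min10 {B : ℕ} {S : Samples} {L : List (List Lit)} {C : List Lit} (hCL : C ∈ L)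
    (hok : ok10 B S h0 C = true) : ∃ C' ∈ mins10 B S h0 L, fs n C' ⊆ fs n C := by
  refine ⟨min10 B S h0 C, ?_, ?_⟩
  · unfold mins10
    exact List.mem_map.2 ⟨C, List.mem_filter.2 ⟨hCL, hok⟩, rfl⟩
  · intro i hi
    rw [mem_fs] at hi ⊢
    obtain ⟨l, hl, hli⟩ := List.mem_map.1 hi
    exact List.mem_map.2 ⟨l, min10_mem l hl, hli⟩

end Pool.Agent.H.MP_cba12a_lc
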