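import Pool.Agent.H.MP_cba12a_lc.X10.Base

/-!
The numerical conditions.
-/

namespace Pool.Agent.H.MP_cba12a_lc

open Finset

variable {n : ℕ}

/-- the exponent `q m`, `δ_m = 2^{-q m}` -/
def qq (t m : ℕ) : ℕ := m / (4 * (t + 1))

/-- the number of sets in the covers of type 1; the size of `R` is `t * a0 t` -/
def a0 (t : ℕ) : ℕ := 8 * (t + 1)

/-- The numerical conditions. `ℓ`: maximal length of the needed terms; `m0`: smallest length of an
unfound term; `aa m`: `t * aa m` is the size of `R` for type 2; `ν` bounds the weight of the terms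
longer than `ℓ`; `M` bounds the weight of the long terms with at most `ℓ` elements; `Q` bounds the
number of exceptional terms; `Q1 2^{m/4}` bounds the number of unfound terms with `m` elements;
`κ 2^m` is the threshold for `Pr[T on, h = 0]`, `|T| = m`. -/
structure Num10 (t n ℓ m0 : ℕ) (aa : ℕ → ℕ) (τ η κ ν M Q Q1 : ℝ) (NH : ℕ) : Prop where
  ht : 1 ≤ t
  τ_pos : 0 < τ
  η_nonneg : 0 ≤ η
  κ_pos : 0 < κ
  ν_nonneg : 0 ≤ ν
  /-- weight of the sets longer than `ℓ` -/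
  long : ((n : ℝ) + 1) ^ (t + 1) * (1 / 2) ^ ℓ ≤ ν
  /-- long terms do not disturb -/
  long_q : ∀ m ≤ ℓ, ν ≤ (1 / 2) ^ qq t m
  /-- enough variables outside the heavy ones -/
  m0_big : 2 * t + t * a0 t + 1 ≤ m0
  /-- `η` is small -/
  hη : NH * η ≤ (1 / 2) ^ ℓ * (τ / 4)
  /-- type 1 -/
  type1 : ∀ m, m0 ≤ m → m ≤ ℓ → 64 * ((2 ^ (t * (a0 t + 1)) * ((t * a0 t) *
    (2 * (1 / 2 : ℝ) ^ qq t m))) ^ a0 t * 2 ^ (t * a0 t)) ≤ (1 / 2 : ℝ) ^ m
  /-- sparseness: number of exceptional terms plus number of terms with many heavy variables -/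
  sparse : ∀ m, m0 ≤ m → m ≤ ℓ → Q + (ℓ * M * 2 ^ qq t m) ^ (t + 1) ≤ Q1 * 2 ^ (m / 4)
  Q1_nonneg : 0 ≤ Q1
  /-- total weight of the unfound terms -/
  total : 2 ^ t * ((ℓ + 1) * (Q1 * (1 / 2) ^ (m0 - m0 / 4)) + ν) ≤ 1 / 2
  /-- type 2, covers by terms with at least `m / 2` elements -/
  type2A : ∀ m, m0 ≤ m → m ≤ ℓ → (2 ^ (t * (aa m + 1)) *
    ((ℓ + 1) * (Q1 * (1 / 2) ^ (m / 2 - m / 2 / 4)) + ν)) ^ aa m ≤ κ * 2 ^ m / 64
  /-- type 2, covers with a term with less than `m / 2` elements -/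
  type2B : ∀ m, m0 ≤ m → m ≤ ℓ → (ℓ + 1) * (Q1 * 2 ^ (m / 2 / 4) *
    (2 ^ (t * aa m) * (κ * 2 ^ (m / 2)))) ≤ κ * 2 ^ m / 64

end Pool.Agent.H.MP_cba12a_lc
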