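import Pool.Agent.H.MP_cba12a_lc.X10.NumP

/-!
The numerical conditions `Num10` hold for our choice of the parameters.
-/

namespace Pool.Agent.H.MP_cba12a_lc

theorem hp10 {i j k : ℕ} (h : i + k ≤ j) : (2 : ℝ) ^ i * (1 / 2) ^ j ≤ (1 / 2) ^ k := by
  obtain ⟨d, rfl⟩ := Nat.exists_eq_add_of_le h
  have h1 : (2 : ℝ) ^ i * (1 / 2) ^ i = 1 := by rw [← mul_pow]; norm_num
  have h2 : ((1 : ℝ) / 2) ^ d ≤ 1 := pow_le_one₀ (by norm_num) (by norm_num)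
  have h3 : (0 : ℝ) ≤ (1 / 2) ^ k := by positivity
  calc (2 : ℝ) ^ i * (1 / 2) ^ (i + k + d) = (2 ^ i * (1 / 2) ^ i) * ((1 / 2) ^ k * (1 / 2) ^ d) := by
        rw [pow_add, pow_add]; ring
    _ ≤ 1 * ((1 / 2) ^ k * 1) := by
        rw [h1]
        exact mul_le_mul_of_nonneg_left (mul_le_mul_of_nonneg_left h2 h3) (by norm_num)
    _ = _ := by ring

theorem half_anti {j k : ℕ} (h : k ≤ j) : ((1 : ℝ) / 2) ^ j ≤ (1 / 2) ^ k :=
  pow_le_pow_of_le_one (by norm_num) (by norm_num) h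

variable {t L n m : ℕ}

theorem sqrt_up10 (hs : 1 ≤ Nat.sqrt L) : L ≤ 3 * (Nat.sqrt L * Nat.sqrt L) := by
  have := Nat.lt_succ_sqrt L
  simp only [Nat.succ_eq_add_one] at this
  nlinarith

/-- the sets of type 2 are small -/
theorem aa_small10 (ht : 1 ≤ t) (hs : 1 ≤ Nat.sqrt L) (hm : 256 * t * Nat.sqrt L ≤ m) :
    16 * (t * (aa10 t L m + 1)) ≤ m := by
  set s := Nat.sqrt L with hsd
  have hL := sqrt_up10 hs
  rw [← hsd] at hL
  have ht2 : t ≤ t * t := by nlinarith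
  have hts : t ≤ t * s := by nlinarith
  have hm0 : 0 < m := by nlinarith
  set q := 20 * (5 * t + 8) * L / m with hq
  have hqm : q * m ≤ 20 * (5 * t + 8) * L := Nat.div_mul_le_self _ _
  have h1 : 32 * t * q ≤ m := by
    by_contra hc
    push Not at hc
    have h2 : m * m < 32 * t * q * m := Nat.mul_lt_mul_of_pos_right hc hm0
    have h3 : 32 * t * q * m ≤ 32 * t * (20 * (5 * t + 8) * L) := by
      calc 32 * t * q * m = 32 * t * (q * m) := by ring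
        _ ≤ _ := Nat.mul_le_mul_left _ hqm
    have h4 : (256 * t * s) * (256 * t * s) ≤ m * m := Nat.mul_le_mul hm hm
    have h5 : 32 * t * (20 * (5 * t + 8) * L) ≤ 8320 * (t * t) * L := by
      have : 32 * t * (20 * (5 * t + 8) * L) = (3200 * (t * t) + 5120 * t) * L := by ring
      rw [this]
      exact Nat.mul_le_mul_right _ (by omega)
    have h6 : 8320 * (t * t) * L ≤ 8320 * (t * t) * (3 * (s * s)) := Nat.mul_le_mul_left _ hL
    have h7 : (256 * t * s) * (256 * t * s) = 65536 * ((t * t) * (s * s)) := by ring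
    have h8 : 8320 * (t * t) * (3 * (s * s)) = 24960 * ((t * t) * (s * s)) := by ring
    omega
  have h2 : 64 * t ≤ m := by nlinarith
  have h3 : 16 * (t * (aa10 t L m + 1)) = 16 * (t * q) + 32 * t := by
    unfold aa10
    rw [← hq]
    ring
  have h4 : 32 * t * q = 32 * (t * q) := by ring
  rw [h3]
  omega

theorem aa_big10 (hm : 0 < m) : 20 * (5 * t + 8) * L ≤ m * aa10 t L m :=
  (Nat.lt_mul_div_succ _ hm).le

theorem aa_up10 : m * aa10 t L m ≤ 20 * (5 * t + 8) * L + m := by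
  unfold aa10
  have := Nat.div_mul_le_self (20 * (5 * t + 8) * L) m
  nlinarith

/-- the base of type 2A -/
theorem base2A_10 (ht : 1 ≤ t) (hB : Big10 t L) (hm : 256 * t * Nat.sqrt L ≤ m)
    (hmℓ : m ≤ ll10 t L) :
    2 ^ (t * (aa10 t L m + 1)) * (((ll10 t L : ℝ) + 1) * ((Qq10 t L : ℝ) *
      (1 / 2) ^ (m / 2 - m / 2 / 4)) + (1 / 2) ^ (3 * (t + 1) * L)) ≤ (1 / 2 : ℝ) ^ (m / 16) := by
  have hs0 := hB.s0
  have h1 := aa_small10 ht (by omega) hm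
  have hsm : 256 * Nat.sqrt L ≤ m := by
    have : 256 * Nat.sqrt L ≤ 256 * t * Nat.sqrt L := by
      have : Nat.sqrt L ≤ t * Nat.sqrt L := by nlinarith
      nlinarith
    omega
  set r := t * (aa10 t L m + 1) with hr
  have hq : ((ll10 t L : ℝ) + 1) * (Qq10 t L : ℝ) ≤ 2 ^ Nat.sqrt L := by
    have h2 := hB.q1
    have h3 : (ll10 t L + 1) * Qq10 t L ≤ 2 ^ Nat.sqrt L :=
      (Nat.le_mul_of_pos_left _ (by positivity)).trans h2
    exact_mod_cast h3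
  have h2 : ((ll10 t L : ℝ) + 1) * ((Qq10 t L : ℝ) * (1 / 2) ^ (m / 2 - m / 2 / 4)) ≤
      (1 / 2) ^ (r + m / 16 + 1) := by
    calc ((ll10 t L : ℝ) + 1) * ((Qq10 t L : ℝ) * (1 / 2) ^ (m / 2 - m / 2 / 4))
        = (((ll10 t L : ℝ) + 1) * (Qq10 t L : ℝ)) * (1 / 2) ^ (m / 2 - m / 2 / 4) := by ring
      _ ≤ 2 ^ Nat.sqrt L * (1 / 2) ^ (m / 2 - m / 2 / 4) :=
          mul_le_mul_of_nonneg_right hq (by positivity)
      _ ≤ _ := hp10 (by omega)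
  have h3 : ((1 : ℝ) / 2) ^ (3 * (t + 1) * L) ≤ (1 / 2) ^ (r + m / 16 + 1) := by
    refine half_anti ?_
    unfold ll10 at hmℓ
    have e1 : 4 * (t + 1) * L = 4 * (t * L) + 4 * L := by ring
    have e2 : 3 * (t + 1) * L = 3 * (t * L) + 3 * L := by ring
    have hL : Nat.sqrt L ≤ L := Nat.sqrt_le_self L
    rw [e1] at hmℓ
    rw [e2]
    omega
  calc 2 ^ r * (((ll10 t L : ℝ) + 1) * ((Qq10 t L : ℝ) *
      (1 / 2) ^ (m / 2 - m / 2 / 4)) + (1 / 2) ^ (3 * (t + 1) * L))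
      ≤ 2 ^ r * ((1 / 2) ^ (r + m / 16 + 1) + (1 / 2) ^ (r + m / 16 + 1)) :=
        mul_le_mul_of_nonneg_left (add_le_add h2 h3) (by positivity)
    _ = 2 ^ r * (1 / 2) ^ (r + m / 16) := by rw [pow_succ ((1 : ℝ) / 2) (r + m / 16)]; ring
    _ ≤ _ := hp10 le_rfl

theorem type2A_10 (ht : 1 ≤ t) (hB : Big10 t L) (hm : 256 * t * Nat.sqrt L ≤ m)
    (hmℓ : m ≤ ll10 t L) :
    (2 ^ (t * (aa10 t L m + 1)) * (((ll10 t L : ℝ) + 1) * ((Qq10 t L : ℝ) *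
      (1 / 2) ^ (m / 2 - m / 2 / 4)) + (1 / 2) ^ (3 * (t + 1) * L))) ^ aa10 t L m ≤
      (1 / 2 : ℝ) ^ ((5 * t + 7) * L) * 2 ^ m / 64 := by
  have hs0 := hB.s0
  have h1 := base2A_10 ht hB hm hmℓ
  have hsm : 256 * Nat.sqrt L ≤ m := by
    have : Nat.sqrt L ≤ t * Nat.sqrt L := by nlinarith
    nlinarith
  have h2 := pow_le_pow_left₀ (by positivity) h1 (aa10 t L m)
  refine h2.trans ?_
  rw [← pow_mul]
  have hbig : 20 * (5 * t + 8) * L ≤ m * aa10 t L m := aa_big10 (by omega)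
  have h17 : m ≤ 17 * (m / 16) := by omega
  have h3 : m * aa10 t L m ≤ 17 * (m / 16 * aa10 t L m) := by
    calc m * aa10 t L m ≤ (17 * (m / 16)) * aa10 t L m := Nat.mul_le_mul_right _ h17
      _ = _ := by ring
  have hL : Nat.sqrt L ≤ L := Nat.sqrt_le_self L
  have h4 : (5 * t + 7) * L + 6 ≤ m / 16 * aa10 t L m := by
    have e1 : 20 * (5 * t + 8) * L = 100 * (t * L) + 160 * L := by ring
    have e2 : (5 * t + 7) * L = 5 * (t * L) + 7 * L := by ring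
    rw [e2]
    rw [e1] at hbig
    omega
  have h5 : ((1 : ℝ) / 2) ^ (m / 16 * aa10 t L m) ≤ (1 / 2) ^ ((5 * t + 7) * L + 6) :=
    half_anti h4
  have h6 : ((1 : ℝ) / 2) ^ ((5 * t + 7) * L + 6) = (1 / 2) ^ ((5 * t + 7) * L) * 1 / 64 := by
    rw [pow_add]; norm_num; ring
  have h7 : (1 : ℝ) ≤ 2 ^ m := one_le_pow₀ (by norm_num)
  rw [h6] at h5
  refine h5.trans ?_
  gcongr

theorem type2B_10 (ht : 1 ≤ t) (hB : Big10 t L) (hm : 256 * t * Nat.sqrt L ≤ m) :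
    ((ll10 t L : ℝ) + 1) * ((Qq10 t L : ℝ) * 2 ^ (m / 2 / 4) *
      (2 ^ (t * aa10 t L m) * ((1 / 2 : ℝ) ^ ((5 * t + 7) * L) * 2 ^ (m / 2)))) ≤
      (1 / 2 : ℝ) ^ ((5 * t + 7) * L) * 2 ^ m / 64 := by
  have hs0 := hB.s0
  have h1 := aa_small10 ht (by omega) hm
  have hsm : 256 * Nat.sqrt L ≤ m := by
    have : Nat.sqrt L ≤ t * Nat.sqrt L := by nlinarith
    nlinarith
  have e0 : t * (aa10 t L m + 1) = t * aa10 t L m + t := by ring
  rw [e0] at h1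
  set r := t * aa10 t L m with hr
  have hq : ((ll10 t L : ℝ) + 1) * (Qq10 t L : ℝ) ≤ 2 ^ Nat.sqrt L := by
    have h2 := hB.q1
    have h3 : (ll10 t L + 1) * Qq10 t L ≤ 2 ^ Nat.sqrt L :=
      (Nat.le_mul_of_pos_left _ (by positivity)).trans h2
    exact_mod_cast h3
  set κ : ℝ := (1 / 2 : ℝ) ^ ((5 * t + 7) * L) with hκ
  have hκ0 : 0 < κ := by positivity
  have h2 : (2 : ℝ) ^ Nat.sqrt L * 2 ^ (m / 2 / 4) * 2 ^ r * 2 ^ (m / 2) * 64 ≤ 2 ^ m := by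
    have : (64 : ℝ) = 2 ^ 6 := by norm_num
    rw [this, ← pow_add, ← pow_add, ← pow_add, ← pow_add]
    exact pow_le_pow_right₀ (by norm_num) (by omega)
  calc ((ll10 t L : ℝ) + 1) * ((Qq10 t L : ℝ) * 2 ^ (m / 2 / 4) * (2 ^ r * (κ * 2 ^ (m / 2))))
      = (((ll10 t L : ℝ) + 1) * (Qq10 t L : ℝ)) * (2 ^ (m / 2 / 4) * 2 ^ r * 2 ^ (m / 2) * κ) := by
        ring
    _ ≤ 2 ^ Nat.sqrt L * (2 ^ (m / 2 / 4) * 2 ^ r * 2 ^ (m / 2) * κ) :=
        mul_le_mul_of_nonneg_right hq (by positivity)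
    _ = (2 ^ Nat.sqrt L * 2 ^ (m / 2 / 4) * 2 ^ r * 2 ^ (m / 2) * 64) * κ / 64 := by ring
    _ ≤ 2 ^ m * κ / 64 := by gcongr
    _ = _ := by ring

theorem total10 (ht : 1 ≤ t) (hB : Big10 t L) :
    2 ^ t * (((ll10 t L : ℝ) + 1) * ((Qq10 t L : ℝ) *
      (1 / 2) ^ (256 * t * Nat.sqrt L - 256 * t * Nat.sqrt L / 4)) +
      (1 / 2) ^ (3 * (t + 1) * L)) ≤ (1 / 2 : ℝ) := by
  have hs0 := hB.s0
  have hsm : 256 * Nat.sqrt L ≤ 256 * t * Nat.sqrt L := by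
    have : Nat.sqrt L ≤ t * Nat.sqrt L := by nlinarith
    nlinarith
  set m := 256 * t * Nat.sqrt L with hm
  have hq : ((ll10 t L : ℝ) + 1) * (Qq10 t L : ℝ) ≤ 2 ^ Nat.sqrt L := by
    have h2 := hB.q1
    have h3 : (ll10 t L + 1) * Qq10 t L ≤ 2 ^ Nat.sqrt L :=
      (Nat.le_mul_of_pos_left _ (by positivity)).trans h2
    exact_mod_cast h3
  have h2 : ((ll10 t L : ℝ) + 1) * ((Qq10 t L : ℝ) * (1 / 2) ^ (m - m / 4)) ≤
      (1 / 2) ^ (t + 2) := by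
    calc ((ll10 t L : ℝ) + 1) * ((Qq10 t L : ℝ) * (1 / 2) ^ (m - m / 4))
        = (((ll10 t L : ℝ) + 1) * (Qq10 t L : ℝ)) * (1 / 2) ^ (m - m / 4) := by ring
      _ ≤ 2 ^ Nat.sqrt L * (1 / 2) ^ (m - m / 4) :=
          mul_le_mul_of_nonneg_right hq (by positivity)
      _ ≤ _ := hp10 (by omega)
  have h3 : ((1 : ℝ) / 2) ^ (3 * (t + 1) * L) ≤ (1 / 2) ^ (t + 2) := by
    refine half_anti ?_
    have e2 : 3 * (t + 1) * L = 3 * (t * L) + 3 * L := by ring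
    have hL : Nat.sqrt L ≤ L := Nat.sqrt_le_self L
    rw [e2]
    omega
  calc 2 ^ t * (((ll10 t L : ℝ) + 1) * ((Qq10 t L : ℝ) *
      (1 / 2) ^ (m - m / 4)) + (1 / 2) ^ (3 * (t + 1) * L))
      ≤ 2 ^ t * ((1 / 2) ^ (t + 2) + (1 / 2) ^ (t + 2)) :=
        mul_le_mul_of_nonneg_left (add_le_add h2 h3) (by positivity)
    _ = 2 ^ t * (1 / 2) ^ (t + 1) := by rw [pow_succ ((1 : ℝ) / 2) (t + 1)]; ring
    _ ≤ (1 / 2) ^ 1 := hp10 le_rfl
    _ = _ := by norm_num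

end Pool.Agent.H.MP_cba12a_lc
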