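import Pool.Agent.H.MP_cba12a_lc.X10.NumI

/-!
The numerical conditions `Num10`, continued.
-/

namespace Pool.Agent.H.MP_cba12a_lc

variable {t L n m : ℕ}

theorem type1num10 (ht : 1 ≤ t) (hB : Big10 t L) (hm : 256 * t * Nat.sqrt L ≤ m) :
    64 * ((2 ^ (t * (a0 t + 1)) * ((t * a0 t) *
      (2 * (1 / 2 : ℝ) ^ qq t m))) ^ a0 t * 2 ^ (t * a0 t)) ≤ (1 / 2 : ℝ) ^ m := by
  have hs0 := hB.s0
  have hsm : 256 * Nat.sqrt L ≤ m := by
    have : Nat.sqrt L ≤ t * Nat.sqrt L := by nlinarith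
    nlinarith
  have hk : (64 : ℝ) * ((2 ^ (t * (a0 t + 1)) * (t * a0 t * 2)) ^ a0 t * 2 ^ (t * a0 t)) *
      2 ^ (8 * (t + 1)) ≤ 2 ^ Nat.sqrt L := by
    have := hB.k1
    unfold Kc10 at this
    exact_mod_cast this
  have hq : 2 * m ≤ qq t m * a0 t + 8 * (t + 1) := by
    have h1 := Nat.lt_mul_div_succ m (show 0 < 4 * (t + 1) by omega)
    unfold qq a0
    nlinarith
  set K : ℝ := 64 * ((2 ^ (t * (a0 t + 1)) * (t * a0 t * 2)) ^ a0 t * 2 ^ (t * a0 t)) with hK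
  have hK0 : 0 ≤ K := by positivity
  have h1 : 64 * ((2 ^ (t * (a0 t + 1)) * ((t * a0 t) *
      (2 * (1 / 2 : ℝ) ^ qq t m))) ^ a0 t * 2 ^ (t * a0 t)) =
      K * (1 / 2) ^ (qq t m * a0 t) := by
    rw [hK, pow_mul (1 / 2 : ℝ) (qq t m) (a0 t),
      show (2 : ℝ) ^ (t * (a0 t + 1)) * ((t * a0 t) * (2 * (1 / 2 : ℝ) ^ qq t m)) =
      (2 ^ (t * (a0 t + 1)) * (t * a0 t * 2)) * (1 / 2 : ℝ) ^ qq t m by ring, mul_pow]
    ring
  rw [h1]
  have h2 : K ≤ 2 ^ Nat.sqrt L * (1 / 2) ^ (8 * (t + 1)) := by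
    have h3 : K * 2 ^ (8 * (t + 1)) * (1 / 2) ^ (8 * (t + 1)) ≤
        2 ^ Nat.sqrt L * (1 / 2) ^ (8 * (t + 1)) :=
      mul_le_mul_of_nonneg_right hk (by positivity)
    have h4 : (2 : ℝ) ^ (8 * (t + 1)) * (1 / 2) ^ (8 * (t + 1)) = 1 := by
      rw [← mul_pow]; norm_num
    rwa [mul_assoc, h4, mul_one] at h3
  calc K * (1 / 2) ^ (qq t m * a0 t)
      ≤ (2 ^ Nat.sqrt L * (1 / 2) ^ (8 * (t + 1))) * (1 / 2) ^ (qq t m * a0 t) :=
        mul_le_mul_of_nonneg_right h2 (by positivity)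
    _ = 2 ^ Nat.sqrt L * (1 / 2) ^ (8 * (t + 1) + qq t m * a0 t) := by rw [pow_add]; ring
    _ ≤ _ := hp10 (by omega)

theorem sparseN10 : (Pe10 t L : ℝ) ^ (t + 1) + ((ll10 t L : ℝ) * (Mm10 t L : ℝ) *
    2 ^ qq t m) ^ (t + 1) ≤ (Qq10 t L : ℝ) * 2 ^ (m / 4) := by
  have h1 : qq t m * (t + 1) ≤ m / 4 := by
    unfold qq
    rw [← Nat.div_div_eq_div_mul]
    exact Nat.div_mul_le_self _ _
  have h2 : (2 : ℝ) ^ (qq t m * (t + 1)) ≤ 2 ^ (m / 4) :=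
    pow_le_pow_right₀ (by norm_num) h1
  have h3 : (1 : ℝ) ≤ 2 ^ (m / 4) := one_le_pow₀ (by norm_num)
  have h4 : (0 : ℝ) ≤ (Pe10 t L : ℝ) ^ (t + 1) := by positivity
  have h5 : (0 : ℝ) ≤ ((ll10 t L : ℝ) * (Mm10 t L : ℝ)) ^ (t + 1) := by positivity
  have e : (Qq10 t L : ℝ) = (Pe10 t L : ℝ) ^ (t + 1) +
      ((ll10 t L : ℝ) * (Mm10 t L : ℝ)) ^ (t + 1) := by
    unfold Qq10
    push_cast
    ring
  rw [e, mul_pow, ← pow_mul, add_mul]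
  refine add_le_add ?_ (mul_le_mul_of_nonneg_left h2 h5)
  nlinarith

theorem hη10 (ht : 1 ≤ t) (hB : Big10 t L) :
    ((2 ^ (cH10 t * L) : ℕ) : ℝ) * (1 / ((2 ^ (cB10 t * L) : ℕ) : ℝ) +
      (1 / 2) ^ (cE10 t * L)) ≤ (1 / 2) ^ ll10 t L * ((1 / 2) ^ ((t + 3) * L) / 4) := by
  have hs0 := hB.s0
  have hL : Nat.sqrt L ≤ L := Nat.sqrt_le_self L
  have e1 : cB10 t * L = cH10 t * L + 5 * (t * L) + 9 * L := by unfold cB10; ring
  have e2 : cE10 t * L = cH10 t * L + 9 * (t * L) + 14 * L := by unfold cE10 cB10; ring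
  have e3 : ll10 t L = 4 * (t * L) + 4 * L := by unfold ll10; ring
  have e4 : (t + 3) * L = t * L + 3 * L := by ring
  have h1 : (1 : ℝ) / ((2 ^ (cB10 t * L) : ℕ) : ℝ) = (1 / 2) ^ (cB10 t * L) := by
    push_cast
    rw [one_div_pow]
  rw [h1]
  push_cast
  have h2 : (1 / 2 : ℝ) ^ ll10 t L * ((1 / 2) ^ ((t + 3) * L) / 4) =
      (1 / 2) ^ (ll10 t L + (t + 3) * L + 2) := by
    rw [pow_add, pow_add]; ring
  rw [h2, mul_add]
  have h3 : (2 : ℝ) ^ (cH10 t * L) * (1 / 2) ^ (cB10 t * L) ≤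
      (1 / 2) ^ (ll10 t L + (t + 3) * L + 3) := hp10 (by omega)
  have h4 : (2 : ℝ) ^ (cH10 t * L) * (1 / 2) ^ (cE10 t * L) ≤
      (1 / 2) ^ (ll10 t L + (t + 3) * L + 3) := hp10 (by omega)
  have h5 : (1 / 2 : ℝ) ^ (ll10 t L + (t + 3) * L + 2) =
      (1 / 2) ^ (ll10 t L + (t + 3) * L + 3) + (1 / 2) ^ (ll10 t L + (t + 3) * L + 3) := by
    rw [pow_succ ((1 : ℝ) / 2) (ll10 t L + (t + 3) * L + 2)]; ring
  rw [h5]
  exact add_le_add h3 h4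

/-- **The numerical conditions `Num10`.** -/
theorem num10_inst (ht : 1 ≤ t) (hB : Big10 t L) (hn : n + 1 ≤ 2 ^ L) :
    Num10 t n (ll10 t L) (256 * t * Nat.sqrt L) (aa10 t L) ((1 / 2) ^ ((t + 3) * L))
      (1 / ((2 ^ (cB10 t * L) : ℕ) : ℝ) + (1 / 2) ^ (cE10 t * L)) ((1 / 2) ^ ((5 * t + 7) * L))
      ((1 / 2) ^ (3 * (t + 1) * L)) (Mm10 t L) ((Pe10 t L : ℝ) ^ (t + 1)) (Qq10 t L)
      (2 ^ (cH10 t * L)) where
  ht := ht
  τ_pos := by positivity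
  η_nonneg := by positivity
  κ_pos := by positivity
  ν_nonneg := by positivity
  long := by
    have h1 : ((n : ℝ) + 1) ≤ 2 ^ L := by exact_mod_cast hn
    have h2 : ((n : ℝ) + 1) ^ (t + 1) ≤ 2 ^ (L * (t + 1)) := by
      rw [pow_mul]
      exact pow_le_pow_left₀ (by positivity) h1 _
    refine (mul_le_mul_of_nonneg_right h2 (by positivity)).trans (hp10 ?_)
    unfold ll10
    nlinarith
  long_q := by
    intro m hm
    refine half_anti ?_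
    unfold qq
    unfold ll10 at hm
    have h1 : m / (4 * (t + 1)) ≤ L := by
      calc m / (4 * (t + 1)) ≤ (4 * (t + 1) * L) / (4 * (t + 1)) := Nat.div_le_div_right hm
        _ = L := Nat.mul_div_cancel_left _ (by omega)
    nlinarith
  m0_big := by
    have hs0 := hB.s0
    unfold a0
    nlinarith
  hη := hη10 ht hB
  type1 := fun m hm _ => type1num10 ht hB hm
  sparse := fun m _ _ => sparseN10
  Q1_nonneg := by positivity
  total := total10 ht hB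
  type2A := fun m hm hmℓ => type2A_10 ht hB hm hmℓ
  type2B := fun m hm _ => type2B_10 ht hB hm

end Pool.Agent.H.MP_cba12a_lc
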