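import Pool.Agent.H.MP_cba12a_lc.X10.NumD

/-!
The choice of the parameters: polynomially bounded functions of `L` are at most `2 ^ √L`.
-/

namespace Pool.Agent.H.MP_cba12a_lc

open Filter Topology

/-- polynomially bounded functions -/
def PB10 (f : ℕ → ℕ) : Prop := ∃ C p : ℕ, ∀ L, f L ≤ C * (L + 1) ^ p

theorem PB10.const (c : ℕ) : PB10 fun _ => c := ⟨c, 0, fun L => by simp⟩

theorem PB10.id : PB10 fun L => L := ⟨1, 1, fun L => by simp⟩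

theorem PB10.mono {f g : ℕ → ℕ} (hg : PB10 g) (h : ∀ L, f L ≤ g L) : PB10 f := by
  obtain ⟨C, p, hC⟩ := hg
  exact ⟨C, p, fun L => (h L).trans (hC L)⟩

theorem PB10.add {f g : ℕ → ℕ} (hf : PB10 f) (hg : PB10 g) : PB10 fun L => f L + g L := by
  obtain ⟨C, p, hC⟩ := hf
  obtain ⟨D, q, hD⟩ := hg
  refine ⟨C + D, p + q, fun L => ?_⟩
  have h1 : (L + 1) ^ p ≤ (L + 1) ^ (p + q) := Nat.pow_le_pow_right (by omega) (by omega)
  have h2 : (L + 1) ^ q ≤ (L + 1) ^ (p + q) := Nat.pow_le_pow_right (by omega) (by omega)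
  calc f L + g L ≤ C * (L + 1) ^ p + D * (L + 1) ^ q := add_le_add (hC L) (hD L)
    _ ≤ C * (L + 1) ^ (p + q) + D * (L + 1) ^ (p + q) :=
        add_le_add (Nat.mul_le_mul_left _ h1) (Nat.mul_le_mul_left _ h2)
    _ = _ := by ring

theorem PB10.mul {f g : ℕ → ℕ} (hf : PB10 f) (hg : PB10 g) : PB10 fun L => f L * g L := by
  obtain ⟨C, p, hC⟩ := hf
  obtain ⟨D, q, hD⟩ := hg
  refine ⟨C * D, p + q, fun L => ?_⟩
  calc f L * g L ≤ (C * (L + 1) ^ p) * (D * (L + 1) ^ q) := Nat.mul_le_mul (hC L) (hD L)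
    _ = _ := by rw [pow_add]; ring

theorem PB10.pow {f : ℕ → ℕ} (hf : PB10 f) (k : ℕ) : PB10 fun L => f L ^ k := by
  induction k with
  | zero => simpa using PB10.const 1
  | succ k ih => simpa [pow_succ] using ih.mul hf

theorem exists_pow_le10 (C p : ℕ) : ∃ s1, ∀ s, s1 ≤ s → C * (s + 1) ^ p ≤ 2 ^ s := by
  have h : Tendsto (fun n : ℕ => (n : ℝ) ^ p / 2 ^ n) atTop (𝓝 0) :=
    tendsto_pow_const_div_const_pow_of_one_lt p (by norm_num)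
  have hc : (0 : ℝ) < 1 / (2 * (C + 1)) := by positivity
  obtain ⟨s1, hs1⟩ := eventually_atTop.1 (h.eventually (gt_mem_nhds hc))
  refine ⟨s1, fun s hs => ?_⟩
  have h1 := hs1 (s + 1) (by omega)
  rw [div_lt_div_iff₀ (by positivity) (by positivity)] at h1
  have h2 : (C : ℝ) * (s + 1) ^ p ≤ 2 ^ s := by
    have h3 : ((s : ℝ) + 1) ^ p * (2 * (C + 1)) < 1 * 2 ^ (s + 1) := by exact_mod_cast h1
    rw [pow_succ (2 : ℝ) s] at h3
    have h4 : 0 ≤ ((s : ℝ) + 1) ^ p := by positivity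
    nlinarith
  exact_mod_cast h2

/-- polynomially bounded functions are at most `2 ^ √L` for large `L` -/
theorem PB10.le_sqrt {f : ℕ → ℕ} (hf : PB10 f) :
    ∃ c, ∀ L, c ≤ L → f L ≤ 2 ^ Nat.sqrt L := by
  obtain ⟨C, p, hC⟩ := hf
  obtain ⟨s1, hs1⟩ := exists_pow_le10 C (2 * p)
  refine ⟨s1 ^ 2, fun L hL => ?_⟩
  have h1 : s1 ≤ Nat.sqrt L := Nat.le_sqrt.2 (by nlinarith)
  have h2 : L + 1 ≤ (Nat.sqrt L + 1) ^ 2 := by
    have := Nat.lt_succ_sqrt L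
    simp only [Nat.succ_eq_add_one] at this
    nlinarith
  calc f L ≤ C * (L + 1) ^ p := hC L
    _ ≤ C * ((Nat.sqrt L + 1) ^ 2) ^ p := Nat.mul_le_mul_left _ (Nat.pow_le_pow_left h2 _)
    _ = C * (Nat.sqrt L + 1) ^ (2 * p) := by rw [← pow_mul]
    _ ≤ _ := hs1 _ h1

/-! ### The parameters -/

/-- `2 ^ (cN10 t * L)` bounds the lists -/
def cN10 (t : ℕ) : ℕ := 2 ^ 18 * t ^ 2

/-- `2 ^ (cH10 t * L)` bounds the number of conjunctions -/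
def cH10 (t : ℕ) : ℕ := 2 * cN10 t + t + 5

/-- `B = 2 ^ (cB10 t * L)` -/
def cB10 (t : ℕ) : ℕ := cH10 t + 5 * t + 9

/-- the error of the densities is `2 ^ (- cE10 t * L)` -/
def cE10 (t : ℕ) : ℕ := cB10 t + 4 * t + 5

/-- the maximal length of the terms -/
def ll10 (t L : ℕ) : ℕ := 4 * (t + 1) * L

/-- `Pe10 ^ (t+1)` bounds the number of exceptional terms -/
def Pe10 (t L : ℕ) : ℕ := 2 * ((t + 3) * L) * (ll10 t L * 2 ^ (t + 1)) ^ 2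

/-- bound for the total weight -/
def Mm10 (t L : ℕ) : ℕ := ((1 + 2 ^ (t + 2) * ll10 t L) * (2 * ((t + 3) * L))) ^ (t + 1)

/-- `Qq10 * 2^(m/4)` bounds the number of unfound terms with `m` variables -/
def Qq10 (t L : ℕ) : ℕ := Pe10 t L ^ (t + 1) + (ll10 t L * Mm10 t L) ^ (t + 1)

/-- `t * aa10 t L m` is the size of the sets `R` of type 2 -/
def aa10 (t L m : ℕ) : ℕ := 20 * (5 * t + 8) * L / m + 1

/-- number of extensions of a chain -/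
def Px10 (t L m : ℕ) : ℕ := 8 * 4 ^ (m + t + 2) * (cB10 t * L + 1)

/-- a constant -/
def Kc10 (t : ℕ) : ℕ :=
  64 * ((2 ^ (t * (a0 t + 1)) * (t * a0 t * 2)) ^ a0 t * 2 ^ (t * a0 t)) * 2 ^ (8 * (t + 1))

/-- `L` is large -/
structure Big10 (t L : ℕ) : Prop where
  s0 : 4 * t + 40 ≤ Nat.sqrt L
  q1 : 2 ^ (t + 10) * ((ll10 t L + 1) * Qq10 t L) ≤ 2 ^ Nat.sqrt L
  k1 : Kc10 t ≤ 2 ^ Nat.sqrt L
  cb : cB10 t * L + 1 ≤ 2 ^ Nat.sqrt L
  ll : (ll10 t L + 1) ^ 2 ≤ 2 ^ Nat.sqrt L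

theorem pb_ll10 (t : ℕ) : PB10 (ll10 t) := (PB10.const _).mul PB10.id

theorem pb_Pe10 (t : ℕ) : PB10 (Pe10 t) :=
  ((PB10.const _).mul ((PB10.const _).mul PB10.id)).mul (((pb_ll10 t).mul (PB10.const _)).pow 2)

theorem pb_Mm10 (t : ℕ) : PB10 (Mm10 t) :=
  (((PB10.const _).add ((PB10.const _).mul (pb_ll10 t))).mul
    ((PB10.const _).mul ((PB10.const _).mul PB10.id))).pow _

theorem pb_Qq10 (t : ℕ) : PB10 (Qq10 t) :=
  ((pb_Pe10 t).pow _).add (((pb_ll10 t).mul (pb_Mm10 t)).pow _)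

theorem exists_big10 (t : ℕ) : ∃ c0, ∀ L, c0 ≤ L → Big10 t L := by
  obtain ⟨c1, h1⟩ := ((PB10.const (2 ^ (t + 10))).mul
    (((pb_ll10 t).add (PB10.const 1)).mul (pb_Qq10 t))).le_sqrt
  obtain ⟨c2, h2⟩ := (PB10.const (Kc10 t)).le_sqrt
  obtain ⟨c3, h3⟩ := (((PB10.const (cB10 t)).mul PB10.id).add (PB10.const 1)).le_sqrt
  obtain ⟨c4, h4⟩ := (((pb_ll10 t).add (PB10.const 1)).pow 2).le_sqrt
  refine ⟨(4 * t + 40) ^ 2 + c1 + c2 + c3 + c4, fun L hL => ⟨?_, h1 L (by omega), h2 L (by omega),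
    h3 L (by omega), h4 L (by omega)⟩⟩
  refine Nat.le_sqrt.2 ?_
  have : (4 * t + 40) ^ 2 ≤ L := by omega
  nlinarith

end Pool.Agent.H.MP_cba12a_lc
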