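import Pool.Agent.H.MP_cba12a_lc.X10.AlgD
import Pool.Agent.H.MP_cba12a_lc.X10.Base
import Pool.Agent.H.MP_cba12a_lc.Bfs8

/-!
Representative samples for the events of the learner.
-/

namespace Pool.Agent.H.MP_cba12a_lc

open Finset

variable {n m : ℕ}

/-- the event `f = v`, the parity on `R` is `u`, `Z` holds, `h` fails -/
def ev10 (f : (Fin n → Bool) → Bool) (v u : Bool) (R Z : List Lit) (h : List (List Lit))
    (x : Fin n → Bool) : Bool :=
  (f x == v) && ((par (List.ofFn x) R == u) && (sat (List.ofFn x) Z &&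
    !(satD (List.ofFn x) h)))

/-- the empirical densities for the labels `f` are within `η` of the densities for `g` -/
def Rep10 (f g : (Fin n → Bool) → Bool) (ω : Fin m → Fin n → Bool) (r : ℕ) (η : ℝ) : Prop :=
  ∀ (v u : Bool) (R Z : List Lit) (h : List (List Lit)), (R.map Prod.fst).Nodup →
    (∀ l ∈ R, l.1 < n) → (∀ l ∈ Z, l.1 < n) → h.length ≤ r → (∀ D ∈ h, ∀ l ∈ D, l.1 < n) →
    |em ω (ev10 f v u R Z h) - mu (ev10 g v u R Z h)| ≤ η

/-- the sets of variables of a list of conjunctions -/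
def Hs (n : ℕ) (h : List (List Lit)) : Finset (Finset (Fin n)) := (h.map (fs n)).toFinset

theorem mem_Hs {h : List (List Lit)} {C : Finset (Fin n)} :
    C ∈ Hs n h ↔ ∃ D ∈ h, fs n D = C := by
  unfold Hs
  rw [List.mem_toFinset, List.mem_map]

end Pool.Agent.H.MP_cba12a_lc
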