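import Pool.Agent.H.MP_cba12a_lc.X10.NumD
import Pool.Agent.H.MP_cba12a_lc.X10.RepD

/-!
The numerical hypotheses on the parameters of the polynomial-time learner, and the hypotheses on
the data.
-/

namespace Pool.Agent.H.MP_cba12a_lc

open Finset

/-- **The numerical hypotheses.** `1 / a` is the accuracy; `N, ℓ, A, B, R0` are the parameters of
the learner `coreV10 N t (t * a0 t) ℓ A B R0`; `NH` bounds the number of conjunctions; `P m` bounds
the number of extensions of a chain with `D = 2^(m+t+2)`; `P' ^ (t+1)` bounds the number of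
exceptional terms; `η` is the error of the densities, `ι` bounds the influence of the variables
which are not listed. -/
structure Par10 (a t n N ℓ A B R0 NH m0 P' : ℕ) (aa P : ℕ → ℕ) (τ η ι κ ν M Q Q1 : ℝ) :
    Prop where
  num : Num10 t n ℓ m0 aa τ (1 / B + η) κ ν M Q Q1 NH
  a_pos : 0 < a
  A_pos : 0 < A
  B_pos : 0 < B
  tℓ : t ≤ ℓ
  m0ℓ : m0 ≤ ℓ
  η_nonneg : 0 ≤ η
  ι_nonneg : 0 ≤ ι
  /-- enumeration of all sets with at most `t * a0 t` variables -/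
  cap : (n + 1) ^ (t * a0 t) ≤ N
  /-- number of extensions of a chain -/
  ext : ∀ m ≤ ℓ, 8 * 4 ^ (m + t + 2) * Real.log (2 * B) ≤ P m
  /-- chains for the short terms -/
  chain1 : ∀ m < m0, m ≤ ℓ → P m ^ m ≤ N
  /-- chains for the other terms -/
  chain2 : ∀ m, m0 ≤ m → m ≤ ℓ → P m ^ (t * aa m) ≤ N
  aa_pos : ∀ m, m0 ≤ m → m ≤ ℓ → 1 ≤ aa m
  aa_le : ∀ m, m0 ≤ m → m ≤ ℓ → t * aa m ≤ m
  ηB : 8 * η * B * 2 ^ (ℓ + t + 2) ≤ 1
  ιB : 4 * ι * B * 2 ^ (ℓ + t + 2) ≤ 1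
  τA : τ + η + t * 2 ^ t * ι ≤ 1 / A
  τ1 : 1 ≤ Real.log (1 / τ)
  σ1 : 200 * η ≤ (1 / 2) ^ ℓ * (τ / 4)
  σ1' : ι < (1 / 2) ^ ℓ * (τ / 4)
  σ2 : 400 * η ≤ κ
  σ2' : 2 * ι < κ
  exc : 2 * Real.log (1 / τ) * (ℓ * 2 ^ (t + 1)) ^ 2 ≤ P'
  Qb : (P' : ℝ) ^ (t + 1) ≤ Q
  Mb : ((1 + 2 ^ (t + 2) * ℓ) * (2 * Real.log (1 / τ))) ^ (t + 1) ≤ M
  R0b : (n + 1) ^ (t + 1) < R0
  NHb : (N + 1) + (ℓ + 1) ^ 2 * (N + 1) + R0 * ((N + 1) ^ 2 + (ℓ + 1) ^ 2 * (N + 1)) ≤ NH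
  err : ((n : ℝ) + 1) ^ (t + 1) * (κ * 2 ^ ℓ) + ν + ((n : ℝ) + 1) ^ t * (1 / A + η) +
    NH * (1 / B + η) ≤ 1 / (2 * a)

variable {n m : ℕ}

/-- **The hypotheses on the data.** `g` is the target, `F0` the set of its terms (as sets of
variables), `o` the orientation of the variables, `V` the list of variables (with orientation)
found by the learner, `f` gives the labels, and the sample is representative. -/
structure Ctx10 (t : ℕ) (f g : (Fin n → Bool) → Bool) (o : Fin n → Bool)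
    (F0 : Finset (Finset (Fin n))) (V : List Lit) (ω : Fin m → Fin n → Bool) (r : ℕ)
    (η ι : ℝ) : Prop where
  hm : 0 < m
  hg : Up o g
  hgF : ∀ x, g x = true ↔ ∃ A ∈ F0, On o A x
  hshare : Shr t F0
  hV : Ori o V
  hVn : V.Nodup
  hinf : ∀ i : Fin n, ((i : ℕ), o i) ∉ V → pr (fun x => g x = true ∧ g (flp i x) = false) ≤ ι
  hrep : Rep10 f g ω r η

/-- the target together with the small sets found -/
def gp10 (g : (Fin n → Bool) → Bool) (h0 : List (List Lit)) (x : Fin n → Bool) : Bool :=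
  g x || satD (List.ofFn x) h0

/-- the terms of `gp10 g h0`: the members of `h0` and the terms with more than `t` variables which
contain no member of `h0` -/
noncomputable def Fp10 (t : ℕ) (F0 : Finset (Finset (Fin n))) (h0 : List (List Lit)) :
    Finset (Finset (Fin n)) :=
  Hs n h0 ∪ F0.filter fun T => t < T.card ∧ ∀ C ∈ Hs n h0, ¬ C ⊆ T

theorem mem_Fp10 {t : ℕ} {F0 : Finset (Finset (Fin n))} {h0 : List (List Lit)}
    {T : Finset (Fin n)} : T ∈ Fp10 t F0 h0 ↔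
      T ∈ Hs n h0 ∨ (T ∈ F0 ∧ t < T.card ∧ ∀ C ∈ Hs n h0, ¬ C ⊆ T) := by
  unfold Fp10
  rw [mem_union, mem_filter]

end Pool.Agent.H.MP_cba12a_lc
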