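import Pool.Agent.H.MP_cba12a_lc.X10.NumJ
import Pool.Agent.H.MP_cba12a_lc.X10.ParD

/-!
The numerical hypotheses hold for our choice of the parameters.
-/

namespace Pool.Agent.H.MP_cba12a_lc

variable {t L n m a : ℕ}

theorem log_two_pow_le10 (k : ℕ) : Real.log ((2 : ℝ) ^ k) ≤ k := by
  rw [Real.log_pow]
  have : Real.log 2 ≤ 1 := by
    have := Real.log_le_sub_one_of_pos (show (0 : ℝ) < 2 by norm_num)
    linarith
  have h : (0 : ℝ) ≤ k := Nat.cast_nonneg k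
  nlinarith

theorem ext10_num : 8 * 4 ^ (m + t + 2) * Real.log (2 * ((2 ^ (cB10 t * L) : ℕ) : ℝ)) ≤
    (Px10 t L m : ℝ) := by
  have h1 : 2 * ((2 ^ (cB10 t * L) : ℕ) : ℝ) = 2 ^ (cB10 t * L + 1) := by
    push_cast
    rw [pow_succ]
    ring
  rw [h1]
  have h2 := log_two_pow_le10 (cB10 t * L + 1)
  unfold Px10
  push_cast at h2 ⊢
  exact mul_le_mul_of_nonneg_left h2 (by positivity)

theorem Px_le10 (hB : Big10 t L) : Px10 t L m ≤ 2 ^ (2 * m + 2 * t + 7 + Nat.sqrt L) := by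
  unfold Px10
  have h1 := hB.cb
  have h2 : 8 * 4 ^ (m + t + 2) = 2 ^ (2 * m + 2 * t + 7) := by
    rw [show (4 : ℕ) = 2 ^ 2 by norm_num, show (8 : ℕ) = 2 ^ 3 by norm_num, ← pow_mul, ← pow_add]
    congr 1
    ring
  rw [h2, pow_add 2 (2 * m + 2 * t + 7)]
  exact Nat.mul_le_mul_left _ h1

theorem chain1_10 (ht : 1 ≤ t) (hB : Big10 t L) (hm : m < 256 * t * Nat.sqrt L) :
    Px10 t L m ^ m ≤ 2 ^ (cN10 t * L) := by
  refine (Nat.pow_le_pow_left (Px_le10 hB) m).trans ?_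
  rw [← pow_mul]
  refine Nat.pow_le_pow_right (by norm_num) ?_
  have hs0 := hB.s0
  have hsq := Nat.sqrt_le' L
  set s := Nat.sqrt L with hs
  have h1 : 2 * m + 2 * t + 7 + s ≤ 520 * (t * s) := by
    have e : 256 * t * s = 256 * (t * s) := by ring
    have h2 : t ≤ t * s := by nlinarith
    have h3 : s ≤ t * s := by nlinarith
    rw [e] at hm
    omega
  have h2 : m ≤ 256 * (t * s) := by
    have e : 256 * t * s = 256 * (t * s) := by ring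
    omega
  calc (2 * m + 2 * t + 7 + s) * m ≤ (520 * (t * s)) * (256 * (t * s)) := Nat.mul_le_mul h1 h2
    _ = 133120 * t ^ 2 * s ^ 2 := by ring
    _ ≤ 2 ^ 18 * t ^ 2 * s ^ 2 := by gcongr; norm_num
    _ ≤ cN10 t * L := by
        unfold cN10
        exact Nat.mul_le_mul_left _ hsq

theorem chain2_10 (ht : 1 ≤ t) (hB : Big10 t L) (hm : 256 * t * Nat.sqrt L ≤ m)
    (hmℓ : m ≤ ll10 t L) : Px10 t L m ^ (t * aa10 t L m) ≤ 2 ^ (cN10 t * L) := by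
  refine (Nat.pow_le_pow_left (Px_le10 hB) _).trans ?_
  rw [← pow_mul]
  refine Nat.pow_le_pow_right (by norm_num) ?_
  have hs0 := hB.s0
  have h1 : 2 * m + 2 * t + 7 + Nat.sqrt L ≤ 3 * m := by
    have : Nat.sqrt L ≤ t * Nat.sqrt L := by nlinarith
    have e : 256 * t * Nat.sqrt L = 256 * (t * Nat.sqrt L) := by ring
    omega
  have h2 : m * aa10 t L m ≤ 20 * (5 * t + 8) * L + m := aa_up10
  have h3 : m * aa10 t L m ≤ 20 * (5 * t + 8) * L + 4 * (t + 1) * L := by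
    unfold ll10 at hmℓ
    omega
  calc (2 * m + 2 * t + 7 + Nat.sqrt L) * (t * aa10 t L m) ≤ (3 * m) * (t * aa10 t L m) :=
        Nat.mul_le_mul_right _ h1
    _ = 3 * t * (m * aa10 t L m) := by ring
    _ ≤ 3 * t * (20 * (5 * t + 8) * L + 4 * (t + 1) * L) := Nat.mul_le_mul_left _ h3
    _ = (312 * t ^ 2 + 492 * t) * L := by ring
    _ ≤ cN10 t * L := by
        refine Nat.mul_le_mul_right _ ?_
        unfold cN10
        nlinarith

theorem NH10 (hB : Big10 t L) : (2 ^ (cN10 t * L) + 1) + (ll10 t L + 1) ^ 2 *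
    (2 ^ (cN10 t * L) + 1) + 2 ^ ((t + 2) * L) * ((2 ^ (cN10 t * L) + 1) ^ 2 +
    (ll10 t L + 1) ^ 2 * (2 ^ (cN10 t * L) + 1)) ≤ 2 ^ (cH10 t * L) := by
  have hs0 := hB.s0
  have hL : Nat.sqrt L ≤ L := Nat.sqrt_le_self L
  have hl : (ll10 t L + 1) ^ 2 ≤ 2 ^ L := hB.ll.trans (Nat.pow_le_pow_right (by norm_num) hL)
  set N := 2 ^ (cN10 t * L) with hN
  have hN1 : 1 ≤ N := Nat.one_le_two_pow
  have h1 : N + 1 ≤ 2 * N := by omega
  have h2 : (N + 1) ^ 2 ≤ 4 * N ^ 2 := by nlinarith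
  have hNN : N ≤ N ^ 2 := by nlinarith
  have hR1 : 1 ≤ 2 ^ ((t + 2) * L) := Nat.one_le_two_pow
  have hX1 : 1 ≤ 2 ^ L := Nat.one_le_two_pow
  have h3 : (ll10 t L + 1) ^ 2 * (N + 1) ≤ 2 * (2 ^ L * N ^ 2) := by
    calc (ll10 t L + 1) ^ 2 * (N + 1) ≤ 2 ^ L * (2 * N) := Nat.mul_le_mul hl h1
      _ = 2 * (2 ^ L * N) := by ring
      _ ≤ _ := by gcongr
  have h4 : N + 1 ≤ 2 * (2 ^ L * N ^ 2) := by nlinarith
  have h5 : (N + 1) ^ 2 ≤ 4 * (2 ^ L * N ^ 2) := by nlinarith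
  set Y := 2 ^ L * N ^ 2 with hY
  have h6 : 2 ^ ((t + 2) * L) * ((N + 1) ^ 2 + (ll10 t L + 1) ^ 2 * (N + 1)) ≤
      2 ^ ((t + 2) * L) * (6 * Y) := Nat.mul_le_mul_left _ (by omega)
  have h7 : Y ≤ 2 ^ ((t + 2) * L) * Y := Nat.le_mul_of_pos_left _ hR1
  have h8 : 16 * (2 ^ ((t + 2) * L) * Y) ≤ 2 ^ (cH10 t * L) := by
    rw [hY, hN, ← pow_mul, ← pow_add, ← pow_add, show (16 : ℕ) = 2 ^ 4 by norm_num, ← pow_add]
    refine Nat.pow_le_pow_right (by norm_num) ?_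
    unfold cH10
    nlinarith
  have e : 2 ^ ((t + 2) * L) * (6 * Y) = 6 * (2 ^ ((t + 2) * L) * Y) := by ring
  omega

end Pool.Agent.H.MP_cba12a_lc
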