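import Pool.Agent.H.MP_cba12a_lc.X10.NumD
import Pool.Agent.H.MP_cba12a_lc.X10.Cnt1

/-!
Weight of the long sets.
-/

namespace Pool.Agent.H.MP_cba12a_lc

open Finset

variable {n : ℕ} {o : Fin n → Bool} {g : (Fin n → Bool) → Bool} {F H : Finset (Finset (Fin n))}
  {t ℓ m0 NH : ℕ} {aa : ℕ → ℕ} {τ η κ ν M Q Q1 : ℝ}

/-- The weight of the members of `F` longer than `ℓ` is at most `ν`. -/
theorem wt_long10 (hN : Num10 t n ℓ m0 aa τ η κ ν M Q Q1 NH) (hshare : Shr t F) (hℓ : t ≤ ℓ) :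
    wt10 (F.filter fun A => ℓ < A.card) ≤ ν := by
  have h1 : wt10 (F.filter fun A => ℓ < A.card) ≤
      ((F.filter fun A => ℓ < A.card).card : ℝ) * (1 / 2) ^ ℓ := by
    unfold wt10
    rw [← nsmul_eq_mul]
    refine Finset.sum_le_card_nsmul _ _ _ fun A hA => ?_
    exact pow_le_pow_of_le_one (by norm_num) (by norm_num) (Finset.mem_filter.mp hA).2.le
  have h2 : (F.filter fun A => ℓ < A.card).card ≤ (n + 1) ^ (t + 1) := by
    refine (Finset.card_le_card ?_).trans (card_long10 hshare)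
    intro A hA
    rw [Finset.mem_filter] at hA ⊢
    exact ⟨hA.1, by omega⟩
  have h3 : ((F.filter fun A => ℓ < A.card).card : ℝ) ≤ ((n : ℝ) + 1) ^ (t + 1) := by
    exact_mod_cast h2
  refine h1.trans (le_trans ?_ hN.long)
  exact mul_le_mul_of_nonneg_right h3 (by positivity)

end Pool.Agent.H.MP_cba12a_lc
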