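import Pool.Agent.H.MP_cba12a_lc.X10.St1
import Pool.Agent.H.MP_cba12a_lc.X10.Typ
import Pool.Agent.H.MP_cba12a_lc.X10.Cnt

/-!
Sparseness of the unfound terms.
-/

namespace Pool.Agent.H.MP_cba12a_lc

open Finset

variable {n : ℕ} {o : Fin n → Bool} {g : (Fin n → Bool) → Bool} {F H : Finset (Finset (Fin n))}
  {t ℓ m0 NH : ℕ} {aa : ℕ → ℕ} {τ η κ ν M Q Q1 : ℝ}

theorem wt_union_le10 {G G1 G2 : Finset (Finset (Fin n))} (h : ∀ A ∈ G, A ∈ G1 ∨ A ∈ G2) :
    wt10 G ≤ wt10 G1 + wt10 G2 := by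
  classical
  have h1 : wt10 G ≤ wt10 (G1 ∪ G2) := wt10_mono fun A hA => mem_union.2 (h A hA)
  refine h1.trans ?_
  unfold wt10
  rw [← sum_union_inter]
  have : (0 : ℝ) ≤ ∑ A ∈ G1 ∩ G2, (1 / 2 : ℝ) ^ A.card := wt10_nonneg _
  linarith

/-- **Sparseness.** If no unfound term is detected by type 1, there are few unfound terms with `m`
elements. -/
theorem sparse10 (hN : Num10 t n ℓ m0 aa τ η κ ν M Q Q1 NH)
    (hgF : ∀ x, g x = true ↔ ∃ A ∈ F, On o A x) (hshare : Shr t F) (hHN : H.card ≤ NH)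
    (hH : ∀ C ∈ H, C ∈ F ∨ (pr (fun x => On o C x ∧ g x = false) ≤ η ∧ ∀ A ∈ F, ¬ A ⊂ C))
    (hAss : ∀ T ∈ Nf F H, ∀ J ⊆ T, J.card ≤ t → τ ≤ ZZ o g J)
    (hQ : ((Exc10 o g t ((Nf F H).filter fun T => T.card ≤ ℓ)).card : ℝ) ≤ Q)
    (hM : wt10 ((Nf F H).filter fun T => T.card ≤ ℓ) ≤ M)
    (hst : ∀ T ∈ Nf F H, T.card ≤ ℓ → ∀ J R : Finset (Fin n), J ⊆ T → R ⊆ T → Disjoint J R →
      J.card ≤ t → R.card = t * a0 t → ¬ Det10 o F H T J R ((1 / 2) ^ T.card * (τ / 4)))
    {m : ℕ} (hm0 : m0 ≤ m) (hmℓ : m ≤ ℓ) :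
    (((Nf F H).filter fun T => T.card = m).card : ℝ) ≤ Q1 * 2 ^ (m / 4) := by
  classical
  set N : Finset (Finset (Fin n)) := (Nf F H).filter fun T => T.card ≤ ℓ with hNdef
  set δ : ℝ := (1 / 2) ^ qq t m with hδ
  have hδ0 : 0 < δ := by positivity
  set V : Finset (Fin n) := univ.filter fun i : Fin n => δ ≤ wt10 (N.filter fun A => i ∈ A) with hV
  have hNF : Nf F H ⊆ F := filter_subset _ _
  have htℓ : t ≤ ℓ := by
    have := hN.m0_big
    omega
  have hνδ : ν ≤ δ := hN.long_q m hmℓ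
  have claim : ((Nf F H).filter fun T => T.card = m) ⊆
      Exc10 o g t N ∪ N.filter fun T => t + 1 ≤ (T ∩ V).card := by
    intro T hT
    rw [mem_filter] at hT
    obtain ⟨hTN, hTm⟩ := hT
    have hTF : T ∈ F := hNF hTN
    have hTN' : T ∈ N := mem_filter.2 ⟨hTN, by omega⟩
    rw [mem_union, mem_filter, mem_Exc10]
    by_contra hcon
    push Not at hcon
    obtain ⟨c1, c2⟩ := hcon
    obtain ⟨J, hJT, hJt, hJs⟩ := c1 hTN'
    have hTV : (T ∩ V).card ≤ t := by
      have := c2 hTN'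
      omega
    have hhot := nonhot10 hgF hshare hTF hJT hJs
    have hcard : t * a0 t ≤ (T \ (J ∪ V)).card := by
      have e1 : T \ (J ∪ V) = T \ (J ∪ (T ∩ V)) := by
        ext i
        simp only [mem_sdiff, mem_union, mem_inter]
        tauto
      have e2 : T.card - (J ∪ (T ∩ V)).card ≤ (T \ (J ∪ (T ∩ V))).card := le_card_sdiff _ _
      have e3 : (J ∪ (T ∩ V)).card ≤ J.card + (T ∩ V).card := card_union_le _ _
      have e4 := hN.m0_big
      rw [e1]
      omega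
    obtain ⟨R, hR, hRc⟩ := exists_subset_card_eq hcard
    have hRT : R ⊆ T := hR.trans sdiff_subset
    have hJR : Disjoint J R := by
      rw [disjoint_left]
      intro i hiJ hiR
      exact (mem_sdiff.1 (hR hiR)).2 (mem_union_left _ hiJ)
    have hrate : ∀ r ∈ R, wt10 (((Nf F H).erase T).filter fun A => r ∈ A) ≤ 2 * δ := by
      intro r hr
      have hrV : r ∉ V := fun hc => (mem_sdiff.1 (hR hr)).2 (mem_union_right _ hc)
      have h1 : wt10 (N.filter fun A => r ∈ A) ≤ δ := by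
        by_contra hc
        rw [not_le] at hc
        apply hrV
        rw [hV, mem_filter]
        exact ⟨mem_univ _, hc.le⟩
      have h2 : wt10 (F.filter fun A => ℓ < A.card) ≤ ν := wt_long10 hN hshare htℓ
      have h3 : wt10 (((Nf F H).erase T).filter fun A => r ∈ A) ≤
          wt10 (N.filter fun A => r ∈ A) + wt10 (F.filter fun A => ℓ < A.card) := by
        refine wt_union_le10 fun A hA => ?_
        rw [mem_filter, mem_erase] at hA
        by_cases hAℓ : A.card ≤ ℓ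
        · left
          rw [mem_filter]
          exact ⟨mem_filter.2 ⟨hA.1.2, hAℓ⟩, hA.2⟩
        · right
          rw [mem_filter]
          exact ⟨hNF hA.1.2, by omega⟩
      linarith
    refine hst T hTN (by omega) J R hJT hRT hJR hJt hRc ?_
    refine type1_10 hgF hshare hN.ht hN.η_nonneg (by positivity : (0 : ℝ) ≤ 2 * δ) hH hTN hJT hRT
      hJR hRc (hAss T hTN J hJT hJt) hhot hrate ?_ ?_
    · rw [hTm]
      exact hN.type1 m hm0 hmℓ
    · rw [hTm]
      have h1 := hN.hη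
      have h2 : (H.card : ℝ) * η ≤ NH * η :=
        mul_le_mul_of_nonneg_right (by exact_mod_cast hHN) hN.η_nonneg
      have h3 : (1 / 2 : ℝ) ^ ℓ * (τ / 4) ≤ (1 / 2) ^ m * (τ / 4) := by
        refine mul_le_mul_of_nonneg_right ?_ (by have := hN.τ_pos; positivity)
        exact pow_le_pow_of_le_one (by norm_num) (by norm_num) hmℓ
      linarith
  have hVc : (V.card : ℝ) ≤ ℓ * M * 2 ^ qq t m := by
    have h1 := card_V10 N (fun T hT => (mem_filter.1 hT).2) δ (ℓ := ℓ)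
    have h2 : (ℓ : ℝ) * wt10 N ≤ ℓ * M := mul_le_mul_of_nonneg_left hM (Nat.cast_nonneg _)
    have h3 : (V.card : ℝ) * δ ≤ ℓ * M := h1.trans h2
    have h4 : δ * 2 ^ qq t m = 1 := by
      rw [hδ, ← mul_pow]
      norm_num
    have h5 : (0 : ℝ) < 2 ^ qq t m := by positivity
    calc (V.card : ℝ) = V.card * δ * 2 ^ qq t m := by rw [mul_assoc, h4, mul_one]
      _ ≤ ℓ * M * 2 ^ qq t m := mul_le_mul_of_nonneg_right h3 h5.le
  have hheavy : ((N.filter fun T => t + 1 ≤ (T ∩ V).card).card : ℝ) ≤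
      (ℓ * M * 2 ^ qq t m) ^ (t + 1) := by
    have hNS : Shr t N := hshare.mono ((filter_subset _ _).trans hNF)
    have h1 := card_heavy10 hNS V
    calc ((N.filter fun T => t + 1 ≤ (T ∩ V).card).card : ℝ) ≤ (V.card : ℝ) ^ (t + 1) := by
          exact_mod_cast h1
      _ ≤ _ := pow_le_pow_left₀ (Nat.cast_nonneg _) hVc _
  have hfin : (((Nf F H).filter fun T => T.card = m).card : ℝ) ≤
      (Exc10 o g t N).card + (N.filter fun T => t + 1 ≤ (T ∩ V).card).card := by
    exact_mod_cast (card_le_card claim).trans (card_union_le _ _)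
  have := hN.sparse m hm0 hmℓ
  linarith

end Pool.Agent.H.MP_cba12a_lc
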