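import Pool.Agent.H.MP_cba12a_lc.X10.NumD

/-!
Weight of the unfound terms of given length.
-/

namespace Pool.Agent.H.MP_cba12a_lc

open Finset

variable {n : ℕ} {o : Fin n → Bool} {g : (Fin n → Bool) → Bool} {F H : Finset (Finset (Fin n))}
  {t ℓ m0 NH : ℕ} {aa : ℕ → ℕ} {τ η κ ν M Q Q1 : ℝ}

/-- The weight of the members with exactly `k` elements, bounded by their number. -/
theorem wt_card10 (G : Finset (Finset (Fin n))) {k : ℕ} {q : ℝ}
    (h : ((G.filter fun T => T.card = k).card : ℝ) ≤ q * 2 ^ (k / 4)) :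
    ∑ A ∈ G.filter (fun T => T.card = k), (1 / 2 : ℝ) ^ A.card ≤ q * (1 / 2) ^ (k - k / 4) := by
  have h1 : ∑ A ∈ G.filter (fun T => T.card = k), (1 / 2 : ℝ) ^ A.card =
      ((G.filter fun T => T.card = k).card : ℝ) * (1 / 2) ^ k := by
    rw [sum_congr rfl (g := fun _ => (1 / 2 : ℝ) ^ k)
      (fun A hA => by rw [(mem_filter.1 hA).2]), sum_const, nsmul_eq_mul]
  have h2 : (2 : ℝ) ^ (k / 4) * (1 / 2) ^ k = (1 / 2) ^ (k - k / 4) := by
    have h3 : k = k / 4 + (k - k / 4) := by omega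
    have h4 : (1 / 2 : ℝ) ^ k = (1 / 2) ^ (k / 4) * (1 / 2) ^ (k - k / 4) := by
      rw [← pow_add, ← h3]
    rw [h4, ← mul_assoc, ← mul_pow]
    norm_num
  calc ∑ A ∈ G.filter (fun T => T.card = k), (1 / 2 : ℝ) ^ A.card
      = ((G.filter fun T => T.card = k).card : ℝ) * (1 / 2) ^ k := h1
    _ ≤ q * 2 ^ (k / 4) * (1 / 2) ^ k := mul_le_mul_of_nonneg_right h (by positivity)
    _ = q * (1 / 2) ^ (k - k / 4) := by rw [mul_assoc, h2]

/-- The weight of the unfound terms with at least `s` elements is at most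
`(ℓ + 1) Q1 2^{-(s - s/4)} + ν`. -/
theorem wt_ge10 (hν : wt10 (F.filter fun A => ℓ < A.card) ≤ ν) (hQ1 : 0 ≤ Q1)
    (hsp : ∀ m, m0 ≤ m → m ≤ ℓ →
      (((Nf F H).filter fun T => T.card = m).card : ℝ) ≤ Q1 * 2 ^ (m / 4))
    (hm0 : ∀ T ∈ Nf F H, m0 ≤ T.card) (s : ℕ) :
    wt10 ((Nf F H).filter fun A => s ≤ A.card) ≤ (ℓ + 1) * (Q1 * (1 / 2) ^ (s - s / 4)) + ν := by
  have hsplit : wt10 ((Nf F H).filter fun A => s ≤ A.card) ≤
      wt10 ((Nf F H).filter fun A => s ≤ A.card ∧ A.card ≤ ℓ) +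
        wt10 (F.filter fun A => ℓ < A.card) := by
    have h1 : (Nf F H).filter (fun A => s ≤ A.card) ⊆
        ((Nf F H).filter fun A => s ≤ A.card ∧ A.card ≤ ℓ) ∪ (F.filter fun A => ℓ < A.card) := by
      intro A hA
      rw [mem_filter] at hA
      rw [mem_union, mem_filter, mem_filter]
      by_cases h : A.card ≤ ℓ
      · exact Or.inl ⟨hA.1, hA.2, h⟩
      · exact Or.inr ⟨(mem_Nf.1 hA.1).1, by omega⟩
    refine (wt10_mono h1).trans ?_
    unfold wt10
    rw [← sum_union_inter]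
    exact le_add_of_nonneg_right (sum_nonneg fun _ _ => by positivity)
  have hmain : wt10 ((Nf F H).filter fun A => s ≤ A.card ∧ A.card ≤ ℓ) ≤
      (ℓ + 1) * (Q1 * (1 / 2) ^ (s - s / 4)) := by
    unfold wt10
    rw [← sum_fiberwise_of_maps_to (t := range (ℓ + 1)) (g := fun A => A.card)
      (fun A hA => by
        rw [mem_filter] at hA
        rw [mem_range]
        omega)]
    have hb : ∀ k ∈ range (ℓ + 1),
        ∑ A ∈ ((Nf F H).filter fun A => s ≤ A.card ∧ A.card ≤ ℓ).filter (fun A => A.card = k),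
          (1 / 2 : ℝ) ^ A.card ≤ Q1 * (1 / 2) ^ (s - s / 4) := by
      intro k hk
      rw [mem_range] at hk
      have hnn : 0 ≤ Q1 * (1 / 2 : ℝ) ^ (s - s / 4) := by positivity
      by_cases hks : s ≤ k ∧ m0 ≤ k
      · have h2 : ((Nf F H).filter fun A => s ≤ A.card ∧ A.card ≤ ℓ).filter
            (fun A => A.card = k) ⊆ (Nf F H).filter fun A => A.card = k := by
          intro A hA
          rw [mem_filter, mem_filter] at hA
          rw [mem_filter]
          exact ⟨hA.1.1, hA.2⟩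
        refine (sum_le_sum_of_subset_of_nonneg h2 fun _ _ _ => by positivity).trans ?_
        refine (wt_card10 (Nf F H) (hsp k hks.2 (by omega))).trans ?_
        refine mul_le_mul_of_nonneg_left ?_ hQ1
        exact pow_le_pow_of_le_one (by norm_num) (by norm_num) (by omega)
      · rw [sum_eq_zero]
        · exact hnn
        · intro A hA
          exfalso
          rw [mem_filter, mem_filter] at hA
          exact hks ⟨hA.2 ▸ hA.1.2.1, hA.2 ▸ hm0 A hA.1.1⟩
    refine (sum_le_sum hb).trans ?_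
    rw [sum_const, card_range, nsmul_eq_mul]
    push_cast
    exact le_rfl
  linarith

end Pool.Agent.H.MP_cba12a_lc
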